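import Mathlib.LinearAlgebra.LinearIndependent.Defs
import Mathlib.Topology.Constructions
import Mathlib.Data.Real.Basic
import Mathlib.Data.Rat.Encodable
import Mathlib.SetTheory.ZFC.VonNeumann

/-! Transitive models of set theory and definable groups on their reals. -/

namespace Pool.Agent.MP_e75763_lc

/-- Formulas of the language of set theory, variables being numbered. -/
inductive Fm : Type
  | mem : ℕ → ℕ → Fm
  | eq : ℕ → ℕ → Fm
  | neg : Fm → Fm
  | and : Fm → Fm → Fm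
  | all : ℕ → Fm → Fm

/-- Satisfaction in the structure `(A, ∈)`. -/
def Sat (A : Set ZFSet.{0}) : Fm → (ℕ → ZFSet.{0}) → Prop
  | .mem i j, v => v i ∈ v j
  | .eq i j, v => v i = v j
  | .neg a, v => ¬ Sat A a v
  | .and a b, v => Sat A a v ∧ Sat A b v
  | .all i a, v => ∀ x ∈ A, Sat A a (Function.update v i x)

/-- `M` is a transitive model of ZFC (extensionality and foundation hold by transitivity). -/
structure IsZFC (M : Set ZFSet.{0}) : Prop where
  trans : ∀ x ∈ M, ∀ y ∈ x, y ∈ M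
  infinity : Ordinal.toZFSet Ordinal.omega0 ∈ M
  pairing : ∀ x ∈ M, ∀ y ∈ M, ({x, y} : ZFSet.{0}) ∈ M
  union : ∀ x ∈ M, ZFSet.sUnion x ∈ M
  power : ∀ x ∈ M, ∃ p ∈ M, ∀ y ∈ M, y ⊆ x → y ∈ p
  separation : ∀ (φ : Fm) (v : ℕ → ZFSet.{0}), (∀ i, v i ∈ M) → ∀ x ∈ M, ∃ s ∈ M, ∀ y,
    y ∈ s ↔ y ∈ x ∧ Sat M φ (Function.update v 0 y)
  collection : ∀ (φ : Fm) (v : ℕ → ZFSet.{0}), (∀ i, v i ∈ M) → ∀ x ∈ M, ∃ s ∈ M, ∀ y ∈ x,
    (∃ z ∈ M, Sat M φ (Function.update (Function.update v 0 y) 1 z)) →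
      ∃ z ∈ s, Sat M φ (Function.update (Function.update v 0 y) 1 z)
  choice : ∀ x ∈ M, ∃ f ∈ M, ∀ y ∈ x, y ≠ ∅ → ∃ z ∈ y, ∀ w, ZFSet.pair y w ∈ f ↔ w = z

/-- The subsets of `A` that are first-order definable over `(A, ∈)` with parameters. -/
def Df (A : Set ZFSet.{0}) : Set ZFSet.{0} :=
  {b | ∃ (φ : Fm) (v : ℕ → ZFSet.{0}), (∀ i, v i ∈ A) ∧
    ∀ y, y ∈ b ↔ y ∈ A ∧ Sat A φ (Function.update v 0 y)}

/-- The levels `L_a(R) = R ∪ ⋃_{b ∈ a} Df (L_b(R))` of the constructible hierarchy over `R`. -/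
noncomputable def Lv (R : Set ZFSet.{0}) : ZFSet.{0} → Set ZFSet.{0} :=
  ZFSet.mem_wf.fix fun a ih => R ∪ {z | ∃ b, ∃ h : b ∈ a, z ∈ Df (ih b h)}

/-- `L(ℝ)` of the model `M`, built over the set `V_{ω+1}` of `M`. -/
def LR (M : Set ZFSet.{0}) : Set ZFSet.{0} :=
  {z | ∃ a ∈ M, ZFSet.IsOrdinal a ∧
    z ∈ Lv {x | x ∈ M ∧ x ⊆ ZFSet.vonNeumann Ordinal.omega0} a}

/-- The von Neumann natural numbers. -/
noncomputable def nat (n : ℕ) : ZFSet.{0} := Ordinal.toZFSet (n : Ordinal.{0})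

/-- A real number as a Dedekind cut, rationals being coded by natural numbers. -/
noncomputable def realCode (x : ℝ) : ZFSet.{0} :=
  ZFSet.range fun q : {q : ℚ // (q : ℝ) < x} => nat (Encodable.encode q.1)

/-- A point of the Cantor space as a subset of `ω`. -/
noncomputable def cantorCode (x : ℕ → Bool) : ZFSet.{0} :=
  ZFSet.range fun n : {n : ℕ // x n = true} => nat n.1

/-- A tuple of sets, coded by the disjoint union of its entries. -/
noncomputable def tup {k : ℕ} (f : Fin k → ZFSet.{0}) : ZFSet.{0} :=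
  ZFSet.iUnion fun i : Fin k => ZFSet.prod {nat i.1} (f i)

/-- `z` is the set of the codes of the elements of `S`. -/
def Codes {T : Type} (c : T → ZFSet.{0}) (z : ZFSet.{0}) (S : Set T) : Prop :=
  ∀ y, y ∈ z ↔ ∃ t ∈ S, c t = y

/-- The points of `X` that belong to `W`. -/
abbrev Pt {X : Type} (c : X → ZFSet.{0}) (W : Set ZFSet.{0}) : Type := {x : X // c x ∈ W}

/-- The set `S` of tuples belongs to `W`. -/
def SetIn {X : Type} (c : X → ZFSet.{0}) (W : Set ZFSet.{0}) {k : ℕ}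
    (S : Set (Fin k → Pt c W)) : Prop :=
  ∃ z ∈ W, Codes (fun v : Fin k → Pt c W => tup fun i => c (v i).1) z S

/-- The sequence `F` of sets of tuples belongs to `W`. -/
def SeqIn {X : Type} (c : X → ZFSet.{0}) (W : Set ZFSet.{0}) {k : ℕ}
    (F : ℕ → Set (Fin k → Pt c W)) : Prop :=
  ∃ z ∈ W, Codes (fun p : ℕ × (Fin k → Pt c W) => tup ![nat p.1, tup fun i => c (p.2 i).1]) z
    {p | p.2 ∈ F p.1}

/-- `F_σ` sets of `W`. -/
def FsigmaIn {X : Type} [TopologicalSpace X] (c : X → ZFSet.{0}) (W : Set ZFSet.{0}) {k : ℕ}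
    (S : Set (Fin k → Pt c W)) : Prop :=
  ∃ F : ℕ → Set (Fin k → Pt c W), (∀ n, IsClosed (F n)) ∧ SeqIn c W F ∧ S = ⋃ n, F n

/-- Borel sets of `W`. -/
inductive BorelIn {X : Type} [TopologicalSpace X] (c : X → ZFSet.{0}) (W : Set ZFSet.{0})
    {k : ℕ} : Set (Fin k → Pt c W) → Prop
  | isOpen (U : Set (Fin k → Pt c W)) : IsOpen U → SetIn c W U → BorelIn c W U
  | compl (S : Set (Fin k → Pt c W)) : BorelIn c W S → BorelIn c W Sᶜ
  | iUnion (F : ℕ → Set (Fin k → Pt c W)) : (∀ n, BorelIn c W (F n)) → SeqIn c W F →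
      BorelIn c W (⋃ n, F n)

/-- Analytic sets of `W`: projections of Borel sets. -/
def AnalyticIn {X : Type} [TopologicalSpace X] (c : X → ZFSet.{0}) (W : Set ZFSet.{0}) {k : ℕ}
    (S : Set (Fin k → Pt c W)) : Prop :=
  ∃ B : Set (Fin (k + 1) → Pt c W), BorelIn c W B ∧ S = Fin.tail '' B

/-- Projective sets of `W`. -/
inductive ProjectiveIn {X : Type} [TopologicalSpace X] (c : X → ZFSet.{0}) (W : Set ZFSet.{0}) :
    (k : ℕ) → Set (Fin k → Pt c W) → Prop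
  | borel (k : ℕ) (S : Set (Fin k → Pt c W)) : BorelIn c W S → ProjectiveIn c W k S
  | compl (k : ℕ) (S : Set (Fin k → Pt c W)) : ProjectiveIn c W k S → ProjectiveIn c W k Sᶜ
  | proj (k : ℕ) (S : Set (Fin (k + 1) → Pt c W)) : ProjectiveIn c W (k + 1) S →
      ProjectiveIn c W k (Fin.tail '' S)

/-- There is an injection from `a` into `b` in `W`. -/
def InjIn (W : Set ZFSet.{0}) (a b : ZFSet.{0}) : Prop :=
  ∃ f ∈ W, ZFSet.IsFunc a b f ∧ ∀ x y z, ZFSet.pair x z ∈ f → ZFSet.pair y z ∈ f → x = y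

/-- `κ` is a cardinal (initial ordinal) of `W`. -/
def CardIn (W : Set ZFSet.{0}) (κ : ZFSet.{0}) : Prop :=
  κ ∈ W ∧ ZFSet.IsOrdinal κ ∧ ∀ β ∈ κ, ¬ InjIn W κ β

/-- `z` has cardinality less than `ℵ_ω` in `W`: it injects into an ordinal `α` of `W` such that
only finitely many infinite cardinals of `W` are at most `α`. -/
def BelowAlephOmega (W : Set ZFSet.{0}) (z : ZFSet.{0}) : Prop :=
  ∃ α ∈ W, ZFSet.IsOrdinal α ∧ InjIn W z α ∧
    {κ | CardIn W κ ∧ Ordinal.toZFSet Ordinal.omega0 ⊆ κ ∧ κ ⊆ α}.Finite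

/-- The subgroup `H` has a basis that belongs to `W`. -/
def FreeIn {G : Type} [AddCommGroup G] (c : G → ZFSet.{0}) (W : Set ZFSet.{0})
    (H : AddSubgroup G) : Prop :=
  ∃ B : Set G, (∃ z ∈ W, Codes c z B) ∧ LinearIndepOn ℤ id B ∧ AddSubgroup.closure B = H

/-- In `W` there is an abelian group on the points of `X`, the graph of its addition being in
`Γ`, that is `ℵ_ω`-free and not free. -/
def Fails {X : Type} (c : X → ZFSet.{0}) (W : Set ZFSet.{0})
    (Γ : Set (Fin 3 → Pt c W) → Prop) : Prop :=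
  ∃ _ : AddCommGroup (Pt c W),
    SetIn c W {v : Fin 3 → Pt c W | v 0 + v 1 = v 2} ∧ Γ {v | v 0 + v 1 = v 2} ∧
    (∀ H : AddSubgroup (Pt c W),
      (∃ z ∈ W, Codes (fun x : Pt c W => c x.1) z (H : Set (Pt c W)) ∧ BelowAlephOmega W z) →
        FreeIn (fun x : Pt c W => c x.1) W H) ∧
    ¬ FreeIn (fun x : Pt c W => c x.1) W ⊤

end Pool.Agent.MP_e75763_lc
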