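import Mathlib.Algebra.Group.End
import Mathlib.Algebra.Notation.Lemmas
import Mathlib.Order.Filter.CountableInter
import Mathlib.MeasureTheory.MeasurableSpace.Constructions
import Mathlib.Data.List.GetD
import Pool.Agent.MP_e75763_lc.Defs
import Mathlib.MeasureTheory.Constructions.Polish.Basic
import Mathlib.LinearAlgebra.Basis.Basic
import Mathlib.LinearAlgebra.DFinsupp
import Mathlib.Algebra.Group.Subgroup.ZPowers.Lemmas
import Mathlib.Algebra.Order.Ring.Star
import Mathlib.Data.Finsupp.Pointwise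
import Mathlib.Data.Rat.Denumerable
import Mathlib.Data.Rat.Star

-- ======== part 0: formerly Pool.Agent.MP_e75763_lc.Gen
section MrgPart0

/-! Semantic forcing: the normal filter on pairs (countable set of objects, generic filter). -/

namespace Pool.Agent.MP_e75763_lc

open Filter Set

universe u v w

/-- All objects of a universe. -/
def Obj : Type (u + 1) := Σ T : Type u, T

/-- Types whose elements are coded injectively as objects. -/
class Cd (P : Type u) (T : Type v) where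
  cd : T → Obj.{u + 1}
  inj : Function.Injective cd

instance cdBig (P : Type u) [Preorder P] (T : Type (u + 1)) : Cd P T :=
  ⟨fun x => ⟨T, x⟩, fun _ _ h => by simpa using Sigma.mk.inj_iff.1 h⟩

instance cdMid (P : Type u) [Preorder P] (T : Type u) : Cd P T :=
  ⟨fun x => ⟨ULift.{u + 1} T, ULift.up x⟩, fun _ _ h => by simpa using Sigma.mk.inj_iff.1 h⟩

instance (priority := high) cdBlock (P : Type u) [Preorder P] : Cd P PEmpty.{u + 1} :=
  cdMid P _

/-- A countable set of objects together with a filter of conditions. -/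
structure Om (P : Type u) [Preorder P] where
  N : Set Obj.{u + 1}
  cN : N.Countable
  g : Set P
  up : ∀ p q, p ∈ g → p ≤ q → q ∈ g
  dir : ∀ p ∈ g, ∀ q ∈ g, ∃ r ∈ g, r ≤ p ∧ r ≤ q

variable {P : Type u} [Preorder P]

/-- The object `x` belongs to the countable set. -/
def In (ω : Om P) {T : Type v} [Cd P T] (x : T) : Prop := Cd.cd P x ∈ ω.N

theorem countable_In (ω : Om P) (T : Type v) [Cd P T] : {x : T | In ω x}.Countable :=
  ω.cN.preimage (Cd.inj (P := P))

inductive Large : Set (Om P) → Prop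
  | mem (o : Obj.{u + 1}) : Large {ω | o ∈ ω.N}
  | dense (D : Set P) (hD : ∀ p, ∃ q ∈ D, q ≤ p) : Large {ω | ∃ q ∈ ω.g, q ∈ D ∧ In ω q}
  | mono {S T : Set (Om P)} : Large S → S ⊆ T → Large T
  | cinter (S : ℕ → Set (Om P)) : (∀ n, Large (S n)) → Large (⋂ n, S n)
  | diag (S : Obj.{u + 1} → Set (Om P)) : (∀ o, Large (S o)) → Large {ω | ∀ o ∈ ω.N, ω ∈ S o}

variable (P) in
/-- The generic filter. -/
def gen : Filter (Om P) where
  sets := {S | Large S}
  univ_sets := (Large.mem ⟨PUnit, PUnit.unit⟩).mono (subset_univ _)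
  sets_of_superset h h' := Large.mono h h'
  inter_sets {S T} h h' := by
    refine (Large.cinter (fun n => if n = 0 then S else T) fun n => ?_).mono fun ω hω => ?_
    · split_ifs
      exacts [h, h']
    · have h0 := mem_iInter.1 hω 0
      have h1 := mem_iInter.1 hω 1
      exact ⟨by simpa using h0, by simpa using h1⟩

instance : CountableInterFilter (gen P) :=
  ⟨fun S hS h => by
    rcases S.eq_empty_or_nonempty with rfl | hne
    · simp
    · obtain ⟨f, rfl⟩ := hS.exists_eq_range hne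
      rw [sInter_range]
      exact Large.cinter f fun n => h _ ⟨n, rfl⟩⟩

/-- closure under a system of tasks -/
def TClosed (F : ℕ → List Obj.{u + 1} → Set P × Obj.{u + 1}) (ω : Om P) : Prop :=
  ∀ n l, (∀ o ∈ l, o ∈ ω.N) → (F n l).2 ∈ ω.N ∧ ∃ q ∈ ω.g, q ∈ (F n l).1 ∧ In ω q

theorem Large.tasks {S : Set (Om P)} (h : Large S) :
    ∃ F : ℕ → List Obj.{u + 1} → Set P × Obj.{u + 1},
      (∀ n l p, ∃ q ∈ (F n l).1, q ≤ p) ∧ ∀ ω, TClosed F ω → ω ∈ S := by
  induction h with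
  | mem o => exact ⟨fun _ _ => (univ, o), fun _ _ p => ⟨p, trivial, le_rfl⟩,
      fun ω h => (h 0 [] (by simp)).1⟩
  | dense D hD => exact ⟨fun _ _ => (D, ⟨PUnit, PUnit.unit⟩), fun _ _ p => hD p,
      fun ω h => (h 0 [] (by simp)).2⟩
  | mono _ hST ih =>
    obtain ⟨F, h1, h2⟩ := ih
    exact ⟨F, h1, fun ω h => hST (h2 ω h)⟩
  | cinter S _ ih =>
    choose F h1 h2 using ih
    refine ⟨fun n l => F n.unpair.1 n.unpair.2 l, fun n l p => h1 _ _ _ _, fun ω h => ?_⟩
    refine mem_iInter.2 fun k => h2 k ω fun n l hl => ?_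
    simpa using h (Nat.pair k n) l hl
  | diag S _ ih =>
    choose F h1 h2 using ih
    refine ⟨fun n l => F (l.headD ⟨PUnit, PUnit.unit⟩) n l.tail, fun n l p => h1 _ _ _ _,
      fun ω h o ho => h2 o ω fun n l hl => ?_⟩
    simpa using h n (o :: l) (by
      intro x hx
      rcases List.mem_cons.1 hx with rfl | hx
      exacts [ho, hl x hx])

theorem exists_tclosed (F : ℕ → List Obj.{u + 1} → Set P × Obj.{u + 1})
    (hF : ∀ n l p, ∃ q ∈ (F n l).1, q ≤ p) (p : P) : ∃ ω : Om P, TClosed F ω ∧ p ∈ ω.g := by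
  choose nx hnx hle using hF
  let o0 : Obj.{u + 1} := ⟨PUnit, PUnit.unit⟩
  let tk : ℕ → ℕ × List ℕ := fun k => Denumerable.ofNat (ℕ × List ℕ) k.unpair.1
  let ls : ℕ → List Obj.{u + 1} → List Obj.{u + 1} := fun k L => (tk k).2.map fun i => L.getD i o0
  let s : ℕ → P × List Obj.{u + 1} := fun k => Nat.rec (p, [])
    (fun k x => (nx (tk k).1 (ls k x.2) x.1, x.2 ++
      [(F (tk k).1 (ls k x.2)).2, Cd.cd P (nx (tk k).1 (ls k x.2) x.1)])) k
  have hs1 : ∀ k, (s (k + 1)).1 = nx (tk k).1 (ls k (s k).2) (s k).1 := fun k => rfl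
  have hs2 : ∀ k, (s (k + 1)).2 = (s k).2 ++
      [(F (tk k).1 (ls k (s k).2)).2, Cd.cd P (s (k + 1)).1] := fun k => rfl
  have anti : Antitone fun k => (s k).1 :=
    antitone_nat_of_succ_le fun k => by rw [hs1]; exact hle _ _ _
  have ext : ∀ k k', k ≤ k' → ∃ t, (s k').2 = (s k).2 ++ t := by
    intro k k' h
    induction h with
    | refl => exact ⟨[], by simp⟩
    | step _ ih =>
      obtain ⟨t, ht⟩ := ih
      exact ⟨_, by rw [hs2, ht, List.append_assoc]⟩
  let ω : Om P := ⟨{o | ∃ k, o ∈ (s k).2}, by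
      simp only [ofPred_exists]
      exact countable_iUnion fun k => (List.finite_toSet _).countable,
    {q | ∃ k, (s k).1 ≤ q}, fun a b ⟨k, hk⟩ h => ⟨k, hk.trans h⟩,
    fun a ⟨k, hk⟩ b ⟨k', hk'⟩ => ⟨(s (max k k')).1, ⟨_, le_rfl⟩,
      (anti (le_max_left _ _)).trans hk, (anti (le_max_right _ _)).trans hk'⟩⟩
  refine ⟨ω, fun n l hl => ?_, ⟨0, le_rfl⟩⟩
  have h0 : ∃ k0, ∃ c : List ℕ, ∀ k, k0 ≤ k → c.map (fun i => (s k).2.getD i o0) = l := by
    induction l with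
    | nil => exact ⟨0, [], fun _ _ => rfl⟩
    | cons o l ih =>
      obtain ⟨k0, c, hc⟩ := ih fun x hx => hl x (List.mem_cons_of_mem _ hx)
      obtain ⟨k1, hk1⟩ := hl o List.mem_cons_self
      obtain ⟨i, hi, rfl⟩ := List.getElem_of_mem hk1
      refine ⟨max k0 k1, i :: c, fun k hk => ?_⟩
      obtain ⟨t, ht⟩ := ext k1 k (le_of_max_le_right hk)
      rw [List.map_cons, hc k (le_of_max_le_left hk), ht, List.getD_append _ _ _ _ hi,
        List.getD_eq_getElem _ _ hi]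
  obtain ⟨k0, c, hc⟩ := h0
  let k := Nat.pair (Encodable.encode (n, c)) k0
  have htk : tk k = (n, c) := by simp [tk, k]
  have hls : ls k (s k).2 = l := by
    simp only [ls, htk]
    exact hc k (Nat.right_le_pair _ _)
  refine ⟨⟨k + 1, ?_⟩, (s (k + 1)).1, ⟨k + 1, le_rfl⟩, ?_, ⟨k + 1, ?_⟩⟩
  · rw [hs2, hls, htk]; simp
  · rw [hs1, hls, htk]; exact hnx _ _ _
  · rw [hs2]; simp

theorem exists_om {Φ : Om P → Prop} (h : ∀ᶠ ω : Om P in gen P, Φ ω) (p : P) :
    ∃ ω, p ∈ ω.g ∧ Φ ω := by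
  obtain ⟨F, h1, h2⟩ := Large.tasks (S := {ω | Φ ω}) h
  obtain ⟨ω, h3, h4⟩ := exists_tclosed F h1 p
  exact ⟨ω, h4, h2 ω h3⟩

theorem ev_in {T : Type v} (x : T) [Cd P T] : ∀ᶠ ω : Om P in gen P, In ω x := Large.mem _

theorem ev_dense {D : Set P} (hD : ∀ p, ∃ q ∈ D, q ≤ p) :
    ∀ᶠ ω : Om P in gen P, ∃ q ∈ ω.g, q ∈ D ∧ In ω q := Large.dense D hD

theorem ev_diag {T : Type v} {Φ : T → Om P → Prop}
    (h : ∀ x, ∀ᶠ ω : Om P in gen P, Φ x ω) [Cd P T] : ∀ᶠ ω : Om P in gen P, ∀ x, In ω x → Φ x ω := by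
  refine (Large.diag (fun o => {ω | ∀ x, Cd.cd P x = o → Φ x ω}) fun o => ?_).mono
    fun ω hω x hx => hω _ hx x rfl
  by_cases ho : ∃ x : T, Cd.cd P x = o
  · obtain ⟨x, rfl⟩ := ho
    exact Large.mono (h x) fun ω hω y hy => Cd.inj (P := P) hy ▸ hω
  · exact Large.mono (gen P).univ_sets fun ω _ y hy => absurd ⟨y, hy⟩ ho

theorem ev_map {T : Type v} {T' : Type w} (f : T → T') [Cd P T] [Cd P T'] :
    ∀ᶠ ω : Om P in gen P, ∀ x, In ω x → In ω (f x) := ev_diag fun x => ev_in (f x)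

theorem ev_map₂ {T : Type v} {T' : Type w} {T'' : Type*} (f : T → T' → T'')
    [Cd P T] [Cd P T'] [Cd P T''] :
    ∀ᶠ ω : Om P in gen P, ∀ x, In ω x → ∀ y, In ω y → In ω (f x y) := ev_diag fun x => ev_map (f x)

theorem ev_countable {T : Type v} {S : Set T} (hS : S.Countable) [Cd P T] :
    ∀ᶠ ω : Om P in gen P, ∀ x ∈ S, In ω x :=
  (eventually_countable_ball hS).2 fun x _ => ev_in x

theorem ev_list (T : Type v) [Cd P T] [Cd P (List T)] :
    ∀ᶠ ω : Om P in gen P, ∀ l : List T, (∀ x ∈ l, In ω x) → In ω l := by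
  filter_upwards [ev_map₂ (P := P) (fun (x : T) (l : List T) => x :: l),
    ev_in (P := P) ([] : List T)] with ω h1 h2 l hl
  induction l with
  | nil => exact h2
  | cons x l ih =>
    exact h1 x (hl x List.mem_cons_self) l (ih fun y hy => hl y (List.mem_cons_of_mem _ hy))

theorem ev_diag_list {T : Type v} {Φ : List T → Om P → Prop}
    (h : ∀ l, ∀ᶠ ω : Om P in gen P, Φ l ω) [Cd P T] [Cd P (List T)] :
    ∀ᶠ ω : Om P in gen P, ∀ l : List T, (∀ x ∈ l, In ω x) → Φ l ω := by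
  filter_upwards [ev_list (P := P) T, ev_diag h] with ω h1 h2 l hl using h2 l (h1 l hl)

/-- The condition `p` forces `Φ`. -/
def Fc (p : P) (Φ : Om P → Prop) : Prop := ∀ᶠ ω : Om P in gen P, p ∈ ω.g → Φ ω

theorem Fc.mono {p q : P} {Φ : Om P → Prop} (h : Fc p Φ) (hq : q ≤ p) : Fc q Φ :=
  Eventually.mono h fun ω h' hq' => h' (ω.up _ _ hq' hq)

theorem Fc.imp {p : P} {Φ Ψ : Om P → Prop} (h : Fc p Φ) (h' : ∀ᶠ ω : Om P in gen P, Φ ω → Ψ ω) :
    Fc p Ψ := by
  filter_upwards [h, h'] with ω h1 h2 hp using h2 (h1 hp)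

theorem Fc.of_ev {p : P} {Φ : Om P → Prop} (h : ∀ᶠ ω : Om P in gen P, Φ ω) : Fc p Φ :=
  Eventually.mono h fun _ h _ => h

theorem Fc.and {p : P} {Φ Ψ : Om P → Prop} (h : Fc p Φ) (h' : Fc p Ψ) :
    Fc p fun ω => Φ ω ∧ Ψ ω := by
  filter_upwards [h, h'] with ω h1 h2 hp using ⟨h1 hp, h2 hp⟩

theorem Fc.exists {p : P} {Φ : Om P → Prop} (h : Fc p Φ) : ∃ ω, p ∈ ω.g ∧ Φ ω :=
  let ⟨ω, h1, h2⟩ := exists_om h p
  ⟨ω, h1, h2 h1⟩

theorem Fc.not_both {p : P} {Φ : Om P → Prop} (h : Fc p Φ) (h' : Fc p fun ω => ¬ Φ ω) : False :=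
  let ⟨_, _, h1, h2⟩ := (h.and h').exists
  h2 h1

theorem ev_forced (Φ : P → Om P → Prop) :
    ∀ᶠ ω : Om P in gen P, ∀ q, In ω q → q ∈ ω.g → Fc q (Φ q) → Φ q ω := by
  refine ev_diag fun q => ?_
  by_cases h : Fc q (Φ q)
  · exact Eventually.mono h fun ω h1 h2 _ => h1 h2
  · exact Eventually.of_forall fun ω _ h2 => absurd h2 h

theorem ev_dense_below {p : P} {D : Set P} (hD : ∀ q ≤ p, ∃ r ∈ D, r ≤ q) :
    Fc p fun ω => ∃ q ∈ ω.g, q ∈ D ∧ In ω q := by
  have : ∀ q, ∃ r ∈ {r | r ∈ D ∨ ¬ ∃ s, s ≤ r ∧ s ≤ p}, r ≤ q := by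
    intro q
    by_cases h : ∃ s, s ≤ q ∧ s ≤ p
    · obtain ⟨s, h1, h2⟩ := h
      obtain ⟨r, h3, h4⟩ := hD s h2
      exact ⟨r, Or.inl h3, h4.trans h1⟩
    · exact ⟨q, Or.inr h, le_rfl⟩
  filter_upwards [ev_dense this] with ω ⟨q, h1, h2, h3⟩ hp
  rcases h2 with h2 | h2
  · exact ⟨q, h1, h2, h3⟩
  · obtain ⟨r, -, h4⟩ := ω.dir q h1 p hp
    exact absurd ⟨r, h4⟩ h2

theorem Fc.of_dense {p : P} {Φ : Om P → Prop} (h : ∀ q ≤ p, ∃ r ≤ q, Fc r Φ) : Fc p Φ := by
  have := ev_dense_below (p := p) (D := {r | Fc r Φ}) fun q hq =>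
    let ⟨r, h1, h2⟩ := h q hq; ⟨r, h2, h1⟩
  filter_upwards [this, ev_forced fun _ => Φ] with ω h1 h2 hp
  obtain ⟨q, h3, h4, h5⟩ := h1 hp
  exact h2 q h5 h3 h4

theorem ev_of_dense {Φ : Om P → Prop} (h : ∀ q, ∃ r ≤ q, Fc r Φ) : ∀ᶠ ω : Om P in gen P, Φ ω := by
  have := ev_dense (D := {r | Fc r Φ}) fun q => let ⟨r, h1, h2⟩ := h q; ⟨r, h2, h1⟩
  filter_upwards [this, ev_forced fun _ => Φ] with ω ⟨q, h3, h4, h5⟩ h2
  exact h2 q h5 h3 h4

theorem ev_top [OrderTop P] : ∀ᶠ ω : Om P in gen P, ⊤ ∈ ω.g := by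
  filter_upwards [ev_dense (P := P) (D := univ) fun p => ⟨p, trivial, le_rfl⟩] with ω ⟨q, h, _⟩
  exact ω.up _ _ h le_top

/-- Decided events. -/
def Dec (S : Set (Om P)) : Prop := ∀ p, ∃ q ≤ p, Fc q (· ∈ S) ∨ Fc q (· ∉ S)

instance decSpace : MeasurableSpace (Om P) where
  MeasurableSet' := Dec
  measurableSet_empty p := ⟨p, le_rfl, Or.inr (Fc.of_ev (Eventually.of_forall fun _ h => h))⟩
  measurableSet_compl S h p := by
    obtain ⟨q, h1, h2⟩ := h p
    refine ⟨q, h1, h2.symm.imp id fun h => h.imp (Eventually.of_forall fun _ h h' => h' h)⟩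
  measurableSet_iUnion S h p := by
    by_cases h1 : ∃ q ≤ p, ∃ n, Fc q (· ∈ S n)
    · obtain ⟨q, h2, n, h3⟩ := h1
      exact ⟨q, h2, Or.inl (h3.imp (Eventually.of_forall fun _ h => mem_iUnion.2 ⟨n, h⟩))⟩
    · refine ⟨p, le_rfl, Or.inr ?_⟩
      have : ∀ n, Fc p (· ∉ S n) := fun n => Fc.of_dense fun q hq => by
        obtain ⟨r, h2, h3⟩ := h n q
        exact ⟨r, h2, h3.resolve_left fun h4 => h1 ⟨r, h2.trans hq, n, h4⟩⟩
      filter_upwards [eventually_countable_forall.2 this] with ω h2 hp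
      simpa using fun n => h2 n hp

theorem meas_iff {Φ : Om P → Prop} :
    Measurable Φ ↔ ∀ p, ∃ q ≤ p, Fc q Φ ∨ Fc q fun ω => ¬ Φ ω :=
  measurableSet_setOfPred.symm

theorem meas_dec {Φ : Om P → Prop} (h : Measurable Φ) (p : P) :
    ∃ q ≤ p, Fc q Φ ∨ Fc q fun ω => ¬ Φ ω := meas_iff.1 h p

theorem meas_of_ev {Φ : Om P → Prop} (h : ∀ᶠ ω : Om P in gen P, Φ ω) : Measurable Φ :=
  meas_iff.2 fun p => ⟨p, le_rfl, Or.inl (Fc.of_ev h)⟩

theorem meas_congr {Φ Ψ : Om P → Prop} (h : Measurable Φ) (h' : ∀ᶠ ω : Om P in gen P, Φ ω ↔ Ψ ω) :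
    Measurable Ψ := by
  refine meas_iff.2 fun p => ?_
  obtain ⟨q, h1, h2⟩ := meas_dec h p
  exact ⟨q, h1, h2.imp (fun h => h.imp (h'.mono fun _ h => h.1))
    fun h => h.imp (h'.mono fun _ h h1 h2 => h1 (h.2 h2))⟩

theorem meas_congr_fun {α : Type*} [MeasurableSpace α] {X Y : Om P → α} (h : Measurable X)
    (h' : ∀ᶠ ω : Om P in gen P, X ω = Y ω) : Measurable Y := fun S hS =>
  measurableSet_setOfPred.2 (meas_congr (Φ := fun ω => X ω ∈ S) (measurableSet_setOfPred.1 (h hS))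
    (h'.mono fun ω h => by rw [h]))

theorem meas_g (p : P) : Measurable fun ω : Om P => p ∈ ω.g := by
  refine meas_iff.2 fun q => ?_
  by_cases h : ∃ r, r ≤ q ∧ r ≤ p
  · obtain ⟨r, h1, h2⟩ := h
    exact ⟨r, h1, Or.inl (Eventually.of_forall fun ω h => ω.up _ _ h h2)⟩
  · refine ⟨q, le_rfl, Or.inr (Eventually.of_forall fun ω h1 h2 => h ?_)⟩
    obtain ⟨r, -, h3⟩ := ω.dir q h1 p h2
    exact ⟨r, h3⟩

theorem meas_exists_g (D : Set P) : Measurable fun ω : Om P => ∃ p ∈ ω.g, p ∈ D := by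
  refine meas_iff.2 fun q => ?_
  by_cases h : ∃ r, r ≤ q ∧ ∃ p ∈ D, r ≤ p
  · obtain ⟨r, h1, p, h2, h3⟩ := h
    exact ⟨r, h1, Or.inl (Eventually.of_forall fun ω h => ⟨p, ω.up _ _ h h3, h2⟩)⟩
  · refine ⟨q, le_rfl, Or.inr (Eventually.of_forall fun ω h1 ⟨p, h2, h3⟩ => h ?_)⟩
    obtain ⟨r, -, h4⟩ := ω.dir q h1 p h2
    exact ⟨r, h4.1, p, h3, h4.2⟩

theorem meas_in {T : Type v} (x : T) [Cd P T] : Measurable fun ω : Om P => In ω x :=
  meas_of_ev (ev_in x)

theorem meas_forall {T : Type v} {Φ : T → Om P → Prop}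
    (h : ∀ x, Measurable (Φ x)) [Cd P T] : Measurable fun ω => ∀ x, In ω x → Φ x ω := by
  refine meas_iff.2 fun p => ?_
  by_cases h1 : ∀ x, Fc p (Φ x)
  · refine ⟨p, le_rfl, Or.inl ?_⟩
    filter_upwards [ev_diag h1] with ω h2 hp x hx using h2 x hx hp
  · push Not at h1
    obtain ⟨x, hx⟩ := h1
    have : ∃ q ≤ p, Fc q fun ω => ¬ Φ x ω := by
      by_contra h2
      refine hx (Fc.of_dense fun q hq => ?_)
      obtain ⟨r, h3, h4⟩ := meas_dec (h x) q
      exact ⟨r, h3, h4.resolve_right fun h5 => h2 ⟨r, h3.trans hq, h5⟩⟩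
    obtain ⟨q, h2, h3⟩ := this
    refine ⟨q, h2, Or.inr (h3.imp ?_)⟩
    filter_upwards [ev_in (P := P) x] with ω h4 h5 h6 using h5 (h6 x h4)

theorem meas_exists {T : Type v} {Φ : T → Om P → Prop}
    (h : ∀ x, Measurable (Φ x)) [Cd P T] : Measurable fun ω => ∃ x, In ω x ∧ Φ x ω := by
  have := (meas_forall fun x => (h x).not).not
  simpa using this

/-- The truth lemma. -/
theorem ev_truth {Φ : Om P → Prop} (h : Measurable Φ) :
    ∀ᶠ ω : Om P in gen P, Φ ω → ∃ q ∈ ω.g, In ω q ∧ Fc q Φ := by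
  have := ev_dense (D := {r | Fc r Φ ∨ Fc r fun ω => ¬ Φ ω}) fun q =>
    let ⟨r, h1, h2⟩ := meas_dec h q; ⟨r, h2, h1⟩
  filter_upwards [this, ev_forced fun _ ω => ¬ Φ ω] with ω ⟨q, h3, h4, h5⟩ h2 h6
  exact ⟨q, h3, h5, h4.resolve_right fun h => h2 q h5 h3 h h6⟩

theorem ev_forced' (Φ : Om P → Prop) (h : Measurable Φ) :
    ∀ᶠ ω : Om P in gen P, ∀ q ∈ ω.g, Fc q Φ → Φ ω := by
  filter_upwards [ev_truth h.not] with ω h1 q hq h2
  by_contra h3
  obtain ⟨r, h4, -, h5⟩ := h1 h3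
  obtain ⟨s, -, h6, h7⟩ := ω.dir q hq r h4
  exact (h2.mono h6).not_both (h5.mono h7)

theorem ev_not_of_not_forced {Φ : Om P → Prop} (h : Measurable Φ) (h' : ∀ p, ¬ Fc p Φ) :
    ∀ᶠ ω : Om P in gen P, ¬ Φ ω :=
  ev_of_dense fun q => let ⟨r, h1, h2⟩ := meas_dec h q; ⟨r, h1, h2.resolve_left (h' r)⟩

theorem Fc.not_of {p : P} {Φ : Om P → Prop} (h : Measurable Φ) (h' : ∀ q ≤ p, ¬ Fc q Φ) :
    Fc p fun ω => ¬ Φ ω :=
  Fc.of_dense fun q hq => let ⟨r, h1, h2⟩ := meas_dec h q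
    ⟨r, h1, h2.resolve_left (h' r (h1.trans hq))⟩

/-- Decided random variables with values in a ground type. -/
structure DV {T : Type v} [Cd P T] (J : Om P → T) : Prop where
  meas : ∀ x, Measurable fun ω => J ω = x
  mem : ∀ᶠ ω : Om P in gen P, In ω (J ω)

theorem DV.subst {T : Type v} [Cd P T] {J : Om P → T} (hJ : DV J) {Φ : T → Om P → Prop}
    (h : ∀ x, Measurable (Φ x)) : Measurable fun ω => Φ (J ω) ω := by
  refine meas_congr (meas_exists fun x => (hJ.meas x).and (h x)) ?_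
  filter_upwards [hJ.mem] with ω h1
  exact ⟨fun ⟨x, _, h2, h3⟩ => h2 ▸ h3, fun h2 => ⟨_, h1, rfl, h2⟩⟩

theorem DV.subst_fun {T : Type v} [Cd P T] {J : Om P → T} (hJ : DV J) {α : Type*}
    [MeasurableSpace α] {X : T → Om P → α} (h : ∀ x, Measurable (X x)) :
    Measurable fun ω => X (J ω) ω := fun S hS =>
  measurableSet_setOfPred.2 (hJ.subst (Φ := fun x ω => X x ω ∈ S) fun x =>
    measurableSet_setOfPred.1 (h x hS))

theorem DV.const {T : Type v} [Cd P T] (x : T) : DV fun _ : Om P => x :=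
  ⟨fun _ => measurable_const, ev_in x⟩

theorem DV.subst_dv {T : Type v} [Cd P T] {J : Om P → T} (hJ : DV J) {T' : Type w}
    [Cd P T'] {K : T → Om P → T'} (h : ∀ x, DV (K x)) : DV fun ω => K (J ω) ω := by
  refine ⟨fun y => hJ.subst (Φ := fun x ω => K x ω = y) fun x => (h x).meas y, ?_⟩
  filter_upwards [hJ.mem, ev_diag fun x => (h x).mem] with ω h1 h2 using h2 _ h1

theorem DV.map {T : Type v} [Cd P T] {J : Om P → T} (hJ : DV J) {T' : Type w}
    [Cd P T'] (f : T → T') : DV fun ω => f (J ω) :=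
  hJ.subst_dv (K := fun x _ => f x) fun x => DV.const (f x)

open Classical in
/-- least element of the countable set with a property -/
noncomputable def least {T : Type v} [Cd P T] {r : T → T → Prop} (hr : WellFounded r)
    (x0 : T) (ω : Om P) (Φ : T → Prop) : T :=
  if h : {x | In ω x ∧ Φ x}.Nonempty then hr.min _ h else x0

theorem least_spec {T : Type v} [Cd P T] {r : T → T → Prop} (hr : WellFounded r)
    (x0 : T) {ω : Om P} {Φ : T → Prop} (h : ∃ x, In ω x ∧ Φ x) :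
    In ω (least hr x0 ω Φ) ∧ Φ (least hr x0 ω Φ) ∧
      ∀ y, In ω y → Φ y → ¬ r y (least hr x0 ω Φ) := by
  have h' : {x | In ω x ∧ Φ x}.Nonempty := h
  rw [least, dif_pos h']
  exact ⟨(hr.min_mem _ h').1, (hr.min_mem _ h').2, fun y h1 h2 =>
    hr.not_lt_min {x | In ω x ∧ Φ x} (show y ∈ _ from ⟨h1, h2⟩)⟩

theorem least_dv {T : Type v} [Cd P T] {r : T → T → Prop} [Std.Trichotomous r]
    (hr : WellFounded r) (x0 : T) {Φ : T → Om P → Prop} (h : ∀ x, Measurable (Φ x)) :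
    DV fun ω => least hr x0 ω fun x => Φ x ω := by
  refine ⟨fun x => ?_, ?_⟩
  · have h1 : Measurable fun ω => (In ω x ∧ Φ x ω ∧ ∀ y, In ω y → Φ y ω → ¬ r y x) ∨
        ((¬ ∃ y, In ω y ∧ Φ y ω) ∧ x0 = x) :=
      ((meas_in x).and ((h x).and (meas_forall fun y => (h y).imp measurable_const))).or
        ((meas_exists h).not.and measurable_const)
    convert h1 using 2 with ω
    by_cases h2 : ∃ y, In ω y ∧ Φ y ω
    · obtain ⟨h3, h4, h5⟩ := least_spec hr x0 h2
      simp only [h2, not_true, false_and, or_false, eq_iff_iff]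
      refine ⟨fun h6 => h6 ▸ ⟨h3, h4, h5⟩, fun ⟨h6, h7, h8⟩ => ?_⟩
      rcases trichotomous_of r (least hr x0 ω fun x => Φ x ω) x with h9 | h9 | h9
      · exact absurd h9 (h8 _ h3 h4)
      · exact h9
      · exact absurd h9 (h5 _ h6 h7)
    · have h3 : least hr x0 ω (fun x => Φ x ω) = x0 := by
        rw [least, dif_neg]
        exact h2
      simp only [h3, h2, not_false_eq_true, true_and, eq_iff_iff]
      exact ⟨Or.inr, fun h => h.elim (fun h => absurd ⟨x, h.1, h.2.1⟩ h2) id⟩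
  · filter_upwards [ev_in (P := P) x0] with ω h1
    by_cases h2 : ∃ y, In ω y ∧ Φ y ω
    · exact (least_spec hr x0 h2).1
    · rw [least, dif_neg]
      exacts [h1, h2]

/-- image of a generic pair under a projection defined below `p` -/
def Om.proj {Q : Type u} [Preorder Q] (p : P) (π : P → Q)
    (hπ : ∀ q r, q ≤ p → r ≤ q → π r ≤ π q) (ω : Om P) : Om Q where
  N := ω.N
  cN := ω.cN
  g := {v | ∃ q ∈ ω.g, q ≤ p ∧ π q ≤ v}
  up _ _ := fun ⟨q, h1, h2, h3⟩ h => ⟨q, h1, h2, h3.trans h⟩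
  dir _ := fun ⟨q, h1, h2, h3⟩ _ ⟨q', h1', h2', h3'⟩ =>
    let ⟨r, h4, h5, h6⟩ := ω.dir q h1 q' h1'
    ⟨π r, ⟨r, h4, h5.trans h2, le_rfl⟩, (hπ _ _ h2 h5).trans h3, (hπ _ _ h2' h6).trans h3'⟩

theorem proj_ev {Q : Type u} [Preorder Q] {p : P} {π : P → Q}
    (hπ : ∀ q r, q ≤ p → r ≤ q → π r ≤ π q)
    (hl : ∀ q ≤ p, ∀ v ≤ π q, ∃ r ≤ q, π r ≤ v) {Φ : Om Q → Prop} (h : ∀ᶠ ω in gen Q, Φ ω) :
    Fc p fun ω => Φ (ω.proj p π hπ) := by
  have key : ∀ S : Set (Om Q), Large S → Fc p fun ω => ω.proj p π hπ ∈ S := by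
    intro S hS
    induction hS with
    | mem o => exact Fc.of_ev (Large.mem o)
    | dense D hD =>
      choose f hf1 hf2 using hD
      have h1 := ev_dense_below (p := p) (D := {r | r ≤ p ∧ ∃ v ∈ D, π r ≤ v}) fun q hq => by
        obtain ⟨r, h1, h2⟩ := hl q hq _ (hf2 (π q))
        exact ⟨r, ⟨h1.trans hq, _, hf1 _, h2⟩, h1⟩
      have h2 : ∀ r, ∀ᶠ ω : Om P in gen P, (∃ v ∈ D, π r ≤ v) → ∃ v ∈ D, π r ≤ v ∧ In ω v := by
        intro r
        by_cases h : ∃ v ∈ D, π r ≤ v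
        · obtain ⟨v, h3, h4⟩ := h
          exact (ev_in v).mono fun ω h5 _ => ⟨v, h3, h4, h5⟩
        · exact Eventually.of_forall fun _ h' => absurd h' h
      filter_upwards [h1, ev_diag h2] with ω h3 h4 hp
      obtain ⟨r, h5, ⟨h6, h7⟩, h8⟩ := h3 hp
      obtain ⟨v, h9, h10, h11⟩ := h4 r h8 h7
      exact ⟨v, ⟨r, h5, h6, h10⟩, h9, h11⟩
    | mono _ hST ih => exact ih.imp (Eventually.of_forall fun _ h => hST h)
    | cinter S _ ih =>
      filter_upwards [eventually_countable_forall.2 ih] with ω h1 hp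
      exact mem_iInter.2 fun n => h1 n hp
    | diag S _ ih =>
      refine Large.mono (Large.diag _ ih) fun ω h1 hp o ho => h1 o ho hp
  exact key _ h

theorem proj_fc {Q : Type u} [Preorder Q] {p : P} {π : P → Q}
    (hπ : ∀ q r, q ≤ p → r ≤ q → π r ≤ π q)
    (hl : ∀ q ≤ p, ∀ v ≤ π q, ∃ r ≤ q, π r ≤ v) {Φ : Om Q → Prop} {v : Q} (h : Fc v Φ) {q : P}
    (hq : q ≤ p) (hv : π q ≤ v) : Fc q fun ω => Φ (ω.proj p π hπ) := by
  filter_upwards [proj_ev hπ hl h] with ω h1 h2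
  exact h1 (ω.up _ _ h2 hq) ⟨q, h2, hq, hv⟩

end Pool.Agent.MP_e75763_lc

end MrgPart0

-- ======== part 1: formerly Pool.Agent.MP_e75763_lc.Names
section MrgPart1

/-! Names, their values, and the model `MM ω`. -/

namespace Pool.Agent.MP_e75763_lc

open Filter Set

universe u v w

inductive Name (P : Type u) : Type (u + 1)
  | mk (I : Type u) (A : I → Name P) (c : I → P) : Name P

variable {P : Type u} [Preorder P]

theorem small_In (ω : Om P) {T : Type v} [Cd P T] (Φ : T → Prop) :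
    Small.{0} {x : T // In ω x ∧ Φ x} :=
  haveI : Countable {x : T // In ω x ∧ Φ x} :=
    ((countable_In ω T).mono fun _ h => h.1 : {x : T | In ω x ∧ Φ x}.Countable).to_subtype
  Countable.toSmall _

noncomputable def val (ω : Om P) : Name P → ZFSet.{0}
  | ⟨I, A, c⟩ => @ZFSet.range {i : I // In ω i ∧ c i ∈ ω.g} (small_In ω _) fun i => val ω (A i.1)

theorem mem_val {ω : Om P} {I : Type u} {A : I → Name P} {c : I → P} {z : ZFSet.{0}} :
    z ∈ val ω ⟨I, A, c⟩ ↔ ∃ i, In ω i ∧ c i ∈ ω.g ∧ val ω (A i) = z := by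
  rw [val, @ZFSet.mem_range _ (small_In ω _)]
  exact ⟨fun ⟨i, h⟩ => ⟨i.1, i.2.1, i.2.2, h⟩, fun ⟨i, h1, h2, h⟩ => ⟨⟨i, h1, h2⟩, h⟩⟩

/-- the generic extension -/
def MM (ω : Om P) : Set ZFSet.{0} := {z | ∃ x : Name P, In ω x ∧ val ω x = z}

theorem meas_val_eq (x y : Name P) : Measurable fun ω => val ω x = val ω y := by
  induction x generalizing y with
  | mk I A c ih =>
    obtain ⟨J, B, d⟩ := y
    have h : Measurable fun ω : Om P =>
        (∀ i, In ω i → c i ∈ ω.g → ∃ j, In ω j ∧ d j ∈ ω.g ∧ val ω (A i) = val ω (B j)) ∧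
        (∀ j, In ω j → d j ∈ ω.g → ∃ i, In ω i ∧ c i ∈ ω.g ∧ val ω (A i) = val ω (B j)) :=
      (meas_forall fun i => (meas_g _).imp (meas_exists fun j => (meas_g _).and (ih i _))).and
        (meas_forall fun j => (meas_g _).imp (meas_exists fun i => (meas_g _).and (ih i _)))
    convert h using 2 with ω
    rw [ZFSet.ext_iff]
    simp only [mem_val, eq_iff_iff]
    constructor
    · intro h
      refine ⟨fun i h1 h2 => ?_, fun j h1 h2 => (h _).2 ⟨j, h1, h2, rfl⟩⟩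
      obtain ⟨j, h3, h4, h5⟩ := (h _).1 ⟨i, h1, h2, rfl⟩
      exact ⟨j, h3, h4, h5.symm⟩
    · rintro ⟨h1, h2⟩ z
      constructor
      · rintro ⟨i, h3, h4, rfl⟩
        obtain ⟨j, h5, h6, h7⟩ := h1 i h3 h4
        exact ⟨j, h5, h6, h7.symm⟩
      · rintro ⟨j, h3, h4, rfl⟩
        exact h2 j h3 h4

theorem meas_val_mem (x y : Name P) : Measurable fun ω => val ω x ∈ val ω y := by
  obtain ⟨J, B, d⟩ := y
  simp only [mem_val]
  exact meas_exists fun j => (meas_g _).and (meas_val_eq _ _)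

/-- random sets given by a name -/
def Named (Z : Om P → ZFSet.{0}) : Prop := ∃ x : Name P, ∀ᶠ ω : Om P in gen P, val ω x = Z ω

theorem Named.val (x : Name P) : Named fun ω => val ω x := ⟨x, Eventually.of_forall fun _ => rfl⟩

theorem Named.congr {Z Z' : Om P → ZFSet.{0}} (h : Named Z) (h' : ∀ᶠ ω : Om P in gen P, Z ω = Z' ω) :
    Named Z' := by
  obtain ⟨x, hx⟩ := h
  exact ⟨x, by filter_upwards [hx, h'] with ω h1 h2 using h1.trans h2⟩

theorem Named.mem_MM {Z : Om P → ZFSet.{0}} (h : Named Z) : ∀ᶠ ω : Om P in gen P, Z ω ∈ MM ω := by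
  obtain ⟨x, hx⟩ := h
  filter_upwards [hx, ev_in (P := P) x] with ω h1 h2 using ⟨x, h2, h1⟩

theorem Named.meas_mem {Z Z' : Om P → ZFSet.{0}} (h : Named Z) (h' : Named Z') :
    Measurable fun ω => Z ω ∈ Z' ω := by
  obtain ⟨x, hx⟩ := h
  obtain ⟨y, hy⟩ := h'
  refine meas_congr (meas_val_mem x y) ?_
  filter_upwards [hx, hy] with ω h1 h2
  rw [h1, h2]

theorem Named.meas_eq {Z Z' : Om P → ZFSet.{0}} (h : Named Z) (h' : Named Z') :
    Measurable fun ω => Z ω = Z' ω := by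
  obtain ⟨x, hx⟩ := h
  obtain ⟨y, hy⟩ := h'
  refine meas_congr (meas_val_eq x y) ?_
  filter_upwards [hx, hy] with ω h1 h2
  rw [h1, h2]

theorem ev_in_dep {T : Type v} {p : Prop} (x : p → T) [Cd P T] :
    ∀ᶠ ω : Om P in gen P, ∀ h : p, In ω (x h) := by
  by_cases h : p
  · exact (ev_in (x h)).mono fun _ h' _ => h'
  · exact Eventually.of_forall fun _ h' => absurd h' h

/-- comprehension -/
theorem compr {K : Type v} [Cd P K] [Small.{u} K] {Y : K → Om P → ZFSet.{0}}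
    (hY : ∀ k, Named (Y k)) {Φ : K → Om P → Prop} (h : ∀ k, Measurable (Φ k)) :
    ∃ b : Name P, ∀ᶠ ω : Om P in gen P, ∀ z, z ∈ val ω b ↔ ∃ k, In ω k ∧ Φ k ω ∧ Y k ω = z := by
  choose y hy using hY
  let e := equivShrink.{u} K
  let I := {x : Shrink.{u} K × P // Fc x.2 (Φ (e.symm x.1))}
  refine ⟨⟨I, fun x => y (e.symm x.1.1), fun x => x.1.2⟩, ?_⟩
  have h1 : ∀ᶠ ω : Om P in gen P, ∀ k, In ω k → ∀ q, In ω q →
      ∀ h : Fc q (Φ (e.symm (e k))), In ω (⟨(e k, q), h⟩ : I) :=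
    ev_diag fun k => ev_diag fun q => ev_in_dep _
  filter_upwards [ev_diag hy, ev_map (P := P) fun x : I => e.symm x.1.1,
    ev_diag fun k => ev_forced' _ (h k), ev_diag fun k => ev_truth (h k), h1]
    with ω h2 h3 h4 h5 h6 z
  rw [mem_val]
  constructor
  · rintro ⟨x, h7, h8, rfl⟩
    exact ⟨_, h3 x h7, h4 _ (h3 x h7) _ h8 x.2, (h2 _ (h3 x h7)).symm⟩
  · rintro ⟨k, h7, h8, rfl⟩
    obtain ⟨q, h9, h10, h11⟩ := h5 k h7 h8
    refine ⟨⟨(e k, q), by simpa using h11⟩, h6 k h7 q h10 _, h9, ?_⟩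
    simpa using h2 k h7

theorem named_empty : Named fun _ : Om P => (∅ : ZFSet.{0}) :=
  ⟨⟨PEmpty, PEmpty.elim, PEmpty.elim⟩, Eventually.of_forall fun ω => by
    ext z
    simp [mem_val]⟩

theorem compr_count {K : Type v} [Countable K] {Y : K → Om P → ZFSet.{0}}
    (hY : ∀ k, Named (Y k)) {Φ : K → Om P → Prop} (h : ∀ k, Measurable (Φ k)) :
    ∃ b : Name P, ∀ᶠ ω : Om P in gen P, ∀ z, z ∈ val ω b ↔ ∃ k, Φ k ω ∧ Y k ω = z := by
  rcases isEmpty_or_nonempty K with hK | hK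
  · obtain ⟨b, hb⟩ := named_empty (P := P)
    exact ⟨b, hb.mono fun ω h z => by simp [h]⟩
  obtain ⟨f, hf⟩ := exists_surjective_nat K
  obtain ⟨b, hb⟩ := compr (K := ULift.{u} ℕ) (Y := fun n => Y (f n.down)) (fun n => hY _)
    (Φ := fun n => Φ (f n.down)) fun n => h _
  refine ⟨b, ?_⟩
  filter_upwards [hb, ev_countable (P := P) (countable_univ (α := ULift.{u} ℕ))] with ω h1 h2 z
  rw [h1]
  constructor
  · rintro ⟨n, -, h3⟩
    exact ⟨_, h3⟩
  · rintro ⟨k, h3⟩
    obtain ⟨n, rfl⟩ := hf k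
    exact ⟨⟨n⟩, h2 _ trivial, h3⟩

theorem Named.upair {Z Z' : Om P → ZFSet.{0}} (h : Named Z) (h' : Named Z') :
    Named fun ω => ({Z ω, Z' ω} : ZFSet.{0}) := by
  obtain ⟨b, hb⟩ := compr_count (K := Bool) (Y := fun k => cond k Z Z')
    (fun k => by cases k; exacts [h', h]) (Φ := fun _ _ => True) fun _ => measurable_const
  refine ⟨b, hb.mono fun ω h => ?_⟩
  ext z
  simp [h, eq_comm, or_comm]

theorem Named.pair {Z Z' : Om P → ZFSet.{0}} (h : Named Z) (h' : Named Z') :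
    Named fun ω => ZFSet.pair (Z ω) (Z' ω) := by
  have := (h.upair h).upair (h.upair h')
  simpa [ZFSet.pair] using this

namespace Name

def I : Name P → Type u
  | ⟨I, _, _⟩ => I

def A : (x : Name P) → x.I → Name P
  | ⟨_, A, _⟩ => A

def c : (x : Name P) → x.I → P
  | ⟨_, _, c⟩ => c

end Name

theorem mem_val' {ω : Om P} {x : Name P} {z : ZFSet.{0}} :
    z ∈ val ω x ↔ ∃ i : x.I, In ω i ∧ x.c i ∈ ω.g ∧ val ω (x.A i) = z := by
  obtain ⟨I, A, c⟩ := x
  exact mem_val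

theorem ev_sub : ∀ᶠ ω : Om P in gen P, ∀ x : Name P, In ω x → ∀ i : x.I, In ω i → In ω (x.A i) :=
  ev_diag fun x : Name P => ev_map x.A

theorem ev_trans : ∀ᶠ ω : Om P in gen P, ∀ x ∈ MM ω, ∀ y ∈ x, y ∈ MM ω := by
  filter_upwards [ev_sub (P := P)] with ω h
  rintro _ ⟨x, hx, rfl⟩ y hy
  obtain ⟨i, h1, -, h2⟩ := mem_val'.1 hy
  exact ⟨_, h x hx i h1, h2⟩

theorem ev_sigma {T : Type v} [Cd P T] {S : T → Type w} [∀ t, Cd P (S t)]
    [Cd P (Σ t, S t)] :
    ∀ᶠ ω : Om P in gen P, ∀ t, In ω t → ∀ s : S t, In ω s → In ω (⟨t, s⟩ : Σ t, S t) :=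
  ev_diag fun t => ev_map (Sigma.mk t)

theorem named_sUnion (a : Name P) : Named fun ω => ZFSet.sUnion (val ω a) := by
  obtain ⟨b, hb⟩ := compr (K := Σ i : a.I, (a.A i).I)
    (Y := fun k ω => val ω ((a.A k.1).A k.2)) (fun _ => Named.val _)
    (Φ := fun k ω => In ω k.1 ∧ a.c k.1 ∈ ω.g ∧ In ω k.2 ∧ (a.A k.1).c k.2 ∈ ω.g)
    fun k => (meas_in _).and ((meas_g _).and ((meas_in _).and (meas_g _)))
  refine ⟨b, ?_⟩
  filter_upwards [hb, ev_sigma (P := P) (S := fun i : a.I => (a.A i).I)] with ω h1 h2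
  ext z
  rw [h1, ZFSet.mem_sUnion]
  constructor
  · rintro ⟨k, -, ⟨h3, h4, h5, h6⟩, rfl⟩
    exact ⟨_, mem_val'.2 ⟨k.1, h3, h4, rfl⟩, mem_val'.2 ⟨k.2, h5, h6, rfl⟩⟩
  · rintro ⟨y, h3, h4⟩
    obtain ⟨i, h5, h6, rfl⟩ := mem_val'.1 h3
    obtain ⟨j, h7, h8, rfl⟩ := mem_val'.1 h4
    exact ⟨⟨i, j⟩, h2 i h5 j h7, ⟨h5, h6, h7, h8⟩, rfl⟩

theorem named_sep (a : Name P) {Ψ : Om P → ZFSet.{0} → Prop}
    (h : ∀ y, Measurable fun ω => Ψ ω (val ω y)) :
    ∃ b : Name P, ∀ᶠ ω : Om P in gen P, ∀ z, z ∈ val ω b ↔ z ∈ val ω a ∧ Ψ ω z := by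
  obtain ⟨b, hb⟩ := compr (K := a.I) (Y := fun k ω => val ω (a.A k)) (fun _ => Named.val _)
    (Φ := fun k ω => a.c k ∈ ω.g ∧ Ψ ω (val ω (a.A k))) fun k => (meas_g _).and (h _)
  refine ⟨b, hb.mono fun ω h1 z => ?_⟩
  rw [h1, mem_val']
  constructor
  · rintro ⟨k, h2, ⟨h3, h4⟩, rfl⟩
    exact ⟨⟨k, h2, h3, rfl⟩, h4⟩
  · rintro ⟨⟨k, h2, h3, rfl⟩, h4⟩
    exact ⟨k, h2, ⟨h3, h4⟩, rfl⟩

theorem named_power (a : Name P) :
    ∃ b : Name P, ∀ᶠ ω : Om P in gen P, ∀ y ∈ MM ω, y ⊆ val ω a → y ∈ val ω b := by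
  let nm : Set (a.I × P) → Name P := fun S => ⟨S, fun x => a.A x.1.1, fun x => x.1.2⟩
  obtain ⟨b, hb⟩ := compr (K := Set (a.I × P)) (Y := fun k ω => val ω (nm k))
    (fun _ => Named.val _) (Φ := fun _ _ => True) fun k => measurable_const
  let S : Name P → Set (a.I × P) := fun y => {x | Fc x.2 fun ω => val ω (a.A x.1) ∈ val ω y}
  have h1 : ∀ y, ∀ᶠ ω : Om P in gen P, val ω y ⊆ val ω a → val ω (nm (S y)) = val ω y := by
    intro y
    have h2 : ∀ᶠ ω : Om P in gen P, ∀ i, In ω i → ∀ q, In ω q →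
        ∀ h : (i, q) ∈ S y, In ω (⟨(i, q), h⟩ : S y) :=
      ev_diag fun k => ev_diag fun q => ev_in_dep _
    filter_upwards [ev_map (P := P) fun x : S y => x.1.1,
      ev_diag fun i => ev_forced' _ (meas_val_mem (a.A i) y),
      ev_diag fun i => ev_truth (meas_val_mem (a.A i) y), h2] with ω h3 h4 h5 h6 h7
    ext z
    rw [mem_val]
    constructor
    · rintro ⟨x, h8, h9, rfl⟩
      exact h4 _ (h3 x h8) _ h9 x.2
    · intro hz
      obtain ⟨i, h8, -, rfl⟩ := mem_val'.1 (h7 hz)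
      obtain ⟨q, h9, h10, h11⟩ := h5 i h8 hz
      exact ⟨⟨(i, q), h11⟩, h6 i h8 q h10 _, h9, rfl⟩
  refine ⟨b, ?_⟩
  filter_upwards [hb, ev_diag (P := P) h1, ev_map (P := P) S] with ω h2 h3 h4
  rintro _ ⟨y, hy, rfl⟩ h5
  exact (h2 _).2 ⟨S y, h4 y hy, trivial, h3 y hy h5⟩

theorem named_choice (a : Name P) :
    ∃ b : Name P, ∀ᶠ ω : Om P in gen P, ∀ y ∈ val ω a, y ≠ ∅ → ∃ z ∈ y, ∀ w,
      ZFSet.pair y w ∈ val ω b ↔ w = z := by
  let K := Σ i : a.I, (a.A i).I
  let ok : K → Om P → Prop := fun k ω =>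
    In ω k.1 ∧ a.c k.1 ∈ ω.g ∧ In ω k.2 ∧ (a.A k.1).c k.2 ∈ ω.g
  have hok : ∀ k, Measurable (ok k) := fun k =>
    (meas_in _).and ((meas_g _).and ((meas_in _).and (meas_g _)))
  obtain ⟨b, hb⟩ := compr (K := K)
    (Y := fun k ω => ZFSet.pair (val ω (a.A k.1)) (val ω ((a.A k.1).A k.2)))
    (fun _ => (Named.val _).pair (Named.val _))
    (Φ := fun k ω => ok k ω ∧ ∀ k', In ω k' → ok k' ω → val ω (a.A k'.1) = val ω (a.A k.1) →
      ¬ WellOrderingRel k' k)
    fun k => (hok k).and (meas_forall fun k' => (hok k').imp ((meas_val_eq _ _).imp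
      measurable_const))
  refine ⟨b, ?_⟩
  filter_upwards [hb, ev_sigma (P := P) (S := fun i : a.I => (a.A i).I)] with ω h1 h2 y hy hne
  have hne' : {k : K | In ω k ∧ ok k ω ∧ val ω (a.A k.1) = y}.Nonempty := by
    obtain ⟨i, h3, h4, rfl⟩ := mem_val'.1 hy
    obtain ⟨z, hz⟩ := (ZFSet.eq_empty_or_nonempty _).resolve_left hne
    obtain ⟨j, h5, h6, -⟩ := mem_val'.1 hz
    exact ⟨⟨i, j⟩, h2 i h3 j h5, ⟨h3, h4, h5, h6⟩, rfl⟩
  obtain ⟨k, ⟨h3, h4, h5⟩, h6⟩ := (IsWellFounded.wf (r := @WellOrderingRel K)).has_min _ hne'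
  refine ⟨val ω ((a.A k.1).A k.2), h5 ▸ mem_val'.2 ⟨k.2, h4.2.2.1, h4.2.2.2, rfl⟩, fun w => ?_⟩
  rw [h1]
  constructor
  · rintro ⟨k', h7, ⟨h8, h9⟩, h10⟩
    rw [ZFSet.pair_inj] at h10
    rcases trichotomous_of WellOrderingRel k k' with h | rfl | h
    · exact absurd h (h9 k h3 h4 (h5.trans h10.1.symm))
    · exact h10.2.symm
    · exact absurd h (h6 k' ⟨h7, h8, h10.1⟩)
  · rintro rfl
    exact ⟨k, h3, ⟨h4, fun k' h7 h8 h9 => h6 k' ⟨h7, h8, h9.trans h5⟩⟩, by rw [h5]⟩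

/-- a bound for the variables of a formula -/
def Fm.bnd : Fm → ℕ
  | .mem i j => max i j + 1
  | .eq i j => max i j + 1
  | .neg a => a.bnd
  | .and a b => max a.bnd b.bnd
  | .all _ a => a.bnd

theorem sat_congr (A : Set ZFSet.{0}) (φ : Fm) {v v' : ℕ → ZFSet.{0}}
    (h : ∀ i < φ.bnd, v i = v' i) : Sat A φ v ↔ Sat A φ v' := by
  induction φ generalizing v v' with
  | mem i j =>
    simp only [Fm.bnd] at h
    simp only [Sat, h i (by omega), h j (by omega)]
  | eq i j =>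
    simp only [Fm.bnd] at h
    simp only [Sat, h i (by omega), h j (by omega)]
  | neg a ih => exact not_congr (ih h)
  | and a b iha ihb =>
    simp only [Fm.bnd] at h
    exact and_congr (iha fun i hi => h i (by omega)) (ihb fun i hi => h i (by omega))
  | all i a ih =>
    refine forall₂_congr fun x _ => ih fun j hj => ?_
    by_cases hij : j = i
    · subst hij; simp
    · simp [Function.update_of_ne hij, h j hj]

def Fm.enc : Fm → ℕ
  | .mem i j => Nat.pair 0 (Nat.pair i j)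
  | .eq i j => Nat.pair 1 (Nat.pair i j)
  | .neg a => Nat.pair 2 a.enc
  | .and a b => Nat.pair 3 (Nat.pair a.enc b.enc)
  | .all i a => Nat.pair 4 (Nat.pair i a.enc)

theorem Fm.enc_inj : Function.Injective Fm.enc := by
  intro a
  induction a with
  | mem i j => intro b h; cases b <;> simp_all [Fm.enc]
  | eq i j => intro b h; cases b <;> simp_all [Fm.enc]
  | neg a ih =>
    intro b h
    cases b <;> simp [Fm.enc] at h
    rw [ih h]
  | and a a' ih ih' =>
    intro b h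
    cases b <;> simp [Fm.enc] at h
    rw [ih h.1, ih' h.2]
  | all i a ih =>
    intro b h
    cases b <;> simp [Fm.enc] at h
    rw [h.1, ih h.2]

instance : Countable Fm := Fm.enc_inj.countable

theorem meas_sat {A : Om P → Set ZFSet.{0}} (hA : ∀ᶠ ω : Om P in gen P, A ω ⊆ MM ω)
    (hm : ∀ y, Measurable fun ω => val ω y ∈ A ω) (φ : Fm) (w : ℕ → Name P) :
    Measurable fun ω => Sat (A ω) φ fun i => val ω (w i) := by
  induction φ generalizing w with
  | mem i j => exact meas_val_mem _ _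
  | eq i j => exact meas_val_eq _ _
  | neg a ih => exact (ih w).not
  | and a b iha ihb => exact (iha w).and (ihb w)
  | all i a ih =>
    refine meas_congr (meas_forall (P := P) fun y : Name P =>
      (hm y).imp (ih (Function.update w i y))) ?_
    filter_upwards [hA] with ω h1
    have h2 : ∀ y, (fun j => val ω (Function.update w i y j)) =
        Function.update (fun j => val ω (w j)) i (val ω y) := fun y =>
      Function.comp_update (val ω) w i y
    simp only [h2, Sat]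
    constructor
    · intro h x hx
      obtain ⟨y, hy, rfl⟩ := h1 hx
      exact h y hy hx
    · intro h y _ hy
      exact h _ hy

theorem meas_sat_MM (φ : Fm) (w : ℕ → Name P) :
    Measurable fun ω => Sat (MM ω) φ fun i => val ω (w i) :=
  meas_sat (Eventually.of_forall fun _ => Subset.rfl) (fun y => meas_of_ev (Named.val y).mem_MM) φ w

theorem upd_val (ω : Om P) (w : ℕ → Name P) (i : ℕ) (y : Name P) :
    Function.update (fun j => val ω (w j)) i (val ω y) =
      fun j => val ω (Function.update w i y j) := (Function.comp_update (val ω) w i y).symm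

def nm0 : Name P := ⟨PEmpty, PEmpty.elim, PEmpty.elim⟩

theorem exists_list {T : Type v} {Z : Type w} (x0 : T) (f : T → Z) (Φ : T → Prop) {v : ℕ → Z}
    (hv : ∀ i, ∃ x, Φ x ∧ f x = v i) (n : ℕ) :
    ∃ l : List T, (∀ x ∈ l, Φ x) ∧ l.length = n ∧ ∀ i < n, f (l.getD i x0) = v i := by
  choose w hw1 hw2 using hv
  refine ⟨List.ofFn fun i : Fin n => w i, ?_, by simp, fun i hi => ?_⟩
  · intro x hx
    obtain ⟨i, rfl⟩ := (List.mem_ofFn' _ _).1 hx
    exact hw1 _
  · rw [List.getD_eq_getElem _ _ (by simpa using hi)]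
    simpa using hw2 i

theorem update_agree {v v' : ℕ → ZFSet.{0}} {n : ℕ} (h : ∀ i < n, v i = v' i) (j : ℕ)
    (y : ZFSet.{0}) : ∀ i < n, Function.update v j y i = Function.update v' j y i := by
  intro i hi
  by_cases hij : i = j
  · subst hij; simp
  · simp [Function.update_of_ne hij, h i hi]

theorem ev_separation : ∀ᶠ ω : Om P in gen P, ∀ (φ : Fm) (v : ℕ → ZFSet.{0}), (∀ i, v i ∈ MM ω) →
    ∀ x ∈ MM ω, ∃ s ∈ MM ω, ∀ y, y ∈ s ↔ y ∈ x ∧ Sat (MM ω) φ (Function.update v 0 y) := by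
  have h : ∀ φ : Fm, ∀ᶠ ω : Om P in gen P, ∀ l : List (Name P), (∀ x ∈ l, In ω x) → ∀ a : Name P,
      In ω a → ∃ s ∈ MM ω, ∀ y, y ∈ s ↔ y ∈ val ω a ∧
        Sat (MM ω) φ (Function.update (fun i => val ω (l.getD i nm0)) 0 y) := by
    refine fun φ => ev_diag_list fun l : List (Name P) => ev_diag fun a : Name P => ?_
    obtain ⟨b, hb⟩ := named_sep a (Ψ := fun ω y =>
      Sat (MM ω) φ (Function.update (fun i => val ω (l.getD i nm0)) 0 y)) fun y => by
        simp only [upd_val]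
        exact meas_sat_MM _ _
    filter_upwards [hb, (Named.val b).mem_MM] with ω h1 h2 using ⟨_, h2, h1⟩
  filter_upwards [eventually_countable_forall.2 h] with ω h1 φ v hv
  rintro _ ⟨a, ha, rfl⟩
  obtain ⟨l, h2, -, h3⟩ := exists_list nm0 (val ω) (fun x => In ω x) hv φ.bnd
  obtain ⟨s, h4, h5⟩ := h1 φ l h2 a ha
  refine ⟨s, h4, fun y => ?_⟩
  rw [h5, sat_congr _ φ (update_agree h3 0 y)]

theorem ev_collection : ∀ᶠ ω : Om P in gen P, ∀ (φ : Fm) (v : ℕ → ZFSet.{0}), (∀ i, v i ∈ MM ω) →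
    ∀ x ∈ MM ω, ∃ s ∈ MM ω, ∀ y ∈ x,
      (∃ z ∈ MM ω, Sat (MM ω) φ (Function.update (Function.update v 0 y) 1 z)) →
      ∃ z ∈ s, Sat (MM ω) φ (Function.update (Function.update v 0 y) 1 z) := by
  have h : ∀ φ : Fm, ∀ᶠ ω : Om P in gen P, ∀ l : List (Name P), (∀ x ∈ l, In ω x) → ∀ a : Name P,
      In ω a → ∃ s ∈ MM ω, ∀ y ∈ val ω a,
        (∃ z ∈ MM ω, Sat (MM ω) φ (Function.update (Function.update
          (fun i => val ω (l.getD i nm0)) 0 y) 1 z)) →
        ∃ z ∈ s, Sat (MM ω) φ (Function.update (Function.update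
          (fun i => val ω (l.getD i nm0)) 0 y) 1 z) := by
    refine fun φ => ev_diag_list fun l : List (Name P) => ev_diag fun a : Name P => ?_
    let Ψ : a.I → Name P → Om P → Prop := fun i w ω => Sat (MM ω) φ (Function.update
      (Function.update (fun i => val ω (l.getD i nm0)) 0 (val ω (a.A i))) 1 (val ω w))
    have hΨ : ∀ i w, Measurable (Ψ i w) := fun i w => by
      simp only [Ψ, upd_val]
      exact meas_sat_MM _ _
    have hw : ∀ k : a.I × P, ∃ w, (∃ w, Fc k.2 (Ψ k.1 w)) → Fc k.2 (Ψ k.1 w) := fun k => by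
      by_cases h : ∃ w, Fc k.2 (Ψ k.1 w)
      · obtain ⟨w, hw⟩ := h
        exact ⟨w, fun _ => hw⟩
      · exact ⟨nm0, fun h' => absurd h' h⟩
    choose w hw using hw
    obtain ⟨b, hb⟩ := compr (K := a.I × P) (Y := fun k ω => val ω (w k)) (fun _ => Named.val _)
      (Φ := fun _ _ => True) fun k => measurable_const
    filter_upwards [hb, (Named.val b).mem_MM,
      ev_diag fun i => ev_diag fun w => ev_truth (hΨ i w),
      ev_diag fun i => ev_forced fun q => Ψ i (w (i, q)),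
      ev_map₂ (P := P) (Prod.mk : a.I → P → a.I × P)] with ω h1 h2 h3 h4 h5
    refine ⟨_, h2, fun y hy ⟨z, ⟨w0, h6, h7⟩, h8⟩ => ?_⟩
    obtain ⟨i, h9, -, rfl⟩ := mem_val'.1 hy
    subst h7
    obtain ⟨q, h10, h11, h12⟩ := h3 i h9 w0 h6 h8
    exact ⟨_, (h1 _).2 ⟨(i, q), h5 i h9 q h11, trivial, rfl⟩,
      h4 i h9 q h11 h10 (hw (i, q) ⟨w0, h12⟩)⟩
  filter_upwards [eventually_countable_forall.2 h] with ω h1 φ v hv
  rintro _ ⟨a, ha, rfl⟩
  obtain ⟨l, h2, -, h3⟩ := exists_list nm0 (val ω) (fun x => In ω x) hv φ.bnd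
  obtain ⟨s, h4, h5⟩ := h1 φ l h2 a ha
  refine ⟨s, h4, fun y hy => ?_⟩
  simp only [← sat_congr _ φ (update_agree (update_agree h3 0 y) 1 _)]
  exact h5 y hy

/-- the hereditarily finite sets -/
noncomputable abbrev HF : ZFSet.{0} := ZFSet.vonNeumann Ordinal.omega0

instance : Countable HF := by
  rw [← Cardinal.mk_le_aleph0_iff, ZFSet.cardinalMk_coe_sort, ZFSet.card_vonNeumann]
  simp

theorem named_const (x : ZFSet.{0}) (hx : x ⊆ HF) : Named fun _ : Om P => x := by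
  induction x using ZFSet.inductionOn with
  | h x ih =>
    have : Countable x := Function.Injective.countable
      (f := fun y : x => (⟨y.1, hx y.2⟩ : HF)) fun a b h =>
        Subtype.ext (congrArg (Subtype.val : HF → _) h)
    obtain ⟨b, hb⟩ := compr_count (P := P) (K := x) (Y := fun k _ => k.1)
      (fun k => ih k.1 k.2 (ZFSet.isTransitive_vonNeumann _ _ (hx k.2)))
      (Φ := fun _ _ => True) fun _ => measurable_const
    refine ⟨b, hb.mono fun ω h => ?_⟩
    ext z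
    simp [h]

theorem ev_zfc : ∀ᶠ ω : Om P in gen P, IsZFC (MM ω) := by
  have h1 : ∀ᶠ ω : Om P in gen P, ∀ x : Name P, In ω x → ∀ y : Name P, In ω y →
      ({val ω x, val ω y} : ZFSet.{0}) ∈ MM ω :=
    ev_diag fun x : Name P => ev_diag fun y : Name P =>
      ((Named.val x).upair (Named.val y)).mem_MM
  have h2 : ∀ᶠ ω : Om P in gen P, ∀ x : Name P, In ω x →
      ∃ p ∈ MM ω, ∀ y ∈ MM ω, y ⊆ val ω x → y ∈ p := ev_diag fun x : Name P => by
    obtain ⟨b, hb⟩ := named_power x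
    filter_upwards [hb, (Named.val b).mem_MM] with ω h1 h2 using ⟨_, h2, h1⟩
  have h3 : ∀ᶠ ω : Om P in gen P, ∀ x : Name P, In ω x → ∃ f ∈ MM ω, ∀ y ∈ val ω x, y ≠ ∅ →
      ∃ z ∈ y, ∀ w, ZFSet.pair y w ∈ f ↔ w = z := ev_diag fun x : Name P => by
    obtain ⟨b, hb⟩ := named_choice x
    filter_upwards [hb, (Named.val b).mem_MM] with ω h1 h2 using ⟨_, h2, h1⟩
  filter_upwards [ev_trans (P := P), (named_const (P := P) _
    (Ordinal.toZFSet_subset_vonNeumann Ordinal.omega0)).mem_MM, h1,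
    ev_diag fun x : Name P => (named_sUnion x).mem_MM, h2, ev_separation (P := P),
    ev_collection (P := P), h3] with ω a1 a2 a3 a4 a5 a6 a7 a8
  refine ⟨a1, a2, ?_, ?_, ?_, a6, a7, ?_⟩
  · rintro _ ⟨x, hx, rfl⟩ _ ⟨y, hy, rfl⟩
    exact a3 x hx y hy
  · rintro _ ⟨x, hx, rfl⟩
    exact a4 x hx
  · rintro _ ⟨x, hx, rfl⟩
    exact a5 x hx
  · rintro _ ⟨x, hx, rfl⟩
    exact a8 x hx

end Pool.Agent.MP_e75763_lc

end MrgPart1

-- ======== part 2: formerly Pool.Agent.MP_e75763_lc.Reals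
section MrgPart2

/-! Reals and ordinals of the generic extension. -/

namespace Pool.Agent.MP_e75763_lc

open Filter Set

universe u v w

abbrev C : Type := ℕ → Bool

variable {P : Type u} [Preorder P]

theorem meas_decide {α : Type*} [MeasurableSpace α] {Φ : α → Prop} {_ : ∀ a, Decidable (Φ a)}
    (h : Measurable Φ) : Measurable fun a => decide (Φ a) := by
  refine measurable_to_bool ?_
  convert measurableSet_setOfPred.2 h using 1
  ext a
  simp

theorem meas_bit {α : Type*} [MeasurableSpace α] {X : α → C} (h : Measurable X) (n : ℕ)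
    (b : Bool) : Measurable fun a => X a n = b :=
  measurableSet_setOfPred.1 (((measurable_pi_apply n).comp h) (measurableSet_singleton b))

theorem meas_eqC {α : Type*} [MeasurableSpace α] {X Y : α → C} (h : Measurable X)
    (h' : Measurable Y) : Measurable fun a => X a = Y a :=
  measurableSet_setOfPred.1 (measurableSet_eq_fun h h')

theorem meas_memS {α β : Type*} [MeasurableSpace α] [MeasurableSpace β] {X : α → β}
    (h : Measurable X) {S : Set β} (hS : MeasurableSet S) : Measurable fun a => X a ∈ S :=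
  measurableSet_setOfPred.1 (h hS)

abbrev RN (P : Type u) : Type u := ℕ → Set P

open Classical in
noncomputable def ev (σ : RN P) (ω : Om P) : C := fun n => decide (∃ p ∈ ω.g, p ∈ σ n)

def RM (ω : Om P) : Set C := {x | ∃ σ : RN P, In ω σ ∧ ev σ ω = x}

theorem meas_ev (σ : RN P) : Measurable (ev σ) :=
  measurable_pi_lambda _ fun n => meas_decide (meas_exists_g (σ n))

theorem exists_ev {X : Om P → C} (h : Measurable X) :
    ∃ σ : RN P, ∀ᶠ ω : Om P in gen P, ev σ ω = X ω := by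
  refine ⟨fun n => {p | Fc p fun ω => X ω n = true}, ?_⟩
  filter_upwards [eventually_countable_forall.2 fun n => ev_truth (meas_bit h n true),
    eventually_countable_forall.2 fun n => ev_forced' _ (meas_bit h n true)] with ω h1 h2
  funext n
  rw [Bool.eq_iff_iff]
  simp only [ev, decide_eq_true_eq]
  exact ⟨fun ⟨p, h3, h4⟩ => h2 n p h3 h4, fun h3 => let ⟨q, h4, _, h5⟩ := h1 n h3; ⟨q, h4, h5⟩⟩

theorem ev_RM {X : Om P → C} (h : Measurable X) : ∀ᶠ ω : Om P in gen P, X ω ∈ RM ω := by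
  obtain ⟨σ, hσ⟩ := exists_ev h
  filter_upwards [hσ, ev_in (P := P) σ] with ω h1 h2 using ⟨σ, h2, h1⟩

theorem ev_diag_RM {Φ : C → Om P → Prop}
    (h : ∀ X : Om P → C, Measurable X → ∀ᶠ ω : Om P in gen P, Φ (X ω) ω) :
    ∀ᶠ ω : Om P in gen P, ∀ x ∈ RM ω, Φ x ω := by
  filter_upwards [ev_diag fun σ : RN P => h _ (meas_ev σ)] with ω h1
  rintro _ ⟨σ, h2, rfl⟩
  exact h1 σ h2

theorem meas_forall_RM {Φ : C → Om P → Prop}
    (h : ∀ X : Om P → C, Measurable X → Measurable fun ω => Φ (X ω) ω) :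
    Measurable fun ω => ∀ x ∈ RM ω, Φ x ω := by
  convert meas_forall fun σ : RN P => h _ (meas_ev σ) using 2 with ω
  refine ⟨fun h σ hσ => h _ ⟨σ, hσ, rfl⟩, ?_⟩
  rintro h _ ⟨σ, h2, rfl⟩
  exact h σ h2

theorem meas_exists_RM {Φ : C → Om P → Prop}
    (h : ∀ X : Om P → C, Measurable X → Measurable fun ω => Φ (X ω) ω) :
    Measurable fun ω => ∃ x ∈ RM ω, Φ x ω := by
  have := (meas_forall_RM (Φ := fun x ω => ¬ Φ x ω) fun X hX => (h X hX).not).not
  simpa using this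

theorem ev_fin (T : Type v) [Cd P T] [∀ k, Cd P (Fin k → T)] :
    ∀ᶠ ω : Om P in gen P, ∀ k (f : Fin k → T), (∀ i, In ω (f i)) → In ω f := by
  filter_upwards [eventually_countable_forall.2 fun k => ev_map₂ (P := P)
    (fun (x : T) (f : Fin k → T) => (Fin.cons x f : Fin (k + 1) → T)),
    ev_in (P := P) (Fin.elim0 : Fin 0 → T)] with ω h1 h2 k f hf
  induction k with
  | zero => exact (funext fun i => i.elim0 : Fin.elim0 = f) ▸ h2
  | succ k ih =>
    have := h1 k (f 0) (hf 0) (Fin.tail f) (ih _ fun i => hf _)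
    rwa [Fin.cons_self_tail] at this

theorem ev_diag_RM_fin (k : ℕ) {Φ : (Fin k → C) → Om P → Prop}
    (h : ∀ X : Om P → Fin k → C, Measurable X → ∀ᶠ ω : Om P in gen P, Φ (X ω) ω) :
    ∀ᶠ ω : Om P in gen P, ∀ v : Fin k → C, (∀ i, v i ∈ RM ω) → Φ v ω := by
  filter_upwards [ev_diag fun σ : Fin k → RN P => h (fun ω i => ev (σ i) ω)
    (measurable_pi_lambda _ fun i => meas_ev (σ i)), ev_fin (P := P) (RN P)] with ω h1 h2 v hv
  choose σ h3 h4 using hv
  have := h1 σ (h2 k σ h3)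
  rwa [funext h4] at this

/-- a selector of reals of the extension -/
noncomputable def sel (ω : Om P) (S : C → Prop) : C :=
  ev (least (IsWellFounded.wf (r := @WellOrderingRel (RN P))) (fun _ => ∅) ω
    fun σ => S (ev σ ω)) ω

theorem sel_spec {ω : Om P} {S : C → Prop} (h : ∃ x ∈ RM ω, S x) :
    sel ω S ∈ RM ω ∧ S (sel ω S) := by
  obtain ⟨_, ⟨σ, h1, rfl⟩, h2⟩ := h
  obtain ⟨h3, h4, -⟩ := least_spec (IsWellFounded.wf (r := @WellOrderingRel (RN P))) (fun _ => ∅)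
    (ω := ω) (Φ := fun σ => S (ev σ ω)) ⟨σ, h1, h2⟩
  exact ⟨⟨_, h3, rfl⟩, h4⟩

theorem meas_sel {S : Om P → C → Prop}
    (h : ∀ X : Om P → C, Measurable X → Measurable fun ω => S ω (X ω)) :
    Measurable fun ω => sel ω (S ω) :=
  (least_dv (IsWellFounded.wf (r := @WellOrderingRel (RN P))) (fun _ => ∅)
    (Φ := fun σ ω => S ω (ev σ ω)) fun σ => h _ (meas_ev σ)).subst_fun (X := ev) meas_ev

def col (i : ℕ) (y : C) : C := fun n => y (Nat.pair i n)

def mer (s : ℕ → C) : C := fun n => s n.unpair.1 n.unpair.2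

@[simp] theorem col_mer (i : ℕ) (s : ℕ → C) : col i (mer s) = s i := by
  funext n
  simp [col, mer]

theorem meas_col (i : ℕ) : Measurable (col i) :=
  measurable_pi_lambda _ fun _ => measurable_pi_apply _

theorem meas_mer {α : Type*} [MeasurableSpace α] {s : ℕ → α → C} (h : ∀ i, Measurable (s i)) :
    Measurable fun a => mer fun i => s i a :=
  measurable_pi_lambda _ fun _ => (measurable_pi_apply _).comp (h _)

/-- countable in the extension -/
def Ctb (ω : Om P) (Y : Set C) : Prop := ∃ y ∈ RM ω, ∀ x ∈ Y, ∃ i, col i y = x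

theorem Ctb.mono {ω : Om P} {Y Y' : Set C} (h : Ctb ω Y) (h' : Y' ⊆ Y) : Ctb ω Y' :=
  let ⟨y, h1, h2⟩ := h
  ⟨y, h1, fun x hx => h2 x (h' hx)⟩

theorem ev_ctb {s : ℕ → Om P → C} (h : ∀ i, Measurable (s i)) :
    ∀ᶠ ω : Om P in gen P, Ctb ω (range fun i => s i ω) := by
  filter_upwards [ev_RM (meas_mer h)] with ω h1
  exact ⟨_, h1, by
    rintro _ ⟨i, rfl⟩
    exact ⟨i, by simp⟩⟩

theorem ev_ctb_union : ∀ᶠ ω : Om P in gen P, ∀ Y Y', Ctb ω Y → Ctb ω Y' → Ctb ω (Y ∪ Y') := by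
  have : ∀ᶠ ω : Om P in gen P, ∀ y ∈ RM ω, ∀ y' ∈ RM ω,
      Ctb ω (range fun i => if i % 2 = 0 then col (i / 2) y else col (i / 2) y') :=
    ev_diag_RM fun X hX => ev_diag_RM fun Y hY => ev_ctb fun i => by
      split_ifs
      exacts [(meas_col _).comp hX, (meas_col _).comp hY]
  filter_upwards [this] with ω h Y Y' ⟨y, h1, h2⟩ ⟨y', h3, h4⟩
  refine (h y h1 y' h3).mono ?_
  rintro x (hx | hx)
  · obtain ⟨i, rfl⟩ := h2 x hx
    exact ⟨2 * i, by simp⟩
  · obtain ⟨i, rfl⟩ := h4 x hx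
    refine ⟨2 * i + 1, ?_⟩
    have : (2 * i + 1) / 2 = i := by omega
    simp [this]

theorem ev_ctb_singleton : ∀ᶠ ω : Om P in gen P, ∀ x ∈ RM ω, Ctb ω {x} :=
  ev_diag_RM fun X hX => (ev_ctb fun _ => hX).mono fun _ h => by simpa using h

theorem ev_not_ctb : ∀ᶠ ω : Om P in gen P, ¬ Ctb ω (RM ω) := by
  have : ∀ᶠ ω : Om P in gen P, ∀ y ∈ RM ω, (fun n => !col n y n) ∈ RM ω :=
    ev_diag_RM fun X hX => ev_RM (measurable_pi_lambda _ fun n =>
      (measurable_of_countable not).comp ((measurable_pi_apply _).comp hX))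
  filter_upwards [this] with ω h ⟨y, h1, h2⟩
  obtain ⟨i, hi⟩ := h2 _ (h y h1)
  simpa using congrFun hi i

theorem nat_mem_HF (n : ℕ) : nat n ∈ HF := by
  simp [nat, ZFSet.mem_vonNeumann, Ordinal.natCast_lt_omega0]

theorem nat_inj : Function.Injective nat := fun _ _ h => by
  simpa using Ordinal.toZFSet_injective h

instance : Infinite HF :=
  Infinite.of_injective (fun n => (⟨nat n, nat_mem_HF n⟩ : HF)) fun _ _ h =>
    nat_inj (congrArg Subtype.val h)

noncomputable def en : ℕ ≃ HF := Classical.choice nonempty_equiv_of_countable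

/-- the subset of `HF` with characteristic function `x` -/
noncomputable def hc (x : C) : ZFSet.{0} := ZFSet.range fun n : {n // x n = true} => (en n.1).1

theorem mem_hc {x : C} {z : ZFSet.{0}} : z ∈ hc x ↔ ∃ n, x n = true ∧ (en n).1 = z := by
  simp [hc]

theorem en_mem_hc {x : C} {n : ℕ} : (en n).1 ∈ hc x ↔ x n = true := by
  rw [mem_hc]
  exact ⟨fun ⟨m, h1, h2⟩ => en.injective (Subtype.ext h2) ▸ h1, fun h => ⟨n, h, rfl⟩⟩

theorem hc_subset (x : C) : hc x ⊆ HF := fun _ hz => by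
  obtain ⟨n, -, rfl⟩ := mem_hc.1 hz
  exact (en n).2

theorem hc_inj : Function.Injective hc := fun x y h => by
  funext n
  rw [Bool.eq_iff_iff, ← en_mem_hc, ← en_mem_hc, h]

open Classical in
/-- characteristic function of a subset of `HF` -/
noncomputable def bits (z : ZFSet.{0}) : C := fun n => decide ((en n).1 ∈ z)

theorem hc_bits {z : ZFSet.{0}} (h : z ⊆ HF) : hc (bits z) = z := by
  ext y
  rw [mem_hc]
  constructor
  · rintro ⟨n, h1, rfl⟩
    simpa [bits] using h1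
  · intro hy
    exact ⟨en.symm ⟨y, h hy⟩, by simpa [bits] using hy, by simp⟩

theorem bits_hc (x : C) : bits (hc x) = x := hc_inj (hc_bits (hc_subset x))

theorem HF_trans {x : ZFSet.{0}} (h : x ∈ HF) : x ⊆ HF := ZFSet.isTransitive_vonNeumann _ _ h

theorem named_hc {X : Om P → C} (h : Measurable X) : Named fun ω => hc (X ω) := by
  obtain ⟨b, hb⟩ := compr_count (P := P) (K := ℕ) (Y := fun n _ => (en n).1)
    (fun n => named_const _ (HF_trans (en n).2)) (Φ := fun n ω => X ω n = true)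
    fun n => meas_bit h n true
  refine ⟨b, hb.mono fun ω h => ?_⟩
  ext z
  rw [h, mem_hc]

theorem meas_bits {Z : Om P → ZFSet.{0}} (h : Named Z) : Measurable fun ω => bits (Z ω) :=
  measurable_pi_lambda _ fun n =>
    meas_decide ((named_const _ (HF_trans (en n).2)).meas_mem h)

theorem ev_hc_iff : ∀ᶠ ω : Om P in gen P, ∀ x, hc x ∈ MM ω ↔ x ∈ RM ω := by
  filter_upwards [ev_diag fun a : Name P => ev_RM (meas_bits (Named.val a)),
    ev_diag_RM (P := P) (Φ := fun x ω => hc x ∈ MM ω) fun X hX => (named_hc hX).mem_MM]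
    with ω h1 h2 x
  refine ⟨fun ⟨a, h3, h4⟩ => ?_, h2 x⟩
  have := h1 a h3
  rwa [h4, bits_hc] at this

/-- decided sets of reals are in the extension -/
theorem named_reals {Φ : C → Om P → Prop}
    (h : ∀ X : Om P → C, Measurable X → Measurable fun ω => Φ (X ω) ω) :
    ∃ b : Name P, ∀ᶠ ω : Om P in gen P, ∀ z, z ∈ val ω b ↔ ∃ x ∈ RM ω, Φ x ω ∧ hc x = z := by
  obtain ⟨b, hb⟩ := compr (P := P) (K := RN P) (Y := fun σ ω => hc (ev σ ω))
    (fun σ => named_hc (meas_ev σ)) (Φ := fun σ ω => Φ (ev σ ω) ω) fun σ => h _ (meas_ev σ)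
  refine ⟨b, hb.mono fun ω h z => ?_⟩
  rw [h]
  constructor
  · rintro ⟨σ, h1, h2⟩
    exact ⟨_, ⟨σ, h1, rfl⟩, h2⟩
  · rintro ⟨_, ⟨σ, h1, rfl⟩, h2⟩
    exact ⟨σ, h1, h2⟩

theorem small_cv (N : Set Obj.{u + 1}) (hN : N.Countable) (β : Ordinal.{u}) :
    Small.{0} {γ : Ordinal.{u} // γ < β ∧ (⟨_, γ⟩ : Obj.{u + 1}) ∈ N} :=
  haveI : Countable {γ : Ordinal.{u} // γ < β ∧ (⟨_, γ⟩ : Obj.{u + 1}) ∈ N} :=
    ((hN.preimage (f := fun γ : Ordinal.{u} => (⟨_, γ⟩ : Obj.{u + 1})) fun _ _ h => by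
      simpa using Sigma.mk.inj_iff.1 h).mono fun _ h => h.2 :
      {γ : Ordinal.{u} | γ < β ∧ (⟨_, γ⟩ : Obj.{u + 1}) ∈ N}.Countable).to_subtype
  Countable.toSmall _

noncomputable def cvN (N : Set Obj.{u + 1}) (hN : N.Countable) : Ordinal.{u} → ZFSet.{0} :=
  Ordinal.lt_wf.fix fun β ih => @ZFSet.range _ (small_cv N hN β) fun γ => ih γ.1 γ.2.1

/-- the collapse of a ground ordinal -/
noncomputable def cv (ω : Om P) : Ordinal.{u} → ZFSet.{0} := cvN ω.N ω.cN

theorem mem_cv {ω : Om P} {β : Ordinal.{u}} {z : ZFSet.{0}} :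
    z ∈ cv ω β ↔ ∃ γ < β, In ω γ ∧ cv ω γ = z := by
  rw [cv, cvN, WellFounded.fix_eq, @ZFSet.mem_range _ (small_cv _ ω.cN _)]
  exact ⟨fun ⟨γ, h⟩ => ⟨γ.1, γ.2.1, γ.2.2, h⟩, fun ⟨γ, h1, h2, h⟩ => ⟨⟨γ, h1, h2⟩, h⟩⟩

theorem cv_mono (ω : Om P) {β γ : Ordinal.{u}} (h : β ≤ γ) : cv ω β ⊆ cv ω γ := fun _ hz =>
  let ⟨δ, h1, h2⟩ := mem_cv.1 hz
  mem_cv.2 ⟨δ, h1.trans_le h, h2⟩

theorem cv_ord (ω : Om P) (β : Ordinal.{u}) : (cv ω β).IsOrdinal := by
  induction β using WellFoundedLT.induction with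
  | ind β ih =>
    rw [ZFSet.isOrdinal_iff_forall_mem_isOrdinal]
    refine ⟨fun y hy => ?_, fun y hy => ?_⟩
    · obtain ⟨γ, h1, -, rfl⟩ := mem_cv.1 hy
      exact cv_mono ω h1.le
    · obtain ⟨γ, h1, -, rfl⟩ := mem_cv.1 hy
      exact ih γ h1

theorem cv_mem_iff {ω : Om P} {β γ : Ordinal.{u}} (h : In ω γ) : cv ω γ ∈ cv ω β ↔ γ < β :=
  ⟨fun h1 => lt_of_not_ge fun h2 => ZFSet.mem_irrefl _ (cv_mono ω h2 h1),
    fun h1 => mem_cv.2 ⟨γ, h1, h, rfl⟩⟩

theorem cv_inj {ω : Om P} {β γ : Ordinal.{u}} (h : In ω γ) (h' : In ω β) (e : cv ω γ = cv ω β) :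
    γ = β := by
  rcases lt_trichotomy γ β with h1 | h1 | h1
  · exact absurd (e ▸ (cv_mem_iff h).2 h1) (ZFSet.mem_irrefl _)
  · exact h1
  · exact absurd (e ▸ (cv_mem_iff h').2 h1) (ZFSet.mem_irrefl _)

theorem ev_subtype {T : Type v} (p : T → Prop) [Cd P T] [Cd P (Subtype p)] :
    ∀ᶠ ω : Om P in gen P, ∀ x : Subtype p, In ω x ↔ In ω x.1 := by
  filter_upwards [ev_map (P := P) (Subtype.val : Subtype p → T),
    ev_diag fun x : T => ev_in_dep (P := P) fun h : p x => (⟨x, h⟩ : Subtype p)] with ω h1 h2 x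
  exact ⟨h1 x, fun h => h2 x.1 h x.2⟩

theorem named_cv (β : Ordinal.{u}) : Named fun ω : Om P => cv ω β := by
  induction β using WellFoundedLT.induction with
  | ind β ih =>
    obtain ⟨b, hb⟩ := compr (P := P) (K := Iio β) (Y := fun γ ω => cv ω γ.1)
      (fun γ => ih γ.1 γ.2) (Φ := fun _ _ => True) fun _ => measurable_const
    refine ⟨b, ?_⟩
    filter_upwards [hb, ev_subtype (P := P) (· ∈ Iio β)] with ω h1 h2
    ext z
    rw [h1, mem_cv]
    exact ⟨fun ⟨γ, h3, _, h4⟩ => ⟨γ.1, γ.2, (h2 γ).1 h3, h4⟩,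
      fun ⟨γ, h3, h4, h5⟩ => ⟨⟨γ, h3⟩, (h2 ⟨γ, h3⟩).2 h4, trivial, h5⟩⟩

noncomputable def Name.rk : Name P → Ordinal.{u}
  | ⟨_, A, _⟩ => ⨆ i, Order.succ (A i).rk

theorem ev_ord : ∀ᶠ ω : Om P in gen P, ∀ α ∈ MM ω, α.IsOrdinal → ∃ β, In ω β ∧ cv ω β = α := by
  filter_upwards [ev_sub (P := P), ev_map (P := P) (Name.rk (P := P))] with ω h1 h2
  have key : ∀ x : Name P, In ω x → (val ω x).rank ≤ (cv ω x.rk).rank := by
    intro x
    induction x with
    | mk I A c ih =>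
      intro hx
      refine ZFSet.rank_le_iff.2 fun z hz => ?_
      obtain ⟨i, h3, -, rfl⟩ := mem_val.1 hz
      have h4 : In ω (A i) := h1 _ hx i h3
      refine (ih i h4).trans_lt (ZFSet.rank_lt_of_mem ((cv_mem_iff (h2 _ h4)).2 ?_))
      exact (Order.lt_succ _).trans_le (Ordinal.le_iSup (fun i => Order.succ (A i).rk) i)
  rintro _ ⟨x, hx, rfl⟩ hα
  have h3 : val ω x ∈ cv ω (Order.succ x.rk) := by
    rw [← hα.rank_lt_iff_mem (cv_ord _ _)]
    exact (key x hx).trans_lt (ZFSet.rank_lt_of_mem ((cv_mem_iff (h2 _ hx)).2 (Order.lt_succ _)))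
  obtain ⟨γ, -, h4⟩ := mem_cv.1 h3
  exact ⟨γ, h4⟩

end Pool.Agent.MP_e75763_lc

end MrgPart2

-- ======== part 3: formerly Pool.Agent.MP_e75763_lc.Alg
section MrgPart3

/-! The groups and the two algebraic criteria (freeness and non-freeness). -/

namespace Pool.Agent.MP_e75763_lc

open Set PiNat

inductive Tag : Type
  | edge : ℕ → Tag
  | var : ℕ → ℕ → List Bool → Tag

def Tag.enc : Tag → ℕ × Option (ℕ × List Bool)
  | .edge c => (c, none)
  | .var k c t => (c, some (k, t))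

instance : Countable Tag :=
  Function.Injective.countable (f := Tag.enc) fun a b h => by
    cases a <;> cases b <;> simp_all [Tag.enc]

instance : Nonempty Tag := ⟨.edge 0⟩

abbrev J : Type := C × Tag

abbrev Zq : AddSubgroup ℚ := (Int.castAddHom ℚ).range

/-- data of a group -/
structure Dat where
  own : C × ℕ → Bool → C × ℕ
  oth : C × ℕ → Bool → C
  inj : ∀ e e' i i', own e i = own e' i' → e.2 = e'.2 → oth e i = oth e' i' → e = e'
  ne : ∀ e, own e false ≠ own e true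

namespace Dat

variable (D : Dat)

def vv (e : C × ℕ) (m : ℕ) (i : Bool) : J :=
  ((D.own e i).1, .var (D.own e i).2 e.2 (res (D.oth e i) m))

open Classical in
noncomputable def wt (j : J) (a : C) (k c : ℕ) (t : List Bool) : ℚ :=
  match j.2 with
  | .edge c' => ∑ i : Bool, if D.vv (j.1, c') t.length i = (a, .var k c t) then
      (t.length.factorial : ℚ) else 0
  | .var _ _ _ => 0

noncomputable def ct (a : C) (k c : ℕ) (t : List Bool) : (J →₀ ℚ) →ₗ[ℚ] ℚ :=
  Finsupp.linearCombination ℚ fun j => D.wt j a k c t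

noncomputable def G : AddSubgroup (J →₀ ℚ) where
  carrier := {h | ∀ a k c t, h (a, .var k c t) - D.ct a k c t h ∈ Zq}
  zero_mem' a k c t := by simp
  add_mem' {x y} hx hy a k c t := by
    convert add_mem (hx a k c t) (hy a k c t) using 1
    simp only [Finsupp.add_apply, map_add]
    ring
  neg_mem' {x} hx a k c t := by
    convert neg_mem (hx a k c t) using 1
    simp only [Finsupp.neg_apply, map_neg]
    ring

noncomputable def zz (e : C × ℕ) (q : ℚ) (n : ℕ) : J →₀ ℚ :=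
  Finsupp.single (e.1, .edge e.2) q +
    ∑ m ∈ Finset.range n, ∑ i : Bool, Finsupp.single (D.vv e m i) (m.factorial * q)

theorem vv_len {e : C × ℕ} {m : ℕ} {i : Bool} {a : C} {k c : ℕ} {t : List Bool}
    (h : D.vv e m i = (a, .var k c t)) : m = t.length := by
  simp only [vv, Prod.mk.injEq, Tag.var.injEq] at h
  rw [← h.2.2.2, res_length]

theorem wt_var (a : C) (k c : ℕ) (t : List Bool) (a' : C) (k' c' : ℕ) (t' : List Bool) :
    D.wt (a, .var k c t) a' k' c' t' = 0 := rfl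

theorem single_var_mem (a : C) (k c : ℕ) (t : List Bool) {q : ℚ} (hq : q ∈ Zq) :
    Finsupp.single (a, .var k c t) q ∈ D.G := by
  classical
  intro a' k' c' t'
  simp only [ct, Finsupp.linearCombination_single, wt_var, smul_zero, sub_zero,
    Finsupp.single_apply]
  split_ifs
  exacts [hq, zero_mem _]

theorem zz_mem (e : C × ℕ) (q : ℚ) (n : ℕ) (h : ∀ m, n ≤ m → (m.factorial : ℚ) * q ∈ Zq) :
    D.zz e q n ∈ D.G := by
  classical
  intro a k c t
  have h1 : D.ct a k c t (D.zz e q n) = ∑ i : Bool, if D.vv e t.length i = (a, .var k c t) then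
      (t.length.factorial : ℚ) * q else 0 := by
    have h0 : ∀ m i, D.wt (D.vv e m i) a k c t = 0 := fun _ _ => rfl
    simp only [zz, ct, map_add, map_sum, Finsupp.linearCombination_single, h0,
      mul_zero, Finset.sum_const_zero, add_zero, smul_eq_mul]
    simp only [wt, Finset.mul_sum]
    refine Finset.sum_congr rfl fun i _ => ?_
    split_ifs <;> ring
  have h2 : D.zz e q n (a, .var k c t) = ∑ m ∈ Finset.range n, ∑ i : Bool,
      if D.vv e m i = (a, .var k c t) then (m.factorial : ℚ) * q else 0 := by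
    simp only [zz, Finsupp.add_apply, Finsupp.finsetSum_apply, Finsupp.single_apply]
    simp
  rw [h1, h2]
  by_cases hn : t.length < n
  · rw [Finset.sum_eq_single t.length, sub_self]
    · exact zero_mem _
    · intro m _ hm
      exact Finset.sum_eq_zero fun i _ => if_neg fun h => hm (D.vv_len h)
    · intro h
      exact absurd (Finset.mem_range.2 hn) h
  · rw [Finset.sum_eq_zero, zero_sub]
    · refine neg_mem (sum_mem fun i _ => ?_)
      split_ifs
      exacts [h _ (not_lt.1 hn), zero_mem _]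
    · intro m hm
      exact Finset.sum_eq_zero fun i _ => if_neg fun h =>
        hn (D.vv_len h ▸ Finset.mem_range.1 hm)

theorem zz_edge (e : C × ℕ) (q : ℚ) (n : ℕ) (a : C) (c : ℕ) :
    D.zz e q n (a, .edge c) = Finsupp.single (e.1, Tag.edge e.2) q (a, .edge c) := by
  classical
  simp [zz, Finsupp.finsetSum_apply, Finsupp.single_apply, vv]

end Dat

noncomputable def iota : ℚ ≃ ℤ :=
  (Denumerable.equiv₂ ℚ ℤ).trans (Equiv.swap (Denumerable.equiv₂ ℚ ℤ 0) 0)

@[simp] theorem iota_zero : iota 0 = 0 := by simp [iota]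

theorem den_fact (q : ℚ) (m : ℕ) (h : q.den ≤ m) : (m.factorial : ℚ) * q ∈ Zq := by
  obtain ⟨k, hk⟩ := Nat.dvd_factorial q.pos h
  refine ⟨k * q.num, ?_⟩
  rw [hk]
  simp only [Int.coe_castAddHom, Int.cast_mul, Int.cast_natCast, Nat.cast_mul]
  rw [mul_comm (q.den : ℚ), mul_assoc, Rat.den_mul_eq_num]

namespace Dat

variable (D : Dat)

noncomputable def phi (j : J) (q : ℚ) : J →₀ ℚ :=
  match j.2 with
  | .edge c => D.zz (j.1, c) q q.den
  | .var _ _ _ => Finsupp.single j (iota q)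

theorem phi_zero (j : J) : D.phi j 0 = 0 := by
  obtain ⟨a, _ | _⟩ := j <;> simp [phi, zz]

theorem phi_mem (j : J) (q : ℚ) : D.phi j q ∈ D.G := by
  obtain ⟨a, _ | _⟩ := j
  · exact D.zz_mem _ _ _ (den_fact q)
  · exact D.single_var_mem _ _ _ _ ⟨_, rfl⟩

noncomputable def Phi (u : J →₀ ℚ) : J →₀ ℚ := u.sum D.phi

theorem Phi_mem (u : J →₀ ℚ) : D.Phi u ∈ D.G := sum_mem fun _ _ => D.phi_mem _ _

theorem Phi_edge (u : J →₀ ℚ) (a : C) (c : ℕ) : D.Phi u (a, .edge c) = u (a, .edge c) := by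
  classical
  rw [Phi, Finsupp.sum_apply]
  conv_rhs => rw [← u.sum_single, Finsupp.sum_apply]
  refine Finsupp.sum_congr ?_
  rintro ⟨b, _ | _⟩ -
  · exact D.zz_edge _ _ _ _ _
  · simp [phi, Finsupp.single_apply]

def isE (j : J) : Prop := ∃ c, j.2 = .edge c

open Classical in
theorem Phi_var (u : J →₀ ℚ) (a : C) (k c : ℕ) (t : List Bool) :
    D.Phi u (a, .var k c t) =
      D.Phi (u.filter isE) (a, .var k c t) + iota (u (a, .var k c t)) := by
  have h1 : D.Phi (u.filter fun j => ¬ isE j) (a, .var k c t) = iota (u (a, .var k c t)) := by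
    rw [Phi, Finsupp.sum_apply, Finsupp.sum_eq_single (a, .var k c t)]
    · simp [phi, isE]
    · rintro ⟨b, _ | _⟩ h1 h2
      · simp [isE] at h1
      · exact Finsupp.single_eq_of_ne h2.symm
    · simp [phi_zero]
  rw [← h1, ← Finsupp.add_apply, Phi, Phi, Phi, ← Finsupp.sum_add_index_of_disjoint,
    Finsupp.filter_add_filter_not]
  simp only [Finsupp.support_filter]
  exact Finset.disjoint_filter_filter_not _ _ _

theorem Phi_inj : Function.Injective D.Phi := by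
  classical
  intro u u' h
  have h1 : u.filter isE = u'.filter isE := by
    ext ⟨a, _ | _⟩
    · simp only [Finsupp.filter_apply, isE, Tag.edge.injEq, exists_eq', if_true]
      rw [← D.Phi_edge, h, D.Phi_edge]
    · simp [isE]
  ext ⟨a, c | ⟨k, c, t⟩⟩
  · rw [← D.Phi_edge, h, D.Phi_edge]
  · have := D.Phi_var u a k c t
    rw [h, D.Phi_var u', h1] at this
    simpa using this.symm

theorem Phi_surj {h : J →₀ ℚ} (hh : h ∈ D.G) : ∃ u, D.Phi u = h := by
  classical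
  let h' := h - D.Phi (h.filter isE)
  have h1 : ∀ a c, h' (a, .edge c) = 0 := fun a c => by
    simp [h', Phi_edge, isE]
  have h2 : ∀ a k c t, h' (a, .var k c t) ∈ Zq := fun a k c t => by
    have := sub_mem hh (D.Phi_mem (h.filter isE)) a k c t
    rwa [show D.ct a k c t (h - D.Phi (h.filter isE)) = 0 from ?_, sub_zero] at this
    rw [ct, Finsupp.linearCombination_apply]
    refine Finset.sum_eq_zero ?_
    rintro ⟨b, _ | _⟩ h3
    · exact absurd (h1 _ _) (Finsupp.mem_support_iff.1 h3)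
    · simp [wt_var]
  let u := h.filter isE + h'.mapRange (fun q => iota.symm q.num) (by
    simp [Equiv.symm_apply_eq])
  have h3 : u.filter isE = h.filter isE := by
    ext ⟨a, _ | _⟩
    · simp [u, isE, h1, Equiv.symm_apply_eq]
    · simp [isE]
  refine ⟨u, ?_⟩
  ext ⟨a, c | ⟨k, c, t⟩⟩
  · simp [Phi_edge, u, isE, h1, Equiv.symm_apply_eq]
  · rw [Phi_var, h3]
    obtain ⟨z, hz⟩ := h2 a k c t
    have h4 : u (a, .var k c t) = iota.symm z := by
      simp [u, isE, ← hz]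
    rw [h4, Equiv.apply_symm_apply]
    simp only [Int.coe_castAddHom, h', Finsupp.sub_apply] at hz
    rw [hz]
    ring

theorem zz_rel (e : C × ℕ) (n : ℕ) :
    n.factorial • D.zz e (1 / n.factorial) n - D.zz e 1 0 =
      ∑ m ∈ Finset.range n, ∑ i : Bool, m.factorial • Finsupp.single (D.vv e m i) (1 : ℚ) := by
  have : (n.factorial : ℚ) ≠ 0 := by positivity
  simp only [zz, smul_add, Finset.smul_sum, Finsupp.smul_single, nsmul_eq_mul, Finset.range_zero,
    Finset.sum_empty, add_zero, mul_one_div_cancel this, add_sub_cancel_left, mul_one]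
  refine Finset.sum_congr rfl fun m _ => Finset.sum_congr rfl fun i _ => ?_
  congr 1
  field_simp

theorem zz_mem' (e : C × ℕ) (n : ℕ) : D.zz e (1 / n.factorial) n ∈ D.G := by
  refine D.zz_mem _ _ _ fun m hm => ?_
  obtain ⟨k, hk⟩ := Nat.factorial_dvd_factorial hm
  have : (n.factorial : ℚ) ≠ 0 := by positivity
  refine ⟨k, ?_⟩
  rw [hk]
  simp only [Int.coe_castAddHom, Int.cast_natCast, Nat.cast_mul]
  field_simp

end Dat

section Criteria

variable {G : Type} [AddCommGroup G]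

theorem mem_closure_of_div {B B0 : Set G} (hB : LinearIndepOn ℤ id B)
    (hs : AddSubgroup.closure B = ⊤) (h0 : B0 ⊆ B) {x : G} (g : ℕ → G)
    (hg : ∀ n, n.factorial • g n - x ∈ AddSubgroup.closure B0) : x ∈ AddSubgroup.closure B0 := by
  have hsp : ⊤ ≤ Submodule.span ℤ (range fun b : B => id b.1) := by
    intro y _
    have : y ∈ AddSubgroup.closure B := hs ▸ AddSubgroup.mem_top y
    rw [← Submodule.span_int_eq_addSubgroupClosure] at this
    simpa using this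
  let b := Module.Basis.mk hB hsp
  have h1 : ∀ y ∈ AddSubgroup.closure B0, ∀ i : B, i.1 ∉ B0 → b.repr y i = 0 := by
    intro y hy i hi
    induction hy using AddSubgroup.closure_induction with
    | mem y hy =>
      have : y = b ⟨y, h0 hy⟩ := by simp [b]
      rw [this, b.repr_self, Finsupp.single_eq_of_ne]
      rintro rfl
      exact hi hy
    | zero => simp
    | add y z _ _ h1 h2 => simp [h1, h2]
    | neg y _ h1 => simp [h1]
  have h2 : ∀ i : B, i.1 ∉ B0 → b.repr x i = 0 := by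
    intro i hi
    have h3 := h1 _ (hg ((b.repr x i).natAbs + 1)) i hi
    rw [map_sub, map_nsmul, Finsupp.sub_apply, Finsupp.smul_apply, nsmul_eq_mul,
      sub_eq_zero] at h3
    refine Int.eq_zero_of_dvd_of_natAbs_lt_natAbs (Dvd.intro _ h3) ?_
    rw [Int.natAbs_natCast]
    exact Nat.lt_of_lt_of_le (Nat.lt_succ_self _) (Nat.self_le_factorial _)
  rw [← b.linearCombination_repr x, Finsupp.linearCombination_apply]
  refine sum_mem fun i hi => ?_
  refine zsmul_mem (AddSubgroup.subset_closure ?_) _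
  by_contra h3
  exact Finsupp.mem_support_iff.1 hi (h2 i (by simpa [b] using h3))

theorem supp_of_mem_closure (θ : G →+ (J →₀ ℚ)) {B : Set G} {x : G}
    (hx : x ∈ AddSubgroup.closure B) {j : J} (hj : θ x j ≠ 0) : ∃ b ∈ B, θ b j ≠ 0 := by
  by_contra h
  push Not at h
  refine hj ?_
  induction hx using AddSubgroup.closure_induction with
  | mem y hy => exact h y hy
  | zero => simp
  | add y z _ _ h1 h2 =>
    simp only [map_add, Finsupp.add_apply]
    by_cases h3 : θ y j = 0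
    · by_cases h4 : θ z j = 0
      · simp [h3, h4]
      · exact absurd (h2 h4) h4
    · exact absurd (h1 h3) h3
  | neg y _ h1 =>
    by_cases h3 : θ y j = 0
    · simp [h3]
    · exact absurd (h1 h3) h3

variable {W : Type*} [LinearOrder W]

def Lead (key : J → W) (h : J →₀ ℚ) (j : J) : Prop := h j ≠ 0 ∧ ∀ j', h j' ≠ 0 → key j' ≤ key j

theorem exists_lead (key : J → W) {h : J →₀ ℚ} (hh : h ≠ 0) : ∃ j, Lead key h j := by
  obtain ⟨j, h1, h2⟩ := h.support.exists_max_image key (Finsupp.support_nonempty_iff.2 hh)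
  exact ⟨j, Finsupp.mem_support_iff.1 h1, fun j' h3 => h2 j' (Finsupp.mem_support_iff.2 h3)⟩

/-- elements with minimal positive leading coefficient -/
def MinLead (key : J → W) (S : Set (J →₀ ℚ)) (j : J) (b : J →₀ ℚ) : Prop :=
  b ∈ S ∧ Lead key b j ∧ 0 < b j ∧ ∀ h ∈ S, Lead key h j → 0 < h j → b j ≤ h j

theorem exists_minLead (key : J → W) (S : AddSubgroup (J →₀ ℚ)) {j : J} {N : ℕ} (hN : 0 < N)
    (hC : ∀ h ∈ S, Lead key h j → (N : ℚ) * h j ∈ Zq) {h : J →₀ ℚ} (hh : h ∈ S)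
    (hl : Lead key h j) : ∃ b, MinLead key S j b := by
  classical
  have h1 : ∀ h ∈ S, Lead key h j → 0 < h j → ∃ n : ℕ, (N : ℚ) * h j = n := by
    intro h h2 h3 h4
    obtain ⟨z, hz⟩ := hC h h2 h3
    have h5 : (0 : ℚ) ≤ z := by
      rw [show (z : ℚ) = N * h j from hz]
      positivity
    lift z to ℕ using (by exact_mod_cast h5)
    exact ⟨z, by simpa using hz.symm⟩
  have h2 : ∃ n : ℕ, ∃ h ∈ S, Lead key h j ∧ 0 < h j ∧ (N : ℚ) * h j = n := by
    rcases hl.1.lt_or_gt with h3 | h3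
    · have h4 : Lead key (-h) j := ⟨by simpa using hl.1, fun j' h5 => hl.2 j' (by simpa using h5)⟩
      have h5 : 0 < (-h) j := by simpa using h3
      obtain ⟨n, hn⟩ := h1 _ (neg_mem hh) h4 h5
      exact ⟨n, _, neg_mem hh, h4, h5, hn⟩
    · obtain ⟨n, hn⟩ := h1 _ hh hl h3
      exact ⟨n, _, hh, hl, h3, hn⟩
  obtain ⟨b, h3, h4, h5, h6⟩ := Nat.find_spec h2
  refine ⟨b, h3, h4, h5, fun h h7 h8 h9 => ?_⟩
  obtain ⟨n, hn⟩ := h1 h h7 h8 h9
  have h10 : (Nat.find h2 : ℚ) ≤ n := by exact_mod_cast Nat.find_min' h2 ⟨h, h7, h8, h9, hn⟩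
  rw [← h6, ← hn] at h10
  exact le_of_mul_le_mul_left h10 (by exact_mod_cast hN)

theorem basis_crit [WellFoundedLT W] (θ : G →+ (J →₀ ℚ)) (hθ : Function.Injective θ)
    (key : J → W) (H : AddSubgroup G) {Jr : Set J} (hk : InjOn key Jr)
    (hH : ∀ x ∈ H, ∀ j, θ x j ≠ 0 → j ∈ Jr) {B : Set G}
    (h1 : ∀ b ∈ B, b ∈ H ∧ ∃ j, MinLead key (H.map θ) j (θ b))
    (h2 : ∀ b ∈ B, ∀ b' ∈ B, ∀ j, Lead key (θ b) j → Lead key (θ b') j → b = b')
    (h3 : ∀ x ∈ H, ∀ j, Lead key (θ x) j → ∃ b ∈ B, Lead key (θ b) j) :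
    LinearIndepOn ℤ id B ∧ AddSubgroup.closure B = H := by
  classical
  have hu : ∀ x ∈ H, ∀ j j', Lead key (θ x) j → Lead key (θ x) j' → j = j' :=
    fun x hx j j' h h' => hk (hH x hx j h.1) (hH x hx j' h'.1)
      (le_antisymm (h'.2 j h.1) (h.2 j' h'.1))
  refine ⟨linearIndepOn_iff'.2 fun t g ht hs => ?_, le_antisymm ?_ ?_⟩
  · by_contra hne
    push Not at hne
    choose! ld hld using fun b hb => (h1 b hb).2
    obtain ⟨b, h4, h5⟩ := (t.filter fun b => g b ≠ 0).exists_max_image (fun b => key (ld b))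
      (let ⟨b, h4, h5⟩ := hne; ⟨b, Finset.mem_filter.2 ⟨h4, h5⟩⟩)
    rw [Finset.mem_filter] at h4
    have h6 := congrArg (fun x => θ x (ld b)) hs
    simp only [id, map_sum, map_zsmul, Finsupp.finsetSum_apply, map_zero, Finsupp.zero_apply,
      Finsupp.smul_apply] at h6
    rw [Finset.sum_eq_single b] at h6
    · rcases smul_eq_zero.1 h6 with h7 | h7
      exacts [h4.2 h7, (hld b (ht h4.1)).2.1.1 h7]
    · intro b' h7 h8
      by_cases h9 : g b' = 0
      · simp [h9]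
      by_contra h10
      have h11 : θ b' (ld b) ≠ 0 := fun h => h10 (by simp [h])
      have h12 := (hld b' (ht h7)).2.1
      refine h8 (h2 b' (ht h7) b (ht h4.1) (ld b) ⟨h11, fun j' hj' => (h12.2 j' hj').trans ?_⟩
        (hld b (ht h4.1)).2.1)
      exact h5 b' (Finset.mem_filter.2 ⟨h7, h9⟩)
    · intro h
      exact absurd h4.1 h
  · exact (AddSubgroup.closure_le _).2 fun b hb => (h1 b hb).1
  · have key' : ∀ w, ∀ x ∈ H, ∀ j, Lead key (θ x) j → key j = w → x ∈ AddSubgroup.closure B := by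
      intro w
      induction w using WellFoundedLT.induction with
      | ind w ih =>
        intro x hx j hj hw
        obtain ⟨b, hb, h4⟩ := h3 x hx j hj
        obtain ⟨hbH, j', h5⟩ := h1 b hb
        obtain rfl := hu b hbH _ _ h4 h5.2.1
        let n := ⌊θ x j / θ b j⌋
        have hy : x - n • b ∈ H := sub_mem hx (zsmul_mem hbH n)
        have h6 : ∀ j', θ (x - n • b) j' ≠ 0 → key j' ≤ key j := by
          intro j' h7
          by_cases h8 : θ x j' = 0
          · exact h4.2 j' fun h9 => h7 (by simp [h8, h9])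
          · exact hj.2 j' h8
        have h7 : θ (x - n • b) j = θ x j - n * θ b j := by simp
        have h8 : θ (x - n • b) j = 0 := by
          by_contra h9
          have h10 : 0 ≤ θ (x - n • b) j := by
            rw [h7, sub_nonneg, ← le_div_iff₀ h5.2.2.1]
            exact Int.floor_le _
          have h11 := h5.2.2.2 _ ⟨_, hy, rfl⟩ ⟨h9, h6⟩ (lt_of_le_of_ne h10 (Ne.symm h9))
          have h12 := Int.lt_floor_add_one (θ x j / θ b j)
          rw [div_lt_iff₀ h5.2.2.1] at h12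
          rw [h7] at h11
          linarith
        have h9 : x - n • b ∈ AddSubgroup.closure B := by
          by_cases h10 : θ (x - n • b) = 0
          · rw [hθ (h10.trans θ.map_zero.symm)]
            exact zero_mem _
          · obtain ⟨j', h11⟩ := exists_lead key h10
            refine ih (key j') (hw ▸ lt_of_le_of_ne (h6 j' h11.1) fun h12 => ?_) _ hy j' h11 rfl
            exact h11.1 (hk (hH _ hy j' h11.1) (hH x hx j hj.1) h12 ▸ h8)
        simpa using add_mem h9 (zsmul_mem (AddSubgroup.subset_closure hb) n)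
    intro x hx
    by_cases h10 : θ x = 0
    · rw [hθ (h10.trans θ.map_zero.symm)]
      exact zero_mem _
    · obtain ⟨j, hj⟩ := exists_lead key h10
      exact key' _ x hx j hj rfl

end Criteria

end Pool.Agent.MP_e75763_lc

end MrgPart3

-- ======== part 4: formerly Pool.Agent.MP_e75763_lc.Rank
section MrgPart4

/-! The ranking of coordinates that gives bounded leading denominators. -/

namespace Pool.Agent.MP_e75763_lc

open Set PiNat

variable {W : Type} [LinearOrder W]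

def okey (ρ : C → W) (o : C × ℕ) : W ×ₗ ℕ := toLex (ρ o.1, o.2)

namespace Dat

variable (D : Dat)

open Classical in
noncomputable def side (ρ : C → W) (e : C × ℕ) : Bool :=
  decide (okey ρ (D.own e false) < okey ρ (D.own e true))

noncomputable def idx (y : C) (u : C) : ℕ := sInf {n | col n y = u}

noncomputable def kk (y : C) (t : List Bool) : ℕ := sInf {n | res (col n y) t.length = t}

abbrev KT (W : Type) : Type := (W ×ₗ ℕ) ×ₗ ℕ ×ₗ ℕ ×ₗ ℕ

noncomputable def key (ρ : C → W) (y : C × ℕ → C) (j : J) : KT W :=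
  match j.2 with
  | .edge c => toLex (okey ρ (D.own (j.1, c) (D.side ρ (j.1, c))), toLex
      (idx (y (D.own (j.1, c) (D.side ρ (j.1, c)))) (D.oth (j.1, c) (D.side ρ (j.1, c))),
        toLex (0, c)))
  | .var k c t => toLex (okey ρ (j.1, k), toLex (kk (y (j.1, k)) t,
      toLex (t.length + 1, Encodable.encode (c, t))))

def Rel (X : Set C) : Set J := {j | j.1 ∈ X ∧ ∀ c, j.2 = .edge c → ∀ i, (D.own (j.1, c) i).1 ∈ X}

/-- the hypotheses on the ranking data -/
structure RkHyp (X : Set C) (ρ : C → W) (y : C × ℕ → C) : Prop where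
  inj : InjOn ρ X
  cov : ∀ e : C × ℕ, (e.1, Tag.edge e.2) ∈ D.Rel X →
    ∃ n, col n (y (D.own e (D.side ρ e))) = D.oth e (D.side ρ e)

variable {D} {X : Set C} {ρ : C → W} {y : C × ℕ → C}

omit [LinearOrder W] in
theorem okey_inj (h : InjOn ρ X) {o o' : C × ℕ} (ho : o.1 ∈ X) (ho' : o'.1 ∈ X)
    (e : okey ρ o = okey ρ o') : o = o' := by
  simp only [okey, toLex_inj, Prod.mk.injEq] at e
  exact Prod.ext (h ho ho' e.1) e.2

theorem RkHyp.col_idx (h : D.RkHyp X ρ y) {e : C × ℕ} (he : (e.1, Tag.edge e.2) ∈ D.Rel X) :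
    col (idx (y (D.own e (D.side ρ e))) (D.oth e (D.side ρ e))) (y (D.own e (D.side ρ e))) =
      D.oth e (D.side ρ e) := Nat.sInf_mem (h.cov e he)

theorem RkHyp.key_inj (h : D.RkHyp X ρ y) : InjOn (D.key ρ y) (D.Rel X) := by
  rintro ⟨a, c | ⟨k, c, t⟩⟩ ha ⟨a', c' | ⟨k', c', t'⟩⟩ ha' e <;>
    simp only [key, toLex_inj, Prod.mk.injEq] at e
  · obtain ⟨e1, e2, -, rfl⟩ := e
    have e3 := okey_inj h.inj (ha.2 c rfl _) (ha'.2 c rfl _) e1
    have := D.inj _ _ _ _ e3 rfl (by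
      rw [← h.col_idx (e := (a, c)) ha, ← h.col_idx (e := (a', c)) ha', e2, e3])
    have h1 : a = a' := congrArg Prod.fst this
    rw [h1]
  · omega
  · omega
  · obtain ⟨e1, -, -, e2⟩ := e
    have e3 := okey_inj (o := (a, k)) (o' := (a', k')) h.inj ha.1 ha'.1 e1
    have e4 := Encodable.encode_injective e2
    simp only [Prod.mk.injEq] at e3 e4
    rw [e3.1, e3.2, e4.1, e4.2]

theorem RkHyp.side_lt (h : D.RkHyp X ρ y) {e : C × ℕ} (he : (e.1, Tag.edge e.2) ∈ D.Rel X)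
    {i : Bool} (hi : i ≠ D.side ρ e) : okey ρ (D.own e i) < okey ρ (D.own e (D.side ρ e)) := by
  have hne : okey ρ (D.own e false) ≠ okey ρ (D.own e true) := fun e' =>
    D.ne e (okey_inj h.inj (he.2 _ rfl _) (he.2 _ rfl _) e')
  by_cases h1 : okey ρ (D.own e false) < okey ρ (D.own e true)
  · have : D.side ρ e = true := by simp [side, h1]
    rw [this] at hi ⊢
    rwa [Bool.eq_false_iff.2 hi]
  · have : D.side ρ e = false := by simp [side, h1]
    rw [this] at hi ⊢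
    rw [Bool.eq_true_of_not_eq_false hi]
    exact lt_of_le_of_ne (not_lt.1 h1) hne.symm

theorem wt_ne {j : J} {a : C} {k c : ℕ} {t : List Bool} (h : D.wt j a k c t ≠ 0) :
    ∃ c' i, j.2 = .edge c' ∧ D.vv (j.1, c') t.length i = (a, .var k c t) := by
  obtain ⟨b, c' | _⟩ := j
  · by_contra h1
    push Not at h1
    exact h (Finset.sum_eq_zero fun i _ => if_neg (h1 c' i rfl))
  · exact absurd rfl h

theorem vv_eq {e : C × ℕ} {m : ℕ} {i : Bool} {a : C} {k c : ℕ} {t : List Bool}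
    (h : D.vv e m i = (a, .var k c t)) : D.own e i = (a, k) ∧ e.2 = c ∧ res (D.oth e i) m = t := by
  simp only [vv, Prod.mk.injEq, Tag.var.injEq] at h
  exact ⟨Prod.ext h.1 h.2.1, h.2.2⟩

/-- an edge that uses a variable is large, unless it is the distinguished one -/
theorem RkHyp.use (h : D.RkHyp X ρ y) {e : C × ℕ} (he : (e.1, Tag.edge e.2) ∈ D.Rel X)
    {i : Bool} {a : C} {k c : ℕ} {t : List Bool} (hv : D.vv e t.length i = (a, .var k c t)) :
    toLex (okey ρ (a, k), kk (y (a, k)) t) <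
      toLex (okey ρ (D.own e (D.side ρ e)),
        idx (y (D.own e (D.side ρ e))) (D.oth e (D.side ρ e))) ∨
    (i = D.side ρ e ∧ idx (y (a, k)) (D.oth e i) = kk (y (a, k)) t) := by
  obtain ⟨h1, -, h2⟩ := vv_eq hv
  rw [Prod.Lex.toLex_lt_toLex]
  by_cases hi : i = D.side ρ e
  · subst hi
    rw [h1]
    have h3 := h.col_idx he
    rw [h1] at h3
    have h4 : kk (y (a, k)) t ≤ idx (y (a, k)) (D.oth e (D.side ρ e)) :=
      Nat.sInf_le (show res _ _ = _ by rw [h3, h2])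
    rcases h4.lt_or_eq with h5 | h5
    · exact Or.inl (Or.inr ⟨rfl, h5⟩)
    · exact Or.inr ⟨rfl, h5.symm⟩
  · exact Or.inl (Or.inl (h1 ▸ h.side_lt he hi))

theorem key_lt_of {w w' : W ×ₗ ℕ} {n n' : ℕ} (h : toLex (w, n) < toLex (w', n')) (x x' : ℕ ×ₗ ℕ) :
    (toLex (w, toLex (n, x)) : KT W) < toLex (w', toLex (n', x')) := by
  simp only [Prod.Lex.toLex_lt_toLex] at h ⊢
  tauto

theorem RkHyp.lemA (h : D.RkHyp X ρ y) {e : C × ℕ} (he : (e.1, Tag.edge e.2) ∈ D.Rel X) {m : ℕ}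
    (hm : kk (y (D.own e (D.side ρ e))) (res (D.oth e (D.side ρ e)) m) =
      idx (y (D.own e (D.side ρ e))) (D.oth e (D.side ρ e)))
    {f : J →₀ ℚ} (hf : f ∈ D.G) (hs : ∀ j, f j ≠ 0 → j ∈ D.Rel X) {x : ℕ ×ₗ ℕ}
    (hx : x < toLex (m + 1, 0))
    (hl : ∀ j, f j ≠ 0 → D.key ρ y j ≤ toLex (okey ρ (D.own e (D.side ρ e)), toLex
      (idx (y (D.own e (D.side ρ e))) (D.oth e (D.side ρ e)), x))) :
    (m.factorial : ℚ) * f (e.1, .edge e.2) ∈ Zq := by
  classical
  set s := D.side ρ e with hs'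
  have h1 := hf (D.own e s).1 (D.own e s).2 e.2 (res (D.oth e s) m)
  have h2 : f ((D.own e s).1, .var (D.own e s).2 e.2 (res (D.oth e s) m)) = 0 := by
    by_contra h3
    refine (hl _ h3).not_gt ?_
    simp only [key, hm, Prod.Lex.toLex_lt_toLex, res_length, lt_irrefl, true_and, false_or]
    refine hx.trans_le ?_
    simp [Prod.Lex.toLex_le_toLex]
  rw [h2, zero_sub, neg_mem_iff, ct, Finsupp.linearCombination_apply,
    Finsupp.sum_eq_single (e.1, .edge e.2)] at h1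
  · convert h1 using 1
    simp only [wt, res_length, smul_eq_mul]
    rw [mul_comm, Finset.sum_eq_single s, if_pos (by rfl)]
    · intro i _ hi
      refine if_neg fun h3 => ?_
      have h4 := (vv_eq h3).1
      have h5 := h.side_lt he hi
      rw [h4] at h5
      exact lt_irrefl _ h5
    · simp
  · rintro ⟨a, τ⟩ h3 h4
    by_contra h5
    obtain ⟨c', i, h6, h7⟩ := wt_ne (right_ne_zero_of_smul h5)
    simp only at h6 h7
    subst h6
    rcases h.use (e := (a, c')) (hs _ h3) h7 with h8 | ⟨h8, h9⟩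
    · refine (hl _ h3).not_gt ?_
      rw [hm] at h8
      exact key_lt_of h8 _ _
    · obtain ⟨h10, h11, -⟩ := vv_eq h7
      have h12 := h.col_idx (e := (a, c')) (hs _ h3)
      rw [← h8, h10, h9, hm, h.col_idx he] at h12
      have := D.inj _ _ _ _ h10 h11 h12.symm
      exact h4 (by rw [← this])
  · simp

theorem exists_sep (y u : C) (h : ∃ n, col n y = u) : ∃ m, kk y (res u m) = idx y u := by
  have h1 : ∀ n, ∃ m, n < idx y u → res (col n y) m ≠ res u m := by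
    intro n
    by_cases hn : n < idx y u
    · have : col n y ≠ u := Nat.notMem_of_lt_sInf hn
      obtain ⟨i, hi⟩ := Function.ne_iff.1 this
      exact ⟨i + 1, fun _ h => hi (res_eq_res.1 h (Nat.lt_succ_self i))⟩
    · exact ⟨0, fun h => absurd h hn⟩
  choose f hf using h1
  refine ⟨(Finset.range (idx y u)).sup f, ?_⟩
  have h2 : idx y u ∈ {n | res (col n y) (res u ((Finset.range (idx y u)).sup f)).length =
      res u ((Finset.range (idx y u)).sup f)} := by
    have : col (idx y u) y = u := Nat.sInf_mem h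
    simp [this]
  refine le_antisymm (Nat.sInf_le h2) (not_lt.1 fun h3 => ?_)
  have h4 := Nat.sInf_mem ⟨_, h2⟩
  simp only [mem_ofPred_eq, res_length] at h4
  refine hf _ h3 (res_eq_res.2 fun m hm => res_eq_res.1 ?_ (hm.trans_le
    (Finset.le_sup (f := f) (Finset.mem_range.2 h3))))
  simpa [kk] using h4

theorem RkHyp.condC (h : D.RkHyp X ρ y) {j : J} (hj : j ∈ D.Rel X) :
    ∃ N : ℕ, 0 < N ∧ ∀ f ∈ D.G, (∀ j, f j ≠ 0 → j ∈ D.Rel X) → Lead (D.key ρ y) f j →
      (N : ℚ) * f j ∈ Zq := by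
  obtain ⟨a, c | ⟨k, c, t⟩⟩ := j
  · obtain ⟨m, hm⟩ := exists_sep _ _ (h.cov (a, c) hj)
    refine ⟨m.factorial, m.factorial_pos, fun f hf hs hl => ?_⟩
    exact h.lemA (e := (a, c)) hj hm hf hs (x := toLex (0, c))
      (by simp [Prod.Lex.toLex_lt_toLex]) hl.2
  · refine ⟨t.length + 1, Nat.succ_pos _, fun f hf hs hl => ?_⟩
    have h1 : ((t.length + 1 : ℕ) : ℚ) * D.ct a k c t f ∈ Zq := by
      rw [ct, Finsupp.linearCombination_apply, Finsupp.sum, Finset.mul_sum]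
      refine sum_mem ?_
      rintro ⟨b, τ⟩ h2
      have h3 := Finsupp.mem_support_iff.1 h2
      by_cases h4 : D.wt (b, τ) a k c t = 0
      · simp [h4]
      obtain ⟨c', i, h6, h7⟩ := wt_ne h4
      simp only at h6 h7
      subst h6
      rcases h.use (e := (b, c')) (hs _ h3) h7 with h8 | ⟨h8, h9⟩
      · exact absurd (key_lt_of h8 _ _) (hl.2 _ h3).not_gt
      obtain ⟨h10, h11, h12⟩ := vv_eq h7
      have h13 := h.col_idx (e := (b, c')) (hs _ h3)
      rw [← h8, h10] at h13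
      have h14 := h.lemA (e := (b, c')) (hs _ h3) (m := t.length + 1) (by
        rw [← h8, h10]
        have h15 : idx (y (a, k)) (D.oth (b, c') i) ∈ {n | res (col n (y (a, k)))
            (res (D.oth (b, c') i) (t.length + 1)).length =
            res (D.oth (b, c') i) (t.length + 1)} := by simp [h13]
        refine le_antisymm (Nat.sInf_le h15) (h9 ▸ Nat.sInf_le ?_)
        have h16 := Nat.sInf_mem ⟨_, h15⟩
        rw [mem_ofPred_eq, res_length] at h16
        refine Eq.trans ?_ h12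
        refine res_eq_res.2 fun n hn => res_eq_res.1 ?_ (hn.trans (Nat.lt_succ_self _))
        simpa only [kk, res_length] using h16) hf hs (x := toLex (t.length + 1, Encodable.encode (c, t)))
        (by simp [Prod.Lex.toLex_lt_toLex]) (by
          rw [← h8, h10, h9]
          exact hl.2)
      simp only [wt, smul_eq_mul, Finset.mul_sum]
      refine sum_mem fun i _ => ?_
      split_ifs
      · convert h14 using 1
        rw [Nat.factorial_succ]
        push_cast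
        ring
      · simp
    have h2 := nsmul_mem (hf a k c t) (t.length + 1)
    convert add_mem h1 h2 using 1
    rw [nsmul_eq_mul]
    ring

end Dat

end Pool.Agent.MP_e75763_lc

end MrgPart4

-- marker of a merged file
example : 731051 + 868690 = 731051 + 868690 := rfl
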