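import Mathlib.Topology.Connected.Separation
import Mathlib.Order.CompletePartialOrder
import Mathlib.Topology.Separation.Lemmas
import Pool.Agent.MP_e75763_lc.Rank
import Mathlib.Data.Finsupp.Encodable
import Mathlib.Topology.Metrizable.Urysohn
import Mathlib.Analysis.Normed.Order.Lattice

-- ======== part 0: formerly Pool.Agent.MP_e75763_lc.Piece
section MrgPart0

/-! Piecewise continuous functions on countable closed covers. -/

namespace Pool.Agent.MP_e75763_lc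

open Set Filter PiNat

variable {Y : Type} [TopologicalSpace Y]

variable (Y) in
def Loc : Filter (Set Y) where
  sets := {S | ∃ 𝓕 : Set (Set Y), 𝓕.Countable ∧ (∀ F ∈ 𝓕, IsClosed F) ∧ (∀ y, ∃ F ∈ 𝓕, y ∈ F) ∧
    ∀ F ∈ 𝓕, ∀ F' ⊆ F, F' ∈ S}
  univ_sets := ⟨{univ}, countable_singleton _, by simp, by simp, by simp⟩
  sets_of_superset := fun ⟨𝓕, h1, h2, h3, h4⟩ h => ⟨𝓕, h1, h2, h3, fun F hF F' hF' =>
    h (h4 F hF F' hF')⟩
  inter_sets := fun ⟨𝓕, h1, h2, h3, h4⟩ ⟨𝓖, g1, g2, g3, g4⟩ =>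
    ⟨image2 (· ∩ ·) 𝓕 𝓖, h1.image2 g1 _, by
      rintro _ ⟨F, hF, G, hG, rfl⟩
      exact (h2 F hF).inter (g2 G hG), fun y =>
      let ⟨F, hF, h⟩ := h3 y
      let ⟨G, hG, g⟩ := g3 y
      ⟨_, ⟨F, hF, G, hG, rfl⟩, h, g⟩, by
      rintro _ ⟨F, hF, G, hG, rfl⟩ F' hF'
      exact ⟨h4 F hF F' (hF'.trans inter_subset_left), g4 G hG F' (hF'.trans inter_subset_right)⟩⟩

theorem loc_cover {Φ : Set Y → Prop} (h : ∀ᶠ F in Loc Y, Φ F) :
    ∃ 𝓕 : Set (Set Y), 𝓕.Countable ∧ (∀ F ∈ 𝓕, IsClosed F) ∧ (∀ y, ∃ F ∈ 𝓕, y ∈ F) ∧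
      ∀ F ∈ 𝓕, Φ F :=
  let ⟨𝓕, h1, h2, h3, h4⟩ := h
  ⟨𝓕, h1, h2, h3, fun F hF => h4 F hF F Subset.rfl⟩

theorem loc_of_cover {ι : Type} [Countable ι] (K : ι → Set Y) (h1 : ∀ i, IsClosed (K i))
    (h2 : ∀ y, ∃ i, y ∈ K i) : ∀ᶠ F in Loc Y, ∃ i, F ⊆ K i :=
  ⟨range K, countable_range K, by
    rintro _ ⟨i, rfl⟩
    exact h1 i, fun y => let ⟨i, h⟩ := h2 y; ⟨_, ⟨i, rfl⟩, h⟩, by
    rintro _ ⟨i, rfl⟩ F' hF'
    exact ⟨i, hF'⟩⟩

theorem loc_bind {Φ Ψ : Set Y → Prop} (h : ∀ᶠ F in Loc Y, Φ F)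
    (h' : ∀ F, IsClosed F → Φ F → ∀ᶠ F' in Loc Y, F' ⊆ F → Ψ F') : ∀ᶠ F in Loc Y, Ψ F := by
  obtain ⟨𝓕, h1, h2, h3, h4⟩ := loc_cover h
  choose 𝓖 g1 g2 g3 g4 using fun F : 𝓕 => h' F.1 (h2 _ F.2) (h4 _ F.2)
  have := h1.to_subtype
  refine ⟨⋃ F : 𝓕, (F.1 ∩ ·) '' 𝓖 F, countable_iUnion fun F => (g1 F).image _, ?_, fun y => ?_, ?_⟩
  · simp only [mem_iUnion, mem_image]
    rintro _ ⟨F, G, hG, rfl⟩
    exact (h2 _ F.2).inter (g2 F G hG)
  · obtain ⟨F, hF, hy⟩ := h3 y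
    obtain ⟨G, hG, hy'⟩ := g3 ⟨F, hF⟩ y
    exact ⟨F ∩ G, mem_iUnion.2 ⟨⟨F, hF⟩, G, hG, rfl⟩, hy, hy'⟩
  · simp only [mem_iUnion, mem_image]
    rintro _ ⟨F, G, hG, rfl⟩ F' hF'
    exact g4 F G hG F' (hF'.trans inter_subset_right) (hF'.trans inter_subset_left)

theorem loc_comap {Y' : Type} [TopologicalSpace Y'] {f : Y' → Y} (hf : Continuous f)
    {Φ : Set Y → Prop} (h : ∀ᶠ F in Loc Y, Φ F) : ∀ᶠ F in Loc Y', Φ (f '' F) := by
  obtain ⟨𝓕, h1, h2, h3, h4⟩ := h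
  refine ⟨(f ⁻¹' ·) '' 𝓕, h1.image _, ?_, fun y => ?_, ?_⟩
  · rintro _ ⟨F, hF, rfl⟩
    exact (h2 F hF).preimage hf
  · obtain ⟨F, hF, hy⟩ := h3 (f y)
    exact ⟨_, ⟨F, hF, rfl⟩, hy⟩
  · rintro _ ⟨F, hF, rfl⟩ F' hF'
    exact h4 F hF _ (image_subset_iff.2 hF')

/-- piecewise continuous -/
def PC {Z : Type} [TopologicalSpace Z] (f : Y → Z) : Prop := ∀ᶠ F in Loc Y, ContinuousOn f F

/-- piecewise constant -/
def LC {α : Type} (f : Y → α) : Prop := ∀ᶠ F in Loc Y, ∀ y ∈ F, ∀ y' ∈ F, f y = f y'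

theorem PC.of_cont {Z : Type} [TopologicalSpace Z] {f : Y → Z} (h : Continuous f) : PC f :=
  Eventually.of_forall fun _ => h.continuousOn

theorem PC.comp_cont {Y' Z : Type} [TopologicalSpace Y'] [TopologicalSpace Z] {f : Y → Z}
    (h : PC f) {g : Y' → Y} (hg : Continuous g) : PC fun y => f (g y) :=
  (loc_comap hg h).mono fun F h => h.comp hg.continuousOn (mapsTo_image _ _)

theorem LC.comp_cont {Y' α : Type} [TopologicalSpace Y'] {f : Y → α}
    (h : LC f) {g : Y' → Y} (hg : Continuous g) : LC fun y => f (g y) :=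
  (loc_comap hg h).mono fun _ h _ hy _ hy' => h _ (mem_image_of_mem _ hy) _ (mem_image_of_mem _ hy')

theorem LC.const {α : Type} (a : α) : LC fun _ : Y => a := Eventually.of_forall fun _ _ _ _ _ => rfl

theorem LC.map₂ {α β γ : Type} {f : Y → α} {g : Y → β} (hf : LC f) (hg : LC g) (h : α → β → γ) :
    LC fun y => h (f y) (g y) := by
  filter_upwards [hf, hg] with F h1 h2 y hy y' hy'
  rw [h1 y hy y' hy', h2 y hy y' hy']

theorem LC.map {α γ : Type} {f : Y → α} (hf : LC f) (h : α → γ) : LC fun y => h (f y) :=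
  hf.map₂ hf fun a _ => h a

theorem LC.pc {Z : Type} [TopologicalSpace Z] {f : Y → Z} (h : LC f) : PC f :=
  h.mono fun F h => by
    rcases F.eq_empty_or_nonempty with rfl | ⟨y, hy⟩
    · exact continuousOn_empty _
    · exact (continuousOn_const (c := f y)).congr fun y' hy' => h y' hy' y hy

theorem LC.cases {α : Type} {f : Y → α} (hf : LC f) {Ψ : Set Y → Prop} (h0 : Ψ ∅)
    (h : ∀ a, ∀ᶠ F in Loc Y, (∀ y ∈ F, f y = a) → Ψ F) : ∀ᶠ F in Loc Y, Ψ F := by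
  refine loc_bind hf fun F _ h1 => ?_
  rcases F.eq_empty_or_nonempty with rfl | ⟨y, hy⟩
  · exact Eventually.of_forall fun F' hF' => subset_empty_iff.1 hF' ▸ h0
  · exact (h (f y)).mono fun F' h2 hF' => h2 fun y' hy' => h1 _ (hF' hy') _ hy

theorem PC.ite {Z : Type} [TopologicalSpace Z] {p : Y → Prop} [DecidablePred p] (hp : LC p)
    {f g : Y → Z} (hf : PC f) (hg : PC g) : PC fun y => if p y then f y else g y := by
  refine hp.cases (continuousOn_empty _) fun a => ?_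
  filter_upwards [hf, hg] with F h1 h2 h3
  by_cases ha : a
  · exact h1.congr fun y hy => if_pos (by rw [h3 y hy]; exact ha)
  · exact h2.congr fun y hy => if_neg (by rw [h3 y hy]; exact ha)

theorem LC.meas [MeasurableSpace Y] [OpensMeasurableSpace Y] {α : Type} [MeasurableSpace α]
    {f : Y → α} (h : LC f) : Measurable f := by
  obtain ⟨𝓕, h1, h2, h3, h4⟩ := loc_cover h
  intro S _
  have : f ⁻¹' S = ⋃ F ∈ {F ∈ 𝓕 | ∃ y ∈ F, f y ∈ S}, F := by
    ext y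
    simp only [mem_preimage, mem_iUnion, exists_prop]
    refine ⟨fun hy => ?_, fun ⟨F, ⟨h5, y', h6, h7⟩, h8⟩ => h4 F h5 y' h6 y h8 ▸ h7⟩
    obtain ⟨F, hF, h5⟩ := h3 y
    exact ⟨F, ⟨hF, y, h5, hy⟩, h5⟩
  rw [this]
  exact MeasurableSet.biUnion (h1.mono fun _ h => h.1) fun F hF => (h2 F hF.1).measurableSet

theorem LC.fsigma {p : Y → Prop} (h : LC p) :
    ∃ K : ℕ → Set Y, (∀ n, IsClosed (K n)) ∧ ∀ y, p y ↔ ∃ n, y ∈ K n := by
  obtain ⟨𝓕, h1, h2, h3, h4⟩ := loc_cover h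
  have h5 : (insert ∅ {F ∈ 𝓕 | ∀ y ∈ F, p y}).Countable := (h1.mono fun _ h => h.1).insert _
  obtain ⟨K, hK⟩ := h5.exists_eq_range (insert_nonempty _ _)
  have h6 : ∀ n, K n ∈ insert ∅ {F ∈ 𝓕 | ∀ y ∈ F, p y} := fun n => hK ▸ mem_range_self n
  refine ⟨K, fun n => ?_, fun y => ⟨fun hy => ?_, fun ⟨n, hn⟩ => ?_⟩⟩
  · rcases h6 n with h | h
    · exact h ▸ isClosed_empty
    · exact h2 _ h.1
  · obtain ⟨F, hF, h7⟩ := h3 y
    have : F ∈ range K := hK ▸ Or.inr ⟨hF, fun y' hy' => h4 F hF y h7 y' hy' ▸ hy⟩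
    obtain ⟨n, rfl⟩ := this
    exact ⟨n, h7⟩
  · rcases h6 n with h | h
    · simp [h] at hn
    · exact h.2 y hn

variable [TopologicalSpace.PseudoMetrizableSpace Y]

theorem LC.closed {K : Set Y} (hK : IsClosed K) : LC (· ∈ K) := by
  letI := TopologicalSpace.pseudoMetrizableSpacePseudoMetric Y
  obtain ⟨F, h1, h2, h3, -⟩ := hK.isOpen_compl.exists_iUnion_isClosed
  refine (loc_of_cover (ι := Option ℕ) (fun i => i.elim K F) ?_ fun y => ?_).mono ?_
  · rintro (_ | n)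
    exacts [hK, h1 n]
  · by_cases hy : y ∈ K
    · exact ⟨none, hy⟩
    · obtain ⟨n, hn⟩ := mem_iUnion.1 (h3.symm ▸ hy : y ∈ ⋃ n, F n)
      exact ⟨some n, hn⟩
  · rintro G ⟨_ | n, h⟩ y hy y' hy'
    · exact propext (iff_of_true (h hy) (h hy'))
    · exact propext (iff_of_false (h2 n (h hy)) (h2 n (h hy')))

theorem PC.eq {Z : Type} [TopologicalSpace Z] [T2Space Z] {f g : Y → Z} (hf : PC f) (hg : PC g) :
    LC fun y => f y = g y := by
  refine loc_bind (hf.and hg) fun F hF h => ?_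
  refine (LC.closed (hF.isClosed_eq h.1 h.2)).mono fun F' h1 h2 y hy y' hy' => ?_
  simpa [h2 hy, h2 hy'] using h1 y hy y' hy'

theorem PC.bit {f : Y → C} (hf : PC f) (n : ℕ) : LC fun y => f y n := by
  have h1 : PC fun y => f y n := hf.mono fun F h => (continuous_apply n).comp_continuousOn h
  have := (h1.eq (PC.of_cont (continuous_const (y := true)))).map fun p : Prop =>
    @decide p (Classical.dec p)
  simpa using this

theorem PC.res {f : Y → C} (hf : PC f) (m : ℕ) : LC fun y => res (f y) m := by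
  induction m with
  | zero => exact LC.const _
  | succ m ih => exact (hf.bit m).map₂ ih List.cons

theorem PC.meas [MeasurableSpace Y] [OpensMeasurableSpace Y] {f : Y → C} (hf : PC f) :
    Measurable f := measurable_pi_lambda _ fun n => (hf.bit n).meas

def PJ (j : Y → J) : Prop := (PC fun y => (j y).1) ∧ LC fun y => (j y).2

theorem PJ.eq {j j' : Y → J} (h : PJ j) (h' : PJ j') : LC fun y => j y = j' y := by
  have := (h.1.eq h'.1).map₂ (h.2.map₂ h'.2 Eq) And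
  simpa only [Prod.ext_iff] using this

/-- finitely supported functions represented by formal sums -/
def Rep (h : Y → (J →₀ ℚ)) : Prop := ∀ᶠ F in Loc Y, ∃ l : (Y → J) →₀ ℚ,
  (∀ j ∈ l.support, PJ j) ∧ ∀ y ∈ F, h y = l.mapDomain (· y)

omit [TopologicalSpace.PseudoMetrizableSpace Y] in
theorem Rep.zero : Rep fun _ : Y => 0 := Eventually.of_forall fun _ => ⟨0, by simp, by simp⟩

omit [TopologicalSpace.PseudoMetrizableSpace Y] in
theorem Rep.add {h h' : Y → (J →₀ ℚ)} (a : Rep h) (b : Rep h') : Rep fun y => h y + h' y := by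
  classical
  filter_upwards [a, b] with F ⟨l, h1, h2⟩ ⟨l', h3, h4⟩
  refine ⟨l + l', fun j hj => ?_, fun y hy => ?_⟩
  · rcases Finset.mem_union.1 (Finsupp.support_add hj) with h | h
    exacts [h1 j h, h3 j h]
  · rw [Finsupp.mapDomain_add, h2 y hy, h4 y hy]

omit [TopologicalSpace.PseudoMetrizableSpace Y] in
theorem Rep.neg {h : Y → (J →₀ ℚ)} (a : Rep h) : Rep fun y => -h y := by
  filter_upwards [a] with F ⟨l, h1, h2⟩
  refine ⟨-l, fun j hj => h1 j (by simpa using hj), fun y hy => ?_⟩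
  rw [h2 y hy]
  exact (map_neg (Finsupp.mapDomain.addMonoidHom _) l).symm

omit [TopologicalSpace.PseudoMetrizableSpace Y] in
theorem Rep.sub {h h' : Y → (J →₀ ℚ)} (a : Rep h) (b : Rep h') : Rep fun y => h y - h' y := by
  simpa only [sub_eq_add_neg] using a.add b.neg

omit [TopologicalSpace.PseudoMetrizableSpace Y] in
theorem Rep.sum {ι : Type} (s : Finset ι) {h : ι → Y → (J →₀ ℚ)} (a : ∀ i ∈ s, Rep (h i)) :
    Rep fun y => ∑ i ∈ s, h i y := by
  classical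
  induction s using Finset.induction_on with
  | empty => simpa using Rep.zero
  | insert i s hi ih =>
    simp only [Finset.sum_insert hi]
    exact (a i (Finset.mem_insert_self _ _)).add (ih fun j hj => a j (Finset.mem_insert_of_mem hj))

omit [TopologicalSpace.PseudoMetrizableSpace Y] in
theorem Rep.single {j : Y → J} (hj : PJ j) (q : ℚ) : Rep fun y => Finsupp.single (j y) q :=
  Eventually.of_forall fun _ => ⟨Finsupp.single j q, fun j' h => by
    rw [Finset.mem_singleton.1 (Finsupp.support_single_subset h)]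
    exact hj, fun y _ => by simp⟩

omit [TopologicalSpace.PseudoMetrizableSpace Y] in
theorem Rep.of_loc {h : Y → (J →₀ ℚ)}
    (a : ∀ᶠ F in Loc Y, ∃ h', Rep h' ∧ ∀ y ∈ F, h y = h' y) : Rep h := by
  refine loc_bind a fun F _ ⟨h', h1, h2⟩ => ?_
  filter_upwards [h1] with F' ⟨l, h3, h4⟩ h5
  exact ⟨l, h3, fun y hy => (h2 y (h5 hy)).trans (h4 y hy)⟩

theorem Rep.coef {h : Y → (J →₀ ℚ)} (a : Rep h) {j : Y → J} (hj : PJ j) :
    LC fun y => h y (j y) := by
  classical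
  refine loc_bind a fun F _ ⟨l, h1, h2⟩ => ?_
  filter_upwards [(eventually_all_finset l.support).2 fun j' hj' => (h1 j' hj').eq hj]
    with F' h3 h4 y hy y' hy'
  rw [h2 y (h4 hy), h2 y' (h4 hy')]
  simp only [Finsupp.mapDomain, Finsupp.sum, Finsupp.finsetSum_apply, Finsupp.single_apply]
  exact Finset.sum_congr rfl fun j' hj' => by simp only [h3 j' hj' y hy y' hy']

theorem mapDomain_ne {α : Type} {l : α →₀ ℚ} {f : α → J} {j : J} (h : l.mapDomain f j ≠ 0) :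
    ∃ a ∈ l.support, f a = j := by
  classical
  simpa using Finsupp.mapDomain_support (Finsupp.mem_support_iff.2 h)

theorem Rep.eq_zero {h : Y → (J →₀ ℚ)} (a : Rep h) : LC fun y => h y = 0 := by
  refine loc_bind a fun F _ ⟨l, h1, h2⟩ => ?_
  filter_upwards [(eventually_all_finset l.support).2 fun j' hj' => a.coef (h1 j' hj')]
    with F' h3 h4
  have key : ∀ y ∈ F', ∀ y' ∈ F', h y = 0 → h y' = 0 := by
    intro y hy y' hy' h5
    ext j
    by_contra h6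
    obtain ⟨j', h7, rfl⟩ := mapDomain_ne (h2 y' (h4 hy') ▸ h6)
    exact h6 (by rw [← h3 j' h7 y hy y' hy', h5]; rfl)
  exact fun y hy y' hy' => propext ⟨key y hy y' hy', key y' hy' y hy⟩

theorem Rep.mention [MeasurableSpace Y] [OpensMeasurableSpace Y] {h : Y → (J →₀ ℚ)} (a : Rep h) :
    ∃ men : ℕ → Y → C, (∀ k, Measurable (men k)) ∧ ∀ y j, h y j ≠ 0 → ∃ k, men k y = j.1 := by
  obtain ⟨𝓕, h1, -, h3, h4⟩ := loc_cover a
  choose l h5 h6 using fun F : 𝓕 => h4 F.1 F.2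
  have := h1.to_subtype
  have h7 : (insert (fun _ => (default, Tag.edge 0)) (⋃ F : 𝓕, ((l F).support : Set (Y → J)))).Countable :=
    (countable_iUnion fun F => (Finset.countable_toSet _)).insert _
  obtain ⟨f, hf⟩ := h7.exists_eq_range (insert_nonempty _ _)
  refine ⟨fun k y => (f k y).1, fun k => ?_, fun y j hj => ?_⟩
  · rcases (hf ▸ mem_range_self k : f k ∈ insert _ _) with h | h
    · simp [h]
    · obtain ⟨F, hF⟩ := mem_iUnion.1 h
      exact (h5 F _ hF).1.meas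
  · obtain ⟨F, hF, hy⟩ := h3 y
    obtain ⟨j', h8, rfl⟩ := mapDomain_ne (h6 ⟨F, hF⟩ y hy ▸ hj)
    obtain ⟨k, rfl⟩ : j' ∈ range f := hf ▸ Or.inr (mem_iUnion.2 ⟨⟨F, hF⟩, h8⟩)
    exact ⟨k, rfl⟩

end Pool.Agent.MP_e75763_lc

end MrgPart0

-- ======== part 1: formerly Pool.Agent.MP_e75763_lc.Dec
section MrgPart1

/-! A piecewise continuous parametrization of the groups by the Cantor space. -/

namespace Pool.Agent.MP_e75763_lc

open Set Filter PiNat

def rs (m : ℕ) (a : C) : Fin m → Bool := fun i => a i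

def shift (m : ℕ) (a : C) : C := fun n => a (n + m)

def app {m : ℕ} (s : Fin m → Bool) (y : C) : C := fun n => if h : n < m then s ⟨n, h⟩ else y (n - m)

@[simp] theorem rs_app {m : ℕ} (s : Fin m → Bool) (y : C) : rs m (app s y) = s := by
  funext i
  simp [rs, app]

@[simp] theorem shift_app {m : ℕ} (s : Fin m → Bool) (y : C) : shift m (app s y) = y := by
  funext i
  simp [shift, app]

theorem app_rs (m : ℕ) (a : C) : app (rs m a) (shift m a) = a := by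
  funext n
  by_cases h : n < m
  · simp [app, rs, h]
  · simp [app, shift, h, Nat.sub_add_cancel (not_lt.1 h)]

theorem cont_app {m : ℕ} (s : Fin m → Bool) : Continuous (app s) :=
  continuous_pi fun n => by
    unfold app
    split_ifs
    exacts [continuous_const, continuous_apply _]

theorem cont_shift (m : ℕ) : Continuous (shift m) := continuous_pi fun _ => continuous_apply _

def Shape : Type := {σ : Σ m : ℕ, ((Fin m → Bool) × Tag →₀ ℚ) // σ.2 ≠ 0 ∧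
  ∀ m' < σ.1, ∃ p ∈ σ.2.support, ∃ p' ∈ σ.2.support, p.1 ≠ p'.1 ∧
    ∀ i : Fin σ.1, i.1 < m' → p.1 i = p'.1 i}

instance : Countable Shape := by
  unfold Shape
  infer_instance

instance : Infinite Shape :=
  Infinite.of_injective (fun n : ℕ => (⟨⟨0, Finsupp.single (Fin.elim0, .edge n) 1⟩, by
    simp, by simp⟩ : Shape)) fun n m h => by
    have := congrArg Subtype.val h
    simpa [Finsupp.single_left_inj] using this

def St (σ : Shape) : Type := {s : Fin σ.1.1 → Bool // ∃ τ, σ.1.2 (s, τ) ≠ 0}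

instance (σ : Shape) : Countable (St σ) := by
  unfold St
  infer_instance

instance (σ : Shape) : Nonempty (St σ) := by
  obtain ⟨p, hp⟩ := Finsupp.support_nonempty_iff.2 σ.2.1
  exact ⟨⟨p.1, p.2, Finsupp.mem_support_iff.1 hp⟩⟩

open Classical in
noncomputable def asmF (σ : Shape) (y : St σ → C) (p : (Fin σ.1.1 → Bool) × Tag) : J :=
  (app p.1 (if h : ∃ τ, σ.1.2 (p.1, τ) ≠ 0 then y ⟨p.1, h⟩ else default), p.2)

noncomputable def asm (σ : Shape) (y : St σ → C) : J →₀ ℚ := σ.1.2.mapDomain (asmF σ y)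

theorem asmF_left (σ : Shape) (y : St σ → C) (p : (Fin σ.1.1 → Bool) × Tag) :
    Prod.map (rs σ.1.1) id (asmF σ y p) = p := by simp [asmF]

theorem asmF_inj (σ : Shape) (y : St σ → C) : Function.Injective (asmF σ y) :=
  Function.LeftInverse.injective (asmF_left σ y)

theorem asm_ne {σ : Shape} {y : St σ → C} {j : J} :
    asm σ y j ≠ 0 ↔ ∃ p, σ.1.2 p ≠ 0 ∧ asmF σ y p = j := by
  classical
  rw [← Finsupp.mem_support_iff, asm, Finsupp.mapDomain_support_of_injective (asmF_inj σ y)]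
  simp

theorem asm_ne_zero (σ : Shape) (y : St σ → C) : asm σ y ≠ 0 := fun h =>
  σ.2.1 (Finsupp.mapDomain_injective (asmF_inj σ y) (by simpa [asm] using h))

theorem asm_not_lt {σ σ' : Shape} {y : St σ → C} {y' : St σ' → C} (h : asm σ y = asm σ' y') :
    ¬ σ.1.1 < σ'.1.1 := by
  intro hlt
  obtain ⟨p, hp, p', hp', h1, h2⟩ := σ'.2.2 _ hlt
  obtain ⟨q, h3, h4⟩ := asm_ne.1 (h ▸ asm_ne.2 ⟨p, Finsupp.mem_support_iff.1 hp, rfl⟩)
  obtain ⟨q', h5, h6⟩ := asm_ne.1 (h ▸ asm_ne.2 ⟨p', Finsupp.mem_support_iff.1 hp', rfl⟩)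
  have h7 : q.1 = q'.1 := by
    rw [← asmF_left σ y q, ← asmF_left σ y q', h4, h6]
    funext i
    simpa [asmF, rs, app, i.2.trans hlt] using h2 ⟨i, i.2.trans hlt⟩ i.2
  have h8 : (asmF σ y q).1 = (asmF σ y q').1 := by
    obtain ⟨s, τ⟩ := q
    obtain ⟨s', τ'⟩ := q'
    obtain rfl : s = s' := h7
    rfl
  rw [h4, h6] at h8
  exact h1 (by simpa [asmF] using congrArg (rs σ'.1.1) h8)

theorem asm_inj {σ σ' : Shape} {y : St σ → C} {y' : St σ' → C} (h : asm σ y = asm σ' y') :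
    σ = σ' ∧ HEq y y' := by
  obtain ⟨⟨m, w⟩, hσ⟩ := σ
  obtain ⟨⟨m', w'⟩, hσ'⟩ := σ'
  obtain rfl : m = m' := le_antisymm (not_lt.1 (asm_not_lt h.symm)) (not_lt.1 (asm_not_lt h))
  have h1 := congrArg (Finsupp.mapDomain (Prod.map (rs m) id)) h
  simp only [asm, ← Finsupp.mapDomain_comp] at h1
  rw [show Prod.map (rs m) id ∘ asmF _ y = id from funext (asmF_left _ y),
    show Prod.map (rs m) id ∘ asmF _ y' = id from funext (asmF_left _ y'),
    Finsupp.mapDomain_id, Finsupp.mapDomain_id] at h1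
  subst h1
  refine ⟨rfl, heq_of_eq (funext fun s => ?_)⟩
  obtain ⟨s, τ, hs⟩ := s
  obtain ⟨q, -, h4⟩ := asm_ne.1 (h ▸ asm_ne.2 ⟨(s, τ), hs, rfl⟩)
  have h5 : q = (s, τ) := by rw [← asmF_left _ y' q, h4, asmF_left]
  subst h5
  have h6 := congrArg (fun j : J => shift m j.1) h4
  simp only [asmF, shift_app] at h6
  rw [dif_pos ⟨τ, hs⟩, dif_pos ⟨τ, hs⟩] at h6
  exact h6.symm

theorem asm_surj {u : J →₀ ℚ} (hu : u ≠ 0) : ∃ σ y, asm σ y = u := by
  classical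
  have h1 : ∃ m, ∀ j ∈ u.support, ∀ j' ∈ u.support, rs m j.1 = rs m j'.1 → j.1 = j'.1 := by
    have : ∀ x : J × J, ∃ n, x.1.1 ≠ x.2.1 → x.1.1 n ≠ x.2.1 n := fun x => by
      by_cases h : x.1.1 = x.2.1
      · exact ⟨0, fun h' => absurd h h'⟩
      · obtain ⟨n, hn⟩ := Function.ne_iff.1 h
        exact ⟨n, fun _ => hn⟩
    choose f hf using this
    refine ⟨(u.support ×ˢ u.support).sup f + 1, fun j hj j' hj' h => ?_⟩
    by_contra h2
    exact hf (j, j') h2 (congrFun h ⟨f (j, j'), Nat.lt_succ_of_le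
      (Finset.le_sup (f := f) (Finset.mk_mem_product hj hj'))⟩)
  let m := Nat.find h1
  have hm := Nat.find_spec h1
  have h2 : InjOn (Prod.map (rs m) id) (u.support : Set J) := fun j hj j' hj' h =>
    Prod.ext (hm j hj j' hj' (congrArg Prod.fst h)) (congrArg Prod.snd h :)
  let w := u.mapDomain (Prod.map (rs m) id)
  have hw : w.support = u.support.image (Prod.map (rs m) id) :=
    Finsupp.mapDomain_support_of_injOn u h2
  let σ : Shape := ⟨⟨m, w⟩, by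
    rw [← Finsupp.support_nonempty_iff, hw]
    exact (Finsupp.support_nonempty_iff.2 hu).image _, fun m' hm' => by
    have := Nat.find_min h1 hm'
    push Not at this
    obtain ⟨j, hj, j', hj', h3, h4⟩ := this
    refine ⟨_, hw ▸ Finset.mem_image_of_mem _ hj, _, hw ▸ Finset.mem_image_of_mem _ hj',
      fun h => h4 (hm j hj j' hj' h), fun i hi => congrFun h3 ⟨i, hi⟩⟩⟩
  have h3 : ∀ s : St σ, ∃ j ∈ u.support, rs m j.1 = s.1 := by
    rintro ⟨s, τ, hs⟩
    obtain ⟨j, hj, h⟩ := Finset.mem_image.1 (hw ▸ Finsupp.mem_support_iff.2 hs)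
    exact ⟨j, hj, congrArg Prod.fst h⟩
  choose f hf1 hf2 using h3
  refine ⟨σ, fun s => shift m (f s).1, ?_⟩
  rw [asm, ← Finsupp.mapDomain_comp]
  refine (Finsupp.mapDomain_congr fun j hj => ?_).trans Finsupp.mapDomain_id
  have h4 : ∃ τ, σ.1.2 (rs m j.1, τ) ≠ 0 :=
    ⟨j.2, Finsupp.mem_support_iff.1 (hw ▸ Finset.mem_image_of_mem _ hj)⟩
  simp only [Function.comp, asmF, Prod.map, id]
  rw [dif_pos h4, hm _ (hf1 ⟨_, h4⟩) j hj (hf2 ⟨_, h4⟩), app_rs]

noncomputable def e1 : ℕ ≃ Shape := Classical.choice nonempty_equiv_of_countable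

noncomputable def e2 (σ : Shape) : ℕ ≃ St σ × ℕ := Classical.choice nonempty_equiv_of_countable

noncomputable def spl (σ : Shape) : C ≃ (St σ → C) :=
  ((e2 σ).arrowCongr (Equiv.refl Bool)).trans (Equiv.curry _ _ _)

open Classical in
noncomputable def dec (x : C) : J →₀ ℚ :=
  if h : ∃ i, x i = true then asm (e1 (Nat.find h)) (spl _ (shift (Nat.find h + 1) x)) else 0

theorem dec_of {x : C} {i : ℕ} (h1 : x i = true) (h2 : ∀ n < i, x n = false) :
    dec x = asm (e1 i) (spl _ (shift (i + 1) x)) := by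
  classical
  have h : ∃ i, x i = true := ⟨i, h1⟩
  have : Nat.find h = i := (Nat.find_eq_iff h).2 ⟨h1, fun n hn => by simp [h2 n hn]⟩
  rw [dec, dif_pos h, this]

theorem first_one (x : C) : x = (fun _ => false) ∨ ∃ i, x i = true ∧ ∀ n < i, x n = false := by
  classical
  by_cases h : ∃ i, x i = true
  · exact Or.inr ⟨_, Nat.find_spec h, fun n hn => by simpa using Nat.find_min h hn⟩
  · exact Or.inl (funext fun n => by simpa using fun h' => h ⟨n, h'⟩)

theorem dec_zero : dec (fun _ => false) = 0 := by simp [dec]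

theorem dec_bij : Function.Bijective dec := by
  refine ⟨fun x x' h => ?_, fun u => ?_⟩
  · rcases first_one x with rfl | ⟨i, h1, h2⟩ <;> rcases first_one x' with rfl | ⟨i', h3, h4⟩
    · rfl
    · rw [dec_zero, dec_of h3 h4] at h
      exact absurd h.symm (asm_ne_zero _ _)
    · rw [dec_zero, dec_of h1 h2] at h
      exact absurd h (asm_ne_zero _ _)
    · rw [dec_of h1 h2, dec_of h3 h4] at h
      obtain ⟨h5, h6⟩ := asm_inj h
      obtain rfl := e1.injective h5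
      have h7 := (spl _).injective (eq_of_heq h6)
      funext n
      rcases lt_trichotomy n i with h | rfl | h
      · rw [h2 n h, h4 n h]
      · rw [h1, h3]
      · have := congrFun h7 (n - (i + 1))
        simpa [shift, Nat.sub_add_cancel (Nat.succ_le_of_lt h)] using this
  · by_cases hu : u = 0
    · exact ⟨_, hu ▸ dec_zero⟩
    obtain ⟨σ, y, rfl⟩ := asm_surj hu
    obtain ⟨i, rfl⟩ := e1.surjective σ
    refine ⟨app (fun n : Fin (i + 1) => decide (n.1 = i)) ((spl _).symm y), ?_⟩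
    rw [dec_of (i := i) (by simp [app]) (fun n hn => by simp [app, hn.ne, hn.le, Nat.lt_succ_iff]),
      shift_app, Equiv.apply_symm_apply]

/-- a family of groups depending on a real parameter -/
structure Mode where
  D : C → Dat
  pown : ∀ c i, PC fun p : C × C => ((D p.1).own (p.2, c) i).1
  lown : ∀ c i, LC fun p : C × C => ((D p.1).own (p.2, c) i).2
  poth : ∀ c i, PC fun p : C × C => (D p.1).oth (p.2, c) i

namespace Mode

variable (M : Mode)

noncomputable def Psi (t x : C) : J →₀ ℚ := (M.D t).Phi (dec x)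

theorem Psi_inj (t : C) : Function.Injective (M.Psi t) := (M.D t).Phi_inj.comp dec_bij.1

theorem Psi_mem (t x : C) : M.Psi t x ∈ (M.D t).G := (M.D t).Phi_mem _

noncomputable def inv (t : C) (h : J →₀ ℚ) : C := Function.invFun (M.Psi t) h

theorem Psi_inv {t : C} {h : J →₀ ℚ} (hh : h ∈ (M.D t).G) : M.Psi t (M.inv t h) = h := by
  obtain ⟨u, rfl⟩ := (M.D t).Phi_surj hh
  obtain ⟨x, rfl⟩ := dec_bij.2 u
  exact Function.invFun_eq ⟨x, rfl⟩

variable {Y : Type} [TopologicalSpace Y] [TopologicalSpace.PseudoMetrizableSpace Y]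

theorem rep_zz {t a : Y → C} (ht : Continuous t) (ha : Continuous a) (c : ℕ) (q : ℚ) (n : ℕ) :
    Rep fun y => (M.D (t y)).zz (a y, c) q n := by
  refine (Rep.single (j := fun y => (a y, .edge c)) ⟨PC.of_cont ha, LC.const _⟩ q).add
    (Rep.sum _ fun m _ => Rep.sum _ fun i _ => Rep.single ⟨?_, ?_⟩ _)
  · exact (M.pown c i).comp_cont (ht.prodMk ha)
  · exact ((M.lown c i).comp_cont (ht.prodMk ha)).map₂
      (((M.poth c i).comp_cont (ht.prodMk ha)).res m) fun k s => Tag.var k c s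

theorem rep_Psi {t x : Y → C} (ht : Continuous t) (hx : Continuous x) :
    Rep fun y => M.Psi (t y) (x y) := by
  classical
  refine Rep.of_loc ((loc_of_cover (ι := Option ℕ) (fun i => i.elim {y | x y = fun _ => false}
    fun i => {y | x y i = true ∧ ∀ n < i, x y n = false}) ?_ fun y => ?_).mono ?_)
  · rintro (_ | i)
    · exact isClosed_eq hx continuous_const
    · simp only [Option.elim, ofPred_and, ofPred_forall]
      exact (isClosed_eq ((continuous_apply i).comp hx) continuous_const).inter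
        (isClosed_iInter fun n => isClosed_iInter fun _ =>
          isClosed_eq ((continuous_apply n).comp hx) continuous_const)
  · rcases first_one (x y) with h | ⟨i, h⟩
    exacts [⟨none, h⟩, ⟨some i, h⟩]
  · rintro F ⟨_ | i, hF⟩
    · refine ⟨_, Rep.zero, fun y hy => ?_⟩
      rw [Psi, show x y = _ from hF hy, dec_zero, Dat.Phi, Finsupp.sum_zero_index]
    · refine ⟨fun y => ∑ p ∈ (e1 i).1.2.support, (M.D (t y)).phi
        (asmF _ (spl _ (shift (i + 1) (x y))) p) ((e1 i).1.2 p), Rep.sum _ ?_, fun y hy => ?_⟩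
      · rintro ⟨s, τ⟩ hp
        have h1 : Continuous fun y => (asmF _ (spl (e1 i) (shift (i + 1) (x y))) (s, τ)).1 := by
          refine (cont_app _).comp ?_
          simp only [dif_pos (⟨τ, Finsupp.mem_support_iff.1 hp⟩ : ∃ τ, (e1 i).1.2 (s, τ) ≠ 0)]
          exact continuous_pi fun n =>
            (continuous_apply ((e2 _).symm (⟨s, τ, Finsupp.mem_support_iff.1 hp⟩, n) +
              (i + 1))).comp hx
        cases τ with
        | edge c => exact M.rep_zz ht h1 c _ _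
        | var k c s' => exact Rep.single ⟨PC.of_cont h1, LC.const _⟩ _
      · rw [Psi, dec_of (hF hy).1 (hF hy).2, Dat.Phi, asm,
          Finsupp.sum_mapDomain_index_inj (asmF_inj _ _)]
        rfl

end Mode

theorem Rep.comp_cont {Y Y' : Type} [TopologicalSpace Y] [TopologicalSpace Y'] {h : Y → (J →₀ ℚ)}
    (a : Rep h) {g : Y' → Y} (hg : Continuous g) : Rep fun y => h (g y) := by
  classical
  filter_upwards [loc_comap hg a] with F ⟨l, h1, h2⟩
  refine ⟨l.mapDomain (· ∘ g), fun j hj => ?_, fun y hy => ?_⟩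
  · obtain ⟨j', h3, rfl⟩ := Finset.mem_image.1 (Finsupp.mapDomain_support hj)
    exact ⟨(h1 j' h3).1.comp_cont hg, (h1 j' h3).2.comp_cont hg⟩
  · rw [h2 _ (mem_image_of_mem _ hy), ← Finsupp.mapDomain_comp]
    rfl

theorem Mode.meas_inv (M : Mode) {Y : Type} [TopologicalSpace Y] [PolishSpace Y]
    [MeasurableSpace Y] [BorelSpace Y] {t : Y → C} (ht : Continuous t) {h : Y → (J →₀ ℚ)}
    (a : Rep h) (hG : ∀ y, h y ∈ (M.D (t y)).G) : Measurable fun y => M.inv (t y) (h y) := by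
  have h1 : Measurable fun p : Y × C => M.Psi (t p.1) p.2 - h p.1 = 0 :=
    ((M.rep_Psi (ht.comp continuous_fst) continuous_snd).sub
      (a.comp_cont continuous_fst)).eq_zero.meas
  refine measurable_pi_lambda _ fun n => measurable_to_bool ?_
  have h2 : MeasurableSet {p : Y × C | M.Psi (t p.1) p.2 - h p.1 = 0 ∧ p.2 n = true} :=
    measurableSet_setOfPred.2 (h1.and (meas_bit measurable_snd n true))
  convert h2.image_of_measurable_injOn measurable_fst ?_ using 1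
  · ext y
    simp only [mem_preimage, mem_singleton_iff, mem_image, mem_ofPred_eq, sub_eq_zero]
    refine ⟨fun h' => ⟨(y, M.inv (t y) (h y)), ⟨M.Psi_inv (hG y), h'⟩, rfl⟩, ?_⟩
    rintro ⟨⟨y, x⟩, ⟨h3, h4⟩, rfl⟩
    rwa [M.Psi_inj _ ((M.Psi_inv (hG y)).trans h3.symm)]
  · rintro ⟨y, x⟩ h3 ⟨y', x'⟩ h4 (rfl : y = y')
    simp only [mem_ofPred_eq, sub_eq_zero] at h3 h4
    rw [M.Psi_inj _ (h3.1.trans h4.1.symm)]

attribute [irreducible] Mode.Psi Mode.inv

instance : PolishSpace C := PolishSpace.mk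

instance : PolishSpace (C × C × C) := PolishSpace.mk

end Pool.Agent.MP_e75763_lc

end MrgPart1

-- ======== part 2: formerly Pool.Agent.MP_e75763_lc.Code
section MrgPart2

-- ======== part 0: formerly Pool.Agent.MP_e75763_lc.Free
section MrgPart0

/-! Freeness and non-freeness in the generic extension. -/

namespace Pool.Agent.MP_e75763_lc

open Set Filter PiNat

universe u

theorem meas_subst {α β γ : Type*} [MeasurableSpace α] [MeasurableSpace β] [MeasurableSpace γ]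
    [Countable β] [MeasurableSingletonClass β] {s : α → β} (hs : Measurable s) {f : β → α → γ}
    (hf : ∀ b, Measurable (f b)) : Measurable fun a => f (s a) a :=
  (measurable_from_prod_countable_left (f := fun p : α × β => f p.2 p.1) hf).comp
    (measurable_id.prodMk hs)

theorem meas_sInf {α : Type*} [MeasurableSpace α] {p : ℕ → α → Prop}
    (h : ∀ n, Measurable (p n)) : Measurable fun a => sInf {n | p n a} := by
  refine measurable_to_countable' fun k => ?_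
  have : Measurable fun a => (p k a ∧ ∀ j, j < k → ¬ p j a) ∨ (k = 0 ∧ ∀ j, ¬ p j a) :=
    ((h k).and (Measurable.forall fun j => measurable_const.imp (h j).not)).or
      (measurable_const.and (Measurable.forall fun j => (h j).not))
  convert measurableSet_setOfPred.2 this using 1
  ext a
  simp only [mem_preimage, mem_singleton_iff, mem_ofPred_eq]
  by_cases h1 : ∃ j, p j a
  · constructor
    · rintro rfl
      exact Or.inl ⟨Nat.sInf_mem h1, fun j hj => Nat.notMem_of_lt_sInf hj⟩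
    · rintro (⟨h2, h3⟩ | ⟨-, h2⟩)
      · exact le_antisymm (Nat.sInf_le h2) (not_lt.1 fun h4 => h3 _ h4 (Nat.sInf_mem h1))
      · exact absurd h1 (not_exists.2 h2)
  · have h2 : {n | p n a} = ∅ := eq_empty_of_forall_notMem fun n hn => h1 ⟨n, hn⟩
    rw [h2, Nat.sInf_empty]
    push Not at h1
    exact ⟨fun h => Or.inr ⟨h.symm, h1⟩, fun h => h.elim (fun h => absurd h.1 (h1 k))
      fun h => h.1.symm⟩

theorem meas_res {α : Type*} [MeasurableSpace α] {X : α → C} (h : Measurable X) (s : List Bool) :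
    Measurable fun a => res (X a) s.length = s :=
  Measurable.fun_comp (g := fun x : C => res x s.length = s)
    (((PC.of_cont continuous_id).res s.length).map (· = s)).meas h

theorem cont_col (i : ℕ) : Continuous (col i) := continuous_pi fun _ => continuous_apply _

theorem Rep.zsmul {Y : Type} [TopologicalSpace Y] {h : Y → (J →₀ ℚ)} (a : Rep h) (z : ℤ) :
    Rep fun y => z • h y := by
  filter_upwards [a] with F ⟨l, h1, h2⟩
  refine ⟨z • l, fun j hj => h1 j (Finsupp.support_smul hj), fun y hy => ?_⟩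
  rw [h2 y hy, Finsupp.mapDomain_smul]

variable {P : Type u} [Preorder P]

namespace Mode

variable (M : Mode)

theorem meas_coef {α : Type*} [MeasurableSpace α] {T X A : α → C} (hT : Measurable T)
    (hX : Measurable X) (hA : Measurable A) (τ : Tag) :
    Measurable fun ω => M.Psi (T ω) (X ω) (A ω, τ) :=
  Measurable.fun_comp (g := fun p : C × C × C => M.Psi p.1 p.2.1 (p.2.2, τ))
    ((M.rep_Psi continuous_fst (continuous_fst.comp continuous_snd)).coef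
      (j := fun p : C × C × C => (p.2.2, τ))
      ⟨PC.of_cont (continuous_snd.comp continuous_snd), LC.const _⟩).meas
    (hT.prodMk (hX.prodMk hA))

theorem meas_own1 {α : Type*} [MeasurableSpace α] {T A : α → C} (hT : Measurable T)
    (hA : Measurable A) (c : ℕ) (i : Bool) :
    Measurable fun ω => ((M.D (T ω)).own (A ω, c) i).1 := (M.pown c i).meas.comp (hT.prodMk hA)

theorem meas_own2 {α : Type*} [MeasurableSpace α] {T A : α → C} (hT : Measurable T)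
    (hA : Measurable A) (c : ℕ) (i : Bool) :
    Measurable fun ω => ((M.D (T ω)).own (A ω, c) i).2 := (M.lown c i).meas.comp (hT.prodMk hA)

theorem meas_oth {α : Type*} [MeasurableSpace α] {T A : α → C} (hT : Measurable T)
    (hA : Measurable A) (c : ℕ) (i : Bool) :
    Measurable fun ω => (M.D (T ω)).oth (A ω, c) i := (M.poth c i).meas.comp (hT.prodMk hA)

theorem ev_solve {T X X' : Om P → C} (hT : Measurable T) (hX : Measurable X)
    (hX' : Measurable X') {h : C × C × C → (J →₀ ℚ)} (a : Rep h)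
    (hG : ∀ y, h y ∈ (M.D y.1).G) :
    ∀ᶠ ω : Om P in gen P, ∃ z ∈ RM ω, M.Psi (T ω) z = h (T ω, X ω, X' ω) := by
  filter_upwards [ev_RM ((M.meas_inv continuous_fst a hG).fun_comp (hT.prodMk (hX.prodMk hX')))]
    with ω h1 using ⟨_, h1, M.Psi_inv (hG (T ω, X ω, X' ω))⟩

/-- closure properties of the reals of the extension -/
structure Cl (t : C) (R : Set C) : Prop where
  zero : ∃ z ∈ R, M.Psi t z = 0
  add : ∀ x ∈ R, ∀ y ∈ R, ∃ z ∈ R, M.Psi t z = M.Psi t x + M.Psi t y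
  neg : ∀ x ∈ R, ∃ z ∈ R, M.Psi t z = -M.Psi t x
  zz : ∀ a ∈ R, ∀ c n, ∃ z ∈ R, M.Psi t z = (M.D t).zz (a, c) (1 / (n.factorial : ℚ)) n
  var : ∀ a ∈ R, ∀ k c s, ∃ z ∈ R, M.Psi t z = Finsupp.single (a, .var k c s) 1
  own : ∀ a ∈ R, ∀ c i, ((M.D t).own (a, c) i).1 ∈ R
  col : ∀ y ∈ R, ∀ i, col i y ∈ R
  fin : ∀ n (v : Fin n → C), (∀ i, v i ∈ R) →
    mer (fun i => if h : i < n then v ⟨i, h⟩ else default) ∈ R

theorem ev_cl {T : Om P → C} (hT : Measurable T) : ∀ᶠ ω : Om P in gen P, M.Cl (T ω) (RM ω) := by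
  have c1 : Continuous fun p : C × C × C => p.2.1 := continuous_fst.comp continuous_snd
  have c2 : Continuous fun p : C × C × C => p.2.2 := continuous_snd.comp continuous_snd
  filter_upwards [M.ev_solve hT hT hT Rep.zero fun _ => zero_mem _,
    ev_diag_RM (P := P) (Φ := fun x ω => ∀ y ∈ RM ω, ∃ z ∈ RM ω,
      M.Psi (T ω) z = M.Psi (T ω) x + M.Psi (T ω) y) fun X hX => ev_diag_RM fun Y hY =>
      M.ev_solve hT hX hY ((M.rep_Psi continuous_fst c1).add (M.rep_Psi continuous_fst c2))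
        fun _ => add_mem (M.Psi_mem _ _) (M.Psi_mem _ _),
    ev_diag_RM (P := P) (Φ := fun x ω => ∃ z ∈ RM ω, M.Psi (T ω) z = -M.Psi (T ω) x)
      fun X hX => M.ev_solve hT hX hX (M.rep_Psi continuous_fst c1).neg
        fun _ => neg_mem (M.Psi_mem _ _),
    ev_diag_RM (P := P) (Φ := fun a ω => ∀ c n, ∃ z ∈ RM ω, M.Psi (T ω) z =
      (M.D (T ω)).zz (a, c) (1 / (n.factorial : ℚ)) n) fun X hX =>
      eventually_countable_forall.2 fun c => eventually_countable_forall.2 fun n =>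
        M.ev_solve hT hX hX (M.rep_zz continuous_fst c1 c _ n) fun _ => Dat.zz_mem' _ _ _,
    ev_diag_RM (P := P) (Φ := fun a ω => ∀ k c s, ∃ z ∈ RM ω, M.Psi (T ω) z =
      Finsupp.single (a, .var k c s) 1) fun X hX =>
      eventually_countable_forall.2 fun k => eventually_countable_forall.2 fun c =>
        eventually_countable_forall.2 fun s => M.ev_solve hT hX hX
          (Rep.single (j := fun p : C × C × C => (p.2.1, .var k c s))
            ⟨PC.of_cont c1, LC.const _⟩ 1) fun _ => Dat.single_var_mem _ _ _ _ _ ⟨1, by simp⟩,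
    ev_diag_RM (P := P) (Φ := fun a ω => ∀ c i, ((M.D (T ω)).own (a, c) i).1 ∈ RM ω) fun X hX =>
      eventually_countable_forall.2 fun c => eventually_countable_forall.2 fun i =>
        ev_RM (M.meas_own1 hT hX c i),
    ev_diag_RM (P := P) (Φ := fun a ω => ∀ i, col i a ∈ RM ω) fun X hX =>
      eventually_countable_forall.2 fun i => ev_RM ((meas_col i).fun_comp hX),
    eventually_countable_forall.2 fun n => ev_diag_RM_fin (P := P) n (Φ := fun v ω =>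
      mer (fun i => if h : i < n then v ⟨i, h⟩ else default) ∈ RM ω) fun X hX =>
        ev_RM (meas_mer fun i => by
          split_ifs
          exacts [(measurable_pi_apply _).comp hX, measurable_const])]
    with ω a1 a2 a3 a4 a5 a6 a7 a8 using ⟨a1, a2, a3, a4, a5, a6, a7, a8⟩

theorem exists_group {t : C} {R : Set C} (h : M.Cl t R) {G : Type} (ψ : G → C)
    (hψ : Function.Injective ψ) (hr : range ψ = R) :
    ∃ _ : AddCommGroup G, ∃ θ : G →+ (J →₀ ℚ), ∀ x, θ x = M.Psi t (ψ x) := by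
  let K : AddSubgroup (J →₀ ℚ) :=
    { carrier := {h | ∃ x ∈ R, M.Psi t x = h}
      zero_mem' := h.zero
      add_mem' := by
        rintro _ _ ⟨x, hx, rfl⟩ ⟨y, hy, rfl⟩
        exact h.add x hx y hy
      neg_mem' := by
        rintro _ ⟨x, hx, rfl⟩
        exact h.neg x hx }
  let e : G ≃ K := Equiv.ofBijective (fun x => ⟨M.Psi t (ψ x), ψ x, hr ▸ mem_range_self x, rfl⟩)
    ⟨fun x y h => hψ (M.Psi_inj t (congrArg Subtype.val h)), by
      rintro ⟨_, x, hx, rfl⟩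
      obtain ⟨y, rfl⟩ : x ∈ range ψ := hr ▸ hx
      exact ⟨y, rfl⟩⟩
  let _ : AddCommGroup G := e.addCommGroup
  exact ⟨_, K.subtype.comp e.addEquiv.toAddMonoidHom, fun x => rfl⟩

theorem exists_nf {T : Om P → C} (hT : Measurable T) {Bs : Om P → Set C}
    (hB : ∀ Y : Om P → C, Measurable Y → Measurable fun ω => Y ω ∈ Bs ω) :
    ∃ Z : Om P → C × ℕ → C, (∀ (A : Om P → C) k, Measurable A → Measurable fun ω => Z ω (A ω, k)) ∧
      ∀ ω, M.Cl (T ω) (RM ω) → ∀ (G : Type) [AddCommGroup G] (θ : G →+ (J →₀ ℚ)) (ψ : G → C),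
        (∀ x, θ x = M.Psi (T ω) (ψ x)) → Function.Injective ψ → range ψ = RM ω →
        LinearIndepOn ℤ id (ψ ⁻¹' Bs ω) → AddSubgroup.closure (ψ ⁻¹' Bs ω) = ⊤ →
        ∀ a ∈ RM ω, ∀ c, ∃ i n, col n (Z ω ((M.D (T ω)).own (a, c) i)) = a := by
  obtain ⟨men, hm1, hm2⟩ := (M.rep_Psi (Y := C × C) continuous_fst continuous_snd).mention
  let S : Om P → C × ℕ → ℕ → List Bool → C → Prop := fun ω o c s y =>
    ∃ n : ℕ, (∀ i, i < n → col i y ∈ Bs ω) ∧ ∃ l : Fin n → ℤ,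
      ∑ i, l i • M.Psi (T ω) (col i y) - Finsupp.single (o.1, .var o.2 c s) 1 = 0
  obtain ⟨d, hd⟩ := exists_surjective_nat (ℕ × List Bool × ℕ × ℕ)
  refine ⟨fun ω o => mer fun N => men (d N).2.2.2
    (T ω, col (d N).2.2.1 (sel ω (S ω o (d N).1 (d N).2.1))), fun A k hA => ?_, ?_⟩
  · refine meas_mer fun N => (hm1 _).fun_comp (hT.prodMk ((meas_col _).fun_comp (meas_sel fun Y hY => ?_)))
    refine Measurable.exists fun n => (Measurable.forall fun i => measurable_const.imp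
      (hB _ ((meas_col i).fun_comp hY))).and (Measurable.exists fun l => ?_)
    have h1 : Rep fun p : C × C × C => ∑ i : Fin n, l i • M.Psi p.1 (col i p.2.1) :=
      Rep.sum _ fun i _ => (M.rep_Psi (t := fun p : C × C × C => p.1)
        (x := fun p => col i p.2.1) continuous_fst ((cont_col i).comp
        (continuous_fst.comp continuous_snd))).zsmul _
    have h2 := (h1.sub (Rep.single (j := fun p : C × C × C => (p.2.2, .var k (d N).1 (d N).2.1))
          ⟨PC.of_cont (continuous_snd.comp continuous_snd), LC.const _⟩ 1)).eq_zero.meas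
    have h3 := h2.fun_comp (hT.prodMk (hY.prodMk hA))
    dsimp only at h3 ⊢
    exact h3
  intro ω hc G _ θ ψ hθ hψ hr hli hsp a ha c
  have hθi : Function.Injective θ := fun x y h => hψ (M.Psi_inj _ (by rwa [← hθ, ← hθ]))
  have hsur : ∀ z ∈ RM ω, ∃ x, ψ x = z := fun z hz => show z ∈ range ψ from hr ▸ hz
  let D := M.D (T ω)
  let ls : ℕ → Bool → C := fun m i =>
    sel ω (S ω (D.own (a, c) i) c (res (D.oth (a, c) i) m))
  let B0 : Set G := {b | ψ b ∈ Bs ω ∧ ∃ m i n, ψ b = col n (ls m i)}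
  have h1 : ∀ m i, ∃ x ∈ AddSubgroup.closure B0, θ x = Finsupp.single (D.vv (a, c) m i) 1 := by
    intro m i
    obtain ⟨z, h2, h3⟩ := hc.var _ (hc.own a ha c i) (D.own (a, c) i).2 c
      (res (D.oth (a, c) i) m)
    obtain ⟨x, rfl⟩ := hsur z h2
    have h4 : x ∈ Submodule.span ℤ (ψ ⁻¹' Bs ω) := by
      have : x ∈ AddSubgroup.closure (ψ ⁻¹' Bs ω) := hsp ▸ AddSubgroup.mem_top x
      rwa [← Submodule.span_int_eq_addSubgroupClosure] at this
    obtain ⟨n, l, g, h5⟩ := Submodule.mem_span_set'.1 h4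
    obtain ⟨h6, n', h7, l', h8⟩ := sel_spec (ω := ω)
      (S := S ω (D.own (a, c) i) c (res (D.oth (a, c) i) m))
      ⟨_, hc.fin n (fun i => ψ (g i)) fun i => hr ▸ mem_range_self _, n, fun i hi => by
        simp only [col_mer, hi, dif_pos]
        exact (g ⟨i, hi⟩).2, l, by
        rw [sub_eq_zero, ← h3, ← hθ, ← h5, map_sum]
        exact Finset.sum_congr rfl fun i _ => by rw [map_zsmul, hθ]; simp⟩
    have h9 : ∀ k : Fin n', ∃ b ∈ B0, ψ b = col k (ls m i) := fun k => by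
      obtain ⟨b, hb⟩ := hsur _ (hc.col _ h6 k)
      exact ⟨b, ⟨hb ▸ h7 k k.2, m, i, k, hb⟩, hb⟩
    choose b hb1 hb2 using h9
    refine ⟨∑ k, l' k • b k, sum_mem fun k _ => zsmul_mem (AddSubgroup.subset_closure (hb1 k)) _,
      ?_⟩
    rw [sub_eq_zero] at h8
    rw [map_sum]
    refine Eq.trans (Finset.sum_congr rfl fun k _ => ?_) h8
    rw [map_zsmul, hθ, hb2]
  choose x hx1 hx2 using h1
  have h2 : ∀ n, ∃ g, θ g = D.zz (a, c) (1 / (n.factorial : ℚ)) n := fun n => by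
    obtain ⟨z, h3, h4⟩ := hc.zz a ha c n
    obtain ⟨g, rfl⟩ := hsur z h3
    exact ⟨g, (hθ g).trans h4⟩
  choose g hg using h2
  have h3 : g 0 ∈ AddSubgroup.closure B0 := by
    refine mem_closure_of_div hli hsp (fun b hb => hb.1) g fun n => ?_
    have : n.factorial • g n - g 0 = ∑ m ∈ Finset.range n, ∑ i : Bool, m.factorial • x m i := by
      apply hθi
      simp only [map_sub, map_nsmul, map_sum, hg, hx2]
      simpa using D.zz_rel (a, c) n
    rw [this]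
    exact sum_mem fun m _ => sum_mem fun i _ => nsmul_mem (hx1 m i) _
  obtain ⟨b, ⟨-, m, i, n, h4⟩, h5⟩ := supp_of_mem_closure θ h3 (j := (a, .edge c)) (by
    simp [hg, Dat.zz])
  obtain ⟨k, hk⟩ := hm2 (T ω, ψ b) _ (hθ b ▸ h5)
  obtain ⟨N, hN⟩ := hd (c, res (D.oth (a, c) i) m, n, k)
  refine ⟨i, N, ?_⟩
  simp only [col_mer, hN]
  rw [h4] at hk
  exact hk

theorem key_le_iff {W : Type} [LinearOrder W] {w w' : W} {a a' : ℕ} {b b' : ℕ ×ₗ ℕ ×ₗ ℕ} :
    (toLex (toLex (w, a), b) : Dat.KT W) ≤ toLex (toLex (w', a'), b') ↔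
      w < w' ∨ (¬ w < w' ∧ ¬ w' < w ∧ toLex (a, b) ≤ toLex (a', b')) := by
  simp only [Prod.Lex.toLex_le_toLex, Prod.Lex.toLex_lt_toLex, toLex_inj, Prod.mk.injEq]
  rcases lt_trichotomy w w' with h | rfl | h
  · simp [h]
  · simp
  · simp [h, h.not_gt, h.ne']

theorem exists_free {T : Om P → C} (hT : Measurable T) {X Hs : Om P → Set C}
    (hX : ∀ Y : Om P → C, Measurable Y → Measurable fun ω => Y ω ∈ X ω)
    (hH : ∀ Y : Om P → C, Measurable Y → Measurable fun ω => Y ω ∈ Hs ω)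
    {W : Type} [LinearOrder W] [WellFoundedLT W] {ρ : Om P → C → W}
    (hρ : ∀ Y Y' : Om P → C, Measurable Y → Measurable Y' →
      Measurable fun ω => ρ ω (Y ω) < ρ ω (Y' ω)) :
    ∃ Bs : Om P → Set C, (∀ Y : Om P → C, Measurable Y → Measurable fun ω => Y ω ∈ Bs ω) ∧
      (∀ ω, Bs ω ⊆ Hs ω) ∧ ∀ ω, InjOn (ρ ω) (X ω) → X ω ⊆ RM ω → Hs ω ⊆ RM ω →
        (∀ o : C × ℕ, o.1 ∈ X ω → Ctb ω {u | ∃ a c, (a, Tag.edge c) ∈ (M.D (T ω)).Rel (X ω) ∧
          (M.D (T ω)).own (a, c) ((M.D (T ω)).side (ρ ω) (a, c)) = o ∧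
          (M.D (T ω)).oth (a, c) ((M.D (T ω)).side (ρ ω) (a, c)) = u}) →
        (∀ x ∈ Hs ω, ∀ j, M.Psi (T ω) x j ≠ 0 → j ∈ (M.D (T ω)).Rel (X ω)) →
        ∀ (G : Type) [AddCommGroup G] (θ : G →+ (J →₀ ℚ)) (ψ : G → C),
          (∀ x, θ x = M.Psi (T ω) (ψ x)) → Function.Injective ψ →
          ∀ H : AddSubgroup G, ψ '' H = Hs ω → LinearIndepOn ℤ id (ψ ⁻¹' Bs ω) ∧
            AddSubgroup.closure (ψ ⁻¹' Bs ω) = H := by
  classical
  let y : Om P → C × ℕ → C := fun ω o => sel ω fun y => ∀ a ∈ RM ω, ∀ c,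
    (a, Tag.edge c) ∈ (M.D (T ω)).Rel (X ω) →
    (M.D (T ω)).own (a, c) ((M.D (T ω)).side (ρ ω) (a, c)) = o →
    ∃ n, col n y = (M.D (T ω)).oth (a, c) ((M.D (T ω)).side (ρ ω) (a, c))
  have mside : ∀ A : Om P → C, Measurable A → ∀ c,
      Measurable fun ω => (M.D (T ω)).side (ρ ω) (A ω, c) := fun A hA c => by
    unfold Dat.side
    refine meas_decide (α := Om P) ?_
    have h0 : ∀ w w' : W, w = w' ↔ ¬ w < w' ∧ ¬ w' < w := fun w w' => by
      simp only [not_lt]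
      exact ⟨fun h => ⟨h.ge, h.le⟩, fun h => le_antisymm h.2 h.1⟩
    simp only [okey, Prod.Lex.toLex_lt_toLex, h0]
    exact (hρ _ _ (M.meas_own1 hT hA c _) (M.meas_own1 hT hA c _)).or
      (((hρ _ _ (M.meas_own1 hT hA c _) (M.meas_own1 hT hA c _)).not.and
        (hρ _ _ (M.meas_own1 hT hA c _) (M.meas_own1 hT hA c _)).not).and
        (measurableSet_setOfPred.1 (measurableSet_lt (M.meas_own2 hT hA c _)
          (M.meas_own2 hT hA c _))))
  have mo1 : ∀ A : Om P → C, Measurable A → ∀ c, Measurable fun ω =>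
      ((M.D (T ω)).own (A ω, c) ((M.D (T ω)).side (ρ ω) (A ω, c))).1 := fun A hA c =>
    meas_subst (mside A hA c) (f := fun i ω => ((M.D (T ω)).own (A ω, c) i).1)
      fun i => M.meas_own1 hT hA c i
  have mo2 : ∀ A : Om P → C, Measurable A → ∀ c, Measurable fun ω =>
      ((M.D (T ω)).own (A ω, c) ((M.D (T ω)).side (ρ ω) (A ω, c))).2 := fun A hA c =>
    meas_subst (mside A hA c) (f := fun i ω => ((M.D (T ω)).own (A ω, c) i).2)
      fun i => M.meas_own2 hT hA c i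
  have mot : ∀ A : Om P → C, Measurable A → ∀ c, Measurable fun ω =>
      (M.D (T ω)).oth (A ω, c) ((M.D (T ω)).side (ρ ω) (A ω, c)) := fun A hA c =>
    meas_subst (mside A hA c) (f := fun i ω => (M.D (T ω)).oth (A ω, c) i)
      fun i => M.meas_oth hT hA c i
  have my : ∀ (A : Om P → C) (k : Om P → ℕ), Measurable A → Measurable k →
      Measurable fun ω => y ω (A ω, k ω) := fun A k hA hk => by
    refine meas_sel fun Y hY => meas_forall_RM fun A' hA' => Measurable.forall fun c => ?_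
    simp only [Dat.Rel, mem_ofPred_eq, Tag.edge.injEq, forall_eq', Prod.ext_iff]
    exact ((hX _ hA').and (Measurable.forall fun i => hX _ (M.meas_own1 hT hA' c i))).imp
      (((meas_eqC (mo1 A' hA' c) hA).and (measurableSet_setOfPred.1
        (measurableSet_eq_fun (mo2 A' hA' c) hk))).imp
        (Measurable.exists fun n => meas_eqC ((meas_col n).fun_comp hY) (mot A' hA' c)))
  let key : Om P → J → Dat.KT W := fun ω => (M.D (T ω)).key (ρ ω) (y ω)
  have mkey0 : ∀ (A : Om P → C) τ, Measurable A → ∃ (r : Om P → C) (n : Om P → ℕ × ℕ × ℕ × ℕ),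
      Measurable r ∧ Measurable n ∧ ∀ ω, key ω (A ω, τ) =
        toLex (toLex (ρ ω (r ω), (n ω).1), toLex ((n ω).2.1, toLex (n ω).2.2)) := by
    intro A τ hA
    cases τ with
    | edge c =>
      exact ⟨_, _, mo1 A hA c, (mo2 A hA c).prodMk ((meas_sInf fun n => meas_eqC
        ((meas_col n).fun_comp (my _ _ (mo1 A hA c) (mo2 A hA c))) (mot A hA c)).prodMk
        (measurable_const (a := (0, c)))), fun ω => rfl⟩
    | var k c t =>
      exact ⟨_, _, hA, (measurable_const (a := k)).prodMk ((meas_sInf fun n => meas_res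
        ((meas_col n).fun_comp (my _ _ hA (measurable_const (a := k)))) t).prodMk
        (measurable_const (a := (t.length + 1, Encodable.encode (c, t))))), fun ω => rfl⟩
  have mkey : ∀ (A A' : Om P → C) τ τ', Measurable A → Measurable A' →
      Measurable fun ω => key ω (A ω, τ) ≤ key ω (A' ω, τ') := by
    intro A A' τ τ' hA hA'
    obtain ⟨r, n, h1, h2, h3⟩ := mkey0 A τ hA
    obtain ⟨r', n', h1', h2', h3'⟩ := mkey0 A' τ' hA'
    simp only [h3, h3', key_le_iff]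
    exact (hρ _ _ h1 h1').or ((hρ _ _ h1 h1').not.and ((hρ _ _ h1' h1).not.and
      (Measurable.fun_comp (g := fun p : (ℕ × ℕ × ℕ × ℕ) × (ℕ × ℕ × ℕ × ℕ) =>
        toLex (p.1.1, toLex (p.1.2.1, toLex p.1.2.2)) ≤
          toLex (p.2.1, toLex (p.2.2.1, toLex p.2.2.2))) (measurable_of_countable _)
        (h2.prodMk h2'))))
  let LR : Om P → C → J → Prop := fun ω x j => M.Psi (T ω) x j ≠ 0 ∧ ∀ a ∈ RM ω, ∀ τ,
    M.Psi (T ω) x (a, τ) ≠ 0 → key ω (a, τ) ≤ key ω j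
  have mne : ∀ (Y A : Om P → C) τ, Measurable Y → Measurable A →
      Measurable fun ω => M.Psi (T ω) (Y ω) (A ω, τ) ≠ 0 := fun Y A τ hY hA =>
    Measurable.fun_comp (g := fun q : ℚ => q ≠ 0) (measurable_of_countable _)
      (M.meas_coef hT hY hA τ)
  have mpos : ∀ (Y A : Om P → C) τ, Measurable Y → Measurable A →
      Measurable fun ω => 0 < M.Psi (T ω) (Y ω) (A ω, τ) := fun Y A τ hY hA =>
    Measurable.fun_comp (g := fun q : ℚ => 0 < q) (measurable_of_countable _)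
      (M.meas_coef hT hY hA τ)
  have mLR : ∀ (Y A : Om P → C) τ, Measurable Y → Measurable A →
      Measurable fun ω => LR ω (Y ω) (A ω, τ) := fun Y A τ hY hA =>
    (mne Y A τ hY hA).and (meas_forall_RM fun A' hA' => Measurable.forall fun τ' =>
      (mne Y A' τ' hY hA').imp (mkey _ _ _ _ hA' hA))
  let MR : Om P → J → C → Prop := fun ω j x => x ∈ Hs ω ∧ LR ω x j ∧ 0 < M.Psi (T ω) x j ∧
    ∀ x' ∈ RM ω, x' ∈ Hs ω → LR ω x' j → 0 < M.Psi (T ω) x' j →
      M.Psi (T ω) x j ≤ M.Psi (T ω) x' j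
  have mMR : ∀ (Y A : Om P → C) τ, Measurable Y → Measurable A →
      Measurable fun ω => MR ω (A ω, τ) (Y ω) := fun Y A τ hY hA =>
    (hH Y hY).and ((mLR Y A τ hY hA).and ((mpos Y A τ hY hA).and (meas_forall_RM fun Y' hY' =>
      (hH Y' hY').imp ((mLR Y' A τ hY' hA).imp ((mpos Y' A τ hY' hA).imp
        (Measurable.fun_comp (g := fun q : ℚ × ℚ => q.1 ≤ q.2) (measurable_of_countable _)
          ((M.meas_coef hT hY hA τ).prodMk (M.meas_coef hT hY' hA τ))))))))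
  refine ⟨fun ω => {x | ∃ a ∈ RM ω, ∃ τ, (∃ x' ∈ RM ω, MR ω (a, τ) x') ∧
    x = sel ω (MR ω (a, τ))}, fun Y hY => meas_exists_RM fun A hA => Measurable.exists fun τ =>
      (meas_exists_RM fun Y' hY' => mMR Y' A τ hY' hA).and
        (meas_eqC hY (meas_sel fun Y' hY' => mMR Y' A τ hY' hA)), ?_, ?_⟩
  · rintro ω _ ⟨a, -, τ, h1, rfl⟩
    exact (sel_spec h1).2.1
  intro ω hinj hXR hHR hct hrel G _ θ ψ hθ hψ H hHs
  have hθi : Function.Injective θ := fun x y h => hψ (M.Psi_inj _ (by rwa [← hθ, ← hθ]))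
  have hrk : (M.D (T ω)).RkHyp (X ω) (ρ ω) (y ω) := by
    refine ⟨hinj, fun e he => ?_⟩
    obtain ⟨y0, h1, h2⟩ := hct _ (he.2 _ rfl ((M.D (T ω)).side (ρ ω) e))
    exact (sel_spec (S := fun y => ∀ a ∈ RM ω, ∀ c, (a, Tag.edge c) ∈ (M.D (T ω)).Rel (X ω) →
      (M.D (T ω)).own (a, c) ((M.D (T ω)).side (ρ ω) (a, c)) =
        (M.D (T ω)).own e ((M.D (T ω)).side (ρ ω) e) →
      ∃ n, col n y = (M.D (T ω)).oth (a, c) ((M.D (T ω)).side (ρ ω) (a, c)))
      ⟨y0, h1, fun a _ c h3 h4 => h2 _ ⟨a, c, h3, h4, rfl⟩⟩).2 e.1 (hXR he.1) e.2 he rfl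
  have hmem : ∀ x, x ∈ H ↔ ψ x ∈ Hs ω := fun x => by
    rw [← hHs, hψ.mem_set_image]
    rfl
  have hLR : ∀ x ∈ H, ∀ j, LR ω (ψ x) j ↔ Lead (key ω) (θ x) j := fun x hx j => by
    rw [hθ]
    exact and_congr_right fun _ => ⟨fun h j' h1 =>
      h j'.1 (hXR (hrel _ ((hmem x).1 hx) _ h1).1) j'.2 h1, fun h a _ τ => h (a, τ)⟩
  have hMR : ∀ x j, MR ω j (ψ x) ↔ MinLead (key ω) (H.map θ) j (θ x) := fun x j => by
    constructor
    · rintro ⟨h1, h2, h3, h4⟩
      have h5 := (hmem x).2 h1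
      refine ⟨⟨x, h5, rfl⟩, (hLR x h5 j).1 h2, hθ x ▸ h3, ?_⟩
      rintro _ ⟨x', h6, rfl⟩ h7 h8
      rw [hθ, hθ]
      exact h4 _ (hHR ((hmem _).1 h6)) ((hmem _).1 h6) ((hLR x' h6 j).2 h7) (hθ x' ▸ h8)
    · rintro ⟨⟨x', h1, h2⟩, h3, h4, h5⟩
      obtain rfl := hθi h2
      refine ⟨(hmem _).1 h1, (hLR _ h1 j).2 h3, hθ x' ▸ h4, fun z _ h6 h7 h8 => ?_⟩
      obtain ⟨x'', h9, rfl⟩ : z ∈ ψ '' H := hHs ▸ h6
      rw [← hθ, ← hθ]
      exact h5 _ ⟨x'', h9, rfl⟩ ((hLR _ h9 j).1 h7) (hθ x'' ▸ h8)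
  have hsupp : ∀ x ∈ H, ∀ j, θ x j ≠ 0 → j ∈ (M.D (T ω)).Rel (X ω) := fun x hx j h =>
    hrel _ ((hmem x).1 hx) j (hθ x ▸ h)
  refine basis_crit θ hθi (key ω) H hrk.key_inj hsupp ?_ ?_ ?_
  · rintro b ⟨a, -, τ, h1, h2⟩
    have h3 := (sel_spec h1).2
    rw [← h2] at h3
    exact ⟨(hmem b).2 h3.1, _, (hMR _ _).1 h3⟩
  · rintro b ⟨a, -, τ, h1, h2⟩ b' ⟨a', -, τ', h1', h2'⟩ j h3 h3'
    have h4 := (sel_spec h1).2
    have h4' := (sel_spec h1').2
    rw [← h2] at h4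
    rw [← h2'] at h4'
    have h5 := ((hMR _ _).1 h4).2.1
    have h5' := ((hMR _ _).1 h4').2.1
    have h6 := hrk.key_inj (hsupp b ((hmem b).2 h4.1) _ h3.1) (hsupp b ((hmem b).2 h4.1) _ h5.1)
      (le_antisymm (h5.2 _ h3.1) (h3.2 _ h5.1))
    have h6' := hrk.key_inj (hsupp b' ((hmem b').2 h4'.1) _ h3'.1)
      (hsupp b' ((hmem b').2 h4'.1) _ h5'.1) (le_antisymm (h5'.2 _ h3'.1) (h3'.2 _ h5'.1))
    apply hψ
    rw [h2, h2', ← h6, ← h6']
  · intro x hx j hj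
    obtain ⟨N, hN, hC⟩ := hrk.condC (hsupp x hx j hj.1)
    obtain ⟨_, h1⟩ := exists_minLead (key ω) (H.map θ) hN (by
      rintro _ ⟨x', h1, rfl⟩ h2
      exact hC _ (hθ x' ▸ M.Psi_mem _ _) (hsupp x' h1) h2) ⟨x, hx, rfl⟩ hj
    obtain ⟨x', h2, rfl⟩ := h1.1
    have h3 : ∃ z ∈ RM ω, MR ω (j.1, j.2) z := ⟨_, hHR ((hmem _).1 h2), (hMR _ _).2 h1⟩
    obtain ⟨b, -, h4⟩ : sel ω (MR ω (j.1, j.2)) ∈ ψ '' H := hHs ▸ (sel_spec h3).2.1
    refine ⟨b, ⟨j.1, hXR (hsupp x hx j hj.1).1, j.2, h3, h4⟩, ((hMR b j).1 ?_).2.1⟩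
    rw [h4]
    exact (sel_spec h3).2

end Mode

end Pool.Agent.MP_e75763_lc

end MrgPart0

-- ======== part 1: formerly Pool.Agent.MP_e75763_lc.Code
section MrgPart1

/-! Coding of Borel sets in the extension and the assembly of the failure statement. -/

namespace Pool.Agent.MP_e75763_lc

open Set Filter

universe u

theorem mem_tup {k : ℕ} {f : Fin k → ZFSet.{0}} {z : ZFSet.{0}} :
    z ∈ tup f ↔ ∃ i : Fin k, ∃ m ∈ f i, z = ZFSet.pair (nat i) m := by
  simp [tup]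

theorem tup_inj {k : ℕ} : Function.Injective (tup (k := k)) := fun f g h => by
  have key : ∀ f g : Fin k → ZFSet.{0}, tup f = tup g → ∀ i, ∀ m ∈ f i, m ∈ g i := by
    intro f g h i m hm
    obtain ⟨j, m', h1, h2⟩ := mem_tup.1 (h ▸ mem_tup.2 ⟨i, m, hm, rfl⟩)
    rw [ZFSet.pair_inj] at h2
    obtain rfl : i = j := Fin.ext (nat_inj h2.1)
    exact h2.2 ▸ h1
  funext i
  ext m
  exact ⟨key f g h i m, key g f h.symm i m⟩

theorem upair_mem_HF {a b : ZFSet.{0}} (ha : a ∈ HF) (hb : b ∈ HF) :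
    ({a, b} : ZFSet.{0}) ∈ HF := by
  rw [ZFSet.mem_vonNeumann] at *
  rw [ZFSet.rank_pair]
  exact max_lt (Ordinal.isSuccLimit_omega0.succ_lt ha) (Ordinal.isSuccLimit_omega0.succ_lt hb)

theorem pair_mem_HF {a b : ZFSet.{0}} (ha : a ∈ HF) (hb : b ∈ HF) : ZFSet.pair a b ∈ HF := by
  have := upair_mem_HF (upair_mem_HF ha ha) (upair_mem_HF ha hb)
  simpa [ZFSet.pair] using this

/-- Borel codings by subsets of `HF` -/
structure CodeOK {Y : Type} [MeasurableSpace Y] (c : Y → ZFSet.{0}) : Prop where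
  sub : ∀ y, c y ⊆ HF
  meas : ∀ z, Measurable fun y => z ∈ c y

theorem CodeOK.bits {Y : Type} [MeasurableSpace Y] {c : Y → ZFSet.{0}} (h : CodeOK c) :
    Measurable fun y => bits (c y) := measurable_pi_lambda _ fun _ => meas_decide (h.meas _)

theorem CodeOK.comp {Y Y' : Type} [MeasurableSpace Y] [MeasurableSpace Y'] {c : Y → ZFSet.{0}}
    (h : CodeOK c) {f : Y' → Y} (hf : Measurable f) : CodeOK fun y => c (f y) :=
  ⟨fun _ => h.sub _, fun z => (h.meas z).fun_comp hf⟩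

theorem CodeOK.tup {Y : Type} [MeasurableSpace Y] {k : ℕ} {f : Fin k → Y → ZFSet.{0}}
    (h : ∀ i, CodeOK (f i)) : CodeOK fun y => tup fun i => f i y := by
  refine ⟨fun y z hz => ?_, fun z => ?_⟩
  · obtain ⟨i, m, h1, rfl⟩ := mem_tup.1 hz
    exact pair_mem_HF (nat_mem_HF _) ((h i).sub y h1)
  · have : Measurable fun y => ∃ i : Fin k, ∃ m : HF, m.1 ∈ f i y ∧ z = ZFSet.pair (nat i) m.1 :=
      Measurable.exists fun i => Measurable.exists fun m => ((h i).meas _).and measurable_const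
    convert this using 2 with y
    rw [mem_tup]
    exact exists_congr fun i => ⟨fun ⟨m, h1, h2⟩ => ⟨⟨m, (h i).sub y h1⟩, h1, h2⟩,
      fun ⟨m, h1, h2⟩ => ⟨m.1, h1, h2⟩⟩

theorem codeOK_nat : CodeOK nat := ⟨fun n => HF_trans (nat_mem_HF n), fun _ =>
  measurable_of_countable _⟩

theorem codeOK_real : CodeOK realCode := by
  refine ⟨fun x z hz => ?_, fun z => ?_⟩
  · obtain ⟨n, rfl⟩ := ZFSet.mem_range.1 hz
    exact nat_mem_HF _
  · simp only [realCode, ZFSet.mem_range, Subtype.exists, exists_prop]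
    exact Measurable.exists fun n => (measurableSet_setOfPred.1 measurableSet_Ioi).and
      measurable_const

theorem realCode_inj : Function.Injective realCode := by
  have key : ∀ x y, realCode x = realCode y → ¬ x < y := fun x y h hlt => by
    obtain ⟨q, h1, h2⟩ := exists_rat_btwn hlt
    have h3 : nat (Encodable.encode q) ∈ realCode y :=
      ZFSet.mem_range.2 ⟨⟨q, h2⟩, rfl⟩
    rw [← h] at h3
    obtain ⟨⟨n, hn⟩, h4⟩ := ZFSet.mem_range.1 h3
    obtain rfl := Encodable.encode_injective (nat_inj h4)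
    exact lt_asymm h1 hn
  exact fun x y h => le_antisymm (not_lt.1 (key y x h.symm)) (not_lt.1 (key x y h))

theorem codeOK_cantor : CodeOK cantorCode := by
  refine ⟨fun x z hz => ?_, fun z => ?_⟩
  · obtain ⟨n, rfl⟩ := ZFSet.mem_range.1 hz
    exact nat_mem_HF _
  · simp only [cantorCode, ZFSet.mem_range, Subtype.exists, exists_prop]
    exact Measurable.exists fun n => (meas_bit measurable_id n true).and measurable_const

theorem cantorCode_inj : Function.Injective cantorCode := by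
  have key : ∀ x y, cantorCode x = cantorCode y → ∀ n, x n = true → y n = true :=
    fun x y h n hn => by
    have h3 : nat n ∈ cantorCode x := ZFSet.mem_range.2 ⟨⟨n, hn⟩, rfl⟩
    rw [h] at h3
    obtain ⟨⟨m, hm⟩, h4⟩ := ZFSet.mem_range.1 h3
    obtain rfl := nat_inj h4
    exact hm
  exact fun x y h => funext fun n => Bool.eq_iff_iff.2 ⟨key x y h n, key y x h.symm n⟩

variable {P : Type u} [Preorder P]

/-- random classes that contain the Borel sets -/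
structure GoodW (W : Om P → Set ZFSet.{0}) : Prop where
  sub : ∀ᶠ ω : Om P in gen P, W ω ⊆ MM ω
  real : ∀ᶠ ω : Om P in gen P, ∀ x ∈ RM ω, hc x ∈ W ω
  borel : ∀ S : Set (C × C), MeasurableSet S → ∀ t : Om P → C, Measurable t →
    ∀ᶠ ω : Om P in gen P, ∃ z ∈ W ω, ∀ w, w ∈ z ↔ ∃ x ∈ RM ω, (t ω, x) ∈ S ∧ hc x = w

theorem goodW_MM : GoodW (MM (P := P)) := by
  refine ⟨Eventually.of_forall fun _ => Subset.rfl, ev_hc_iff.mono fun ω h x => (h x).2,
    fun S hS t ht => ?_⟩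
  obtain ⟨b, hb⟩ := named_reals (P := P) (Φ := fun x ω => (t ω, x) ∈ S) fun X hX =>
    meas_memS (ht.prodMk hX) hS
  filter_upwards [hb, (Named.val b).mem_MM] with ω h1 h2 using ⟨_, h2, h1⟩

variable {W : Om P → Set ZFSet.{0}}

theorem GoodW.coded (hW : GoodW W) {Y : Type} [MeasurableSpace Y] [StandardBorelSpace Y]
    {c : Y → ZFSet.{0}} (hc : CodeOK c) (hi : Function.Injective c) {S : Set (C × Y)}
    (hS : MeasurableSet S) {t : Om P → C} (ht : Measurable t) :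
    ∀ᶠ ω : Om P in gen P, ∃ z ∈ W ω, ∀ w, w ∈ z ↔
      ∃ y, (t ω, y) ∈ S ∧ bits (c y) ∈ RM ω ∧ c y = w := by
  have h1 : Function.Injective fun y => bits (c y) := fun y y' h =>
    hi (by rw [← hc_bits (hc.sub y), ← hc_bits (hc.sub y')]; exact congrArg _ h)
  filter_upwards [hW.borel _ (hS.image_of_measurable_injOn (measurable_id.prodMap hc.bits)
    (Function.injective_id.prodMap h1).injOn) t ht] with ω ⟨z, h2, h3⟩
  refine ⟨z, h2, fun w => (h3 w).trans ⟨?_, ?_⟩⟩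
  · rintro ⟨x, h4, ⟨⟨t', y⟩, h5, h6⟩, rfl⟩
    simp only [Prod.map, id, Prod.mk.injEq] at h6
    obtain ⟨rfl, rfl⟩ := h6
    exact ⟨y, h5, h4, (hc_bits (hc.sub y)).symm⟩
  · rintro ⟨y, h4, h5, rfl⟩
    exact ⟨_, h5, ⟨_, h4, rfl⟩, hc_bits (hc.sub y)⟩

theorem ev_bits_back {Y : Type} [MeasurableSpace Y] [StandardBorelSpace Y] [Nonempty Y]
    {c : Y → ZFSet.{0}} (hc : CodeOK c) (hi : Function.Injective c) {f : Y → C}
    (hf : Measurable f) : ∀ᶠ ω : Om P in gen P, ∀ y, bits (c y) ∈ RM ω → f y ∈ RM ω := by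
  have h1 : Function.Injective fun y => bits (c y) := fun y y' h =>
    hi (by rw [← hc_bits (hc.sub y), ← hc_bits (hc.sub y')]; exact congrArg _ h)
  have h2 := hc.bits.measurableEmbedding h1
  filter_upwards [ev_diag_RM (P := P) (Φ := fun x ω => f (h2.invFun x) ∈ RM ω) fun X hX =>
    ev_RM (hf.fun_comp (h2.measurable_invFun.fun_comp hX))] with ω h3 y hy
  have := h3 _ hy
  rwa [h2.leftInverse_invFun y] at this

variable {X : Type} [MeasurableSpace X] [StandardBorelSpace X] {c : X → ZFSet.{0}}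

theorem GoodW.pt (hW : GoodW W) (hc : CodeOK c) (hi : Function.Injective c) (φ : X ≃ᵐ C) :
    ∀ᶠ ω : Om P in gen P, ∀ x, c x ∈ W ω ↔ φ x ∈ RM ω := by
  have : Nonempty X := ⟨φ.symm default⟩
  filter_upwards [hW.sub, hW.real, ev_hc_iff (P := P), ev_bits_back (P := P) hc hi φ.measurable,
    ev_diag_RM (P := P) (Φ := fun x ω => bits (c (φ.symm x)) ∈ RM ω) fun X hX =>
      ev_RM (hc.bits.fun_comp (φ.symm.measurable.fun_comp hX))] with ω h1 h2 h3 h4 h5 x
  refine ⟨fun h => h4 x ((h3 _).1 ?_), fun h => ?_⟩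
  · rw [hc_bits (hc.sub x)]
    exact h1 h
  · have := h2 _ (h5 _ h)
    rwa [φ.symm_apply_apply, hc_bits (hc.sub x)] at this

theorem GoodW.setIn (hW : GoodW W) (hc : CodeOK c) (hi : Function.Injective c) (φ : X ≃ᵐ C)
    {k : ℕ} {S : Set (C × (Fin k → X))} (hS : MeasurableSet S) {t : Om P → C}
    (ht : Measurable t) :
    ∀ᶠ ω : Om P in gen P, SetIn c (W ω) {v | (t ω, fun i => (v i).1) ∈ S} := by
  have : Nonempty X := ⟨φ.symm default⟩
  have h1 : CodeOK fun v : Fin k → X => tup fun i => c (v i) :=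
    CodeOK.tup fun i => hc.comp (measurable_pi_apply i)
  have h2 : Function.Injective fun v : Fin k → X => tup fun i => c (v i) := fun v v' h =>
    funext fun i => hi (congrFun (tup_inj h) i)
  filter_upwards [hW.coded h1 h2 hS ht, hW.pt hc hi φ, eventually_all.2 fun i =>
    ev_bits_back (P := P) h1 h2 (φ.measurable.fun_comp (measurable_pi_apply i)),
    ev_diag_RM_fin (P := P) k (Φ := fun v ω => bits (tup fun i => c (φ.symm (v i))) ∈ RM ω)
      fun Y hY => ev_RM (h1.bits.fun_comp (measurable_pi_lambda _ fun i =>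
        φ.symm.measurable.fun_comp ((measurable_pi_apply i).fun_comp hY)))]
    with ω ⟨z, h3, h4⟩ h5 h6 h7
  refine ⟨z, h3, fun w => (h4 w).trans ⟨?_, ?_⟩⟩
  · rintro ⟨v, h8, h9, rfl⟩
    exact ⟨fun i => ⟨v i, (h5 _).2 (h6 i v h9)⟩, h8, rfl⟩
  · rintro ⟨v, h8, rfl⟩
    exact ⟨_, h8, by simpa using h7 (fun i => φ (v i).1) fun i => (h5 _).1 (v i).2, rfl⟩

theorem GoodW.seqIn (hW : GoodW W) (hc : CodeOK c) (hi : Function.Injective c) (φ : X ≃ᵐ C)
    {k : ℕ} {S : ℕ → Set (C × (Fin k → X))} (hS : ∀ n, MeasurableSet (S n)) {t : Om P → C}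
    (ht : Measurable t) :
    ∀ᶠ ω : Om P in gen P, SeqIn c (W ω) fun n => {v | (t ω, fun i => (v i).1) ∈ S n} := by
  have : Nonempty X := ⟨φ.symm default⟩
  have h1 : CodeOK fun p : ℕ × (Fin k → X) => tup ![nat p.1, tup fun i => c (p.2 i)] := by
    have := CodeOK.tup (k := 2) (f := ![fun p : ℕ × (Fin k → X) => nat p.1,
      fun p => tup fun i => c (p.2 i)]) (Fin.forall_fin_two.2 ⟨codeOK_nat.comp measurable_fst,
        CodeOK.tup fun i => hc.comp ((measurable_pi_apply i).fun_comp measurable_snd)⟩)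
    convert this using 3 with p
    funext i
    fin_cases i <;> rfl
  have h2 : Function.Injective fun p : ℕ × (Fin k → X) =>
      tup ![nat p.1, tup fun i => c (p.2 i)] := fun v v' h =>
    Prod.ext (nat_inj (congrFun (tup_inj h) 0))
      (funext fun i => hi (congrFun (tup_inj (congrFun (tup_inj h) 1)) i))
  have h0 : MeasurableSet {p : C × ℕ × (Fin k → X) | (p.1, p.2.2) ∈ S p.2.1} :=
    measurableSet_setOfPred.2 (meas_subst (measurable_fst.fun_comp measurable_snd)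
      (f := fun n (p : C × ℕ × (Fin k → X)) => (p.1, p.2.2) ∈ S n) fun n =>
      meas_memS (measurable_fst.prodMk (measurable_snd.fun_comp measurable_snd)) (hS n))
  have h00 : ∀ n : ℕ, ∀ᶠ ω : Om P in gen P, ∀ v : Fin k → C, (∀ i, v i ∈ RM ω) →
      bits (tup ![nat n, tup fun i => c (φ.symm (v i))]) ∈ RM ω := fun n =>
    ev_diag_RM_fin k fun Y hY => by
      have := h1.bits.fun_comp (f := fun ω => (n, fun i => φ.symm (Y ω i)))
        (measurable_const.prodMk (measurable_pi_lambda _ fun i =>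
          φ.symm.measurable.fun_comp ((measurable_pi_apply i).fun_comp hY)))
      exact ev_RM this
  have h01 : ∀ i : Fin k, ∀ᶠ ω : Om P in gen P, ∀ y : ℕ × (Fin k → X),
      bits (tup ![nat y.1, tup fun i => c (y.2 i)]) ∈ RM ω → φ (y.2 i) ∈ RM ω := fun i =>
    ev_bits_back h1 h2 (f := fun y => φ (y.2 i)) (φ.measurable.fun_comp
      ((measurable_pi_apply i).fun_comp measurable_snd))
  filter_upwards [hW.coded h1 h2 h0 ht, hW.pt hc hi φ, eventually_all.2 h01,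
    eventually_countable_forall.2 h00] with ω ⟨z, h3, h4⟩ h5 h6 h7
  refine ⟨z, h3, fun w => (h4 w).trans ⟨?_, ?_⟩⟩
  · rintro ⟨v, h8, h9, rfl⟩
    exact ⟨(v.1, fun i => ⟨v.2 i, (h5 _).2 (h6 i v h9)⟩), h8, rfl⟩
  · rintro ⟨v, h8, rfl⟩
    exact ⟨(v.1, fun i => (v.2 i).1), h8, by
      simpa using h7 v.1 (fun i => φ (v.2 i).1) fun i => (h5 _).1 (v.2 i).2, rfl⟩

theorem GoodW.borelIn [TopologicalSpace X] [BorelSpace X] [SecondCountableTopology X]
    (hW : GoodW W) (hc : CodeOK c) (hi : Function.Injective c) (φ : X ≃ᵐ C)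
    {k : ℕ} {S : Set (C × (Fin k → X))} (hS : MeasurableSet S) {t : Om P → C}
    (ht : Measurable t) :
    ∀ᶠ ω : Om P in gen P, BorelIn c (W ω) {v | (t ω, fun i => (v i).1) ∈ S} := by
  induction S, hS using MeasurableSet.induction_on_open with
  | isOpen U hU =>
    filter_upwards [hW.setIn hc hi φ hU.measurableSet ht] with ω h
    exact .isOpen _ (hU.preimage (by fun_prop)) h
  | compl S _ ih => exact ih.mono fun ω h => .compl _ h
  | iUnion S _ hS ih =>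
    filter_upwards [eventually_countable_forall.2 ih, hW.seqIn hc hi φ hS ht] with ω h1 h2
    convert BorelIn.iUnion _ h1 h2 using 1
    ext v
    simp

/-- the graph of the addition -/
def Mode.Gr (M : Mode) (φ : X ≃ᵐ C) : Set (C × (Fin 3 → X)) :=
  {p | M.Psi p.1 (φ (p.2 0)) + M.Psi p.1 (φ (p.2 1)) - M.Psi p.1 (φ (p.2 2)) = 0}

theorem Mode.lc_Gr (M : Mode) : LC fun p : C × (Fin 3 → C) =>
    M.Psi p.1 (p.2 0) + M.Psi p.1 (p.2 1) - M.Psi p.1 (p.2 2) = 0 :=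
  (((M.rep_Psi (x := fun p : C × (Fin 3 → C) => p.2 0) continuous_fst (by fun_prop)).add
    (M.rep_Psi (x := fun p : C × (Fin 3 → C) => p.2 1) continuous_fst (by fun_prop))).sub
    (M.rep_Psi (x := fun p : C × (Fin 3 → C) => p.2 2) continuous_fst (by fun_prop))).eq_zero

omit [StandardBorelSpace X] in
theorem Mode.meas_Gr (M : Mode) (φ : X ≃ᵐ C) : MeasurableSet (M.Gr φ) :=
  measurableSet_setOfPred.2 (M.lc_Gr.meas.fun_comp
    (f := fun p : C × (Fin 3 → X) => (p.1, fun i => φ (p.2 i))) (measurable_fst.prodMk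
      (measurable_pi_lambda _ fun i => φ.measurable.fun_comp
        ((measurable_pi_apply i).fun_comp measurable_snd))))

/-- the set of reals coded by a name -/
def Hs (c : X → ZFSet.{0}) (φ : X ≃ᵐ C) (a : Name P) (ω : Om P) : Set C :=
  {x | x ∈ RM ω ∧ c (φ.symm x) ∈ val ω a}

omit [StandardBorelSpace X] in
theorem named_code (hc : CodeOK c) (φ : X ≃ᵐ C) {Y : Om P → C} (hY : Measurable Y) :
    Named fun ω => c (φ.symm (Y ω)) := by
  have := named_hc (hc.bits.fun_comp (φ.symm.measurable.fun_comp hY))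
  simpa only [hc_bits (hc.sub _)] using this

omit [StandardBorelSpace X] in
theorem meas_Hs (hc : CodeOK c) (φ : X ≃ᵐ C) (a : Name P) (Y : Om P → C) (hY : Measurable Y) :
    Measurable fun ω => Y ω ∈ Hs c φ a ω :=
  (meas_of_ev (ev_RM hY)).and ((named_code hc φ hY).meas_mem (Named.val a))

/-- a set of reals is a basis of the subgroup -/
def IsBas (M : Mode) (t : C) (R B H : Set C) : Prop :=
  ∀ (G : Type) [AddCommGroup G] (θ : G →+ (J →₀ ℚ)) (ψ : G → C),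
    (∀ x, θ x = M.Psi t (ψ x)) → Function.Injective ψ → range ψ = R →
    ∀ H' : AddSubgroup G, ψ '' H' = H → LinearIndepOn ℤ id (ψ ⁻¹' B) ∧
      AddSubgroup.closure (ψ ⁻¹' B) = H'

def NotBas (M : Mode) (t : C) (R B : Set C) : Prop :=
  ∀ (G : Type) [AddCommGroup G] (θ : G →+ (J →₀ ℚ)) (ψ : G → C),
    (∀ x, θ x = M.Psi t (ψ x)) → Function.Injective ψ → range ψ = R →
    LinearIndepOn ℤ id (ψ ⁻¹' B) → AddSubgroup.closure (ψ ⁻¹' B) ≠ ⊤

theorem GoodW.fails (hW : GoodW W) (hc : CodeOK c) (hi : Function.Injective c) (φ : X ≃ᵐ C)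
    (M : Mode) {T : Om P → C} (hT : Measurable T)
    (hF : ∀ a : Name P, ∀ᶠ ω : Om P in gen P, val ω a ∈ W ω →
      (∀ w ∈ val ω a, ∃ x ∈ RM ω, c (φ.symm x) = w) → BelowAlephOmega (W ω) (val ω a) →
      ∃ B ⊆ RM ω, (∃ z ∈ W ω, ∀ w, w ∈ z ↔ ∃ x ∈ B, c (φ.symm x) = w) ∧
        IsBas M (T ω) (RM ω) B (Hs c φ a ω))
    (hN : ∀ a : Name P, ∀ᶠ ω : Om P in gen P, NotBas M (T ω) (RM ω) (Hs c φ a ω)) :
    ∀ᶠ ω : Om P in gen P, ∀ Γ, Γ {v | (T ω, fun i => (v i).1) ∈ M.Gr φ} → Fails c (W ω) Γ := by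
  filter_upwards [ev_diag hF, ev_diag hN, hW.sub, hW.pt hc hi φ, M.ev_cl hT,
    hW.setIn hc hi φ (M.meas_Gr φ) hT] with ω h1 h2 h3 h4 h5 h6 Γ hΓ
  let ψ : Pt c (W ω) → C := fun x => φ x.1
  have hψ : Function.Injective ψ := φ.injective.comp Subtype.val_injective
  have hr : range ψ = RM ω := by
    ext x
    refine ⟨?_, fun hx => ⟨⟨φ.symm x, (h4 _).2 (by simpa using hx)⟩, by simp [ψ]⟩⟩
    rintro ⟨x, rfl⟩
    exact (h4 _).1 x.2
  obtain ⟨inst, θ, hθ⟩ := M.exists_group h5 ψ hψ hr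
  have hθi : Function.Injective θ := fun x y h => hψ (M.Psi_inj _ (by rwa [← hθ, ← hθ]))
  have hgr : {v : Fin 3 → Pt c (W ω) | v 0 + v 1 = v 2} =
      {v | (T ω, fun i => (v i).1) ∈ M.Gr φ} := by
    ext v
    simp only [Mode.Gr, mem_ofPred_eq, sub_eq_zero]
    rw [← hθi.eq_iff, map_add, hθ, hθ, hθ]
  have hHs : ∀ a (S : Set (Pt c (W ω))), Codes (fun x : Pt c (W ω) => c x.1) (val ω a) S →
      ψ ⁻¹' Hs c φ a ω = S := by
    intro a S hS
    ext x
    simp only [Hs, mem_preimage, mem_ofPred_eq, ψ, φ.symm_apply_apply, hS _, (h4 _).1 x.2,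
      true_and]
    exact ⟨fun ⟨y, h7, h8⟩ => Subtype.ext (hi h8) ▸ h7, fun h => ⟨x, h, rfl⟩⟩
  refine ⟨inst, hgr ▸ h6, hgr ▸ hΓ, ?_, ?_⟩
  · rintro H ⟨z, hz, h7, h8⟩
    obtain ⟨a, ha, rfl⟩ := h3 hz
    obtain ⟨B, h9, ⟨z', h10, h11⟩, h12⟩ := h1 a ha hz (fun w hw => by
      obtain ⟨x, -, rfl⟩ := (h7 w).1 hw
      exact ⟨ψ x, hr ▸ mem_range_self x, by simp [ψ]⟩) h8
    refine ⟨ψ ⁻¹' B, ⟨z', h10, fun w => (h11 w).trans ⟨?_, ?_⟩⟩, h12 _ θ ψ hθ hψ hr H ?_⟩
    · rintro ⟨x, hx, rfl⟩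
      obtain ⟨y, rfl⟩ : x ∈ range ψ := hr ▸ h9 hx
      exact ⟨y, hx, by simp [ψ]⟩
    · rintro ⟨x, hx, rfl⟩
      exact ⟨_, hx, by simp [ψ]⟩
    · rw [← hHs a _ h7, image_preimage_eq_of_subset]
      exact hr ▸ fun x hx => hx.1
  · rintro ⟨B, ⟨z, hz, h7⟩, h8, h9⟩
    obtain ⟨a, ha, rfl⟩ := h3 hz
    rw [← hHs a _ h7] at h8 h9
    exact h2 a ha _ θ ψ hθ hψ hr h8 h9

end Pool.Agent.MP_e75763_lc

end MrgPart1

-- marker of a merged file
example : 731051 + 195119 = 731051 + 195119 := rfl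

end MrgPart2

-- ======== part 3: formerly Pool.Agent.MP_e75763_lc.FinC
section MrgPart3

/-! Finite conditions that approximate a closed graph and reals attached to vertices. -/

namespace Pool.Agent.MP_e75763_lc

open Set Cardinal

abbrev LB : Type := List Bool

/-- finite conditions -/
structure FinC (Λ : Type) where
  l : ℕ
  s : Set (Λ × LB)
  T : Set (ℕ × LB × LB)
  fin : s.Finite
  len : ∀ a u, (a, u) ∈ s → u.length = l
  fn : ∀ a u u', (a, u) ∈ s → (a, u') ∈ s → u = u'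
  inj : ∀ a a' u, (a, u) ∈ s → (a', u) ∈ s → a = a'
  sh : ∀ c u w, (c, u, w) ∈ T → c < l ∧ u.length = l ∧ w.length = l
  star : ∀ c c' u u' w w' n, (c, u, w) ∈ T → (c', u', w) ∈ T → (c, u, w') ∈ T →
    (c', u', w') ∈ T → c < n → c' < n → u.take n ≠ u'.take n → w.take n = w'.take n → w = w'

namespace FinC

variable {Λ Λ' : Type}

structure LeW (h f : FinC Λ) (ν : LB → LB) : Prop where
  l : f.l ≤ h.l
  len : ∀ u, u.length = f.l → (ν u).length = h.l
  take : ∀ u, u.length = f.l → (ν u).take f.l = u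
  s : ∀ a u, (a, u) ∈ f.s → (a, ν u) ∈ h.s
  T : ∀ c u w, (c, u, w) ∈ f.T → (c, ν u, ν w) ∈ h.T
  down : ∀ c u w, (c, u, w) ∈ h.T → c < f.l → (c, u.take f.l, w.take f.l) ∈ f.T

instance : Preorder (FinC Λ) where
  le h f := ∃ ν, LeW h f ν
  le_refl f := ⟨id, le_rfl, fun _ h => h, fun _ h => List.take_of_length_le h.le, fun _ _ h => h,
    fun _ _ _ h => h, fun c u w h _ => by
      rwa [List.take_of_length_le (f.sh c u w h).2.1.le,
        List.take_of_length_le (f.sh c u w h).2.2.le]⟩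
  le_trans a b c := fun ⟨ν, h⟩ ⟨ν', h'⟩ => ⟨ν ∘ ν', h'.l.trans h.l,
    fun u hu => h.len _ (h'.len u hu), fun u hu => by
      have := congrArg (List.take c.l) (h.take _ (h'.len u hu))
      rwa [List.take_take, min_eq_left h'.l, h'.take u hu] at this,
    fun x u hu => h.s _ _ (h'.s x u hu), fun x u w hu => h.T _ _ _ (h'.T x u w hu),
    fun x u w hu hx => by
      simpa only [List.take_take, min_eq_left h'.l] using
        h'.down _ _ _ (h.down x u w hu (hx.trans_le h'.l)) hx⟩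

instance : OrderTop (FinC Λ) where
  top := ⟨0, ∅, ∅, finite_empty, by simp, by simp, by simp, by simp, by simp⟩
  le_top f := ⟨fun _ => List.replicate f.l false, Nat.zero_le _, fun _ _ => by simp,
    fun u hu => by simpa using (List.length_eq_zero_iff.1 hu).symm, fun _ _ h => h.elim,
    fun _ _ _ h => h.elim, fun _ _ _ _ h => absurd h (Nat.not_lt_zero _)⟩

def dom (f : FinC Λ) : Set Λ := {a | ∃ u, (a, u) ∈ f.s}

theorem dom_finite (f : FinC Λ) : f.dom.Finite :=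
  (f.fin.image Prod.fst).subset fun _ ⟨_, h⟩ => ⟨_, h, rfl⟩

theorem dom_mono {h f : FinC Λ} (hl : h ≤ f) : f.dom ⊆ h.dom :=
  fun _ ⟨_, hu⟩ => let ⟨_, h1⟩ := hl; ⟨_, h1.s _ _ hu⟩

theorem l_mono {h f : FinC Λ} (hl : h ≤ f) : f.l ≤ h.l := let ⟨_, h1⟩ := hl; h1.l

@[simp] theorem dom_top : (⊤ : FinC Λ).dom = ∅ := by
  ext a
  exact ⟨fun ⟨_, h⟩ => h, False.elim⟩

structure Valid (d : Set Λ) (M : Set (Λ × Λ)) (f : FinC Λ) : Prop where
  dom : f.dom ⊆ d
  rel : ∀ a u b w, (a, u) ∈ f.s → (b, w) ∈ f.s → ((a, b) ∈ M ↔ ∃ c, (c, u, w) ∈ f.T)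
  occ : ∀ a u a' u' c c' w, (a, u) ∈ f.s → (a', u') ∈ f.s → u ≠ u' → (c, u, w) ∈ f.T →
    (c', u', w) ∈ f.T → ∃ b, (b, w) ∈ f.s

theorem valid_top (d : Set Λ) (M : Set (Λ × Λ)) : Valid d M ⊤ :=
  ⟨by simp, fun _ _ _ _ h => h.elim, fun _ _ _ _ _ _ _ h => h.elim⟩

theorem Valid.congr {d d' : Set Λ} {M M' : Set (Λ × Λ)} {f : FinC Λ} (h : Valid d M f)
    (h1 : f.dom ⊆ d') (h2 : ∀ a ∈ f.dom, ∀ b ∈ f.dom, (a, b) ∈ M' ↔ (a, b) ∈ M) : Valid d' M' f :=
  ⟨h1, fun a u b w h3 h4 => (h2 a ⟨u, h3⟩ b ⟨w, h4⟩).trans (h.rel a u b w h3 h4), h.occ⟩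

def pull (j : Λ → Λ') (hj : Function.Injective j) (A : Set Λ) (f : FinC Λ') : FinC Λ where
  l := f.l
  s := {x | x.1 ∈ A ∧ (j x.1, x.2) ∈ f.s}
  T := f.T
  fin := (f.fin.preimage (f := Prod.map j id) (hj.prodMap Function.injective_id).injOn).subset
    fun _ h => h.2
  len _ _ h := f.len _ _ h.2
  fn _ _ _ h h' := f.fn _ _ _ h.2 h'.2
  inj _ _ _ h h' := hj (f.inj _ _ _ h.2 h'.2)
  sh := f.sh
  star := f.star

def res (A : Set Λ) (f : FinC Λ) : FinC Λ := f.pull id Function.injective_id A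

def push (j : Λ → Λ') (hj : Function.Injective j) (f : FinC Λ) : FinC Λ' where
  l := f.l
  s := {x | ∃ a, j a = x.1 ∧ (a, x.2) ∈ f.s}
  T := f.T
  fin := (f.fin.image (Prod.map j id)).subset fun _ ⟨_, h1, h2⟩ => ⟨_, h2, Prod.ext h1 rfl⟩
  len _ _ := fun ⟨_, _, h⟩ => f.len _ _ h
  fn _ _ _ := fun ⟨_, h1, h⟩ ⟨_, h2, h'⟩ => f.fn _ _ _ h (hj (h2.trans h1.symm) ▸ h')
  inj _ _ _ := fun ⟨_, h1, h⟩ ⟨_, h2, h'⟩ =>
    h1.symm.trans ((congrArg j (f.inj _ _ _ h h')).trans h2)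
  sh := f.sh
  star := f.star

theorem le_of_s {h h' : FinC Λ} {f f' : FinC Λ'} (j : Λ' → Λ) (hl : h ≤ h') (h1 : f.l = h.l)
    (h2 : f.T = h.T) (h3 : f'.l = h'.l) (h4 : f'.T = h'.T)
    (h5 : ∀ a u, (a, u) ∈ f'.s → (j a, u) ∈ h'.s)
    (h6 : ∀ a ∈ f'.dom, ∀ u, (j a, u) ∈ h.s → (a, u) ∈ f.s) : f ≤ f' := by
  obtain ⟨ν, h0⟩ := hl
  refine ⟨ν, ?_, ?_, ?_, fun a u hu => h6 a ⟨u, hu⟩ _ (h0.s _ _ (h5 a u hu)), ?_, ?_⟩ <;>
    simp only [h1, h2, h3, h4]
  exacts [h0.l, h0.len, h0.take, h0.T, h0.down]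

theorem pull_mono {j : Λ → Λ'} (hj : Function.Injective j) (A : Set Λ) {h f : FinC Λ'}
    (hl : h ≤ f) : h.pull j hj A ≤ f.pull j hj A :=
  le_of_s j hl rfl rfl rfl rfl (fun _ _ h => h.2) fun _ ⟨_, h⟩ _ h' => ⟨h.1, h'⟩

theorem res_mono (A : Set Λ) {h f : FinC Λ} (hl : h ≤ f) : h.res A ≤ f.res A := pull_mono _ _ hl

theorem le_res (A : Set Λ) (f : FinC Λ) : f ≤ f.res A :=
  le_of_s id le_rfl rfl rfl rfl rfl (fun _ _ h => h.2) fun _ _ _ h' => h'

theorem res_le {A : Set Λ} {h f : FinC Λ} (hl : h ≤ f) (hf : f.dom ⊆ A) : h.res A ≤ f :=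
  le_of_s id hl rfl rfl rfl rfl (fun _ _ h => h) fun _ h _ h' => ⟨hf h, h'⟩

theorem dom_pull {j : Λ → Λ'} (hj : Function.Injective j) (A : Set Λ) (f : FinC Λ') :
    (f.pull j hj A).dom = A ∩ j ⁻¹' f.dom := by
  ext a
  exact ⟨fun ⟨u, h1, h2⟩ => ⟨h1, u, h2⟩, fun ⟨h1, u, h2⟩ => ⟨u, h1, h2⟩⟩

theorem dom_res (A : Set Λ) (f : FinC Λ) : (f.res A).dom = A ∩ f.dom := dom_pull _ _ _

/-- outside points have at most one left neighbour inside -/
def Good (M : Set (Λ × Λ)) (A : Set Λ) : Prop :=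
  ∀ v ∉ A, ∀ a ∈ A, ∀ a' ∈ A, (a, v) ∈ M → (a', v) ∈ M → a = a'

theorem Valid.pull {d' : Set Λ'} {M' : Set (Λ' × Λ')} {f : FinC Λ'} (h : Valid d' M' f)
    {j : Λ → Λ'} (hj : Function.Injective j) {A : Set Λ} {M : Set (Λ × Λ)}
    (hM : ∀ a ∈ A, ∀ b ∈ A, (j a, j b) ∈ M' ↔ (a, b) ∈ M) (hg : Good M' (j '' A)) :
    Valid A M (f.pull j hj A) := by
  refine ⟨fun _ ⟨_, h⟩ => h.1, fun a u b w h1 h2 =>
    (hM a h1.1 b h2.1).symm.trans (h.rel _ _ _ _ h1.2 h2.2), ?_⟩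
  intro a u a' u' c c' w h1 h2 h3 h4 h5
  obtain ⟨b, hb⟩ := h.occ _ _ _ _ _ _ _ h1.2 h2.2 h3 h4 h5
  by_cases h6 : b ∈ j '' A
  · obtain ⟨b, h7, rfl⟩ := h6
    exact ⟨b, h7, hb⟩
  · have := hg b h6 _ ⟨a, h1.1, rfl⟩ _ ⟨a', h2.1, rfl⟩ ((h.rel _ _ _ _ h1.2 hb).2 ⟨c, h4⟩)
      ((h.rel _ _ _ _ h2.2 hb).2 ⟨c', h5⟩)
    exact absurd (f.fn _ _ _ h1.2 (this ▸ h2.2)) h3

theorem Valid.res {d A : Set Λ} {M : Set (Λ × Λ)} {f : FinC Λ} (h : Valid d M f) (hg : Good M A) :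
    Valid A M (f.res A) := h.pull _ (fun _ _ _ _ => Iff.rfl) (by simpa using hg)

theorem Valid.push {d' : Set Λ'} {M' : Set (Λ' × Λ')} {j : Λ → Λ'} (hj : Function.Injective j)
    {A : Set Λ} {M : Set (Λ × Λ)} {f : FinC Λ} (h : Valid A M f) (hd : MapsTo j A d')
    (hM : ∀ a ∈ A, ∀ b ∈ A, (j a, j b) ∈ M' ↔ (a, b) ∈ M) : Valid d' M' (f.push j hj) := by
  refine ⟨?_, ?_, ?_⟩
  · rintro _ ⟨u, a, rfl, h1⟩
    exact hd (h.dom ⟨u, h1⟩)
  · rintro _ u _ w ⟨a, rfl, h1⟩ ⟨b, rfl, h2⟩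
    exact (hM a (h.dom ⟨u, h1⟩) b (h.dom ⟨w, h2⟩)).trans (h.rel _ _ _ _ h1 h2)
  · rintro _ u _ u' c c' w ⟨a, rfl, h1⟩ ⟨a', rfl, h2⟩ h3 h4 h5
    obtain ⟨b, hb⟩ := h.occ _ _ _ _ _ _ _ h1 h2 h3 h4 h5
    exact ⟨j b, b, rfl, hb⟩

theorem amalg {d A : Set Λ} {M : Set (Λ × Λ)} {f r : FinC Λ} (hf : Valid d M f)
    (hr : Valid d M r) (hA : r.dom ⊆ A) (hle : r ≤ f.res A)
    (hg : ∀ v ∈ f.dom, v ∉ A → ∀ a ∈ A ∩ f.dom, ∀ a' ∈ A ∩ f.dom, (a, v) ∈ M → (a', v) ∈ M →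
      a = a') :
    ∃ h, Valid d M h ∧ h ≤ f ∧ h ≤ r ∧ h.l = r.l + 1 ∧ h.dom ⊆ r.dom ∪ f.dom := by
  classical
  obtain ⟨ν, hν⟩ := hle
  let β : LB → Bool := fun u => decide (¬ ∃ a ∈ A, (a, u) ∈ f.s)
  let μ : LB → LB := fun u => ν u ++ [β u]
  let S : Set (Λ × LB) := {x | (∃ u, (x.1, u) ∈ r.s ∧ x.2 = u ++ [false]) ∨
    ∃ u, x.1 ∉ A ∧ (x.1, u) ∈ f.s ∧ x.2 = ν u ++ [true]}
  let T : Set (ℕ × LB × LB) := {x |
    (∃ u w, (x.1, u, w) ∈ r.T ∧ x.2.1 = u ++ [false] ∧ x.2.2 = w ++ [false]) ∨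
    (∃ u w, (x.1, u, w) ∈ f.T ∧ x.2.1 = μ u ∧ x.2.2 = μ w) ∨
    (x.1 = r.l ∧ ∃ a b, (a, b) ∈ M ∧ (a, x.2.1) ∈ S ∧ (b, x.2.2) ∈ S)}
  have hνi : ∀ u u', u.length = f.l → u'.length = f.l → ν u = ν u' → u = u' :=
    fun u u' h h' e => by rw [← hν.take u h, e, hν.take u' h']
  have hSl : ∀ a u, (a, u) ∈ S → u.length = r.l + 1 := by
    rintro a _ (⟨u, h1, rfl⟩ | ⟨u, -, h1, rfl⟩)
    · simp [r.len _ _ h1]
    · simp [hν.len _ (f.len _ _ h1)]
  have hSi : ∀ a a' u, (a, u) ∈ S → (a', u) ∈ S → a = a' := by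
    rintro a a' _ (⟨u, h1, rfl⟩ | ⟨u, -, h1, rfl⟩) (⟨u', h2, h3⟩ | ⟨u', -, h2, h3⟩) <;>
      simp only [List.append_singleton_inj, reduceCtorEq, and_false, and_true] at h3
    · exact r.inj _ _ _ h1 (h3 ▸ h2)
    · exact f.inj _ _ _ h1 (hνi _ _ (f.len _ _ h1) (f.len _ _ h2) h3 ▸ h2)
  have hSμ : ∀ a u, (a, u) ∈ f.s → (a, μ u) ∈ S := fun a u h => by
    by_cases ha : a ∈ A
    · exact Or.inl ⟨_, hν.s a u ⟨ha, h⟩, by simpa [μ, β] using ⟨a, ha, h⟩⟩
    · exact Or.inr ⟨u, ha, h, by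
        simpa [μ, β] using fun a' ha' h' => ha (f.inj _ _ _ h' h ▸ ha')⟩
  have hSμ' : ∀ a u, u.length = f.l → (a, μ u) ∈ S → (a, u) ∈ f.s := by
    rintro a u hu (⟨u', h1, h2⟩ | ⟨u', -, h1, h2⟩) <;>
      simp only [μ, List.append_singleton_inj] at h2
    · obtain ⟨a', h3, h4⟩ : ∃ a ∈ A, (a, u) ∈ f.s := by simpa [β] using h2.2
      obtain rfl : a' = a := r.inj _ _ _ (hν.s a' u ⟨h3, h4⟩) (h2.1 ▸ h1)
      exact h4
    · exact hνi _ _ hu (f.len _ _ h1) h2.1 ▸ h1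
  have hS0 : ∀ a u, (a, u ++ [false]) ∈ S → (a, u) ∈ r.s := by
    rintro a u (⟨u', h1, h2⟩ | ⟨u', -, h1, h2⟩) <;>
      simp only [List.append_singleton_inj, reduceCtorEq, and_false, and_true] at h2
    exact h2 ▸ h1
  have hTl : ∀ c u w, (c, u, w) ∈ T → c < r.l + 1 ∧ u.length = r.l + 1 ∧ w.length = r.l + 1 := by
    rintro c _ _ (⟨u, w, h1, rfl, rfl⟩ | ⟨u, w, h1, rfl, rfl⟩ | ⟨rfl, a, b, -, h1, h2⟩)
    · obtain ⟨h2, h3, h4⟩ := r.sh _ _ _ h1
      simp [h3, h4, h2.le, Nat.lt_succ_iff]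
    · obtain ⟨h2, h3, h4⟩ := f.sh _ _ _ h1
      simp [μ, hν.len _ h3, hν.len _ h4, Nat.lt_succ_iff, h2.le.trans hν.l]
    · exact ⟨Nat.lt_succ_self _, hSl _ _ h1, hSl _ _ h2⟩
  have hTd : ∀ c u w, (c, u, w) ∈ T → c < r.l → (c, u.take r.l, w.take r.l) ∈ r.T := by
    rintro c _ _ (⟨u, w, h1, rfl, rfl⟩ | ⟨u, w, h1, rfl, rfl⟩ | ⟨rfl, -⟩) hc
    · obtain ⟨-, h3, h4⟩ := r.sh _ _ _ h1
      rwa [List.take_left' h3, List.take_left' h4]
    · obtain ⟨-, h3, h4⟩ := f.sh _ _ _ h1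
      rw [List.take_left' (hν.len _ h3), List.take_left' (hν.len _ h4)]
      exact hν.T _ _ _ h1
    · exact absurd hc (lt_irrefl _)
  have hT1 : ∀ c u w, (c, u, w ++ [true]) ∈ T → c < r.l → ∃ u' w', (c, u', w') ∈ f.T ∧
      u = μ u' ∧ w = ν w' ∧ β w' = true := by
    rintro c _ w (⟨u, w', h1, rfl, h2⟩ | ⟨u, w', h1, rfl, h2⟩ | ⟨rfl, -⟩) hc
    · simp at h2
    · simp only [μ, List.append_singleton_inj] at h2
      exact ⟨u, w', h1, rfl, h2.1, h2.2.symm⟩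
    · exact absurd hc (lt_irrefl _)
  have hT0 : ∀ c u w, (c, μ u, ν w ++ [false]) ∈ T → c < r.l → w.length = f.l → β w = true →
      ∃ a ∈ A, (a, u) ∈ f.s := by
    rintro c u w (⟨u', w', h1, h3, h2⟩ | ⟨u', w', h1, h3, h2⟩ | ⟨rfl, -⟩) hc hw hb
    · simp only [μ, List.append_singleton_inj] at h3
      simpa [β] using h3.2
    · simp only [μ, List.append_singleton_inj] at h2
      rw [← hνi _ _ hw (f.sh _ _ _ h1).2.2 h2.1, hb] at h2
      simp at h2
    · exact absurd hc (lt_irrefl _)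
  have key : ∀ c c' u u' w, (c, u, w ++ [false]) ∈ T → (c', u', w ++ [false]) ∈ T →
      (c, u, w ++ [true]) ∈ T → (c', u', w ++ [true]) ∈ T → c < r.l → c' < r.l → u = u' := by
    intro c c' u u' w h1 h2 h3 h4 hc hc'
    obtain ⟨s0, t, h5, rfl, rfl, h6⟩ := hT1 _ _ _ h3 hc
    obtain ⟨s1, t', h7, rfl, h8, -⟩ := hT1 _ _ _ h4 hc'
    obtain rfl := hνi _ _ (f.sh _ _ _ h5).2.2 (f.sh _ _ _ h7).2.2 h8
    obtain ⟨a0, h9, h10⟩ := hT0 _ _ _ h1 hc (f.sh _ _ _ h5).2.2 h6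
    obtain ⟨a1, h11, h12⟩ := hT0 _ _ _ h2 hc' (f.sh _ _ _ h5).2.2 h6
    by_contra h13
    obtain ⟨b, hb⟩ := hf.occ _ _ _ _ _ _ _ h10 h12 (fun e => h13 (e ▸ rfl)) h5 h7
    have h14 : b ∉ A := fun h => of_decide_eq_true h6 ⟨b, h, hb⟩
    obtain rfl := hg b ⟨_, hb⟩ h14 a0 ⟨h9, _, h10⟩ a1 ⟨h11, _, h12⟩
      ((hf.rel _ _ _ _ h10 hb).2 ⟨_, h5⟩) ((hf.rel _ _ _ _ h12 hb).2 ⟨_, h7⟩)
    exact h13 (f.fn _ _ _ h10 h12 ▸ rfl)
  have hsplit : ∀ w : LB, w.length = r.l + 1 → ∃ b, w = w.take r.l ++ [b] := fun w hw => by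
    obtain ⟨w', b, rfl⟩ := List.eq_nil_or_concat' w |>.resolve_left (by rintro rfl; simp at hw)
    exact ⟨b, by rw [List.take_left' (by simpa using hw)]⟩
  let h : FinC Λ := ⟨r.l + 1, S, T, ((r.fin.image fun x => (x.1, x.2 ++ [false])).union
      (f.fin.image fun x => (x.1, ν x.2 ++ [true]))).subset (by
      rintro ⟨a, _⟩ (⟨u, h1, rfl⟩ | ⟨u, -, h1, rfl⟩)
      exacts [Or.inl ⟨_, h1, rfl⟩, Or.inr ⟨_, h1, rfl⟩]), hSl, by
      rintro a _ _ (⟨u, h1, rfl⟩ | ⟨u, h0, h1, rfl⟩) (⟨u', h2, rfl⟩ | ⟨u', h3, h2, rfl⟩)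
      · rw [r.fn _ _ _ h1 h2]
      · exact absurd (hA ⟨_, h1⟩) h3
      · exact absurd (hA ⟨_, h2⟩) h0
      · rw [f.fn _ _ _ h1 h2], hSi, hTl, by
      intro c c' u u' w w' n h1 h2 h3 h4 hc hc' h5 h6
      rcases le_or_gt n r.l with hn | hn
      swap
      · rwa [List.take_of_length_le ((hTl _ _ _ h1).2.2.trans_le hn),
          List.take_of_length_le ((hTl _ _ _ h3).2.2.trans_le hn)] at h6
      have h7 := r.star _ _ _ _ _ _ n (hTd _ _ _ h1 (hc.trans_le hn))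
        (hTd _ _ _ h2 (hc'.trans_le hn)) (hTd _ _ _ h3 (hc.trans_le hn))
        (hTd _ _ _ h4 (hc'.trans_le hn)) hc hc'
        (by simpa only [List.take_take, min_eq_left hn] using h5)
        (by simpa only [List.take_take, min_eq_left hn] using h6)
      obtain ⟨b, hb⟩ := hsplit w (hTl _ _ _ h1).2.2
      obtain ⟨b', hb'⟩ := hsplit w' (hTl _ _ _ h3).2.2
      rw [← h7] at hb'
      rw [hb] at h1 h2
      rw [hb'] at h3 h4
      cases b <;> cases b'
      · rw [hb, hb']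
      · exact absurd (key _ _ _ _ _ h1 h2 h3 h4 (hc.trans_le hn) (hc'.trans_le hn) ▸ rfl) h5
      · exact absurd (key _ _ _ _ _ h3 h4 h1 h2 (hc.trans_le hn) (hc'.trans_le hn) ▸ rfl) h5
      · rw [hb, hb']⟩
  have hdom : h.dom ⊆ r.dom ∪ f.dom := by
    rintro a ⟨_, ⟨u, h1, -⟩ | ⟨u, -, h1, -⟩⟩
    exacts [Or.inl ⟨u, h1⟩, Or.inr ⟨u, h1⟩]
  have hhr : LeW h r (· ++ [false]) := ⟨Nat.le_succ _, fun u hu => by simp [hu, h],
    fun u hu => List.take_left' hu, fun a u hu => Or.inl ⟨u, hu, rfl⟩,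
    fun c u w hu => Or.inl ⟨u, w, hu, rfl, rfl⟩, hTd⟩
  refine ⟨h, ⟨hdom.trans (union_subset hr.dom hf.dom), fun a x b y h1 h2 =>
    ⟨fun h3 => ⟨_, Or.inr (Or.inr ⟨rfl, a, b, h3, h1, h2⟩)⟩, ?_⟩, ?_⟩,
    ⟨μ, hν.l.trans (Nat.le_succ _), fun u hu => by simp [μ, h, hν.len u hu], fun u hu => ?_, hSμ,
      fun c u w hu => Or.inr (Or.inl ⟨u, w, hu, rfl, rfl⟩), fun c u w h1 hc => ?_⟩,
    ⟨_, hhr⟩, rfl, hdom⟩
  · rintro ⟨c, ⟨u, w, h3, rfl, rfl⟩ | ⟨u, w, h3, rfl, rfl⟩ | ⟨-, a', b', h3, h4, h5⟩⟩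
    · exact (hr.rel _ _ _ _ (hS0 _ _ h1) (hS0 _ _ h2)).2 ⟨c, h3⟩
    · exact (hf.rel _ _ _ _ (hSμ' _ _ (f.sh _ _ _ h3).2.1 h1)
        (hSμ' _ _ (f.sh _ _ _ h3).2.2 h2)).2 ⟨c, h3⟩
    · rwa [hSi _ _ _ h1 h4, hSi _ _ _ h2 h5]
  · rintro a x a' x' c c' y h1 h2 h3
      (⟨u, w, h4, rfl, rfl⟩ | ⟨u, w, h4, rfl, rfl⟩ | ⟨-, _, b, -, -, h4⟩)
      (⟨u', w', h5, rfl, h6⟩ | ⟨u', w', h5, rfl, h6⟩ | ⟨-, _, b, -, -, h5⟩)
    · simp only [List.append_singleton_inj, and_true] at h6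
      subst h6
      obtain ⟨b, hb⟩ := hr.occ _ _ _ _ _ _ _ (hS0 _ _ h1) (hS0 _ _ h2) (fun e => h3 (e ▸ rfl)) h4
        h5
      exact ⟨b, hhr.s _ _ hb⟩
    · obtain ⟨b, -, hb⟩ : ∃ a ∈ A, (a, w') ∈ f.s := by
        simp only [μ, List.append_singleton_inj] at h6
        simpa [β] using h6.2
      exact ⟨b, (show w ++ [false] = μ w' from h6) ▸ hSμ _ _ hb⟩
    · exact ⟨b, h5⟩
    · obtain ⟨b, -, hb⟩ : ∃ a ∈ A, (a, w) ∈ f.s := by
        simp only [μ, List.append_singleton_inj] at h6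
        simpa [β] using h6.2
      exact ⟨b, hSμ _ _ hb⟩
    · simp only [μ, List.append_singleton_inj] at h6
      obtain rfl := hνi _ _ (f.sh _ _ _ h4).2.2 (f.sh _ _ _ h5).2.2 h6.1
      obtain ⟨b, hb⟩ := hf.occ _ _ _ _ _ _ _ (hSμ' _ _ (f.sh _ _ _ h4).2.1 h1)
        (hSμ' _ _ (f.sh _ _ _ h5).2.1 h2) (fun e => h3 (e ▸ rfl)) h4 h5
      exact ⟨b, hSμ _ _ hb⟩
    all_goals first | exact ⟨b, h5⟩ | exact ⟨b, h4⟩
  · exact (List.take_append_of_le_length (hν.l.trans (hν.len u hu).ge)).trans (hν.take u hu)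
  · have := hν.down _ _ _ (hTd _ _ _ h1 (hc.trans_le hν.l)) hc
    simp only [List.take_take, min_eq_left hν.l] at this
    exact this

end FinC

end Pool.Agent.MP_e75763_lc

end MrgPart3

-- marker of a merged file
example : 731051 + 742472 = 731051 + 742472 := rfl
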