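import Pool.Agent.MP_e75763_lc.FinC

-- ======== part 0: formerly Pool.Agent.MP_e75763_lc.LRel
section MrgPart0

/-! The inner model `L(ℝ)` of the generic extension. -/

namespace Pool.Agent.MP_e75763_lc

open Set Filter

universe u

theorem mem_Lv {R : Set ZFSet.{0}} {a z : ZFSet.{0}} :
    z ∈ Lv R a ↔ z ∈ R ∨ ∃ b ∈ a, z ∈ Df (Lv R b) := by
  rw [Lv, WellFounded.fix_eq]
  simp only [mem_union, mem_ofPred_eq, exists_prop]

theorem Lv_empty (R : Set ZFSet.{0}) : Lv R ∅ = R := by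
  ext z
  simp [mem_Lv]

section CNF

abbrev Lit : Type := (ℕ ⊕ ℕ ⊕ List ℕ) × Bool

def SatC (cls : Set (Set Lit)) (y : C × C) (w : List ℕ → Bool) : Prop :=
  ∀ cl ∈ cls, ∃ lit ∈ cl, Sum.elim y.1 (Sum.elim y.2 w) lit.1 = lit.2

def Pres (S : Set (C × C)) : Prop := ∃ cls : Set (Set Lit), cls.Countable ∧
  ∃ w : C × C → List ℕ → Bool, (∀ l, Measurable fun y => w y l) ∧ (∀ y, SatC cls y (w y)) ∧
    ∀ y w', SatC cls y w' → (w' [] = true ↔ y ∈ S)

def shl (n : ℕ) : Lit → Lit := Prod.map (Sum.map id (Sum.map id (List.cons n))) id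

theorem satC_shl {cls : Set (Set Lit)} {y : C × C} {w : List ℕ → Bool} {n : ℕ} :
    SatC ((shl n '' ·) '' cls) y w ↔ SatC cls y fun l => w (n :: l) := by
  simp only [SatC, forall_mem_image, exists_mem_image]
  refine forall₂_congr fun cl _ => exists_congr fun lit => and_congr_right fun _ => ?_
  obtain ⟨_ | _ | _, b⟩ := lit <;> rfl

theorem Pres.nand {S : ℕ → Set (C × C)} (h : ∀ n, Pres (S n)) : Pres (⋃ n, (S n)ᶜ) := by
  classical
  choose cls h1 w h2 h3 h4 using h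
  have h5 : ∀ n y, w n y [] = true ↔ y ∈ S n := fun n y => h4 n y _ (h3 n y)
  refine ⟨(⋃ n, (shl n '' ·) '' cls n) ∪ insert
      (insert (.inr (.inr []), false) (range fun n => (.inr (.inr [n]), false)))
      (range fun n => {(.inr (.inr []), true), (.inr (.inr [n]), true)}),
    (countable_iUnion fun n => (h1 n).image _).union ((countable_range _).insert _),
    fun y l => l.casesOn (decide (∃ n, w n y [] = false)) fun n l => w n y l, ?_, fun y => ?_,
    fun y w' h => ?_⟩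
  · rintro (_ | ⟨n, l⟩)
    · exact meas_decide (Measurable.exists fun n =>
        measurableSet_setOfPred.1 (h2 n [] (measurableSet_singleton false)))
    · exact h2 n l
  · rintro cl (hcl | rfl | ⟨n, rfl⟩)
    · obtain ⟨n, hn⟩ := mem_iUnion.1 hcl
      exact satC_shl.2 (h3 n y) cl hn
    · by_cases h : ∃ n, w n y [] = false
      · obtain ⟨n, hn⟩ := h
        exact ⟨_, Or.inr ⟨n, rfl⟩, hn⟩
      · exact ⟨_, Or.inl rfl, by simpa using h⟩
    · cases h : w n y []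
      · exact ⟨_, Or.inl rfl, by simpa using ⟨n, h⟩⟩
      · exact ⟨_, Or.inr rfl, h⟩
  · have h6 : ∀ n, w' [n] = true ↔ y ∈ S n := fun n => h4 n y (fun l => w' (n :: l))
      (satC_shl.1 fun cl hcl => h cl (Or.inl (mem_iUnion.2 ⟨n, hcl⟩)))
    simp only [mem_iUnion, mem_compl_iff, ← h6]
    constructor
    · intro h7
      obtain ⟨_, rfl | ⟨n, rfl⟩, h8⟩ := h _ (Or.inr (Or.inl rfl))
      · simp [h7] at h8
      · exact ⟨n, by simpa using h8⟩
    · rintro ⟨n, hn⟩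
      obtain ⟨_, rfl | rfl, h8⟩ := h _ (Or.inr (Or.inr ⟨n, rfl⟩))
      · exact h8
      · exact absurd h8 hn

theorem Pres.compl {S : Set (C × C)} (h : Pres S) : Pres Sᶜ := by
  simpa [iUnion_const] using Pres.nand fun _ : ℕ => h

theorem Pres.var (v : ℕ ⊕ ℕ) : Pres {y | Sum.elim y.1 y.2 v = true} := by
  have h1 : ∀ (y : C × C) (w : List ℕ → Bool),
      Sum.elim y.1 (Sum.elim y.2 w) (Sum.map id Sum.inl v) = Sum.elim y.1 y.2 v := by
    cases v <;> intros <;> rfl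
  refine ⟨{{(.inr (.inr []), true), (Sum.map id Sum.inl v, false)},
    {(.inr (.inr []), false), (Sum.map id Sum.inl v, true)}}, (toFinite _).countable,
    fun y _ => Sum.elim y.1 y.2 v, fun _ => ?_, fun y => ?_, fun y w' h => ?_⟩
  · cases v
    exacts [(measurable_pi_apply _).comp measurable_fst,
      (measurable_pi_apply _).comp measurable_snd]
  · simp only [SatC, mem_insert_iff, mem_singleton_iff, forall_eq_or_imp, forall_eq,
      exists_eq_or_imp, exists_eq_left, h1, Sum.elim_inr]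
    cases Sum.elim y.1 y.2 v <;> simp
  · simp only [SatC, mem_insert_iff, mem_singleton_iff, forall_eq_or_imp, forall_eq,
      exists_eq_or_imp, exists_eq_left, h1, Sum.elim_inr] at h
    rw [mem_ofPred_eq]
    revert h
    cases Sum.elim y.1 y.2 v <;> cases w' [] <;> simp

theorem pres_of_measurable {S : Set (C × C)} (hS : MeasurableSet S) : Pres S := by
  let m : MeasurableSpace (C × C) :=
    { MeasurableSet' := Pres
      measurableSet_empty := ⟨{{(.inr (.inr []), false)}}, countable_singleton _,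
        fun _ _ => false, fun _ => measurable_const, by simp [SatC], by simp [SatC]⟩
      measurableSet_compl := fun _ h => h.compl
      measurableSet_iUnion := fun S h => by simpa using Pres.nand fun n => (h n).compl }
  have h : @Measurable _ _ m Prod.instMeasurableSpace fun y : C × C => (y.1, y.2) :=
    @Measurable.prodMk _ m _ _ _ _ _ _
      (@measurable_pi_lambda _ _ _ m _ _ fun n => @measurable_to_bool _ m _ (Pres.var (.inl n)))
      (@measurable_pi_lambda _ _ _ m _ _ fun n => @measurable_to_bool _ m _ (Pres.var (.inr n)))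
  exact h hS

end CNF

section Formula

def Fm.or (a b : Fm) : Fm := .neg (.and (.neg a) (.neg b))
def Fm.imp (a b : Fm) : Fm := .neg (.and a (.neg b))
def Fm.ex (i : ℕ) (a : Fm) : Fm := .neg (.all i (.neg a))

theorem sat_or {A : Set ZFSet.{0}} {a b : Fm} {v : ℕ → ZFSet.{0}} :
    Sat A (a.or b) v ↔ Sat A a v ∨ Sat A b v := by
  simp only [Fm.or, Sat]
  tauto

theorem sat_imp {A : Set ZFSet.{0}} {a b : Fm} {v : ℕ → ZFSet.{0}} :
    Sat A (a.imp b) v ↔ (Sat A a v → Sat A b v) := by simp [Fm.imp, Sat]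

theorem sat_ex {A : Set ZFSet.{0}} {i : ℕ} {a : Fm} {v : ℕ → ZFSet.{0}} :
    Sat A (a.ex i) v ↔ ∃ x ∈ A, Sat A a (Function.update v i x) := by simp [Fm.ex, Sat]

/-- `(v 7, v 8) ∈ v i` -/
def fApp (i : ℕ) : Fm := .ex 9 (.and (.mem 9 i) (.and (.all 10 ((Fm.mem 10 9).imp (.mem 7 10)))
  (.and (.ex 10 (.and (.mem 10 9) (.mem 8 10))) ((Fm.eq 8 7).imp
    (.all 10 ((Fm.mem 10 9).imp (.all 11 ((Fm.mem 11 10).imp (.eq 11 7)))))))))

def fCNF : Fm := .ex 6 (.all 7 ((Fm.mem 7 1).imp (.ex 8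
  (((fApp 2).and (.mem 8 0)).or (((fApp 3).and (.neg (.mem 8 0))).or
    (((fApp 4).and (.mem 8 6)).or ((fApp 5).and (.neg (.mem 8 6)))))))))

theorem sat_fApp {A : Set ZFSet.{0}} (hA : ∀ x ∈ A, ∀ y ∈ x, y ∈ A) {i : ℕ} (hi : i < 9)
    {v : ℕ → ZFSet.{0}} (h1 : v i ∈ A) (h2 : ∀ p ∈ v i, ∃ a n, p = ZFSet.pair a n) :
    Sat A (fApp i) v ↔ ZFSet.pair (v 7) (v 8) ∈ v i := by
  simp only [fApp, sat_ex, sat_imp, Sat, Function.update_self, Function.update_of_ne hi.ne,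
    ne_eq, OfNat.ofNat_eq_ofNat, Nat.succ_ne_self, Nat.reduceEqDiff, not_false_eq_true,
    Function.update_of_ne]
  constructor
  · rintro ⟨p, h3, h4, h5, ⟨t, -, h6, h7⟩, h8⟩
    obtain ⟨a, n, rfl⟩ := h2 p h4
    have h9 : ({a} : ZFSet.{0}) ∈ ZFSet.pair a n := by simp [ZFSet.pair]
    have h10 : ({a, n} : ZFSet.{0}) ∈ ZFSet.pair a n := by simp [ZFSet.pair]
    have h11 : v 7 = a := by simpa using h5 _ (hA _ h3 _ h9) h9
    have h12 : v 8 = a ∨ v 8 = n := by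
      simp only [ZFSet.pair, ZFSet.mem_insert_iff, ZFSet.mem_singleton] at h6
      rcases h6 with rfl | rfl
      · exact Or.inl (by simpa using h7)
      · simpa using h7
    have h13 : v 8 = n := h12.elim (fun h => by
      rw [h, h8 (h.trans h11.symm) _ (hA _ h3 _ h10) h10 n
        (hA _ (hA _ h3 _ h10) _ (by simp)) (by simp), h11]) id
    rwa [h11, h13]
  · intro h
    refine ⟨_, hA _ h1 _ h, h, fun t _ ht => ?_, ⟨{v 7, v 8}, hA _ (hA _ h1 _ h) _
      (by simp [ZFSet.pair]), by simp [ZFSet.pair], by simp⟩, fun h3 t _ ht s _ hs => ?_⟩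
    · simp only [ZFSet.pair, ZFSet.mem_insert_iff, ZFSet.mem_singleton] at ht
      rcases ht with rfl | rfl <;> simp
    · simp only [ZFSet.pair, ZFSet.mem_insert_iff, ZFSet.mem_singleton] at ht
      rcases ht with rfl | rfl
      · simpa using hs
      · simpa [h3] using hs

theorem sat_fCNF {A : Set ZFSet.{0}} (hA : ∀ x ∈ A, ∀ y ∈ x, y ∈ A) {v : ℕ → ZFSet.{0}}
    (h1 : ∀ i, v i ∈ A) (h2 : ∀ i, 2 ≤ i → ∀ p ∈ v i, ∃ a n, p = ZFSet.pair a n) (x : ZFSet.{0}) :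
    Sat A fCNF (Function.update v 0 x) ↔ ∃ w ∈ A, ∀ a ∈ v 1, ∃ n ∈ A,
      (ZFSet.pair a n ∈ v 2 ∧ n ∈ x) ∨ (ZFSet.pair a n ∈ v 3 ∧ n ∉ x) ∨
      (ZFSet.pair a n ∈ v 4 ∧ n ∈ w) ∨ (ZFSet.pair a n ∈ v 5 ∧ n ∉ w) := by
  simp only [fCNF, sat_ex, sat_imp, sat_or, Sat]
  refine exists_congr fun w => and_congr_right fun _ => forall_congr' fun a => ?_
  have h3 : ∀ n i, 2 ≤ i → i < 6 → (Sat A (fApp i) (Function.update (Function.update
      (Function.update (Function.update v 0 x) 6 w) 7 a) 8 n) ↔ ZFSet.pair a n ∈ v i) := by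
    intro n i h4 h5
    have h6 : Function.update (Function.update (Function.update (Function.update v 0 x) 6 w) 7 a)
        8 n i = v i := by
      rw [Function.update_of_ne (by omega), Function.update_of_ne (by omega),
        Function.update_of_ne (by omega), Function.update_of_ne (by omega)]
    rw [sat_fApp hA (by omega) (h6 ▸ h1 i) (h6 ▸ h2 i h4), h6]
    simp
  simp only [h3 _ 2 le_rfl (by omega), h3 _ 3 (by omega) (by omega), h3 _ 4 (by omega) (by omega),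
    h3 _ 5 (by omega) (by omega)]
  simp only [Function.update_self, ne_eq, OfNat.ofNat_eq_ofNat, Nat.succ_ne_self,
    Nat.reduceEqDiff, not_false_eq_true, Function.update_of_ne, OfNat.one_ne_ofNat,
    OfNat.zero_ne_ofNat, one_ne_zero]
  exact ⟨fun h ha => h (hA _ (h1 1) _ ha) ha, fun h _ ha => h ha⟩

end Formula

variable {P : Type u} [Preorder P]

def R0 (ω : Om P) : Set ZFSet.{0} := {x | x ∈ MM ω ∧ x ⊆ ZFSet.vonNeumann Ordinal.omega0}

theorem ev_R0 : ∀ᶠ ω : Om P in gen P, ∀ z, z ∈ R0 ω ↔ ∃ x ∈ RM ω, hc x = z := by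
  filter_upwards [ev_hc_iff (P := P)] with ω h z
  refine ⟨fun hz => ⟨bits z, (h _).1 (by rw [hc_bits hz.2]; exact hz.1), hc_bits hz.2⟩, ?_⟩
  rintro ⟨x, hx, rfl⟩
  exact ⟨(h _).2 hx, hc_subset x⟩

theorem Named.union {Z Z' : Om P → ZFSet.{0}} (h : Named Z) (h' : Named Z') :
    Named fun ω => Z ω ∪ Z' ω := by
  obtain ⟨a, ha⟩ := h.upair h'
  exact (named_sUnion a).congr (ha.mono fun ω h => by rw [h]; rfl)

theorem meas_forall_list {α β : Type*} [MeasurableSpace α] (l : List β) {Φ : β → α → Prop}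
    (h : ∀ b, Measurable (Φ b)) : Measurable fun a => ∀ b ∈ l, Φ b a := by
  induction l with
  | nil => simp
  | cons b l ih =>
    simp only [List.forall_mem_cons]
    exact (h b).and ih

theorem val_nm0 (ω : Om P) : val ω nm0 = ∅ := by
  ext z
  simp [nm0, mem_val]

theorem named_def {A : Om P → Set ZFSet.{0}} {x : Name P}
    (hx : ∀ᶠ ω : Om P in gen P, ∀ z, z ∈ val ω x ↔ z ∈ A ω) (φ : Fm) (w : ℕ → Name P) :
    ∃ b : Name P, ∀ᶠ ω : Om P in gen P, ∀ z, z ∈ val ω b ↔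
      z ∈ A ω ∧ Sat (A ω) φ (Function.update (fun i => val ω (w i)) 0 z) := by
  obtain ⟨b, hb⟩ := named_sep x (Ψ := fun ω y =>
    Sat (A ω) φ (Function.update (fun i => val ω (w i)) 0 y)) fun y => by
      simp only [upd_val]
      refine meas_sat ?_ (fun y => meas_congr (meas_val_mem y x) (hx.mono fun ω h => h _)) _ _
      filter_upwards [hx, ev_trans (P := P), (Named.val x).mem_MM] with ω h1 h2 h3 z hz
      exact h2 _ h3 _ ((h1 z).2 hz)
  refine ⟨b, ?_⟩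
  filter_upwards [hb, hx] with ω h1 h2 z
  rw [h1, h2]

theorem named_Lv (β : Ordinal.{u}) :
    ∃ x : Name P, ∀ᶠ ω : Om P in gen P, ∀ z, z ∈ val ω x ↔ z ∈ Lv (R0 ω) (cv ω β) := by
  induction β using WellFoundedLT.induction with
  | ind β ih =>
    choose x hx using fun γ : Iio β => ih γ.1 γ.2
    let K := Σ γ : Iio β, Fm × List (x γ).I
    choose y hy using fun k : K => named_def (hx k.1) k.2.1
      fun i => (k.2.2.map (x k.1).A).getD i nm0
    obtain ⟨b, hb⟩ := compr (P := P) (K := K) (Y := fun k ω => val ω (y k))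
      (fun _ => Named.val _) (Φ := fun k ω => In ω k.1.1 ∧ ∀ i ∈ k.2.2, In ω i ∧ (x k.1).c i ∈ ω.g)
      fun k => (meas_in _).and (meas_forall_list _ fun i => (meas_in _).and (meas_g _))
    obtain ⟨r, hr⟩ := named_reals (P := P) (Φ := fun _ _ => True) fun _ _ => measurable_const
    obtain ⟨s, hs⟩ := (Named.val r).union (Named.val b)
    refine ⟨s, ?_⟩
    have h0 : ∀ᶠ ω : Om P in gen P, ∀ γ : Iio β, In ω γ → ∀ φ : Fm, ∀ l : List (x γ).I,
        (∀ i ∈ l, In ω i) → In ω (⟨γ, φ, l⟩ : K) := ev_diag fun γ : Iio β =>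
      eventually_countable_forall.2 fun φ => ev_diag_list fun l => ev_in _
    filter_upwards [hb, hr, hs, ev_R0 (P := P), ev_diag hx, ev_diag hy, h0,
      ev_subtype (P := P) (· ∈ Iio β), (named_empty (P := P)).mem_MM]
      with ω h1 h2 h3 h4 h5 h6 h7 h8 h9 z
    rw [h3, ZFSet.mem_union, mem_Lv, h1, h2, h4]
    simp only [true_and]
    refine or_congr Iff.rfl ⟨?_, ?_⟩
    · rintro ⟨⟨γ, φ, l⟩, h10, ⟨h11, h12⟩, rfl⟩
      refine ⟨_, mem_cv.2 ⟨γ.1, γ.2, h11, rfl⟩, φ, _, fun i => ?_, h6 _ h10⟩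
      by_cases hi : i < l.length
      · rw [List.getD_eq_getElem _ _ (by simpa using hi), List.getElem_map,
          ← h5 γ ((h8 γ).2 h11)]
        exact mem_val'.2 ⟨_, (h12 _ (List.getElem_mem hi)).1, (h12 _ (List.getElem_mem hi)).2, rfl⟩
      · rw [List.getD_eq_default _ _ (by simpa using hi), val_nm0]
        exact mem_Lv.2 (Or.inl ⟨h9, ZFSet.empty_subset _⟩)
    · rintro ⟨_, h10, φ, v, h11, h12⟩
      obtain ⟨γ, h13, h14, rfl⟩ := mem_cv.1 h10
      have h15 := (h8 ⟨γ, h13⟩).2 h14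
      have h16 : ∀ i, ∃ j : (x ⟨γ, h13⟩).I, (In ω j ∧ (x ⟨γ, h13⟩).c j ∈ ω.g) ∧
          val ω ((x ⟨γ, h13⟩).A j) = v i := fun i => by
        simpa only [and_assoc] using mem_val'.1 ((h5 _ h15 _).2 (h11 i))
      obtain ⟨l, h17, h18, h19⟩ := exists_list (h16 0).choose _ _ h16 φ.bnd
      have h20 := h7 _ h15 φ l fun i hi => (h17 i hi).1
      refine ⟨⟨⟨γ, h13⟩, φ, l⟩, h20, ⟨h14, h17⟩, ?_⟩
      ext w
      rw [h6 _ h20, h12]
      refine and_congr_right fun _ => sat_congr _ _ (update_agree (fun i hi => ?_) 0 w)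
      rw [← h19 i hi, List.getD_eq_getElem _ _ (by simpa [h18] using hi), List.getElem_map,
        List.getD_eq_getElem _ _ (by simpa [h18] using hi)]

theorem goodW_LR : GoodW fun ω : Om P => LR (MM ω) := by
  classical
  refine ⟨?_, ?_, fun S hS t ht => ?_⟩
  · choose x hx using named_Lv (P := P)
    filter_upwards [ev_diag hx, ev_diag fun β => (Named.val (x β)).mem_MM, ev_ord (P := P),
      ev_trans (P := P)] with ω h1 h2 h3 h4
    rintro z ⟨a, h5, h6, h7⟩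
    obtain ⟨β, h8, rfl⟩ := h3 a h5 h6
    exact h4 _ (h2 β h8) _ ((h1 β h8 z).2 h7)
  · filter_upwards [ev_R0 (P := P), (named_empty (P := P)).mem_MM] with ω h1 h2 x hx
    exact ⟨∅, h2, ZFSet.isOrdinal_empty, mem_Lv.2 (Or.inl ((h1 _).2 ⟨x, hx, rfl⟩))⟩
  obtain ⟨cls, h1, w, h2, h3, h4⟩ := pres_of_measurable hS
  obtain ⟨cl, hcl⟩ := (h1.insert univ).exists_eq_range (insert_nonempty _ _)
  have hsat : ∀ y w', SatC cls y w' ∧ w' [] = true ↔ (∀ a, ∃ lit ∈ cl a,
      Sum.elim y.1 (Sum.elim y.2 w') lit.1 = lit.2) ∧ w' [] = true := fun y w' => by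
    refine and_congr_left fun _ => ⟨fun h a => ?_, fun h c hc => ?_⟩
    · rcases (hcl ▸ mem_range_self a : cl a ∈ insert univ cls) with h5 | h5
      · exact ⟨(.inl 0, _), h5 ▸ trivial, rfl⟩
      · exact h _ h5
    · obtain ⟨a, rfl⟩ : c ∈ range cl := hcl ▸ Or.inr hc
      exact h a
  let cl' : ℕ → Set Lit := fun a => a.casesOn {(.inr (.inr []), true)} cl
  have hS' : ∀ y, y ∈ S ↔ ∃ w', ∀ a, ∃ lit ∈ cl' a,
      Sum.elim y.1 (Sum.elim y.2 w') lit.1 = lit.2 := fun y => by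
    constructor
    · intro hy
      have := (hsat y (w y)).1 ⟨h3 y, (h4 y _ (h3 y)).2 hy⟩
      exact ⟨w y, fun a => a.casesOn ⟨_, rfl, this.2⟩ this.1⟩
    · rintro ⟨w', h⟩
      have h5 : w' [] = true := by simpa [cl'] using h 0
      exact (h4 y w' ((hsat y w').2 ⟨fun a => h (a + 1), h5⟩).1).1 h5
  let cx : Bool → ZFSet.{0} := fun b => ZFSet.range fun p : {p : ℕ × ℕ //
    (Sum.inr (Sum.inl p.2), b) ∈ cl' p.1} => ZFSet.pair (nat p.1.1) (en p.1.2).1
  let cw : Bool → ZFSet.{0} := fun b => ZFSet.range fun p : {p : ℕ × List ℕ //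
    (Sum.inr (Sum.inr p.2), b) ∈ cl' p.1} =>
      ZFSet.pair (nat p.1.1) (en (Encodable.encode p.1.2)).1
  have hcx : ∀ b, cx b ⊆ HF := fun b z hz => by
    obtain ⟨p, rfl⟩ := ZFSet.mem_range.1 hz
    exact pair_mem_HF (nat_mem_HF _) (en _).2
  have hcw : ∀ b, cw b ⊆ HF := fun b z hz => by
    obtain ⟨p, rfl⟩ := ZFSet.mem_range.1 hz
    exact pair_mem_HF (nat_mem_HF _) (en _).2
  obtain ⟨kn, hkn⟩ := compr_count (P := P) (K := ℕ) (Y := fun n _ => nat n)
    (fun n => named_const _ (HF_trans (nat_mem_HF n)))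
    (Φ := fun a ω => ¬ ∃ n b, (Sum.inl n, b) ∈ cl' a ∧ t ω n = b) fun a =>
    (Measurable.exists fun n => Measurable.exists fun b => measurable_const.and
      (meas_bit ht n b)).not
  obtain ⟨zn, hzn⟩ := named_reals (P := P) (Φ := fun x ω => (t ω, x) ∈ S) fun X hX =>
    meas_memS (ht.prodMk hX) hS
  filter_upwards [hkn, hzn, (Named.val kn).mem_MM, ev_R0 (P := P), ev_trans (P := P),
    eventually_countable_forall.2 fun b => (named_const (P := P) _ (hcx b)).mem_MM,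
    eventually_countable_forall.2 fun b => (named_const (P := P) _ (hcw b)).mem_MM,
    eventually_countable_forall.2 fun h : HF => (named_const (P := P) _ (HF_trans h.2)).mem_MM,
    ev_diag_RM (P := P) (Φ := fun x ω => (fun n => ((Encodable.decode₂ (List ℕ) n).map
      (w (t ω, x))).getD false) ∈ RM ω) fun X hX => ev_RM (measurable_pi_lambda _ fun n => by
        cases Encodable.decode₂ (List ℕ) n
        exacts [measurable_const, (h2 _).fun_comp (ht.prodMk hX)])]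
    with ω a1 a2 a3 a4 a5 a6 a7 a8 a9
  have hA : ∀ x ∈ R0 ω, ∀ y ∈ x, y ∈ R0 ω := fun x hx y hy =>
    ⟨a5 x hx.1 y hy, HF_trans (hx.2 hy)⟩
  have hHF : ∀ n, (en n).1 ∈ R0 ω := fun n => ⟨a8 _, HF_trans (en n).2⟩
  refine ⟨val ω zn, ⟨nat 1, a8 ⟨_, nat_mem_HF 1⟩, ZFSet.isOrdinal_toZFSet _,
    mem_Lv.2 (Or.inr ⟨∅, Ordinal.toZFSet_zero ▸ Ordinal.toZFSet_mem_toZFSet_iff.2 (by simp),
      ?_⟩)⟩, a2⟩
  change _ ∈ Df (Lv (R0 ω) ∅)
  rw [Lv_empty]
  let v : ℕ → ZFSet.{0} := fun i => match i with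
    | 1 => val ω kn
    | 3 => cx false
    | 4 => cw true
    | 5 => cw false
    | _ => cx true
  have hv : ∀ i, v i ∈ R0 ω := fun i => by
    simp only [v]
    split
    · refine ⟨a3, fun z hz => ?_⟩
      obtain ⟨n, -, rfl⟩ := (a1 z).1 hz
      exact nat_mem_HF n
    exacts [⟨a6 _, hcx _⟩, ⟨a7 _, hcw _⟩, ⟨a7 _, hcw _⟩, ⟨a6 _, hcx _⟩]
  refine ⟨fCNF, v, hv, fun y => ?_⟩
  rw [sat_fCNF hA hv (fun i hi p hp => by
    simp only [v] at hp
    split at hp
    · omega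
    all_goals
      obtain ⟨q, rfl⟩ := ZFSet.mem_range.1 hp
      exact ⟨_, _, rfl⟩), a2]
  have hx : ∀ b a n, ZFSet.pair (nat a) n ∈ cx b ↔
      ∃ m, (Sum.inr (Sum.inl m), b) ∈ cl' a ∧ (en m).1 = n := fun b a n => by
    simp only [cx, ZFSet.mem_range, ZFSet.pair_inj, nat_inj.eq_iff, Subtype.exists, exists_prop,
      Prod.exists]
    exact ⟨fun ⟨a', m, h1, h2, h3⟩ => ⟨m, h2 ▸ h1, h3⟩, fun ⟨m, h1, h2⟩ => ⟨a, m, h1, rfl, h2⟩⟩
  have hw : ∀ b a n, ZFSet.pair (nat a) n ∈ cw b ↔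
      ∃ m, (Sum.inr (Sum.inr m), b) ∈ cl' a ∧ (en (Encodable.encode m)).1 = n := fun b a n => by
    simp only [cw, ZFSet.mem_range, ZFSet.pair_inj, nat_inj.eq_iff, Subtype.exists, exists_prop,
      Prod.exists]
    exact ⟨fun ⟨a', m, h1, h2, h3⟩ => ⟨m, h2 ▸ h1, h3⟩, fun ⟨m, h1, h2⟩ => ⟨a, m, h1, rfl, h2⟩⟩
  constructor
  · rintro ⟨x, h5, h6, rfl⟩
    refine ⟨(a4 _).2 ⟨x, h5, rfl⟩, _, (a4 _).2 ⟨_, a9 x h5, rfl⟩, fun a ha => ?_⟩
    obtain ⟨a, h7, rfl⟩ := (a1 a).1 ha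
    have := (hsat (t ω, x) (w (t ω, x))).1 ⟨h3 _, (h4 _ _ (h3 _)).2 h6⟩
    have h8 : ∃ lit ∈ cl' a, Sum.elim (t ω) (Sum.elim x (w (t ω, x))) lit.1 = lit.2 :=
      a.casesOn ⟨_, rfl, this.2⟩ this.1
    obtain ⟨⟨n | n | l, b⟩, h9, h10⟩ := h8
    · exact absurd ⟨n, b, h9, h10⟩ h7
    · refine ⟨_, hHF n, ?_⟩
      cases b
      · exact Or.inr (Or.inl ⟨(hx _ _ _).2 ⟨n, h9, rfl⟩, by simpa [en_mem_hc] using h10⟩)
      · exact Or.inl ⟨(hx _ _ _).2 ⟨n, h9, rfl⟩, by simpa [en_mem_hc] using h10⟩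
    · refine ⟨_, hHF (Encodable.encode l), Or.inr (Or.inr ?_)⟩
      cases b
      · exact Or.inr ⟨(hw _ _ _).2 ⟨l, h9, rfl⟩, by simpa [en_mem_hc] using h10⟩
      · exact Or.inl ⟨(hw _ _ _).2 ⟨l, h9, rfl⟩, by simpa [en_mem_hc] using h10⟩
  · rintro ⟨h5, w', h6, h7⟩
    obtain ⟨x, h8, rfl⟩ := (a4 _).1 h5
    obtain ⟨w', -, rfl⟩ := (a4 _).1 h6
    refine ⟨x, h8, (hS' (t ω, x)).2 ⟨fun l => w' (Encodable.encode l), fun a => ?_⟩, rfl⟩
    rcases em (∃ n b, (Sum.inl n, b) ∈ cl' a ∧ t ω n = b) with ⟨n, b, h10, h11⟩ | h9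
    · exact ⟨_, h10, h11⟩
    obtain ⟨n, -, h10 | h10 | h10 | h10⟩ := h7 _ ((a1 _).2 ⟨a, h9, rfl⟩)
    · obtain ⟨m, h11, rfl⟩ := (hx _ _ _).1 h10.1
      exact ⟨_, h11, by simpa [en_mem_hc] using h10.2⟩
    · obtain ⟨m, h11, rfl⟩ := (hx _ _ _).1 h10.1
      exact ⟨_, h11, by simpa [en_mem_hc] using h10.2⟩
    · obtain ⟨m, h11, rfl⟩ := (hw _ _ _).1 h10.1
      exact ⟨_, h11, by simpa [en_mem_hc] using h10.2⟩
    · obtain ⟨m, h11, rfl⟩ := (hw _ _ _).1 h10.1
      exact ⟨_, h11, by simpa [en_mem_hc] using h10.2⟩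

end Pool.Agent.MP_e75763_lc

end MrgPart0

-- ======== part 1: formerly Pool.Agent.MP_e75763_lc.Sym
section MrgPart1

/-! Automorphisms, symmetric names, and countable sets of reals. -/

namespace Pool.Agent.MP_e75763_lc

open Set Filter

universe u

variable {P : Type u} [Preorder P]

theorem Om.ext' {ω ω' : Om P} (h1 : ω.N = ω'.N) (h2 : ω.g = ω'.g) : ω = ω' := by
  cases ω
  cases ω'
  cases h1
  cases h2
  rfl

def Om.aut (π : P ≃o P) (ω : Om P) : Om P where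
  N := ω.N
  cN := ω.cN
  g := {v | π v ∈ ω.g}
  up _ _ h h' := ω.up _ _ h (π.monotone h')
  dir p hp q hq :=
    let ⟨r, h1, h2, h3⟩ := ω.dir _ hp _ hq
    ⟨π.symm r, by simpa using h1, π.symm_apply_le.2 h2, π.symm_apply_le.2 h3⟩

theorem aut_ev [OrderTop P] (π : P ≃o P) {Φ : Om P → Prop} (h : ∀ᶠ ω : Om P in gen P, Φ ω) :
    ∀ᶠ ω : Om P in gen P, Φ (ω.aut π) := by
  have h1 := proj_ev (p := ⊤) (π := π.symm) (fun _ _ _ h => π.symm.monotone h)
    (fun q _ v hv => ⟨π v, π.le_symm_apply.1 hv, by simp⟩) h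
  filter_upwards [h1, ev_top (P := P)] with ω h2 h3
  convert h2 h3
  refine Om.ext' rfl (Set.ext fun v => ⟨fun h => ⟨_, h, le_top, by simp⟩, ?_⟩)
  rintro ⟨q, h4, -, h5⟩
  exact ω.up _ _ h4 (π.symm_apply_le.1 h5)

theorem Fc.aut [OrderTop P] (π : P ≃o P) {Φ : Om P → Prop} {p : P} (h : Fc p Φ) :
    Fc (π p) fun ω => Φ (ω.aut π) := aut_ev π h

def Name.act (π : P ≃o P) : Name P → Name P
  | ⟨I, A, c⟩ => ⟨I, fun i => (A i).act π, fun i => π (c i)⟩

theorem val_aut (π : P ≃o P) (ω : Om P) (x : Name P) : val (ω.aut π) x = val ω (x.act π) := by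
  induction x with
  | mk I A c ih =>
    ext z
    simp only [Name.act, mem_val, ih]
    rfl

theorem aut_aut (π : P ≃o P) (ω : Om P) : (ω.aut π).aut π.symm = ω :=
  Om.ext' rfl (Set.ext fun v => by simp [Om.aut])

theorem ev_MM_aut (π : P ≃o P) : ∀ᶠ ω : Om P in gen P, MM (ω.aut π) = MM ω := by
  filter_upwards [ev_map (P := P) (Name.act π), ev_map (P := P) (Name.act π.symm)] with ω h1 h2
  ext z
  constructor
  · rintro ⟨x, hx, rfl⟩
    exact ⟨_, h1 x hx, (val_aut π ω x).symm⟩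
  · rintro ⟨x, hx, rfl⟩
    exact ⟨_, h2 x hx, by rw [← val_aut, aut_aut]⟩

theorem ev_RM_aut [OrderTop P] (π : P ≃o P) : ∀ᶠ ω : Om P in gen P, RM (ω.aut π) = RM ω := by
  filter_upwards [ev_MM_aut π, ev_hc_iff (P := P), aut_ev π (ev_hc_iff (P := P))] with ω h1 h2 h3
  ext x
  rw [← h2, ← h3, h1]

/-- names fixed by one of a directed family of sets of automorphisms -/
def SymN {ι : Type*} (F : ι → Set (P ≃o P)) (x : Name P) : Prop :=
  ∃ η, ∀ π ∈ F η, ∀ᶠ ω : Om P in gen P, val (ω.aut π) x = val ω x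

theorem ev_sym [OrderTop P] {ι : Type*} [Nonempty ι] {F : ι → Set (P ≃o P)}
    (hF : Directed (· ⊇ ·) F)
    (hR : ∀ σ : RN P, ∃ η, ∀ π ∈ F η, ∀ᶠ ω : Om P in gen P, ev σ (ω.aut π) = ev σ ω) :
    ∀ᶠ ω : Om P in gen P, ∀ z ∈ LR (MM ω), ∃ x, In ω x ∧ SymN F x ∧ val ω x = z := by
  have h1 : ∀ σ : RN P, ∀ᶠ ω : Om P in gen P,
      ∃ x, In ω x ∧ SymN F x ∧ val ω x = hc (ev σ ω) := fun σ => by
    obtain ⟨b, hb⟩ := named_hc (meas_ev σ)
    obtain ⟨η, hη⟩ := hR σ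
    have : SymN F b := ⟨η, fun π hπ => by
      filter_upwards [hb, aut_ev π hb, hη π hπ] with ω h1 h2 h3
      rw [h1, h2, h3]⟩
    filter_upwards [hb, ev_in (P := P) b] with ω h1 h2 using ⟨b, h2, this, h1⟩
  have h2 : ∀ (γ : Ordinal.{u}) (φ : Fm) (l : List (Name P)), ∀ᶠ ω : Om P in gen P,
      (∀ x ∈ l, SymN F x) → ∃ b, In ω b ∧ SymN F b ∧ ∀ z, z ∈ val ω b ↔
        z ∈ Lv (R0 ω) (cv ω γ) ∧ Sat (Lv (R0 ω) (cv ω γ)) φ
          (Function.update (fun i => val ω (l.getD i nm0)) 0 z) := fun γ φ l => by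
    by_cases hl : ∀ x ∈ l, SymN F x
    swap
    · exact Eventually.of_forall fun _ h => absurd h hl
    obtain ⟨x, hx⟩ := named_Lv (P := P) γ
    obtain ⟨b, hb⟩ := named_def hx φ fun i => l.getD i nm0
    have h3 : ∃ η, ∀ π ∈ F η, ∀ x ∈ l, ∀ᶠ ω : Om P in gen P, val (ω.aut π) x = val ω x := by
      clear hb
      induction l with
      | nil => exact ⟨Classical.arbitrary _, by simp⟩
      | cons y l ih =>
        obtain ⟨η, h4⟩ := ih fun x hx => hl x (List.mem_cons_of_mem _ hx)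
        obtain ⟨η', h5⟩ := hl y List.mem_cons_self
        obtain ⟨ζ, h6, h7⟩ := hF η η'
        exact ⟨ζ, fun π hπ => List.forall_mem_cons.2 ⟨h5 π (h7 hπ), h4 π (h6 hπ)⟩⟩
    obtain ⟨η, h3⟩ := h3
    have : SymN F b := ⟨η, fun π hπ => by
      filter_upwards [hb, aut_ev π hb, ev_MM_aut π,
        (eventually_all_finite l.finite_toSet).2 (h3 π hπ)] with ω h1 h2 h4 h5
      have h6 : R0 (ω.aut π) = R0 ω := by simp only [R0, h4]
      have h7 : (fun i => val (ω.aut π) (l.getD i nm0)) = fun i => val ω (l.getD i nm0) := by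
        funext i
        by_cases hi : i < l.length
        · rw [List.getD_eq_getElem _ _ hi]
          exact h5 _ (List.getElem_mem hi)
        · rw [List.getD_eq_default _ _ (not_lt.1 hi), val_nm0, val_nm0]
      ext z
      rw [h1, h2, h6, h7]
      rfl⟩
    filter_upwards [hb, ev_in (P := P) b] with ω h1 h2 _ using ⟨b, h2, this, h1⟩
  filter_upwards [ev_diag h1, ev_diag fun γ : Ordinal.{u} => eventually_countable_forall.2
    fun φ => ev_diag_list (h2 γ φ), ev_ord (P := P), ev_R0 (P := P)] with ω a1 a2 a3 a4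
  have key : ∀ β : Ordinal.{u}, ∀ z ∈ Lv (R0 ω) (cv ω β),
      ∃ x, In ω x ∧ SymN F x ∧ val ω x = z := by
    intro β
    induction β using WellFoundedLT.induction with
    | ind β ih =>
      intro z hz
      rcases mem_Lv.1 hz with h | ⟨_, h3, φ, v, h4, h5⟩
      · obtain ⟨_, ⟨σ, h3, rfl⟩, rfl⟩ := (a4 z).1 h
        exact a1 σ h3
      · obtain ⟨γ, h6, h7, rfl⟩ := mem_cv.1 h3
        obtain ⟨l, h8, -, h9⟩ := exists_list nm0 (val ω) (fun x => In ω x ∧ SymN F x)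
          (fun i => by simpa only [and_assoc] using ih γ h6 _ (h4 i)) φ.bnd
        obtain ⟨b, h10, h11, h12⟩ := a2 γ h7 φ l (fun x hx => (h8 x hx).1) fun x hx => (h8 x hx).2
        refine ⟨b, h10, h11, ?_⟩
        ext y
        rw [h12, h5, sat_congr _ φ (update_agree h9 0 y)]
  rintro z ⟨a, h3, h4, h5⟩
  obtain ⟨β, -, rfl⟩ := a3 a h3 h4
  exact key β z h5

variable {W : Om P → Set ZFSet.{0}} {X : Type} [MeasurableSpace X] [StandardBorelSpace X]
  {c : X → ZFSet.{0}}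

theorem GoodW.ctb (hW : GoodW W) (hc : CodeOK c) (hi : Function.Injective c) (φ : X ≃ᵐ C)
    {B : Om P → Set C} (hB : ∀ Y : Om P → C, Measurable Y → Measurable fun ω => Y ω ∈ B ω)
    {y : Om P → C} (hy : Measurable y) :
    ∀ᶠ ω : Om P in gen P, B ω ⊆ RM ω → (∀ x ∈ B ω, ∃ i, col i (y ω) = x) →
      ∃ z ∈ W ω, ∀ w, w ∈ z ↔ ∃ x ∈ B ω, c (φ.symm x) = w := by
  classical
  have h1 : MeasurableSet {p : C × X | ∃ i, col 1 p.1 i = true ∧ col i (col 0 p.1) = φ p.2} :=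
    measurableSet_setOfPred.2 (Measurable.exists fun i =>
      (meas_bit ((meas_col 1).fun_comp measurable_fst) i true).and
        (meas_eqC ((meas_col i).fun_comp ((meas_col 0).fun_comp measurable_fst))
          (φ.measurable.fun_comp measurable_snd)))
  have h2 : Measurable fun ω => mer fun i =>
      if i = 0 then y ω else fun n => decide (col n (y ω) ∈ B ω) := meas_mer fun i => by
    split_ifs
    exacts [hy, measurable_pi_lambda _ fun n => meas_decide (hB _ ((meas_col n).fun_comp hy))]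
  filter_upwards [hW.coded hc hi h1 h2,
    ev_diag_RM (P := P) (Φ := fun x ω => bits (c (φ.symm x)) ∈ RM ω) fun X hX =>
      ev_RM (hc.bits.fun_comp (φ.symm.measurable.fun_comp hX))] with ω ⟨z, h3, h4⟩ h5 h6 h7
  refine ⟨z, h3, fun w => (h4 w).trans ⟨?_, ?_⟩⟩
  · rintro ⟨r, ⟨i, h8, h9⟩, -, rfl⟩
    simp only [col_mer, one_ne_zero, if_false, decide_eq_true_eq, if_true] at h8 h9
    exact ⟨_, h8, by rw [h9, φ.symm_apply_apply]⟩
  · rintro ⟨x, h8, rfl⟩
    obtain ⟨i, rfl⟩ := h7 x h8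
    exact ⟨_, ⟨i, by simpa using h8, by simp⟩, h5 _ (h6 h8), rfl⟩

/-- the mode with a single pair of owners -/
def modeD : Mode where
  D _ := ⟨fun _ i => (default, cond i 1 0), fun e _ => e.1, fun _ _ _ _ _ h h' => Prod.ext h' h,
    fun _ => by simp⟩
  pown _ _ := PC.of_cont continuous_const
  lown _ _ := LC.const _
  poth _ _ := PC.of_cont continuous_snd

theorem GoodW.fails_of_ctb (hW : GoodW W) (hc : CodeOK c) (hi : Function.Injective c)
    (φ : X ≃ᵐ C) (h : ∀ a : Name P, ∀ᶠ ω : Om P in gen P, val ω a ∈ W ω →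
      (∀ w ∈ val ω a, ∃ x ∈ RM ω, c (φ.symm x) = w) → BelowAlephOmega (W ω) (val ω a) →
      Ctb ω (Hs c φ a ω)) :
    ∀ᶠ ω : Om P in gen P, ∀ Γ, Γ {v | ((default : C), fun i => (v i).1) ∈ modeD.Gr φ} →
      Fails c (W ω) Γ := by
  refine hW.fails hc hi φ modeD (T := fun _ => default) measurable_const (fun a => ?_) fun a => ?_
  · let y : Om P → C := fun ω => sel ω fun y => ∀ x ∈ RM ω, x ∈ Hs c φ a ω → ∃ i, col i y = x
    have hy : Measurable y := meas_sel fun Y hY => meas_forall_RM fun A hA =>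
      (meas_Hs hc φ a A hA).imp (Measurable.exists fun i => meas_eqC ((meas_col i).fun_comp hY) hA)
    obtain ⟨men, hm1, hm2⟩ := (modeD.rep_Psi (Y := C) (t := fun _ => default) continuous_const
      continuous_id).mention
    let Y : Om P → C := fun ω => mer fun N => N.casesOn default fun N =>
      men N.unpair.1 (col N.unpair.2 (y ω))
    have hY : Measurable Y := meas_mer fun N => by
      cases N
      exacts [measurable_const, (hm1 _).fun_comp ((meas_col _).fun_comp hy)]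
    obtain ⟨Bs, h1, h2, h3⟩ := modeD.exists_free (T := fun _ => default) measurable_const
      (X := fun ω => range fun n => col n (Y ω)) (Hs := Hs c φ a) (fun A hA =>
        Measurable.exists fun n => meas_eqC ((meas_col n).fun_comp hY) hA) (meas_Hs hc φ a)
      (ρ := fun ω u => sInf {n | col n (Y ω) = u}) fun A A' hA hA' =>
        measurableSet_setOfPred.1 (measurableSet_lt
          (meas_sInf fun n => meas_eqC ((meas_col n).fun_comp hY) hA)
          (meas_sInf fun n => meas_eqC ((meas_col n).fun_comp hY) hA'))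
    filter_upwards [h a, hW.ctb hc hi φ h1 hy, ev_RM hY,
      eventually_countable_forall.2 fun n => ev_RM ((meas_col n).fun_comp hY)]
      with ω a1 a2 a3 a4 a5 a6 a7
    obtain ⟨y0, a8, a9⟩ := a1 a5 a6 a7
    have a10 : ∀ x ∈ RM ω, x ∈ Hs c φ a ω → ∃ i, col i (y ω) = x :=
      (sel_spec (S := fun y => ∀ x ∈ RM ω, x ∈ Hs c φ a ω → ∃ i, col i y = x)
        ⟨y0, a8, fun x _ => a9 x⟩).2
    have a11 : Bs ω ⊆ RM ω := fun x hx => (h2 ω hx).1
    refine ⟨Bs ω, a11, a2 a11 fun x hx => a10 x (a11 hx) (h2 ω hx), fun G _ θ ψ b1 b2 _ =>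
      h3 ω (fun u hu u' hu' e => ?_) ?_ (fun x hx => hx.1) (fun o _ => ⟨_, a3, ?_⟩)
        (fun x hx j hj => ⟨?_, fun _ _ _ => ⟨0, by simp [Y, modeD]⟩⟩) G θ ψ b1 b2⟩
    · have e1 := Nat.sInf_mem (s := {n | col n (Y ω) = u}) hu
      have e2 := Nat.sInf_mem (s := {n | col n (Y ω) = u'}) hu'
      dsimp only at e
      rw [e] at e1
      exact e1.symm.trans e2
    · rintro _ ⟨n, rfl⟩
      exact a4 n
    · rintro _ ⟨a, c, b3, -, rfl⟩
      exact b3.1
    · obtain ⟨i, rfl⟩ := a10 x hx.1 hx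
      obtain ⟨k, hk⟩ := hm2 _ _ hj
      exact ⟨Nat.pair k i + 1, by simp only [Y, col_mer, Nat.unpair_pair]; exact hk⟩
  · obtain ⟨Z, h1, h2⟩ := modeD.exists_nf (T := fun _ => default) measurable_const
      (meas_Hs hc φ a)
    filter_upwards [modeD.ev_cl (P := P) (T := fun _ => default) measurable_const,
      ev_RM (h1 _ 0 (measurable_const (a := default))),
      ev_RM (h1 _ 1 (measurable_const (a := default))), ev_ctb_union (P := P),
      ev_not_ctb (P := P)] with ω a1 a2 a3 a4 a5 G _ θ ψ b1 b2 b3 b4 b5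
    refine a5 ((a4 {x | ∃ n, col n (Z ω (default, 0)) = x} {x | ∃ n, col n (Z ω (default, 1)) = x}
      ⟨_, a2, fun _ h => h⟩ ⟨_, a3, fun _ h => h⟩).mono fun x hx => ?_)
    obtain ⟨_ | _, h⟩ := h2 ω a1 G θ ψ b1 b2 b3 b4 b5 x hx 0
    exacts [Or.inl h, Or.inr h]

end Pool.Agent.MP_e75763_lc

end MrgPart1

-- ======== part 2: formerly Pool.Agent.MP_e75763_lc.Levy
section MrgPart2

/-! The Levy collapse of the first universe. -/

namespace Pool.Agent.MP_e75763_lc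

open Set Filter

/-- Levy conditions; the value `0` means undefined -/
structure Lv0 : Type 1 where
  f : Ordinal.{0} × ℕ →₀ Ordinal.{0}
  bd : ∀ x, f x ≤ x.1 + 1

namespace Lv0

instance : Preorder Lv0 where
  le q p := ∀ x, p.f x ≠ 0 → q.f x = p.f x
  le_refl _ _ _ := rfl
  le_trans a b c h h' x hx := (h x (by rwa [h' x hx])).trans (h' x hx)

theorem le_def {q p : Lv0} : q ≤ p ↔ ∀ x, p.f x ≠ 0 → q.f x = p.f x := Iff.rfl

instance : OrderTop Lv0 where
  top := ⟨0, by simp⟩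
  le_top _ _ h := absurd rfl h

theorem ext' {p q : Lv0} (h : ∀ x, p.f x = q.f x) : p = q := by
  cases p
  cases q
  simpa using Finsupp.ext h

def Sup (p : Lv0) (η : Ordinal.{0}) : Prop := ∀ x, p.f x ≠ 0 → x.1 < η

open Classical in
noncomputable def res (p : Lv0) (η : Ordinal.{0}) : Lv0 :=
  ⟨p.f.filter fun x => x.1 < η, fun x => by
    rw [Finsupp.filter_apply]
    split_ifs
    exacts [p.bd x, zero_le]⟩

theorem res_apply (p : Lv0) (η : Ordinal.{0}) (x) :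
    (p.res η).f x = if x.1 < η then p.f x else 0 := by
  simp [res, Finsupp.filter_apply]

theorem sup_res (p : Lv0) (η : Ordinal.{0}) : (p.res η).Sup η := fun x hx => by
  by_contra h
  simp [res_apply, h] at hx

open Classical in
noncomputable def un (q p : Lv0) : Lv0 :=
  ⟨Finsupp.zipWith (fun a b => if a = 0 then b else a) (by simp) q.f p.f, fun x => by
    rw [Finsupp.zipWith_apply]
    split_ifs
    exacts [p.bd x, q.bd x]⟩

theorem compat {q p : Lv0} (h : ∀ x, q.f x ≠ 0 → p.f x ≠ 0 → q.f x = p.f x) :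
    ∃ r, r ≤ q ∧ r ≤ p := by
  refine ⟨q.un p, fun x hx => by simp [un, hx], fun x hx => ?_⟩
  by_cases h1 : q.f x = 0
  · simp [un, h1]
  · simp [un, h1, h x h1 hx]

def Fix (η : Ordinal.{0}) : Set (Lv0 ≃o Lv0) := {π | ∀ p : Lv0, p.Sup η → π p = p}

theorem directed_Fix : Directed (· ⊇ ·) Fix := fun a b =>
  ⟨max a b, fun _ h p hp => h p fun x hx => (hp x hx).trans_le (le_max_left _ _),
    fun _ h p hp => h p fun x hx => (hp x hx).trans_le (le_max_right _ _)⟩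

noncomputable def perm (σ : Ordinal.{0} × ℕ → Equiv.Perm Ordinal.{0}) (h0 : ∀ x, σ x 0 = 0)
    (hb : ∀ x v, v ≤ x.1 + 1 → σ x v ≤ x.1 + 1) (p : Lv0) : Lv0 :=
  ⟨Finsupp.ofSupportFinite (fun x => σ x (p.f x)) (p.f.hasFiniteSupport.subset fun x hx h =>
    hx (by simp [h, h0])), fun x => hb x _ (p.bd x)⟩

theorem homog (η : Ordinal.{0}) {p q : Lv0} (h : q ≤ p.res η) :
    ∃ π ∈ Fix η, ∃ r, r ≤ π q ∧ r ≤ p := by
  classical
  let σ : Ordinal.{0} × ℕ → Equiv.Perm Ordinal.{0} := fun x =>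
    if η ≤ x.1 ∧ p.f x ≠ 0 ∧ q.f x ≠ 0 then Equiv.swap (p.f x) (q.f x) else 1
  have h0 : ∀ x, σ x 0 = 0 := fun x => by
    simp only [σ]
    split_ifs with h
    exacts [Equiv.swap_apply_of_ne_of_ne h.2.1.symm h.2.2.symm, rfl]
  have hb : ∀ x v, v ≤ x.1 + 1 → σ x v ≤ x.1 + 1 := fun x v hv => by
    simp only [σ]
    split_ifs with h
    · rw [Equiv.swap_apply_def]
      split_ifs
      exacts [q.bd x, p.bd x, hv]
    · exact hv
  have hi : ∀ x v, σ x (σ x v) = v := fun x v => by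
    simp only [σ]
    split_ifs with h <;> simp
  have hf : ∀ r x, (perm σ h0 hb r).f x = σ x (r.f x) := fun _ _ => rfl
  have hinv : Function.Involutive (perm σ h0 hb) := fun r => ext' fun x => by rw [hf, hf, hi]
  have hm : Monotone (perm σ h0 hb) := fun a b hab x hx => by
    rw [hf, hf, hab x fun h => hx (by rw [hf, h, h0])]
  refine ⟨⟨hinv.toPerm, fun {a b} => ⟨fun hab => ?_, fun hab => hm hab⟩⟩, 
    fun r hr => ext' fun x => ?_,    compat fun x h1 h2 => ?_⟩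
  · have := hm hab
    simpa [hinv a, hinv b] using this
  · change σ x (r.f x) = _
    by_cases h1 : r.f x = 0
    · rw [h1, h0]
    · simp [σ, (hr x h1).not_ge]
  · change σ x (q.f x) = _
    have h3 : q.f x ≠ 0 := fun h => h1 (by change σ x (q.f x) = _; rw [h, h0])
    by_cases h4 : η ≤ x.1
    · simp [σ, h4, h2, h3]
    · have := h x (by simpa [res_apply, not_le.1 h4] using h2)
      simpa [σ, h4, res_apply, not_le.1 h4] using this

instance (η : Ordinal.{0}) : Small.{0} {p : Lv0 // p.Sup η} :=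
  small_of_injective (f := fun p : {p : Lv0 // p.Sup η} =>
    {y : (Iio η × ℕ) × Iic η | p.1.f (y.1.1.1, y.1.2) = y.2.1}) fun p q h => by
    have key : ∀ p q : {p : Lv0 // p.Sup η}, {y : (Iio η × ℕ) × Iic η |
        p.1.f (y.1.1.1, y.1.2) = y.2.1} = {y : (Iio η × ℕ) × Iic η |
        q.1.f (y.1.1.1, y.1.2) = y.2.1} → ∀ x, p.1.f x ≠ 0 → q.1.f x = p.1.f x := by
      intro p q h x hx
      exact (Set.ext_iff.1 h ((⟨x.1, p.2 x hx⟩, x.2), ⟨p.1.f x,
        (p.1.bd x).trans (Order.add_one_le_iff.2 (p.2 x hx))⟩)).1 rfl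
    refine Subtype.ext (ext' fun x => ?_)
    by_cases h1 : p.1.f x = 0
    · by_contra h2
      exact h2 (key q p h.symm x fun h3 => h2 (h1.trans h3.symm))
    · exact (key p q h x h1).symm

theorem exists_sup (p : Lv0) : ∃ η, p.Sup η :=
  ⟨p.f.support.sup fun x => x.1 + 1, fun x hx => Order.add_one_le_iff.1
    (Finset.le_sup (f := fun x : Ordinal.{0} × ℕ => x.1 + 1) (Finsupp.mem_support_iff.2 hx))⟩

theorem closing (G : ℕ → Lv0 → Lv0) : ∃ η, ∀ p : Lv0, p.Sup η → ∀ n, (G n p).Sup η := by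
  choose b hb using exists_sup
  let F : Ordinal.{0} → Ordinal.{0} := fun η =>
    max η (⨆ x : ℕ × {p : Lv0 // p.Sup η}, b (G x.1 x.2.1))
  let s : ℕ → Ordinal.{0} := fun k => F^[k] 0
  have hs : ∀ k, s (k + 1) = F (s k) := fun k => Function.iterate_succ_apply' _ _ _
  have hm : Monotone s := monotone_nat_of_le_succ fun k => hs k ▸ le_max_left _ _
  refine ⟨⨆ k, s k, fun p hp n x hx => ?_⟩
  have h1 : ∀ y, ∃ k, p.f y ≠ 0 → y.1 < s k := fun y => by
    by_cases h : p.f y = 0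
    · exact ⟨0, fun h' => absurd h h'⟩
    · obtain ⟨k, hk⟩ := Ordinal.lt_iSup_iff.1 (hp y h)
      exact ⟨k, fun _ => hk⟩
  choose k hk using h1
  have h2 : p.Sup (s (p.f.support.sup k)) := fun y hy => (hk y hy).trans_le
    (hm (Finset.le_sup (Finsupp.mem_support_iff.2 hy)))
  refine (hb _ x hx).trans_le (le_trans ?_ (Ordinal.le_iSup s (p.f.support.sup k + 1)))
  rw [hs]
  exact le_max_of_le_right (Ordinal.le_iSup (fun x : ℕ × {q : Lv0 // q.Sup _} =>
    b (G x.1 x.2.1)) (n, ⟨p, h2⟩))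

/-- the canonical name below `η` -/
def nice (η : Ordinal.{0}) (Y : Om Lv0 → C) : RN Lv0 :=
  fun n => {q | q.Sup η ∧ Fc q fun ω => Y ω n = true}

theorem ev_nice {η : Ordinal.{0}} {Y : Om Lv0 → C} (hY : Measurable Y)
    (h : ∀ n p, ∃ r ≤ p, ∃ q : Lv0, q.Sup η ∧ r ≤ q ∧ ∃ b, Fc q fun ω => Y ω n = b) :
    ∀ᶠ ω : Om Lv0 in gen Lv0, ev (nice η Y) ω = Y ω := by
  filter_upwards [eventually_countable_forall.2 fun n => ev_dense (P := Lv0)
    (D := {r | ∃ q : Lv0, q.Sup η ∧ r ≤ q ∧ ∃ b, Fc q fun ω => Y ω n = b}) fun p =>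
      let ⟨r, h1, h2⟩ := h n p; ⟨r, h2, h1⟩, eventually_countable_forall.2 fun n =>
      eventually_countable_forall.2 fun b => ev_forced' _ (meas_bit hY n b)] with ω h1 h2
  funext n
  rw [Bool.eq_iff_iff]
  simp only [ev, decide_eq_true_eq]
  refine ⟨fun ⟨p, h3, h4⟩ => h2 n _ p h3 h4.2, fun h3 => ?_⟩
  obtain ⟨r, h4, ⟨q, h5, h6, b, h7⟩, -⟩ := h1 n
  have h8 := ω.up _ _ h4 h6
  exact ⟨q, h8, h5, h3.symm.trans (h2 n b q h8 h7) ▸ h7⟩

theorem dec_bit {P : Type*} [Preorder P] {Y : Om P → C} (hY : Measurable Y) (n : ℕ) (p : P) :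
    ∃ q ≤ p, ∃ b, Fc q fun ω => Y ω n = b := by
  obtain ⟨q, h1, h2 | h2⟩ := meas_dec (meas_bit hY n true) p
  exacts [⟨q, h1, true, h2⟩, ⟨q, h1, false, by simpa using h2⟩]

theorem real_sym (σ : RN Lv0) :
    ∃ η, ∀ π ∈ Fix η, ∀ᶠ ω : Om Lv0 in gen Lv0, ev σ (ω.aut π) = ev σ ω := by
  choose G h1 h2 using dec_bit (meas_ev σ)
  obtain ⟨η, hη⟩ := closing G
  have h3 := ev_nice (η := η) (meas_ev σ) fun n p => by
    obtain ⟨r, h3, h4⟩ := compat (q := G n (p.res η)) (p := p) fun x h3 h4 => by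
      have := h1 n (p.res η) x
      simp only [res_apply, hη _ (p.sup_res η) n x h3, if_true] at this
      exact this h4
    exact ⟨r, h4, _, hη _ (p.sup_res η) n, h3, h2 n _⟩
  refine ⟨η, fun π hπ => ?_⟩
  filter_upwards [h3, aut_ev π h3] with ω h4 h5
  rw [← h4, ← h5]
  funext n
  simp only [ev, decide_eq_decide]
  refine exists_congr fun p => and_congr_left fun hp => ?_
  change π p ∈ ω.g ↔ _
  rw [hπ p hp.1]

theorem inv_nice {η : Ordinal.{0}} {Y : Om Lv0 → C} (hY : Measurable Y)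
    (h : ∀ π ∈ Fix η, ∀ᶠ ω : Om Lv0 in gen Lv0, Y (ω.aut π) = Y ω) :
    ∀ᶠ ω : Om Lv0 in gen Lv0, ev (nice η Y) ω = Y ω := by
  refine ev_nice hY fun n p => ?_
  obtain ⟨r, h1, b, h2⟩ := dec_bit hY n p
  refine ⟨r, h1, r.res η, r.sup_res η, fun x hx => ?_, b, Fc.of_dense fun q hq => ?_⟩
  · rw [res_apply, if_pos (r.sup_res η x hx)]
  obtain ⟨q', h3, b', h4⟩ := dec_bit hY n q
  refine ⟨q', h3, ?_⟩
  obtain ⟨π, h5, s, h6, h7⟩ := homog η (h3.trans hq)
  obtain ⟨ω, -, h8, h9⟩ := ((((h4.aut π).imp ((h π h5).mono fun ω h h' =>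
    show Y ω n = b' from h ▸ h')).mono h6).and (h2.mono h7)).exists
  exact h9.symm.trans h8 ▸ h4

theorem collapse (η : Ordinal.{0}) : ∃ y : Om Lv0 → C, Measurable y ∧ ∀ σ : RN Lv0,
    (∀ n, ∀ q ∈ σ n, q.Sup η) → ∀ᶠ ω : Om Lv0 in gen Lv0, ∃ i, col i (y ω) = ev σ ω := by
  classical
  let T := Shrink.{0} (ℕ → Set {p : Lv0 // p.Sup η})
  let α := (Cardinal.mk T).ord
  let e0 : α.ToType ≃ T := Classical.choice (Cardinal.eq.1 (by simp [α]))
  let e : Ordinal.{0} → RN Lv0 := fun v n => {q | ∃ t : α.ToType, v = (t : Ordinal) + 1 ∧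
    ∃ h, ⟨q, h⟩ ∈ (equivShrink _).symm (e0 t) n}
  refine ⟨fun ω => mer fun i => ev (fun n => {r | r.f (α, i) ≠ 0 ∧
    ∃ q ∈ e (r.f (α, i)) n, r ≤ q}) ω, meas_mer fun i => meas_ev _, fun σ hσ => ?_⟩
  let t := e0.symm (equivShrink _ fun n => {p | p.1 ∈ σ n})
  have he : e ((t : Ordinal) + 1) = σ := by
    funext n
    ext q
    constructor
    · rintro ⟨t', h1, h2, h3⟩
      obtain rfl : t = t' := Ordinal.ToType.mk.symm.injective (Subtype.ext (by simpa using h1))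
      simpa [t] using h3
    · intro hq
      exact ⟨t, rfl, hσ n q hq, by simpa [t] using hq⟩
  filter_upwards [ev_dense (P := Lv0) (D := {r | ∃ i, r.f (α, i) = (t : Ordinal) + 1}) fun p => by
    obtain ⟨i, hi⟩ := Infinite.exists_notMem_finset (p.f.support.image Prod.snd)
    have h1 : p.f (α, i) = 0 := by
      by_contra h
      exact hi (Finset.mem_image.2 ⟨_, Finsupp.mem_support_iff.2 h, rfl⟩)
    refine ⟨⟨p.f.update (α, i) ((t : Ordinal) + 1), fun x => ?_⟩, ⟨i, by simp⟩, fun x hx => ?_⟩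
    · by_cases h : x = (α, i)
      · subst h
        simpa using t.toOrd.2.le
      · simpa [Finsupp.update_apply, h] using p.bd x
    · have : x ≠ (α, i) := fun h => hx (h ▸ h1)
      simp [Finsupp.update_apply, this]] with ω ⟨r, h1, ⟨i, h2⟩, _⟩
  refine ⟨i, ?_⟩
  rw [col_mer]
  funext n
  simp only [ev, decide_eq_decide]
  have h3 : r.f (α, i) ≠ 0 := by simp [h2]
  constructor
  · rintro ⟨s, h4, h5, q, h6, h7⟩
    obtain ⟨s', -, h8, h9⟩ := ω.dir r h1 s h4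
    rw [← h9 _ h5, h8 _ h3, h2, he] at h6
    exact ⟨q, ω.up _ _ h4 h7, h6⟩
  · rintro ⟨q, h4, h5⟩
    obtain ⟨s, h6, h7, h8⟩ := ω.dir r h1 q h4
    exact ⟨s, h6, by rwa [h7 _ h3], q, by rwa [h7 _ h3, h2, he], h8⟩

end Lv0

theorem part_d : ∃ M, IsZFC M ∧ Fails realCode (LR M) (ProjectiveIn realCode (LR M) 3) := by
  classical
  let φ : ℝ ≃ᵐ C := PolishSpace.measurableEquivNatBoolOfNotCountable not_countable
  have h1 : ∀ F : Name Lv0, ∀ᶠ ω : Om Lv0 in gen Lv0, SymN Lv0.Fix F → ∃ y ∈ RM ω, ∀ x ∈ RM ω,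
      ∀ β : Ordinal.{1}, In ω β → ZFSet.pair (realCode (φ.symm x)) (cv ω β) ∈ val ω F →
        (∀ x', ZFSet.pair (realCode (φ.symm x')) (cv ω β) ∈ val ω F → x' = x) →
        ∃ i, col i y = x := fun F => by
    by_cases hF : SymN Lv0.Fix F
    swap
    · exact Eventually.of_forall fun _ h => absurd h hF
    obtain ⟨η, hη⟩ := hF
    obtain ⟨y, hy, h2⟩ := Lv0.collapse η
    let Y : Ordinal.{1} → Om Lv0 → C := fun β ω n => decide (∃ x ∈ RM ω,
      ZFSet.pair (realCode (φ.symm x)) (cv ω β) ∈ val ω F ∧ x n = true)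
    have hY : ∀ β, Measurable (Y β) := fun β => measurable_pi_lambda _ fun n => meas_decide
      (meas_exists_RM fun A hA => (((named_code codeOK_real φ hA).pair (named_cv β)).meas_mem
        (Named.val F)).and (meas_bit hA n true))
    have h3 : ∀ β, ∀ᶠ ω : Om Lv0 in gen Lv0, ∃ i, col i (y ω) = Y β ω := fun β => by
      filter_upwards [h2 (Lv0.nice η (Y β)) fun n q hq => hq.1, Lv0.inv_nice (hY β) fun π hπ => by
        filter_upwards [hη π hπ, ev_RM_aut π] with ω h3 h4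
        simp only [Y, h3, h4]
        rfl] with ω h3 h4
      rwa [h4] at h3
    filter_upwards [ev_diag h3, ev_RM hy] with ω h4 h5 _
    refine ⟨_, h5, fun x hx β h6 h7 h8 => ?_⟩
    obtain ⟨i, hi⟩ := h4 β h6
    refine ⟨i, hi.trans (funext fun n => ?_)⟩
    rw [Bool.eq_iff_iff]
    simp only [Y, decide_eq_true_eq]
    exact ⟨fun ⟨x', _, h9, h10⟩ => h8 x' h9 ▸ h10, fun h => ⟨x, hx, h7, h⟩⟩
  have h2 := goodW_LR.fails_of_ctb (P := Lv0) codeOK_real realCode_inj φ fun a => by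
    filter_upwards [ev_diag h1, ev_sym Lv0.directed_Fix Lv0.real_sym, ev_ord (P := Lv0),
      goodW_LR.sub (P := Lv0)] with ω a1 a2 a3 a4 _ _ ⟨α, b1, b2, ⟨f, b3, b4, b5⟩, _⟩
    obtain ⟨F, b6, b7, rfl⟩ := a2 f b3
    obtain ⟨y, b8, b9⟩ := a1 F b6 b7
    obtain ⟨β, -, rfl⟩ := a3 α (a4 b1) b2
    refine ⟨y, b8, fun x hx => ?_⟩
    obtain ⟨w, b10, -⟩ := b4.2 _ hx.2
    obtain ⟨γ, -, b11, rfl⟩ := mem_cv.1 (ZFSet.pair_mem_prod.1 (b4.1 b10)).2
    exact b9 x hx.1 γ b11 b10 fun x' h => φ.symm.injective (realCode_inj (b5 _ _ _ h b10))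
  obtain ⟨ω, -, h3, h4, h5⟩ := exists_om (ev_zfc.and (h2.and (goodW_LR.borelIn codeOK_real
    realCode_inj φ (modeD.meas_Gr φ) (measurable_const (a := default))))) ⊤
  exact ⟨_, h3, h4 _ (.borel _ _ h5)⟩

end Pool.Agent.MP_e75763_lc

end MrgPart2

-- marker of a merged file
example : 731051 + 41563 = 731051 + 41563 := rfl
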