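import Mathlib.Data.Set.Finite.List
import Pool.Agent.MP_e75763_lc.FinC
import Mathlib.Topology.NoetherianSpace
import Mathlib.Topology.Sheaves.Presheaf
import Mathlib.Tactic.Monotonicity.Lemmas
import Mathlib.Combinatorics.Matroid.Basic
import Mathlib.LinearAlgebra.FreeModule.Basic
import Mathlib.LinearAlgebra.Countable
import Mathlib.Topology.Baire.LocallyCompactRegular
import Mathlib.Topology.UniformSpace.Uniformizable

-- ======== part 0: formerly Pool.Agent.MP_e75763_lc.Clo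
section MrgPart0

/-! Closure under countable-valued operations, and the countable chain condition. -/

namespace Pool.Agent.MP_e75763_lc

open Set Cardinal Filter

universe u

variable {Λ Λ' : Type}

inductive Clo (F : List Λ → Set Λ) (S : Set Λ) : Λ → Prop
  | base {x : Λ} : x ∈ S → Clo F S x
  | step {x : Λ} (l : List Λ) : (∀ y ∈ l, Clo F S y) → x ∈ F l → Clo F S x

def clo (F : List Λ → Set Λ) (S : Set Λ) : Set Λ := {x | Clo F S x}

variable {F : List Λ → Set Λ}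

theorem subset_clo (S : Set Λ) : S ⊆ clo F S := fun _ => Clo.base

theorem clo_step {S : Set Λ} {l : List Λ} (h : ∀ y ∈ l, y ∈ clo F S) : F l ⊆ clo F S :=
  fun _ => Clo.step l h

theorem clo_min {S A : Set Λ} (h1 : S ⊆ A) (h2 : ∀ l, (∀ y ∈ l, y ∈ A) → F l ⊆ A) :
    clo F S ⊆ A := fun x hx => by
  induction hx with
  | base h => exact h1 h
  | step l _ h ih => exact h2 l ih h

theorem clo_mono {S S' : Set Λ} (h : S ⊆ S') : clo F S ⊆ clo F S' :=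
  clo_min (h.trans (subset_clo _)) fun _ => clo_step

theorem clo_fin {S : Set Λ} {x : Λ} (hx : x ∈ clo F S) : ∃ S' ⊆ S, S'.Finite ∧ x ∈ clo F S' := by
  induction hx with
  | base h => exact ⟨{_}, singleton_subset_iff.2 h, finite_singleton _, subset_clo _ rfl⟩
  | step l _ h ih =>
    choose! S' h1 h2 h3 using ih
    exact ⟨⋃ y ∈ {y | y ∈ l}, S' y, iUnion₂_subset h1, l.finite_toSet.biUnion h2,
      clo_step (fun y hy => clo_mono (subset_biUnion_of_mem (u := S') hy) (h3 y hy)) h⟩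

theorem mk_iUnion_le' {ι α : Type} {κ : Cardinal.{0}} (hκ : ℵ₀ ≤ κ) (hι : #ι ≤ κ) {f : ι → Set α}
    (h : ∀ i, #(f i) ≤ κ) : #(⋃ i, f i) ≤ κ :=
  mk_iUnion_le_sum_mk.trans ((sum_le_sum _ _ h).trans (by
    rw [sum_const']
    exact (mul_le_mul' hι le_rfl).trans (mul_eq_self hκ).le))

theorem mk_union_le' {α : Type} {κ : Cardinal.{0}} (hκ : ℵ₀ ≤ κ) {s t : Set α} (hs : #s ≤ κ)
    (ht : #t ≤ κ) : #(s ∪ t : Set α) ≤ κ := (mk_union_le _ _).trans (add_le_of_le hκ hs ht)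

theorem mk_clo_le (hF : ∀ l, (F l).Countable) {κ : Cardinal.{0}} (hκ : ℵ₀ ≤ κ) {S : Set Λ}
    (hS : #S ≤ κ) : #(clo F S) ≤ κ := by
  let s : ℕ → Set Λ := fun k => Nat.rec S (fun _ A => A ∪ ⋃ l : List A, F (l.map Subtype.val)) k
  have h1 : ∀ k, #↥(s k) ≤ κ := fun k => by
    induction k with
    | zero => exact hS
    | succ k ih =>
      exact mk_union_le' hκ ih (mk_iUnion_le' hκ ((mk_list_le_max _).trans (max_le hκ ih))
        fun l => (le_aleph0_iff_set_countable.2 (hF _)).trans hκ)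
  have hm : Monotone s := monotone_nat_of_le_succ fun k => subset_union_left
  refine (mk_le_mk_of_subset (clo_min (subset_iUnion s 0) fun l hl => ?_)).trans
    (mk_iUnion_le' hκ (mk_nat.trans_le hκ) h1)
  obtain ⟨k, hk⟩ : ∃ k, ∀ y ∈ l, y ∈ s k := by
    induction l with
    | nil => exact ⟨0, by simp⟩
    | cons x l ih =>
      obtain ⟨k, hk⟩ := ih fun y hy => hl y (List.mem_cons_of_mem _ hy)
      obtain ⟨k', hk'⟩ := mem_iUnion.1 (hl x List.mem_cons_self)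
      exact ⟨max k k', List.forall_mem_cons.2 ⟨hm (le_max_right _ _) hk',
        fun y hy => hm (le_max_left _ _) (hk y hy)⟩⟩
  refine subset_iUnion_of_subset (k + 1) (subset_union_of_subset_right
    (subset_iUnion_of_subset (l.pmap Subtype.mk hk) ?_) _)
  rw [List.map_pmap]
  simp

theorem countable_clo (hF : ∀ l, (F l).Countable) {S : Set Λ} (hS : S.Countable) :
    (clo F S).Countable :=
  le_aleph0_iff_set_countable.1 (mk_clo_le hF le_rfl (le_aleph0_iff_set_countable.2 hS))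

theorem exists_list_eq {S : Set Λ} (h : S.Finite) : ∃ l : List Λ, ∀ x, x ∈ l ↔ x ∈ S :=
  ⟨h.toFinset.toList, by simp⟩

namespace FinC

theorem T_finite (f : FinC Λ) : f.T.Finite :=
  ((finite_lt_nat f.l).prod ((List.finite_length_eq Bool f.l).prod
    (List.finite_length_eq Bool f.l))).subset fun _ h => f.sh _ _ _ h

theorem data_inj : Function.Injective fun f : FinC Λ => (f.l, f.s, f.T) := by
  rintro ⟨⟩ ⟨⟩ h
  simp only [Prod.mk.injEq] at h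
  obtain ⟨rfl, rfl, rfl⟩ := h
  rfl

theorem countable_dom {B : Set Λ} (hB : B.Countable) : {f : FinC Λ | f.dom ⊆ B}.Countable :=
  (((countable_univ (α := ℕ)).prod ((countable_ofPred_finite_subset
    (hB.prod (countable_univ (α := LB)))).prod (countable_ofPred_finite_subset
      (countable_univ (α := ℕ × LB × LB))))).preimage data_inj).mono fun f hf =>
    show _ ∧ _ from ⟨trivial, ⟨f.fin, fun x hx => ⟨hf ⟨x.2, hx⟩, trivial⟩⟩, f.T_finite, subset_univ _⟩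

theorem mk_dom_le {B : Set Λ} {κ : Cardinal.{0}} (hκ : ℵ₀ ≤ κ) (hB : #B ≤ κ) :
    #{f : FinC Λ | f.dom ⊆ B} ≤ κ := by
  refine (mk_le_mk_of_subset (t := ⋃ l : List B, {f : FinC Λ | f.dom ⊆ {x | x ∈ l.map Subtype.val}})
    fun f hf => ?_).trans (mk_iUnion_le' hκ ((mk_list_le_max _).trans (max_le hκ hB)) fun l =>
      (le_aleph0_iff_set_countable.2 (countable_dom (List.finite_toSet _).countable)).trans hκ)
  obtain ⟨l, hl⟩ := exists_list_eq f.dom_finite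
  exact mem_iUnion.2 ⟨l.pmap Subtype.mk fun x hx => hf ((hl x).1 hx), fun x hx => by
    simpa [hf hx] using (hl x).2 hx⟩

theorem exists_lt {d : Set Λ} {M : Set (Λ × Λ)} {f : FinC Λ} (hf : Valid d M f) (n : ℕ) :
    ∃ h, Valid d M h ∧ h ≤ f ∧ n ≤ h.l := by
  induction n with
  | zero => exact ⟨f, hf, le_rfl, Nat.zero_le _⟩
  | succ n ih =>
    obtain ⟨h, h1, h2, h3⟩ := ih
    obtain ⟨h', h4, h5, -, h6, -⟩ := amalg (A := univ) h1 h1 (subset_univ _) (h.le_res _)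
      fun v _ hv => absurd trivial hv
    exact ⟨h', h4, h5.trans h2, by omega⟩

theorem exists_mem {d : Set Λ} {M : Set (Λ × Λ)} {f : FinC Λ} (hf : Valid d M f) {v : Λ}
    (hv : v ∈ d) (hi : (v, v) ∉ M) : ∃ h, Valid d M h ∧ h ≤ f ∧ v ∈ h.dom := by
  by_cases h0 : v ∈ f.dom
  · exact ⟨f, hf, le_rfl, h0⟩
  let g : FinC Λ := ⟨0, {(v, [])}, ∅, finite_singleton _, by simp, by simp +contextual,
    by simp +contextual, by simp, by simp⟩
  have hg : g.dom = {v} := by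
    ext a
    simp [dom, g]
  obtain ⟨h, h1, h2, h3, -⟩ := amalg (f := g) (A := f.dom) ⟨by simpa [hg],
    by simp +contextual [g, hi], by simp [g]⟩ hf Subset.rfl (le_of_s id (le_top (a := f)) rfl rfl rfl rfl
      (fun a u h => h0 (by
        obtain ⟨h1, h2⟩ := h
        obtain rfl : a = v := congrArg Prod.fst h2
        exact h1)) fun _ _ _ h => h) (by
      rw [hg]
      rintro _ - - _ ⟨-, rfl⟩ _ ⟨-, rfl⟩ - -
      rfl)
  exact ⟨h, h1, h3, dom_mono h2 (hg ▸ rfl)⟩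

theorem Valid.res' {d A : Set Λ} {M : Set (Λ × Λ)} {f : FinC Λ} (h : Valid d M f) (hg : Good M A) :
    Valid d M (f.res A) :=
  (h.res hg).congr (by rw [dom_res]; exact inter_subset_right.trans h.dom) fun _ _ _ _ => Iff.rfl

theorem amalg' {d A : Set Λ} {M : Set (Λ × Λ)} {f r : FinC Λ} (hf : Valid d M f)
    (hr : Valid d M r) (hA : r.dom ⊆ A) (hle : r ≤ f.res A) (hg : Good M A) :
    ∃ h, Valid d M h ∧ h ≤ f ∧ h ≤ r ∧ h.dom ⊆ r.dom ∪ f.dom :=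
  let ⟨h, h1, h2, h3, _, h4⟩ := amalg hf hr hA hle fun v _ hv a ha a' ha' => hg v hv a ha.1 a' ha'.1
  ⟨h, h1, h2, h3, h4⟩

end FinC

open FinC

abbrev PP (d : Set Λ) (M : Set (Λ × Λ)) : Type := {f : FinC Λ // Valid d M f}

instance (d : Set Λ) (M : Set (Λ × Λ)) : OrderTop (PP d M) := Subtype.orderTop (valid_top d M)

def CCC (P : Type u) [Preorder P] : Prop :=
  ∀ D : Set P, ∃ D' ⊆ D, D'.Countable ∧ ∀ p ∈ D, ∃ e ∈ D', ∃ r, r ≤ p ∧ r ≤ e

/-- countable co-degree -/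
def Cod (M : Set (Λ × Λ)) : Prop := ∀ a a', a ≠ a' → {v | (a, v) ∈ M ∧ (a', v) ∈ M}.Countable

def codF (M : Set (Λ × Λ)) (l : List Λ) : Set Λ :=
  {v | ∃ a ∈ l, ∃ a' ∈ l, a ≠ a' ∧ (a, v) ∈ M ∧ (a', v) ∈ M}

theorem Cod.countable {M : Set (Λ × Λ)} (h : Cod M) (l : List Λ) : (codF M l).Countable := by
  simp only [codF, ofPred_exists, ← exists_prop]
  exact l.finite_toSet.countable.biUnion fun a _ => l.finite_toSet.countable.biUnion fun a' _ =>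
    countable_iUnion fun h' => by simpa using h a a' h'

theorem good_of {M : Set (Λ × Λ)} {A : Set Λ} (h : ∀ l, (∀ y ∈ l, y ∈ A) → codF M l ⊆ A) :
    Good M A := fun v hv a ha a' ha' h1 h2 => by
  by_contra h3
  exact hv (h [a, a'] (by simp [ha, ha']) ⟨a, by simp, a', by simp, h3, h1, h2⟩)

theorem ccc_PP {d : Set Λ} {M : Set (Λ × Λ)} (hM : Cod M) : CCC (PP d M) := by
  intro D
  have : ∀ f : PP d M, ∃ e h : PP d M, (∃ e ∈ D, ∃ r, r ≤ f ∧ r ≤ e) → e ∈ D ∧ h ≤ f ∧ h ≤ e := by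
    intro f
    by_cases h : ∃ e ∈ D, ∃ r, r ≤ f ∧ r ≤ e
    · obtain ⟨e, h1, r, h2⟩ := h
      exact ⟨e, r, fun _ => ⟨h1, h2⟩⟩
    · exact ⟨f, f, fun h' => absurd h' h⟩
  choose e h he using this
  have hc : ∀ B : Set Λ, B.Countable → {f : PP d M | f.1.dom ⊆ B}.Countable := fun B hB =>
    (countable_dom hB).preimage Subtype.val_injective
  let F : List Λ → Set Λ := fun l =>
    codF M l ∪ ⋃ f ∈ {f : PP d M | f.1.dom ⊆ {x | x ∈ l}}, (h f).1.dom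
  have hA := countable_clo (F := F) (fun l => (hM.countable l).union
    ((hc _ l.finite_toSet.countable).biUnion fun f _ => (h f).1.dom_finite.countable))
    countable_empty
  have hg : Good M (clo F ∅) := good_of fun l hl => subset_union_left.trans (clo_step hl)
  refine ⟨D ∩ e '' {f | f.1.dom ⊆ clo F ∅}, inter_subset_left,
    ((hc _ hA).image _).mono inter_subset_right, fun p hp => ?_⟩
  let f : PP d M := ⟨_, p.2.res' hg⟩
  have h1 : f.1.dom ⊆ clo F ∅ := by rw [dom_res]; exact inter_subset_left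
  obtain ⟨h2, h3, h4⟩ := he f ⟨p, hp, p, p.1.le_res _, le_rfl⟩
  obtain ⟨l, hl⟩ := exists_list_eq f.1.dom_finite
  obtain ⟨r, h5, h6, h7, -⟩ := amalg' p.2 (h f).2 (((subset_biUnion_of_mem (u := fun f => (h f).1.dom)
    (show f ∈ {f : PP d M | f.1.dom ⊆ {x | x ∈ l}} from fun x hx => (hl x).2 hx)).trans
      subset_union_right).trans (clo_step (F := F) fun y hy => h1 ((hl y).1 hy))) h3 hg
  exact ⟨e f, ⟨h2, f, h1, rfl⟩, ⟨r, h5⟩, h6, le_trans (show (⟨r, h5⟩ : PP d M) ≤ h f from h7) h4⟩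

variable {P : Type u} [Preorder P]

theorem CCC.nice (hP : CCC P) {Y : Om P → C} (hY : Measurable Y) :
    ∃ σ : RN P, (∀ n, (σ n).Countable) ∧ ∀ᶠ ω : Om P in gen P, ev σ ω = Y ω := by
  choose σ h1 h2 h3 using fun n => hP {p | Fc p fun ω => Y ω n = true}
  refine ⟨σ, h2, ?_⟩
  have h4 : ∀ n, ∀ᶠ ω : Om P in gen P, Y ω n = true → ∃ p ∈ ω.g, p ∈ σ n := fun n =>
    ev_of_dense fun q => by
      obtain ⟨r, h4, h5 | h5⟩ := meas_dec (meas_bit hY n true) q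
      · obtain ⟨e, h6, s, h7, h8⟩ := h3 n r h5
        exact ⟨s, h7.trans h4, Eventually.of_forall fun ω h _ => ⟨e, ω.up _ _ h h8, h6⟩⟩
      · exact ⟨r, h4, h5.imp (Eventually.of_forall fun ω h h' => absurd h' h)⟩
  filter_upwards [eventually_countable_forall.2 h4,
    eventually_countable_forall.2 fun n => ev_forced' _ (meas_bit hY n true)] with ω h5 h6
  funext n
  rw [Bool.eq_iff_iff]
  simp only [ev, decide_eq_true_eq]
  exact ⟨fun ⟨p, h7, h8⟩ => h6 n p h7 (h1 n h8), h5 n⟩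

theorem CCC.cover (hP : CCC P) {ι : Type*} (I : Set ι) (w : Om P → C) (z : ι → Om P → C) :
    ∃ I' ⊆ I, I'.Countable ∧ ∀ i ∈ I, ∀ p, Fc p (fun ω => w ω = z i ω) →
      ∃ i' ∈ I', ∃ r ≤ p, Fc r fun ω => z i ω = z i' ω := by
  obtain ⟨D, h1, h2, h3⟩ := hP {p | ∃ i ∈ I, Fc p fun ω => w ω = z i ω}
  choose t h4 h5 using fun p : D => h1 p.2
  have := h2.to_subtype
  refine ⟨range t, range_subset_iff.2 h4, countable_range _, fun i hi p hp => ?_⟩
  obtain ⟨e, h6, r, h7, h8⟩ := h3 p ⟨i, hi, hp⟩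
  exact ⟨_, ⟨⟨e, h6⟩, rfl⟩, r, h7, ((hp.mono h7).and ((h5 ⟨e, h6⟩).mono h8)).imp
    (Eventually.of_forall fun ω h => h.1.symm.trans h.2)⟩

end Pool.Agent.MP_e75763_lc

end MrgPart0

-- ======== part 1: formerly Pool.Agent.MP_e75763_lc.Dbl
section MrgPart1

-- ======== part 0: formerly Pool.Agent.MP_e75763_lc.Prj
section MrgPart0

/-! Projections onto the posets of finite conditions; the generic graph and reals. -/

namespace Pool.Agent.MP_e75763_lc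

open Set Filter FinC

variable {Λ : Type} {P : Type} [Preorder P]

def GF (fp : P → FinC Λ) (ω : Om P) : Set (FinC Λ) := {f | ∃ r ∈ ω.g, fp r ≤ f}

abbrev NM (Λ : Type) : Type := ℕ → Set (FinC Λ)

open Classical in
noncomputable def xs (fp : P → FinC Λ) (σ : NM Λ) (ω : Om P) : C :=
  fun n => decide (∃ f ∈ σ n, f ∈ GF fp ω)

theorem xs_true {fp : P → FinC Λ} {σ : NM Λ} {ω : Om P} {n : ℕ} :
    xs fp σ ω n = true ↔ ∃ f ∈ σ n, ∃ r ∈ ω.g, fp r ≤ f := by simp [xs, GF]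

theorem meas_xs (fp : P → FinC Λ) (σ : NM Λ) : Measurable (xs fp σ) := by
  convert meas_ev (P := P) fun n => {r | ∃ f ∈ σ n, fp r ≤ f} using 1
  funext ω n
  rw [Bool.eq_iff_iff, xs_true]
  simp only [ev, decide_eq_true_eq, mem_ofPred_eq]
  tauto

def II (A : Set Λ) : Set (NM Λ) := {σ | ∀ n, (σ n).Countable ∧ ∀ f ∈ σ n, f.dom ⊆ A}

theorem II_mono {A B : Set Λ} (h : A ⊆ B) : II A ⊆ II B :=
  fun _ hσ n => ⟨(hσ n).1, fun f hf => ((hσ n).2 f hf).trans h⟩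

def XA (fp : P → FinC Λ) (A : Set Λ) (ω : Om P) : Set C :=
  {x | ∃ σ : NM Λ, In ω σ ∧ σ ∈ II A ∧ xs fp σ ω = x}

theorem XA_mono (fp : P → FinC Λ) {A B : Set Λ} (h : A ⊆ B) (ω : Om P) : XA fp A ω ⊆ XA fp B ω :=
  fun _ ⟨σ, h1, h2, h3⟩ => ⟨σ, h1, II_mono h h2, h3⟩

theorem meas_XA (fp : P → FinC Λ) (A : Set Λ) (Y : Om P → C) (hY : Measurable Y) :
    Measurable fun ω => Y ω ∈ XA fp A ω :=
  meas_exists fun σ => measurable_const.and (meas_eqC (meas_xs fp σ) hY)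

theorem ev_XA (fp : P → FinC Λ) : ∀ᶠ ω : Om P in gen P, ∀ A, XA fp A ω ⊆ RM ω := by
  filter_upwards [ev_diag fun σ : NM Λ => ev_RM (meas_xs fp σ)] with ω h A
  rintro _ ⟨σ, h1, -, rfl⟩
  exact h σ h1

theorem ev_mem_XA (fp : P → FinC Λ) {A : Set Λ} {σ : NM Λ} (h : σ ∈ II A) :
    ∀ᶠ ω : Om P in gen P, xs fp σ ω ∈ XA fp A ω :=
  (ev_in σ).mono fun _ h' => ⟨σ, h', h, rfl⟩

theorem Fc.diag {T : Type*} {p : P} {Φ : T → Om P → Prop} (h : ∀ x, Fc p (Φ x)) [Cd P T] :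
    Fc p fun ω => ∀ x, In ω x → Φ x ω := by
  filter_upwards [ev_diag h] with ω h1 hp x hx using h1 x hx hp

theorem Fc.all {T : Type} [Countable T] {p : P} {Φ : T → Om P → Prop} (h : ∀ x, Fc p (Φ x)) :
    Fc p fun ω => ∀ x, Φ x ω := by
  filter_upwards [eventually_countable_forall.2 h] with ω h1 hp x using h1 x hp

theorem Fc.hyp {p : P} {a : Prop} {Φ : Om P → Prop} (h : a → Fc p Φ) : Fc p fun ω => a → Φ ω := by
  by_cases ha : a
  · exact (h ha).imp (Eventually.of_forall fun _ h _ => h)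
  · exact Eventually.of_forall fun _ _ h => absurd h ha

structure Prj (fp : P → FinC Λ) (p : P) (A : Set Λ) (M : Set (Λ × Λ)) : Prop where
  mono : Monotone fp
  valid : ∀ r ≤ p, Valid A M ((fp r).res A)
  lift : ∀ r ≤ p, ∀ v, Valid A M v → v ≤ (fp r).res A → ∃ r' ≤ r, fp r' ≤ v

variable {fp : P → FinC Λ} {p : P} {A d : Set Λ} {M : Set (Λ × Λ)}

theorem FinC.Valid.res_self {f : FinC Λ} (h : Valid A M f) (hd : f.dom ⊆ d) :
    Valid d M (f.res d) :=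
  ⟨fun _ ⟨_, h⟩ => h.1, fun _ _ _ _ h1 h2 => h.rel _ _ _ _ h1.2 h2.2,
    fun _ _ _ _ _ _ _ h1 h2 h3 h4 h5 =>
      let ⟨b, hb⟩ := h.occ _ _ _ _ _ _ _ h1.2 h2.2 h3 h4 h5; ⟨b, hd ⟨_, hb⟩, hb⟩⟩

theorem prj_self : Prj (Subtype.val : PP d M → FinC Λ) ⊤ d M :=
  ⟨fun _ _ h => h, fun r _ => r.2.res_self r.2.dom, fun r _ v hv h =>
    ⟨⟨v, hv⟩, h.trans (res_le le_rfl r.2.dom), le_rfl⟩⟩

theorem Prj.sub (h : Prj fp p d M) (hA : A ⊆ d) (hg : Good M A) : Prj fp p A M := by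
  have e : ∀ f : FinC Λ, (f.res d).res A = f.res A := fun f => data_inj (by
    simp only [res, pull, Prod.mk.injEq, and_true, true_and]
    ext x
    exact ⟨fun h => ⟨h.1, h.2.2⟩, fun h => ⟨h.1, hA h.1, h.2⟩⟩)
  refine ⟨h.mono, fun r hr => e (fp r) ▸ (h.valid r hr).res hg, fun r hr v hv hle => ?_⟩
  obtain ⟨w, h1, h2, h3, -⟩ := amalg' (h.valid r hr)
    (hv.congr (hv.dom.trans hA) fun _ _ _ _ => Iff.rfl) hv.dom ((e _).symm ▸ hle) hg
  obtain ⟨r', h4, h5⟩ := h.lift r hr w h1 h2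
  exact ⟨r', h4, h5.trans h3⟩

namespace Prj

open Classical in
noncomputable def pi (_ : Prj fp p A M) (r : P) : PP A M :=
  if h : Valid A M ((fp r).res A) then ⟨_, h⟩ else ⊤

theorem pi_val (h : Prj fp p A M) {r : P} (hr : r ≤ p) : (h.pi r).1 = (fp r).res A := by
  rw [pi, dif_pos (h.valid r hr)]

theorem pi_mono (h : Prj fp p A M) (q r : P) (hq : q ≤ p) (hr : r ≤ q) : h.pi r ≤ h.pi q := by
  change (h.pi r).1 ≤ (h.pi q).1
  rw [h.pi_val hq, h.pi_val (hr.trans hq)]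
  exact res_mono _ (h.mono hr)

noncomputable def pr (h : Prj fp p A M) (ω : Om P) : Om (PP A M) := ω.proj p h.pi h.pi_mono

theorem ev (h : Prj fp p A M) {Φ : Om (PP A M) → Prop}
    (hΦ : ∀ᶠ ω : Om (PP A M) in gen _, Φ ω) : Fc p fun ω => Φ (h.pr ω) := by
  refine proj_ev h.pi_mono (fun q hq v hv => ?_) hΦ
  obtain ⟨r, h1, h2⟩ := h.lift q hq v.1 v.2 (h.pi_val hq ▸ hv)
  refine ⟨r, h1, ?_⟩
  change (h.pi r).1 ≤ v.1
  rw [h.pi_val (h1.trans hq)]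
  exact res_le h2 v.2.dom

theorem GF_pr (h : Prj fp p A M) {ω : Om P} (hp : p ∈ ω.g) {f : FinC Λ} (hf : f.dom ⊆ A) :
    f ∈ GF Subtype.val (h.pr ω) ↔ f ∈ GF fp ω := by
  constructor
  · rintro ⟨v, ⟨r, h1, h2, h3⟩, h4⟩
    exact ⟨r, h1, (le_res A _).trans (h.pi_val h2 ▸ le_trans (show (h.pi r).1 ≤ v.1 from h3) h4)⟩
  · rintro ⟨r, h1, h2⟩
    obtain ⟨s, h3, h4, h5⟩ := ω.dir r h1 p hp
    exact ⟨h.pi s, ⟨s, h3, h5, le_rfl⟩, h.pi_val h5 ▸ res_le ((h.mono h4).trans h2) hf⟩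

theorem xs_pr (h : Prj fp p A M) {ω : Om P} (hp : p ∈ ω.g) {σ : NM Λ} (hσ : σ ∈ II A) :
    xs Subtype.val σ (h.pr ω) = xs fp σ ω := by
  funext n
  simp only [xs, decide_eq_decide]
  exact exists_congr fun f => and_congr_right fun hf => h.GF_pr hp ((hσ n).2 f hf)

theorem XA_pr (h : Prj fp p A M) {ω : Om P} (hp : p ∈ ω.g) {B : Set Λ} (hB : B ⊆ A) :
    XA Subtype.val B (h.pr ω) = XA fp B ω := by
  ext x
  exact exists_congr fun σ => and_congr_right fun _ => and_congr_right fun hσ => by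
    rw [h.xs_pr hp (II_mono hB hσ)]

theorem fc (h : Prj fp p A M) {Φ : Om (PP A M) → Prop} {v : PP A M} (hΦ : Fc v Φ) {r : P}
    (hr : r ≤ p) (hv : fp r ≤ v.1) : Fc r fun ω => Φ (h.pr ω) := by
  filter_upwards [h.ev hΦ] with ω h1 h2
  exact h1 (ω.up _ _ h2 hr) ⟨r, h2, hr, show (h.pi r).1 ≤ v.1 from
    h.pi_val hr ▸ res_le hv v.2.dom⟩

theorem reflect (h : Prj fp p A M) {Φ : Om (PP A M) → Prop} (hΦ : Measurable Φ) {r : P}
    (hr : r ≤ p) (h1 : Fc r fun ω => Φ (h.pr ω)) : Fc (h.pi r) Φ := by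
  refine Fc.of_dense fun q hq => ?_
  obtain ⟨v, h2, h3 | h3⟩ := meas_dec hΦ q
  · exact ⟨v, h2, h3⟩
  obtain ⟨s, h4, h5⟩ := h.lift r hr v.1 v.2 (h.pi_val hr ▸ h2.trans hq)
  exact ((h1.mono h4).not_both (h.fc h3 (h4.trans hr) h5)).elim

theorem ev_level (h : Prj fp p A M) : Fc p fun ω => ∀ m, ∃ r ∈ ω.g, m ≤ (fp r).l :=
  Fc.all fun m => (ev_dense_below (D := {r | m ≤ (fp r).l}) fun q hq => by
    obtain ⟨v, h1, h2, h3⟩ := exists_lt (h.valid q hq) m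
    obtain ⟨r, h4, h5⟩ := h.lift q hq v h1 h2
    exact ⟨r, h3.trans (l_mono h5), h4⟩).imp
    (Eventually.of_forall fun _ ⟨r, h1, h2, _⟩ => ⟨r, h1, h2⟩)

theorem exists_dom (h : Prj fp p A M) {a : Λ} (ha : a ∈ A) (hi : (a, a) ∉ M) {q : P} (hq : q ≤ p) :
    ∃ r ≤ q, a ∈ (fp r).dom := by
  obtain ⟨v, h1, h2, h3⟩ := exists_mem (h.valid q hq) ha hi
  obtain ⟨r, h4, h5⟩ := h.lift q hq v h1 h2
  exact ⟨r, h4, dom_mono h5 h3⟩

theorem xs_image (σ : RN (PP A M)) (ω : Om (PP A M)) :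
    xs Subtype.val (fun n => Subtype.val '' σ n) ω = Pool.Agent.MP_e75763_lc.ev σ ω := by
  funext n
  rw [Bool.eq_iff_iff, xs_true]
  simp only [Pool.Agent.MP_e75763_lc.ev, decide_eq_true_eq, exists_mem_image]
  exact ⟨fun ⟨f, h1, r, h2, h3⟩ => ⟨f, ω.up _ _ h2 h3, h1⟩, fun ⟨f, h1, h2⟩ => ⟨f, h2, f, h1, le_rfl⟩⟩

theorem nice (hM : Cod M) {Y : Om (PP A M) → C} (hY : Measurable Y) :
    ∃ σ ∈ II A, ∀ᶠ ω : Om (PP A M) in gen _, xs Subtype.val σ ω = Y ω := by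
  obtain ⟨σ, h1, h2⟩ := (ccc_PP hM).nice hY
  refine ⟨fun n => Subtype.val '' σ n, fun n => ⟨(h1 n).image _, ?_⟩, by simpa only [xs_image]⟩
  rintro _ ⟨f, -, rfl⟩
  exact f.2.dom

theorem closed (h : Prj fp p A M) (hM : Cod M) {φ : C × C × C → C} (hφ : Measurable φ) :
    Fc p fun ω => ∀ x ∈ XA fp A ω, ∀ y ∈ XA fp A ω, ∀ z ∈ XA fp A ω, φ (x, y, z) ∈ XA fp A ω := by
  have : ∀ a b c : NM Λ, Fc p fun ω => a ∈ II A → b ∈ II A → c ∈ II A →
      φ (xs fp a ω, xs fp b ω, xs fp c ω) ∈ XA fp A ω := fun a b c =>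
    Fc.hyp fun ha => Fc.hyp fun hb => Fc.hyp fun hc => by
      obtain ⟨σ, h1, h2⟩ := nice (A := A) hM (hφ.fun_comp ((meas_xs Subtype.val a).prodMk
        ((meas_xs Subtype.val b).prodMk (meas_xs Subtype.val c))))
      filter_upwards [h.ev h2, ev_mem_XA fp h1] with ω h3 h4 hp
      have := h3 hp
      rw [h.xs_pr hp h1, h.xs_pr hp ha, h.xs_pr hp hb, h.xs_pr hp hc] at this
      exact this ▸ h4
  refine (Fc.diag fun a => Fc.diag fun b => Fc.diag fun c => this a b c).imp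
    (Eventually.of_forall fun ω h => ?_)
  rintro _ ⟨a, h1, h2, rfl⟩ _ ⟨b, h3, h4, rfl⟩ _ ⟨c, h5, h6, rfl⟩
  exact h a h1 b h3 c h5 h2 h4 h6

end Prj

def ini (n : ℕ) (x : C) : LB := (List.range n).map x

@[simp] theorem length_ini (n : ℕ) (x : C) : (ini n x).length = n := by simp [ini]

theorem take_ini {n m : ℕ} (h : n ≤ m) (x : C) : (ini m x).take n = ini n x := by
  simp [ini, ← List.map_take, List.take_range, h]

theorem ini_eq_iff {n : ℕ} {x y : C} : ini n x = ini n y ↔ ∀ i < n, x i = y i := by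
  simp [ini]

theorem cont_ini (n : ℕ) : @Continuous _ _ _ ⊥ (ini n) := by
  let : TopologicalSpace LB := ⊥
  have : DiscreteTopology LB := ⟨rfl⟩
  have : Continuous fun (x : C) (i : Fin n) => x i := by fun_prop
  convert (continuous_of_discreteTopology (f := fun v : Fin n → Bool => List.ofFn v)).comp this
  funext x
  apply List.ext_getElem <;> simp [ini]

/-- the name of the complement of the tree -/
def tn (Λ : Type) : NM Λ := fun n => {f | f.dom ⊆ ∅ ∧ ∃ c u w, Encodable.encode (c, u, w) = n ∧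
  u.length = f.l ∧ (c, u, w) ∉ f.T}

theorem tn_mem (A : Set Λ) : tn Λ ∈ II A := fun _ =>
  ⟨(countable_dom countable_empty).mono fun _ h => h.1, fun _ h => h.1.trans (empty_subset _)⟩

def Adj (t : C) (c : ℕ) (x y : C) : Prop :=
  ∀ n, c < n → t (Encodable.encode (c, ini n x, ini n y)) = false

theorem closed_Adj {Y : Type} [TopologicalSpace Y] {t x y : Y → C} (ht : Continuous t)
    (hx : Continuous x) (hy : Continuous y) (c : ℕ) : IsClosed {a | Adj (t a) c (x a) (y a)} := by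
  let : TopologicalSpace LB := ⊥
  have : DiscreteTopology LB := ⟨rfl⟩
  simp only [Adj, ofPred_forall]
  refine isClosed_iInter fun n => isClosed_iInter fun _ => isClosed_eq ?_ continuous_const
  have h1 : Continuous fun p : C × ℕ => p.1 p.2 :=
    continuous_prod_of_discrete_right.2 fun n => continuous_apply n
  exact h1.comp (ht.prodMk ((continuous_of_discreteTopology
    (f := fun p : LB × LB => Encodable.encode (c, p.1, p.2))).comp
      (((cont_ini n).comp hx).prodMk ((cont_ini n).comp hy))))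

theorem meas_Adj {α : Type*} [MeasurableSpace α] {t x y : α → C} (ht : Measurable t)
    (hx : Measurable x) (hy : Measurable y) (c : ℕ) :
    Measurable fun a => Adj (t a) c (x a) (y a) :=
  meas_memS (ht.prodMk (hx.prodMk hy)) (closed_Adj (t := fun p : C × C × C => p.1)
    (x := fun p => p.2.1) (y := fun p => p.2.2) (by fun_prop) (by fun_prop) (by fun_prop)
    c).measurableSet

theorem adj_iff {ω : Om P} {c : ℕ} {x y : C} : Adj (xs fp (tn Λ) ω) c x y ↔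
    ∀ r ∈ ω.g, c < (fp r).l → (c, ini (fp r).l x, ini (fp r).l y) ∈ (fp r).T := by
  simp only [Adj, ← Bool.not_eq_true, xs_true]
  constructor
  · intro h r h1 h2
    by_contra h3
    exact h _ h2 ⟨(fp r).res ∅, ⟨by simp [dom_res], _, _, _, rfl, length_ini _ _, h3⟩, r, h1,
      le_res _ _⟩
  · rintro h n hn ⟨f, ⟨-, c', u, w, h1, h2, h3⟩, r, h4, ν, h5⟩
    obtain ⟨rfl, rfl, rfl⟩ : c' = c ∧ u = ini n x ∧ w = ini n y := by
      simpa using Encodable.encode_injective h1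
    obtain rfl : n = f.l := by simpa using h2
    have := h5.down _ _ _ (h r h4 (hn.trans_le h5.l)) hn
    rw [take_ini h5.l, take_ini h5.l] at this
    exact h3 this

def StarT (t : C) : Prop := ∀ c c' n x x' y y', c < n → c' < n → ini n x ≠ ini n x' →
  ini n y = ini n y' → Adj t c x y → Adj t c' x' y → Adj t c x y' → Adj t c' x' y' → y = y'

theorem Prj.star (h : Prj fp p A M) : Fc p fun ω => StarT (xs fp (tn Λ) ω) := by
  refine h.ev_level.imp (Eventually.of_forall fun ω h c c' n x x' y y' h1 h2 h3 h4 h5 h6 h7 h8 => ?_)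
  funext m
  obtain ⟨r, h9, h10⟩ := h (max n (m + 1))
  have hn := le_of_max_le_left h10
  rw [adj_iff] at h5 h6 h7 h8
  exact ini_eq_iff.1 ((fp r).star _ _ _ _ _ _ n (h5 r h9 (h1.trans_le hn))
    (h6 r h9 (h2.trans_le hn)) (h7 r h9 (h1.trans_le hn)) (h8 r h9 (h2.trans_le hn)) h1 h2
    (by rwa [take_ini hn, take_ini hn]) (by rwa [take_ini hn, take_ini hn])) m
    (le_of_max_le_right h10)

/-- the unique common neighbour, as a Borel function -/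
noncomputable def cnb (k : ℕ × ℕ × LB) (p : C × C × C) : C := fun m =>
  @decide (∃ y, Adj p.1 k.1 p.2.1 y ∧ Adj p.1 k.2.1 p.2.2 y ∧ ini k.2.2.length y = k.2.2 ∧
    y m = true) (Classical.dec _)

theorem meas_cnb (k : ℕ × ℕ × LB) : Measurable (cnb k) := by
  let : TopologicalSpace LB := ⊥
  have : DiscreteTopology LB := ⟨rfl⟩
  refine measurable_pi_lambda _ fun m => meas_decide (measurableSet_setOfPred.1 ?_)
  have : IsClosed {q : (C × C × C) × C | Adj q.1.1 k.1 q.1.2.1 q.2 ∧ Adj q.1.1 k.2.1 q.1.2.2 q.2 ∧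
      ini k.2.2.length q.2 = k.2.2 ∧ q.2 m = true} :=
    (closed_Adj (by fun_prop) (by fun_prop) (by fun_prop) _).inter
      ((closed_Adj (by fun_prop) (by fun_prop) (by fun_prop) _).inter
        ((isClosed_eq ((cont_ini _).comp continuous_snd) continuous_const).inter
          (isClosed_eq (by fun_prop) continuous_const)))
  convert (this.isCompact.image continuous_fst).isClosed.measurableSet using 1
  ext q
  simp

theorem StarT.cnb {t : C} (h : StarT t) {c c' : ℕ} {x x' y : C} (hx : x ≠ x') (h1 : Adj t c x y)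
    (h2 : Adj t c' x' y) : ∃ k, cnb k (t, x, x') = y := by
  obtain ⟨i, hi⟩ := Function.ne_iff.1 hx
  refine ⟨(c, c', ini (max (max c c') i + 1) y), funext fun m => ?_⟩
  rw [Bool.eq_iff_iff]
  simp only [Pool.Agent.MP_e75763_lc.cnb, decide_eq_true_eq, length_ini]
  refine ⟨fun ⟨y', h3, h4, h5, h6⟩ => ?_, fun h3 => ⟨y, h1, h2, rfl, h3⟩⟩
  rwa [← h c c' _ x x' y' y (by omega) (by omega) (fun e => hi (ini_eq_iff.1 e i (by omega))) h5
    h3 h4 h1 h2]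

/-- the name of the real of a vertex -/
def vn (a : Λ) : NM Λ := fun n => {f | f.dom ⊆ {a} ∧ ∃ u, (a, u) ∈ f.s ∧ u[n]? = some true}

theorem vn_mem {a : Λ} (ha : a ∈ A) : vn a ∈ II A := fun _ =>
  ⟨(countable_dom (countable_singleton a)).mono fun _ h => h.1,
    fun _ h => h.1.trans (singleton_subset_iff.2 ha)⟩

theorem ini_vn (hm : Monotone fp) {ω : Om P} {r : P} (hr : r ∈ ω.g) {a : Λ} {u : LB}
    (hu : (a, u) ∈ (fp r).s) : ini (fp r).l (xs fp (vn a) ω) = u := by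
  have hl := (fp r).len _ _ hu
  refine List.ext_getElem (by simp [hl]) fun n h1 h2 => ?_
  simp only [ini, List.getElem_map, List.getElem_range]
  rw [Bool.eq_iff_iff, xs_true]
  constructor
  · rintro ⟨f, ⟨-, u', h3, h4⟩, r', h5, h6⟩
    obtain ⟨s, -, h7, h8⟩ := ω.dir r hr r' h5
    obtain ⟨ν, h9⟩ := hm h7
    obtain ⟨ν', h10⟩ := (hm h8).trans h6
    have e := (fp s).fn _ _ _ (h9.s _ _ hu) (h10.s _ _ h3)
    rw [← h10.take _ (f.len _ _ h3), ← e, List.getElem?_take] at h4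
    have h11 : u[n]? = (ν u)[n]? := by
      conv_lhs => rw [← h9.take _ hl, List.getElem?_take, if_pos (hl ▸ h2)]
    split_ifs at h4
    rw [← h11, List.getElem?_eq_getElem h2] at h4
    simpa using h4
  · intro h
    exact ⟨(fp r).res {a}, ⟨by simp [dom_res], u, ⟨rfl, hu⟩, by
      rw [List.getElem?_eq_getElem h2, h]⟩, r, hr, le_res _ _⟩

theorem Prj.adj (h : Prj fp p A M) {a b : Λ} (ha : a ∈ A) (hb : b ∈ A) (ia : (a, a) ∉ M)
    (ib : (b, b) ∉ M) (hab : (a, b) ∈ M) :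
    Fc p fun ω => ∃ c, Adj (xs fp (tn Λ) ω) c (xs fp (vn a) ω) (xs fp (vn b) ω) := by
  refine (ev_dense_below (D := {r | r ≤ p ∧ a ∈ (fp r).dom ∧ b ∈ (fp r).dom}) fun q hq => ?_).imp
    (Eventually.of_forall ?_)
  · obtain ⟨r, h1, h2⟩ := h.exists_dom ha ia hq
    obtain ⟨s, h3, h4⟩ := h.exists_dom hb ib (h1.trans hq)
    exact ⟨s, ⟨h3.trans (h1.trans hq), dom_mono (h.mono h3) h2, h4⟩, h3.trans h1⟩
  rintro ω ⟨r, h1, ⟨h2, ⟨u, h3⟩, ⟨w, h4⟩⟩, -⟩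
  obtain ⟨c, hc⟩ := ((h.valid r h2).rel a u b w ⟨ha, h3⟩ ⟨hb, h4⟩).1 hab
  refine ⟨c, adj_iff.2 fun r' h5 h6 => ?_⟩
  obtain ⟨s, h7, h8, h9⟩ := ω.dir r h1 r' h5
  obtain ⟨ν, h10⟩ := h.mono h8
  obtain ⟨ν', h11⟩ := h.mono h9
  have := h11.down _ _ _ (h10.T _ _ _ hc) h6
  rwa [← ini_vn h.mono h7 (h10.s _ _ h3), ← ini_vn h.mono h7 (h10.s _ _ h4), take_ini h11.l,
    take_ini h11.l] at this

end Pool.Agent.MP_e75763_lc

end MrgPart0

-- ======== part 1: formerly Pool.Agent.MP_e75763_lc.Dbl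
section MrgPart1

/-! Doubling over a closed set of vertices: new reals have few old neighbours. -/

namespace Pool.Agent.MP_e75763_lc

open Set Filter FinC

variable {Λ : Type} {P : Type} [Preorder P]

open Classical in
noncomputable def jj (A : Set Λ) (i : Bool) (a : Λ) : Λ × Bool := (a, if a ∈ A then false else i)

theorem jj_inj (A : Set Λ) (i : Bool) : Function.Injective (jj A i) :=
  fun _ _ h => congrArg Prod.fst h

theorem jj_eq {A : Set Λ} {i i' : Bool} {a a' : Λ} :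
    jj A i a = jj A i' a' ↔ a = a' ∧ (a ∈ A ∨ i = i') := by
  simp only [jj, Prod.mk.injEq]
  refine and_congr_right ?_
  rintro rfl
  by_cases h : a ∈ A <;> simp [h]

def MS (A : Set Λ) (M : Set (Λ × Λ)) : Set ((Λ × Bool) × (Λ × Bool)) :=
  {x | ∃ i a b, (a, b) ∈ M ∧ x.1 = jj A i a ∧ x.2 = jj A i b}

variable {A d : Set Λ} {M : Set (Λ × Λ)}

theorem mem_MS {i : Bool} {a b : Λ} : (jj A i a, jj A i b) ∈ MS A M ↔ (a, b) ∈ M := by
  refine ⟨fun ⟨_, _, _, h, h1, h2⟩ => ?_, fun h => ⟨i, a, b, h, rfl, rfl⟩⟩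
  rwa [(jj_eq.1 h1).1, (jj_eq.1 h2).1]

theorem good_MS (hg : Good M A) (i : Bool) : Good (MS A M) (jj A i '' univ) := by
  rintro v hv _ ⟨a, -, rfl⟩ _ ⟨a', -, rfl⟩ ⟨i1, a1, b, h1, h2, rfl⟩ ⟨i2, a2, b', h3, h4, h5⟩
  obtain ⟨rfl, h6⟩ := jj_eq.1 h2
  obtain ⟨rfl, h7⟩ := jj_eq.1 h4
  obtain ⟨rfl, h8⟩ := jj_eq.1 h5
  have h9 : b ∉ A := fun h => hv ⟨b, trivial, jj_eq.2 ⟨rfl, Or.inl h⟩⟩
  have h10 : i ≠ i1 := fun h => hv ⟨b, trivial, jj_eq.2 ⟨rfl, Or.inr h⟩⟩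
  obtain rfl := h8.resolve_left h9
  rw [hg b h9 a (h6.resolve_right h10) a' (h7.resolve_right h10) h1 h3]

theorem cod_MS (hM : Cod M) (hc : ∀ v ∉ A, {b | b ∈ A ∧ (v, b) ∈ M}.Countable) : Cod (MS A M) := by
  intro x x' hx
  have key : ∀ S : Set Λ, S.Countable → (Prod.fst ⁻¹' S : Set (Λ × Bool)).Countable := fun S hS =>
    (hS.prod countable_univ).mono fun _ h => mk_mem_prod h (mem_univ _)
  by_cases h : x.1 = x'.1
  · by_cases h1 : x.1 ∈ A
    · refine countable_empty.mono ?_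
      rintro v ⟨⟨i, a, b, -, rfl, -⟩, ⟨i', a', b', -, rfl, -⟩⟩
      exact hx (jj_eq.2 ⟨h, Or.inl h1⟩)
    · refine (key _ (hc _ h1)).mono ?_
      rintro v ⟨⟨i, a, b, h2, rfl, rfl⟩, ⟨i', a', b', -, rfl, h3⟩⟩
      exact ⟨(jj_eq.1 h3).2.resolve_right fun e => hx (jj_eq.2 ⟨h, Or.inr e⟩), h2⟩
  · refine (key _ (hM _ _ h)).mono ?_
    rintro v ⟨⟨i, a, b, h2, rfl, rfl⟩, ⟨i', a', b', h4, rfl, h3⟩⟩
    obtain ⟨rfl, -⟩ := jj_eq.1 h3
    exact ⟨h2, h4⟩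

abbrev PS (d A : Set Λ) (M : Set (Λ × Λ)) : Type := PP (Prod.fst ⁻¹' d) (MS A M)

noncomputable def fpi (i : Bool) (h : PS d A M) : FinC Λ := h.1.pull (jj A i) (jj_inj A i) univ

theorem prj_fpi (hg : Good M A) (i : Bool) : Prj (fpi (d := d) (A := A) (M := M) i) ⊤ d M := by
  refine ⟨fun _ _ h => pull_mono _ _ h, fun r _ => (r.2.pull (jj_inj A i)
    (fun _ _ _ _ => mem_MS) (good_MS hg i)).res_self fun a ⟨u, h⟩ => r.2.dom ⟨u, h.2⟩,
    fun r _ v hv hle => ?_⟩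
  obtain ⟨ν, hν⟩ := hle
  obtain ⟨h, h1, h2, h3, -⟩ := amalg' r.2 (hv.push (jj_inj A i) (fun _ h => h)
    fun _ _ _ _ => mem_MS) (by
      rintro _ ⟨u, a, rfl, -⟩
      exact ⟨a, trivial, rfl⟩) ⟨ν, hν.l, hν.len, hν.take, by
      rintro _ u ⟨⟨a, -, rfl⟩, h⟩
      exact ⟨a, rfl, hν.s a u ⟨r.2.dom ⟨u, h⟩, trivial, h⟩⟩, hν.T, hν.down⟩ (good_MS hg i)
  exact ⟨⟨h, h1⟩, h2, le_of_s (jj A i) h3 rfl rfl rfl rfl (fun a u h => ⟨a, rfl, h⟩)
    fun _ _ _ h => ⟨trivial, h⟩⟩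

theorem exists_double (hg : Good M A) {a b : FinC Λ} (ha : Valid d M a) (hb : Valid d M b)
    (h : a.res A ≤ b.res A) : ∃ r : PS d A M, fpi false r ≤ a ∧ fpi true r ≤ b := by
  obtain ⟨e, h1, h2, h3, -⟩ := amalg' hb (ha.res' hg) (by simp [dom_res]) h hg
  let r : PS d A M := ⟨_, ha.push (jj_inj A false) (fun _ h => h) fun _ _ _ _ => mem_MS⟩
  obtain ⟨r', h4, h5⟩ := (prj_fpi hg true).lift r le_top e h1 (le_of_s id h3 rfl rfl rfl rfl (by
    rintro x u ⟨-, -, y, h4, h5⟩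
    obtain ⟨rfl, h6⟩ := jj_eq.1 h4
    exact ⟨by simpa using h6, h5⟩) fun _ _ _ h => h)
  exact ⟨r', ((prj_fpi hg false).mono h4).trans (le_of_s id (le_refl a) rfl rfl rfl rfl
    (fun _ _ h => h) fun a _ _ h => ⟨trivial, a, rfl, h⟩), h5.trans h2⟩

theorem xs_fpi {σ : NM Λ} (hσ : σ ∈ II A) (ω : Om (PS d A M)) :
    xs (fpi false) σ ω = xs (fpi true) σ ω := by
  have key : ∀ i i' (r : PS d A M) (f : FinC Λ), f.dom ⊆ A → fpi i r ≤ f → fpi i' r ≤ f :=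
    fun i i' r f hf h => le_of_s id h rfl rfl rfl rfl (fun _ _ h => h) fun a ha u h =>
      ⟨trivial, (jj_eq.2 ⟨rfl, Or.inl (hf ha)⟩ : jj A i a = jj A i' a) ▸ h.2⟩
  funext n
  rw [Bool.eq_iff_iff, xs_true, xs_true]
  exact exists_congr fun f => and_congr_right fun hf => exists_congr fun r =>
    and_congr_right fun _ => ⟨key _ _ r f ((hσ n).2 f hf), key _ _ r f ((hσ n).2 f hf)⟩

variable {fp : P → FinC Λ} {p : P}

theorem Prj.gen (h : Prj fp p d M) (hA : A ⊆ d) (hg : Good M A) {δ : Λ} (h1 : δ ∈ d) (h2 : δ ∉ A)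
    (h3 : (δ, δ) ∉ M) : Fc p fun ω => xs fp (vn δ) ω ∉ XA fp A ω := by
  have key : ∀ σ ∈ II A, ∀ᶠ ω : Om (PP d M) in Pool.Agent.MP_e75763_lc.gen _,
      ¬ xs Subtype.val (vn δ) ω = xs Subtype.val σ ω := fun σ hσ => by
    refine ev_not_of_not_forced (meas_eqC (meas_xs _ _) (meas_xs _ _)) fun q hq => ?_
    obtain ⟨q', h4, u, h5⟩ := prj_self.exists_dom h1 h3 (q := q) le_top
    obtain ⟨r, h6, h7⟩ := exists_double hg q'.2 q'.2 le_rfl
    obtain ⟨ω, h8, h9, h10, h11⟩ := ((Fc.of_ev ev_top).and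
      (((prj_fpi hg false).fc (hq.mono h4) le_top h6).and
      ((prj_fpi hg true).fc (hq.mono h4) le_top h7))).exists
    rw [Prj.xs_pr _ h9 (vn_mem h1), Prj.xs_pr _ h9 (II_mono hA hσ)] at h10 h11
    obtain ⟨_, h6⟩ := h6
    obtain ⟨_, h7⟩ := h7
    have e1 := ini_vn (prj_fpi hg false).mono h8 (h6.s _ _ h5)
    have e2 := ini_vn (prj_fpi hg true).mono h8 (h7.s _ _ h5)
    rw [h10, xs_fpi hσ] at e1
    rw [h11] at e2
    have := r.1.inj _ _ _ (h6.s _ _ h5).2 ((e2.symm.trans e1) ▸ (h7.s _ _ h5).2)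
    simpa [h2] using jj_eq.1 this
  refine (Fc.diag fun σ : NM Λ => Fc.hyp fun hσ : σ ∈ II A => ?_ :
    Fc p fun ω => ∀ σ, In ω σ → σ ∈ II A → ¬ xs fp (vn δ) ω = xs fp σ ω).imp
    (Eventually.of_forall fun ω h ⟨σ, h4, h5, h6⟩ => h σ h4 h5 h6.symm)
  filter_upwards [h.ev (key σ hσ)] with ω h4 hp
  have := h4 hp
  rwa [h.xs_pr hp (vn_mem h1), h.xs_pr hp (II_mono hA hσ)] at this

theorem exists_split (hM : Cod M) (hA : A ⊆ d) (hg : Good M A) {Y : Om (PP d M) → C}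
    (hY : Measurable Y) {q : PP d M} (hq : Fc q fun ω => Y ω ∉ XA Subtype.val A ω) :
    ∃ n, ∃ a ≤ q, ∃ b ≤ q, a.1.res A ≤ b.1.res A ∧ (Fc a fun ω => Y ω n = true) ∧
      Fc b fun ω => ¬ Y ω n = true := by
  by_contra hn
  have hp := (prj_self (d := d) (M := M)).sub hA hg
  obtain ⟨σ, h1, h2⟩ := Prj.nice (A := A) hM (meas_ev fun n =>
    {v : PP A M | ∃ a ≤ q, (Fc a fun ω => Y ω n = true) ∧ v.1 = a.1.res A})
  refine hq.not_both ?_
  filter_upwards [hp.ev h2, ev_top (P := PP d M), ev_mem_XA Subtype.val h1,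
    eventually_countable_forall.2 fun n => ev_truth (meas_bit hY n true),
    eventually_countable_forall.2 fun n => ev_truth (meas_bit hY n true).not]
    with ω h3 h4 h5 h6 h7 h8
  refine not_not.2 (?_ : Y ω ∈ _)
  convert h5 using 1
  rw [← hp.xs_pr h4 h1, h3 h4]
  funext n
  rw [Bool.eq_iff_iff]
  simp only [ev, decide_eq_true_eq]
  constructor
  · intro h9
    obtain ⟨a, h10, -, h11⟩ := h6 n h9
    obtain ⟨a', h12, h13, h14⟩ := ω.dir a h10 q h8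
    exact ⟨hp.pi a', ⟨a', h12, le_top, le_rfl⟩, a', h14, h11.mono h13, hp.pi_val le_top⟩
  · rintro ⟨v, ⟨r, h9, -, h10⟩, a, h11, h12, h13⟩
    by_contra h14
    obtain ⟨b, h15, -, h16⟩ := h7 n h14
    obtain ⟨b', h17, h18, h19⟩ := ω.dir b h15 q h8
    obtain ⟨s, -, h20, h21⟩ := ω.dir b' h17 r h9
    have h22 : s.1.res A ≤ a.1.res A := by
      rw [← h13]
      exact (res_mono A h21).trans (hp.pi_val (r := r) le_top ▸ show (hp.pi r).1 ≤ v.1 from h10)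
    obtain ⟨a', h23, h24, h25, -⟩ := amalg' a.2 (s.2.res' hg) (by simp [dom_res]) h22 hg
    exact hn ⟨n, ⟨a', h23⟩, le_trans (show (⟨a', h23⟩ : PP d M) ≤ a from h24) h11, s,
      h20.trans h19, res_le h25 (by simp [dom_res]), h12.mono h24, h16.mono (h20.trans h18)⟩

theorem left_few (hM : Cod M) (hA : A ⊆ d) (hg : Good M A)
    (hc : ∀ v ∉ A, {b | b ∈ A ∧ (v, b) ∈ M}.Countable) {τ : NM Λ} (hτ : τ ∈ II d) :
    ∃ I ⊆ II A, I.Countable ∧ ∀ σ ∈ II A, ∀ c, ∀ᶠ ω : Om (PP d M) in gen _,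
      xs Subtype.val τ ω ∉ XA Subtype.val A ω →
      Adj (xs Subtype.val (tn Λ) ω) c (xs Subtype.val τ ω) (xs Subtype.val σ ω) →
      ∃ σ' ∈ I, xs Subtype.val σ ω = xs Subtype.val σ' ω := by
  choose I h1 h2 h3 using fun k => (ccc_PP (d := Prod.fst ⁻¹' d) (cod_MS hM hc)).cover (II A)
    (fun ω => cnb k (xs (fpi false) (tn Λ) ω, xs (fpi false) τ ω, xs (fpi true) τ ω))
    (xs (fpi false))
  refine ⟨⋃ k, I k, iUnion_subset h1, countable_iUnion h2, fun σ hσ c => ev_of_dense fun q => ?_⟩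
  obtain ⟨q', h4, h5 | h5⟩ := meas_dec (((meas_XA Subtype.val A _ (meas_xs _ τ)).not).and
    (meas_Adj (meas_xs Subtype.val (tn Λ)) (meas_xs _ τ) (meas_xs _ σ) c)) q
  swap
  · exact ⟨q', h4, h5.imp (Eventually.of_forall fun ω h h' h'' => absurd ⟨h', h''⟩ h)⟩
  obtain ⟨n, a, h6, b, h7, h8, h9, h10⟩ := exists_split hM hA hg (meas_xs _ τ)
    (h5.imp (Eventually.of_forall fun _ h => h.1))
  obtain ⟨r, h11, h12⟩ := exists_double hg a.2 b.2 h8
  have p0 := prj_fpi (d := d) hg false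
  have p1 := prj_fpi (d := d) hg true
  have h13 : Fc r fun ω => ∃ k, cnb k (xs (fpi false) (tn Λ) ω, xs (fpi false) τ ω,
      xs (fpi true) τ ω) = xs (fpi false) σ ω := by
    filter_upwards [p0.fc ((h5.mono h6).and h9) le_top h11, p1.fc ((h5.mono h7).and h10) le_top h12,
      p0.star, ev_top (P := PS d A M)] with ω a1 a2 a3 a4 a5
    obtain ⟨⟨-, a6⟩, a7⟩ := a1 a5
    obtain ⟨⟨-, a8⟩, a9⟩ := a2 a5
    simp only [Prj.xs_pr _ a4 hτ, Prj.xs_pr _ a4 (II_mono hA hσ), Prj.xs_pr _ a4 (tn_mem d)]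
      at a6 a7 a8 a9
    rw [← xs_fpi hσ, ← xs_fpi (tn_mem A)] at a8
    exact (a3 a4).cnb (fun e => a9 (e ▸ a7)) a6 a8
  obtain ⟨k, r', h14, h15⟩ : ∃ k, ∃ r' ≤ r, Fc r' fun ω => cnb k (xs (fpi false) (tn Λ) ω,
      xs (fpi false) τ ω, xs (fpi true) τ ω) = xs (fpi false) σ ω := by
    by_contra hn
    refine h13.not_both ((Fc.all fun k => Fc.not_of (meas_eqC ((meas_cnb k).fun_comp
      ((meas_xs _ _).prodMk ((meas_xs _ _).prodMk (meas_xs _ _)))) (meas_xs _ _))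
      fun s hs h => hn ⟨k, s, hs, h⟩).imp (Eventually.of_forall fun _ => not_exists.2))
  obtain ⟨σ', h16, s, h17, h18⟩ := h3 k σ hσ r' h15
  refine ⟨p0.pi s, ?_, (p0.reflect (Φ := fun ω => xs Subtype.val σ ω = xs Subtype.val σ' ω)
    (meas_eqC (meas_xs _ _) (meas_xs _ _)) le_top ?_).imp
    (Eventually.of_forall fun ω h _ _ => ⟨σ', mem_iUnion.2 ⟨k, h16⟩, h⟩)⟩
  · refine le_trans ?_ (h6.trans h4)
    change (p0.pi s).1 ≤ a.1
    rw [p0.pi_val le_top]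
    exact res_le ((p0.mono (h17.trans h14)).trans h11) a.2.dom
  · filter_upwards [h18, ev_top (P := PS d A M)] with ω a1 a2 a3
    rw [p0.xs_pr a2 (II_mono hA hσ), p0.xs_pr a2 (II_mono hA (h1 k h16))]
    exact a1 a3

theorem ev_ctb_count {ι : Type} {I : Set ι} (hI : I.Countable) {s : ι → Om P → C}
    (h : ∀ i, Measurable (s i)) : ∀ᶠ ω : Om P in gen P, Ctb ω {x | ∃ i ∈ I, x = s i ω} := by
  obtain ⟨f, hf⟩ := ((hI.image s).insert fun _ => default).exists_eq_range (insert_nonempty _ _)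
  refine (ev_ctb (s := f) fun i => ?_).mono fun ω h => h.mono ?_
  · rcases (hf ▸ mem_range_self i : f i ∈ insert _ _) with h1 | ⟨j, -, h1⟩
    exacts [h1 ▸ measurable_const, h1 ▸ h j]
  · rintro _ ⟨i, hi, rfl⟩
    obtain ⟨n, hn⟩ : s i ∈ range f := hf ▸ Or.inr ⟨i, hi, rfl⟩
    exact ⟨n, congrFun hn ω⟩

/-- symmetric adjacency -/
def Nb (t u v : C) : Prop := ∃ c, Adj t c u v ∨ Adj t c v u

theorem Prj.few (h : Prj fp p d M) (hM : Cod M) (hA : A ⊆ d) (hg : Good M A)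
    (hc : ∀ v ∉ A, {b | b ∈ A ∧ (v, b) ∈ M}.Countable) {τ : NM Λ} (hτ : τ ∈ II d) :
    Fc p fun ω => xs fp τ ω ∉ XA fp A ω →
      Ctb ω {u | u ∈ XA fp A ω ∧ Nb (xs fp (tn Λ) ω) u (xs fp τ ω)} := by
  obtain ⟨I, h1, h2, h3⟩ := left_few hM hA hg hc hτ
  filter_upwards [Fc.diag fun σ : NM Λ => Fc.hyp fun hσ => Fc.all fun c => h.ev (h3 σ hσ c),
    ev_ctb_count h2 (meas_xs fp), h.star, Fc.all fun k => (h.sub hA hg).closed hM (meas_cnb k),
    ev_mem_XA fp (tn_mem A), ev_ctb_union (P := P), ev_ctb_singleton (P := P), ev_XA fp]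
    with ω a1 a2 a3 a4 a5 a6 a7 a8 hp a9
  have b1 : ∀ u ∈ XA fp A ω, ∀ c, Adj (xs fp (tn Λ) ω) c (xs fp τ ω) u →
      u ∈ {x | ∃ i ∈ I, x = xs fp i ω} := by
    rintro _ ⟨σ, b1, b2, rfl⟩ c b3
    have := a1 hp σ b1 b2 c
    rw [h.xs_pr hp hτ, h.XA_pr hp hA, h.xs_pr hp (II_mono hA b2), h.xs_pr hp (tn_mem d)] at this
    obtain ⟨σ', b4, b5⟩ := this a9 b3
    exact ⟨σ', b4, by rwa [h.xs_pr hp (II_mono hA (h1 b4))] at b5⟩
  by_cases b2 : ∃ u ∈ XA fp A ω, ∃ c, Adj (xs fp (tn Λ) ω) c u (xs fp τ ω)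
  · obtain ⟨u, b2, c, b3⟩ := b2
    refine (a6 _ _ a2 (a7 u (a8 A b2))).mono ?_
    rintro u' ⟨b4, c', b5 | b5⟩
    · refine Or.inr (by_contra fun b6 => a9 ?_)
      obtain ⟨k, hk⟩ := (a3 hp).cnb b6 b5 b3
      exact hk ▸ a4 hp k _ a5 _ b4 _ b2
    · exact Or.inl (b1 _ b4 _ b5)
  · refine a2.mono ?_
    rintro u' ⟨b4, c', b5 | b5⟩
    exacts [absurd ⟨u', b4, c', b5⟩ b2, b1 _ b4 _ b5]

end Pool.Agent.MP_e75763_lc

end MrgPart1

-- marker of a merged file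
example : 731051 + 284275 = 731051 + 284275 := rfl

end MrgPart1

-- ======== part 2: formerly Pool.Agent.MP_e75763_lc.QS
section MrgPart2

/-! The main forcing: collapse, generic graph, finite conditions. -/

namespace Pool.Agent.MP_e75763_lc

open Set Filter FinC Cardinal

noncomputable def kap : ℕ → Cardinal.{0}
  | 0 => 𝔠
  | n + 1 => Order.succ (kap n)

theorem kap_strictMono : StrictMono kap := strictMono_nat_of_lt_succ fun _ => Order.lt_succ _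

theorem c_le_kap (n : ℕ) : 𝔠 ≤ kap n := kap_strictMono.monotone (Nat.zero_le n)

theorem aleph0_le_kap (n : ℕ) : ℵ₀ ≤ kap n := aleph0_le_continuum.trans (c_le_kap n)

noncomputable def mu : Cardinal.{0} := Cardinal.sum kap

theorem kap_le_mu (n : ℕ) : kap n ≤ mu := le_sum kap n

theorem aleph0_le_mu : ℵ₀ ≤ mu := (aleph0_le_kap 0).trans (kap_le_mu 0)

def LL : Type := (Order.succ mu).out

theorem exists_fresh {d : Set LL} (hd : #d ≤ mu) {κ : Cardinal.{0}} (hκ : κ ≤ mu) :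
    ∃ S ⊆ dᶜ, #S = κ := by
  have h1 : #LL = Order.succ mu := mk_out _
  have : Infinite LL := infinite_iff.2 (h1 ▸ aleph0_le_mu.trans (Order.le_succ _))
  refine le_mk_iff_exists_subset.1 ?_
  rw [mk_compl_of_infinite _ (h1 ▸ hd.trans_lt (Order.lt_succ _)), h1]
  exact hκ.trans (Order.le_succ _)

structure Sub {Λ : Type} (M : Set (Λ × Λ)) (A : Set Λ) : Prop where
  good : Good M A
  few : ∀ v ∉ A, {b | b ∈ A ∧ (v, b) ∈ M}.Countable

structure QC where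
  d : Set LL
  M : Set (LL × LL)
  o : LL → Set LL
  hd : #d ≤ mu
  sub : ∀ a b, (a, b) ∈ M → a ∈ d ∧ b ∈ d
  irr : ∀ a, (a, a) ∉ M
  cod : Cod M
  oc : ∀ a, (o a).Countable
  ori : ∀ a b, (a, b) ∈ M → a ∈ o b ∨ b ∈ o a

namespace QC

structure Le (q' q : QC) : Prop where
  sub : q.d ⊆ q'.d
  agree : ∀ a ∈ q.d, ∀ b ∈ q.d, (a, b) ∈ q'.M ↔ (a, b) ∈ q.M
  cl : Sub q'.M q.d

theorem Le.of_eq {q' q : QC} (h1 : q.d ⊆ q'.d) (h2 : q'.M = q.M) : Le q' q :=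
  ⟨h1, by simp [h2], h2 ▸ ⟨fun _ hv _ _ _ _ h _ => absurd (q.sub _ _ h).2 hv, fun _ hv =>
    countable_empty.mono fun _ h => hv (q.sub _ _ h.2).1⟩⟩

theorem Le.refl (q : QC) : Le q q := .of_eq Subset.rfl rfl

theorem Le.subM {q' q : QC} (h : Le q' q) {A : Set LL} (hA : A ⊆ q.d) (hs : Sub q.M A) :
    Sub q'.M A := by
  refine ⟨fun v hv a ha a' ha' h1 h2 => ?_, fun v hv => ?_⟩ <;> by_cases h3 : v ∈ q.d
  · exact hs.good v hv a ha a' ha' ((h.agree _ (hA ha) _ h3).1 h1) ((h.agree _ (hA ha') _ h3).1 h2)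
  · exact h.cl.good v h3 a (hA ha) a' (hA ha') h1 h2
  · exact (hs.few v hv).mono fun b hb => And.intro hb.1 ((h.agree _ h3 _ (hA hb.1)).1 hb.2)
  · exact (h.cl.few v h3).mono fun b hb => And.intro (hA hb.1) hb.2

theorem Le.trans {a b c : QC} (h : Le a b) (h' : Le b c) : Le a c :=
  ⟨h'.sub.trans h.sub, fun x hx y hy => (h.agree x (h'.sub hx) y (h'.sub hy)).trans
    (h'.agree x hx y hy), h.subM h'.sub h'.cl⟩

theorem Le.mem {q' q : QC} (h : Le q' q) {a b : LL} (hab : (a, b) ∈ q.M) : (a, b) ∈ q'.M :=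
  (h.agree _ (q.sub _ _ hab).1 _ (q.sub _ _ hab).2).2 hab

theorem Le.valid {q' q : QC} (h : Le q' q) {f : FinC LL} (hf : Valid q.d q.M f) :
    Valid q'.d q'.M f :=
  hf.congr (hf.dom.trans h.sub) fun a ha b hb => h.agree a (hf.dom ha) b (hf.dom hb)

instance : Preorder QC where
  le q' q := Le q' q ∧ ∀ a ∈ q.d, q'.o a = q.o a
  le_refl q := ⟨.refl q, fun _ _ => rfl⟩
  le_trans _ _ _ h h' := ⟨h.1.trans h'.1, fun a ha => (h.2 a (h'.1.sub ha)).trans (h'.2 a ha)⟩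

theorem upgrade {q' q : QC} (h : Le q' q) : ∃ r ≤ q, r.d = q'.d ∧ r.M = q'.M := by
  classical
  refine ⟨⟨q'.d, q'.M, fun a => if a ∈ q.d then q.o a else q'.o a ∪
    ({b | b ∈ q.d ∧ (a, b) ∈ q'.M} ∪ {b | b ∈ q.d ∧ (b, a) ∈ q'.M}), q'.hd, q'.sub, q'.irr,
    q'.cod, fun a => ?_, fun a b hab => ?_⟩, ⟨⟨h.sub, h.agree, h.cl⟩, fun a ha => if_pos ha⟩, rfl, rfl⟩
  · split_ifs with h1
    · exact q.oc a
    · exact (q'.oc a).union ((h.cl.few a h1).union (Set.Subsingleton.countable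
        fun b hb b' hb' => h.cl.good a h1 b hb.1 b' hb'.1 hb.2 hb'.2))
  · by_cases h1 : a ∈ q.d <;> by_cases h2 : b ∈ q.d <;> simp only [h1, h2, if_true, if_false]
    · exact q.ori a b ((h.agree a h1 b h2).1 hab)
    · exact Or.inl (Or.inr (Or.inr ⟨h1, hab⟩))
    · exact Or.inr (Or.inr (Or.inl ⟨h2, hab⟩))
    · exact (q'.ori a b hab).imp Or.inl Or.inl

theorem exists_union {ι : Type} (hι : #ι ≤ mu) {s : ι → QC} (hs : Directed (· ≥ ·) s) :
    ∃ q, (∀ i, q ≤ s i) ∧ q.d = ⋃ i, (s i).d := by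
  have h1 : ∀ i, ∀ a ∈ (s i).d, ∀ b ∈ (s i).d, (a, b) ∈ ⋃ i, (s i).M ↔ (a, b) ∈ (s i).M := by
    refine fun i a ha b hb => ⟨fun h => ?_, fun h => mem_iUnion.2 ⟨i, h⟩⟩
    obtain ⟨j, hj⟩ := mem_iUnion.1 h
    obtain ⟨k, h2, h3⟩ := hs i j
    exact (h2.1.agree a ha b hb).1 (h3.1.mem hj)
  have h2 : ∀ a b, (a, b) ∈ ⋃ i, (s i).M → ∃ i, a ∈ (s i).d ∧ b ∈ (s i).d := fun a b h =>
    let ⟨i, hi⟩ := mem_iUnion.1 h; ⟨i, (s i).sub _ _ hi⟩
  have h3 : ∀ i, ∀ a ∈ (s i).d, {b | ∃ j, a ∈ (s j).d ∧ b ∈ (s j).o a} = (s i).o a := by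
    refine fun i a ha => Subset.antisymm ?_ fun b hb => ⟨i, ha, hb⟩
    rintro b ⟨j, h4, h5⟩
    obtain ⟨k, h6, h7⟩ := hs i j
    rwa [← h6.2 a ha, h7.2 a h4]
  have h4 : ∀ i, Sub (⋃ i, (s i).M) (s i).d := fun i => by
    refine ⟨fun v hv a ha a' ha' h4 h5 => ?_, fun v hv => ?_⟩
    · obtain ⟨j, -, h6⟩ := h2 _ _ h4
      obtain ⟨k, h7, h8⟩ := hs i j
      exact h7.1.cl.good v hv a ha a' ha' ((h1 k _ (h7.1.sub ha) _ (h8.1.sub h6)).1 h4)
        ((h1 k _ (h7.1.sub ha') _ (h8.1.sub h6)).1 h5)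
    · by_cases h4 : ∃ j, v ∈ (s j).d
      · obtain ⟨j, h4⟩ := h4
        obtain ⟨k, h7, h8⟩ := hs i j
        exact (h7.1.cl.few v hv).mono fun b hb =>
          And.intro hb.1 ((h1 k _ (h8.1.sub h4) _ (h7.1.sub hb.1)).1 hb.2)
      · exact countable_empty.mono fun b hb => let ⟨j, h, _⟩ := h2 _ _ hb.2; h4 ⟨j, h⟩
  refine ⟨⟨⋃ i, (s i).d, ⋃ i, (s i).M, fun a => {b | ∃ j, a ∈ (s j).d ∧ b ∈ (s j).o a},
    mk_iUnion_le' aleph0_le_mu hι fun i => (s i).hd, fun a b h =>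
      let ⟨i, h⟩ := h2 a b h; ⟨mem_iUnion.2 ⟨i, h.1⟩, mem_iUnion.2 ⟨i, h.2⟩⟩, fun a h =>
      let ⟨i, h⟩ := mem_iUnion.1 h; (s i).irr a h, fun a a' h => ?_, fun a => ?_, fun a b h => ?_⟩,
    fun i => ⟨⟨subset_iUnion (fun i => (s i).d) i, h1 i, h4 i⟩, h3 i⟩, rfl⟩
  · rcases {v | (a, v) ∈ ⋃ i, (s i).M ∧ (a', v) ∈ ⋃ i, (s i).M}.eq_empty_or_nonempty with
      h5 | ⟨v, h5, h6⟩
    · exact h5 ▸ countable_empty
    obtain ⟨i, h7, -⟩ := h2 _ _ h5
    obtain ⟨j, h8, -⟩ := h2 _ _ h6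
    obtain ⟨k, h9, h10⟩ := hs i j
    refine ((s k).cod a a' h).mono fun w hw => ?_
    have h11 : w ∈ (s k).d := by_contra fun h11 =>
      h ((h4 k).good w h11 a (h9.1.sub h7) a' (h10.1.sub h8) hw.1 hw.2)
    exact ⟨(h1 k _ (h9.1.sub h7) _ h11).1 hw.1, (h1 k _ (h10.1.sub h8) _ h11).1 hw.2⟩
  · by_cases h5 : ∃ j, a ∈ (s j).d
    · obtain ⟨j, h5⟩ := h5
      exact h3 j a h5 ▸ (s j).oc a
    · exact countable_empty.mono fun b ⟨j, h, _⟩ => h5 ⟨j, h⟩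
  · obtain ⟨i, hi⟩ := mem_iUnion.1 h
    exact ((s i).ori a b hi).imp (fun h => ⟨i, ((s i).sub _ _ hi).2, h⟩)
      fun h => ⟨i, ((s i).sub _ _ hi).1, h⟩

def add (q : QC) (S : Set LL) (hS : #S ≤ mu) : QC :=
  ⟨q.d ∪ S, q.M, q.o, mk_union_le' aleph0_le_mu q.hd hS, fun a b h =>
    ⟨Or.inl (q.sub a b h).1, Or.inl (q.sub a b h).2⟩, q.irr, q.cod, q.oc, q.ori⟩

theorem add_le (q : QC) (S : Set LL) (hS : #S ≤ mu) : q.add S hS ≤ q :=
  ⟨.of_eq subset_union_left rfl, fun _ _ => rfl⟩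

theorem chain_rec {J : Type} [LinearOrder J] [WellFoundedLT J] (hJ : #J ≤ mu) (q : QC)
    {Ψ : J → QC → QC → Prop} (step : ∀ j b, ∃ b' ≤ b, Ψ j b b') :
    ∃ s : J → QC, Antitone s ∧ ∀ j, ∃ b ≤ q, (∀ i < j, b ≤ s i) ∧ s j ≤ b ∧ Ψ j b (s j) := by
  classical
  choose G h1 h2 using step
  let s : J → QC := (wellFounded_lt (α := J)).fix fun j ih =>
    if h : ∃ b ≤ q, ∀ i, ∀ hi : i < j, b ≤ ih i hi then G j h.choose else q
  have hs : ∀ j, s j = if h : ∃ b ≤ q, ∀ i < j, b ≤ s i then G j h.choose else q :=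
    fun j => WellFounded.fix_eq _ _ _
  have key : ∀ j, ∃ b ≤ q, (∀ i < j, b ≤ s i) ∧ s j ≤ b ∧ Ψ j b (s j) := fun j => by
    induction j using WellFoundedLT.induction with
    | ind j ih =>
      have h3 : ∀ i k : Iio j, i ≤ k → s k ≤ s i := fun i k h => by
        rcases h.eq_or_lt with rfl | h
        · exact le_rfl
        · obtain ⟨b, -, h4, h5, -⟩ := ih k k.2
          exact h5.trans (h4 i h)
      have h4 : ∀ i : Iio j, s i ≤ q := fun i =>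
        let ⟨_, h4, _, h5, _⟩ := ih i i.2; h5.trans h4
      obtain ⟨b, h5, -⟩ := exists_union (ι := Option (Iio j)) (by
        rw [mk_option]
        exact add_le_of_le aleph0_le_mu ((mk_set_le _).trans hJ) (one_le_aleph0.trans aleph0_le_mu))
        (s := fun i => i.elim q fun i => s i) (by
          rintro (_ | i) (_ | k)
          exacts [⟨none, le_rfl, le_rfl⟩, ⟨some k, h4 k, le_rfl⟩, ⟨some i, le_rfl, h4 i⟩,
            ⟨some (max i k), h3 _ _ (le_max_left _ _), h3 _ _ (le_max_right _ _)⟩])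
      have h6 : ∃ b ≤ q, ∀ i < j, b ≤ s i := ⟨b, h5 none, fun i hi => h5 (some ⟨i, hi⟩)⟩
      rw [hs j, dif_pos h6]
      exact ⟨_, h6.choose_spec.1, h6.choose_spec.2, h1 _ _, h2 _ _⟩
  refine ⟨s, fun i k h => ?_, key⟩
  rcases h.eq_or_lt with rfl | h
  · exact le_rfl
  · obtain ⟨b, -, h4, h5, -⟩ := key k
    exact h5.trans (h4 i h)

theorem dense_inter {J : Type} (hJ : #J ≤ mu) (q : QC) {D : J → Set QC}
    (hD : ∀ j b, ∃ b' ≤ b, b' ∈ D j) : ∃ r ≤ q, ∀ j, ∃ b ∈ D j, r ≤ b := by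
  obtain ⟨_, _⟩ := exists_wellFoundedLT J
  obtain ⟨s, h1, h2⟩ := chain_rec hJ q (Ψ := fun j _ b => b ∈ D j) hD
  rcases isEmpty_or_nonempty J with h | ⟨⟨j⟩⟩
  · exact ⟨q, le_rfl, fun j => h.elim j⟩
  obtain ⟨r, h3, -⟩ := exists_union hJ h1.directed_ge
  obtain ⟨b, h4, -, h5, -⟩ := h2 j
  exact ⟨r, (h3 j).trans (h5.trans h4), fun j => let ⟨_, _, _, _, h⟩ := h2 j; ⟨_, h, h3 j⟩⟩

end QC

theorem mk_Iio_le_of_succ {κ κ' : Cardinal.{0}} (h : κ' = Order.succ κ) (i : κ'.ord.ToType) :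
    #(Iio i) ≤ κ := by
  subst h
  exact Order.lt_succ_iff.1 ((mk_Iio_lt i (by simp)).trans_eq (by simp))

abbrev W1 : Type := (ℵ_ 1 : Cardinal.{0}).ord.ToType

theorem countable_Iic (i : W1) : (Iic i).Countable := by
  rw [← Iio_insert]
  exact (le_aleph0_iff_set_countable.1 (mk_Iio_le_of_succ succ_aleph0.symm i)).insert _

instance : Uncountable W1 := aleph0_lt_mk_iff.1 (by simp [aleph0_lt_aleph_one])

def QH : Type := {c : Set (W1 × C) // c.Countable ∧ ∀ i x y, (i, x) ∈ c → (i, y) ∈ c → x = y}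

instance : Preorder QH where
  le c' c := c.1 ⊆ c'.1
  le_refl _ := Subset.rfl
  le_trans _ _ _ h h' := Subset.trans h' h

theorem mk_ctb_le {α : Type} {S : Set α} (hS : #S ≤ 𝔠) : #{t | t ⊆ S ∧ t.Countable} ≤ 𝔠 := by
  simp only [← le_aleph0_iff_set_countable]
  refine (mk_bounded_subset_le S ℵ₀).trans ?_
  rw [← continuum_power_aleph0]
  exact power_le_power_right (max_le hS aleph0_le_continuum)

theorem mk_QH : #QH ≤ 𝔠 := by
  refine (mk_le_mk_of_subset (s := {c : Set (W1 × C) | c.Countable ∧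
    ∀ i x y, (i, x) ∈ c → (i, y) ∈ c → x = y}) fun c hc => And.intro (subset_univ _) hc.1).trans
    (mk_ctb_le ?_)
  simpa using (mul_le_mul' aleph_one_le_continuum le_rfl).trans continuum_mul_self.le

structure RR where
  c : QH
  q : QC
  f : FinC LL
  v : Valid q.d q.M f

instance : Preorder RR where
  le r' r := r'.c ≤ r.c ∧ r'.q.Le r.q ∧ r'.f ≤ r.f
  le_refl r := ⟨le_rfl, .refl _, le_rfl⟩
  le_trans _ _ _ h h' := ⟨h.1.trans h'.1, h.2.1.trans h'.2.1, h.2.2.trans h'.2.2⟩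

def base (c : QH) (q : QC) : RR := ⟨c, q, ⊤, valid_top _ _⟩

theorem prj_RR (c : QH) (q : QC) : Prj RR.f (base c q) q.d q.M := by
  refine ⟨fun _ _ h => h.2.2, fun r hr => (r.v.res hr.2.1.cl.good).congr (by simp [dom_res, base])
    fun a ha b hb => ?_, fun r hr v hv hle => ?_⟩
  · rw [dom_res] at ha hb
    exact (hr.2.1.agree a ha.1 b hb.1).symm
  · obtain ⟨h, h1, h2, h3, -⟩ := amalg' r.v (hr.2.1.valid hv) hv.dom hle hr.2.1.cl.good
    exact ⟨⟨r.c, r.q, h, h1⟩, ⟨le_rfl, .refl _, h2⟩, h3⟩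

theorem ev_dir {P : Type} [Preorder P] : ∀ᶠ ω : Om P in gen P, ∀ x : P, In ω x → ∀ y : P, In ω y →
    x ∈ ω.g → y ∈ ω.g → ∃ z ∈ ω.g, In ω z ∧ z ≤ x ∧ z ≤ y := by
  refine ev_diag fun x => ev_diag fun y => ?_
  filter_upwards [ev_dense (D := {z | (z ≤ x ∧ z ≤ y) ∨ ¬ ∃ w ≤ z, w ≤ x ∧ w ≤ y}) fun p => by
    by_cases h : ∃ w ≤ p, w ≤ x ∧ w ≤ y
    · obtain ⟨w, h1, h2⟩ := h
      exact ⟨w, Or.inl h2, h1⟩
    · exact ⟨p, Or.inr h, le_rfl⟩] with ω ⟨z, h1, h2, h3⟩ hx hy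
  refine ⟨z, h1, h3, h2.resolve_right fun h => h ?_⟩
  obtain ⟨w, h4, h5, h6⟩ := ω.dir x hx y hy
  obtain ⟨w', -, h7, h8⟩ := ω.dir w h4 z h1
  exact ⟨w', h8, h7.trans h5, h7.trans h6⟩

theorem master (D : ℕ → Set RR) (hD : ∀ n r, ∃ r' ≤ r, r' ∈ D n)
    (ho : ∀ n, ∀ r ∈ D n, ∀ r' ≤ r, r' ∈ D n) (c : QH) (q : QC) :
    ∃ c' ≤ c, ∃ q' ≤ q, ∃ B ⊆ q'.d, B.Countable ∧ ∀ n, ∀ r ≤ base c' q', ∃ f, ∃ hv : Valid q'.d q'.M f,
      f.dom ⊆ B ∧ ⟨c', q', f, hv⟩ ∈ D n ∧ ∃ r' ≤ r, r'.f ≤ f := by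
  have g1 : ∀ᶠ ω : Om (QH × QC) in gen _, ∀ a : LL, In ω a → ∀ a' : LL, In ω a' →
      ∀ x : QH × QC, In ω x → a ≠ a' → ∀ v ∈ {v | (a, v) ∈ x.2.M ∧ (a', v) ∈ x.2.M}, In ω v :=
    ev_diag fun a => ev_diag fun a' => ev_diag fun x => by
      by_cases h : a = a'
      · exact Eventually.of_forall fun _ h' => absurd h h'
      · exact (ev_countable (x.2.cod a a' h)).mono fun _ h _ => h
  have g2 : ∀ᶠ ω : Om (QH × QC) in gen _, ∀ l : List LL, (∀ a ∈ l, In ω a) →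
      ∀ f ∈ {f : FinC LL | f.dom ⊆ {a | a ∈ l}}, In ω f :=
    ev_diag_list fun l => ev_countable (countable_dom l.finite_toSet.countable)
  have g3 : ∀ᶠ ω : Om (QH × QC) in gen _, ∀ f : FinC LL, In ω f → ∀ a ∈ f.dom, In ω a :=
    ev_diag fun f => ev_countable f.dom_finite.countable
  have g4 : ∀ n (f : FinC LL), ∀ᶠ ω : Om (QH × QC) in gen _, ∃ x ∈ ω.g, In ω x ∧
      ((∃ f', In ω f' ∧ ∃ hv, f' ≤ f ∧ (⟨x.1, x.2, f', hv⟩ : RR) ∈ D n) ∨
        ∀ y ≤ x, ¬ Valid y.2.d y.2.M f) := fun n f => by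
    have h1 : ∀ x : QH × QC, ∃ f' : FinC LL, (∃ f', ∃ hv, f' ≤ f ∧ (⟨x.1, x.2, f', hv⟩ : RR) ∈ D n) →
        ∃ hv, f' ≤ f ∧ (⟨x.1, x.2, f', hv⟩ : RR) ∈ D n := fun x => by
      by_cases h : ∃ f', ∃ hv, f' ≤ f ∧ (⟨x.1, x.2, f', hv⟩ : RR) ∈ D n
      · obtain ⟨f', h⟩ := h
        exact ⟨f', fun _ => h⟩
      · exact ⟨f, fun h' => absurd h' h⟩
    choose F hF using h1
    filter_upwards [ev_map (P := QH × QC) F, ev_dense (P := QH × QC) (D := {x | (∃ f', ∃ hv,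
      f' ≤ f ∧ (⟨x.1, x.2, f', hv⟩ : RR) ∈ D n) ∨ ∀ y ≤ x, ¬ Valid y.2.d y.2.M f}) fun x => by
        by_cases h : ∀ y ≤ x, ¬ Valid y.2.d y.2.M f
        · exact ⟨x, Or.inr h, le_rfl⟩
        push Not at h
        obtain ⟨y, h1, h2⟩ := h
        obtain ⟨r, h3, h4⟩ := hD n ⟨y.1, y.2, f, h2⟩
        obtain ⟨q', h5, h6, h7⟩ := QC.upgrade h3.2.1
        have h8 : q'.Le r.q := .of_eq h6.ge h7
        exact ⟨(r.c, q'), Or.inl ⟨r.f, h8.valid r.v, h3.2.2, ho n r h4 _ ⟨le_rfl, h8, le_rfl⟩⟩,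
          le_trans (show (r.c, q') ≤ y from ⟨h3.1, h5⟩) h1⟩] with ω h1 ⟨x, h2, h3, h4⟩
    exact ⟨x, h2, h4, h3.imp (fun h => ⟨_, h1 x h4, hF x h⟩) id⟩
  obtain ⟨ω, a0, a1, a2, a3, a4, a5, a6⟩ := exists_om (g1.and (g2.and (g3.and
    ((eventually_countable_forall.2 fun n => ev_diag (g4 n)).and (ev_dir.and
      (ev_in (c, q))))))) (c, q)
  let S := {x : QH × QC // x ∈ ω.g ∧ In ω x}
  have : Countable S := ((countable_In ω _).mono fun _ h => h.2 :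
    {x : QH × QC | x ∈ ω.g ∧ In ω x}.Countable).to_subtype
  have : Nonempty S := ⟨⟨_, a0, a6⟩⟩
  have hS : Directed (· ≥ ·) fun x : S => x.1 := fun x y =>
    let ⟨z, h1, h2, h3⟩ := a5 x.1 x.2.2 y.1 y.2.2 x.2.1 y.2.1; ⟨⟨z, h1, h2⟩, h3⟩
  obtain ⟨q', b1, b2⟩ := QC.exists_union (mk_le_aleph0.trans aleph0_le_mu)
    (s := fun x : S => x.1.2) (hS.mono_comp (f := fun x : S => x.1) _ fun _ _ h => h.2)
  let c' : QH := ⟨⋃ x : S, x.1.1.1, countable_iUnion fun x => x.1.1.2.1, fun i x y h h' => by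
    obtain ⟨u, hu⟩ := mem_iUnion.1 h
    obtain ⟨v, hv⟩ := mem_iUnion.1 h'
    obtain ⟨w, h1, h2⟩ := hS u v
    exact w.1.1.2.2 i x y (h1.1 hu) (h2.1 hv)⟩
  have b3 : ∀ x : S, c' ≤ x.1.1 := fun x => subset_iUnion (fun x : S => x.1.1.1) x
  have b4 : ∀ E ⊆ q'.d, E.Finite → ∃ x : S, E ⊆ x.1.2.d := fun E h1 h2 => by
    simpa using Directed.exists_mem_subset_of_finset_subset_biUnion (f := fun x : S => x.1.2.d)
      (hS.mono_comp (f := fun x : S => x.1) _ fun _ _ h => h.2.1.sub) (s := h2.toFinset)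
      (by simpa [← b2] using h1)
  refine ⟨c', b3 ⟨_, a0, a6⟩, q', b1 ⟨_, a0, a6⟩, {a | a ∈ q'.d ∧ In ω a}, fun _ h => h.1,
    (countable_In ω _).mono fun _ h => h.2, fun n r hr => ?_⟩
  have b5 : Good r.q.M {a | a ∈ q'.d ∧ In ω a} := fun v hv a ha a' ha' h1 h2 => by
    obtain ⟨x, hx⟩ := b4 {a, a'} (pair_subset ha.1 ha'.1) (toFinite _)
    have h3 := hr.2.1.trans (b1 x).1
    have h4 := hx (mem_insert _ _)
    have h5 := hx (mem_insert_of_mem _ rfl)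
    by_cases h6 : v ∈ x.1.2.d
    · by_contra h7
      exact hv ⟨(b1 x).1.sub h6, a1 a ha.2 a' ha'.2 x.1 x.2.2 h7 v
        ⟨(h3.agree _ h4 _ h6).1 h1, (h3.agree _ h5 _ h6).1 h2⟩⟩
    · exact h3.cl.good v h6 a h4 a' h5 h1 h2
  have b6 := r.v.res b5
  obtain ⟨x, b7⟩ := b4 _ (b6.dom.trans fun _ h => h.1) (dom_finite _)
  obtain ⟨l, hl⟩ := exists_list_eq (dom_finite (r.f.res {a | a ∈ q'.d ∧ In ω a}))
  obtain ⟨y, c1, c2, ⟨f, c3, c4, c5, c6⟩ | c3⟩ := a4 n _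
    (a2 l (fun a ha => (b6.dom ((hl a).1 ha)).2) _ fun a ha => (hl a).2 ha)
  · have c7 := (b1 ⟨y, c1, c2⟩).1
    have c8 : f.dom ⊆ {a | a ∈ q'.d ∧ In ω a} := fun a ha => ⟨c7.sub (c4.dom ha), a3 f c3 a ha⟩
    obtain ⟨h, c9, c10, c11, -⟩ := amalg' r.v (hr.2.1.valid (c7.valid c4)) c8 c5 b5
    exact ⟨f, c7.valid c4, c8, ho n _ c6 _ ⟨b3 ⟨y, c1, c2⟩, c7, le_rfl⟩, ⟨r.c, r.q, h, c9⟩,
      ⟨le_rfl, .refl _, c10⟩, c11⟩
  · obtain ⟨z, c4, c5⟩ := hS x ⟨y, c1, c2⟩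
    exact absurd (c4.2.1.valid (b6.congr b7 fun a ha b hb =>
      ((hr.2.1.trans (b1 x).1).agree a (b7 ha) b (b7 hb)).symm)) (c3 z.1 c5)

theorem dec_bit' {P : Type*} [Preorder P] {Y : Om P → C} (hY : Measurable Y) (n : ℕ) (p : P) :
    ∃ q ≤ p, ∃ b, Fc q fun ω => Y ω n = b := by
  obtain ⟨q, h1, h2 | h2⟩ := meas_dec (meas_bit hY n true) p
  exacts [⟨q, h1, true, h2⟩, ⟨q, h1, false, by simpa using h2⟩]

theorem key_real {Y : Om RR → C} (hY : Measurable Y) (c : QH) (q : QC) :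
    ∃ c' ≤ c, ∃ q' ≤ q, ∃ B ⊆ q'.d, B.Countable ∧ Fc (base c' q') fun ω => Y ω ∈ XA RR.f B ω := by
  obtain ⟨c', h1, q', h2, B, h3, h4, h5⟩ := master (fun n => {r | ∃ b, Fc r fun ω => Y ω n = b})
    (dec_bit' hY) (fun n r ⟨b, h⟩ r' h' => ⟨b, h.mono h'⟩) c q
  let σ : NM LL := fun n => {f | f.dom ⊆ B ∧ ∃ hv, Fc (⟨c', q', f, hv⟩ : RR) fun ω => Y ω n = true}
  have h6 : σ ∈ II B := fun n => ⟨(countable_dom h4).mono fun _ h => h.1, fun _ h => h.1⟩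
  refine ⟨c', h1, q', h2, B, h3, h4, ?_⟩
  filter_upwards [ev_mem_XA RR.f h6, Fc.all fun n => ev_dense_below (p := base c' q')
    (D := {r : RR | ∃ f hv, f.dom ⊆ B ∧ r.f ≤ f ∧ ∃ b,
      Fc (⟨c', q', f, hv⟩ : RR) fun ω => Y ω n = b}) fun r hr =>
      let ⟨f, hv, h7, h8, r', h9, h10⟩ := h5 n r hr; ⟨r', ⟨f, hv, h7, h10, h8⟩, h9⟩,
    eventually_countable_forall.2 fun n => eventually_countable_forall.2 fun b =>
      ev_forced' _ (meas_bit hY n b)] with ω a1 a2 a3 hp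
  have a4 : ∀ r ∈ ω.g, ∀ f hv, r.f ≤ f → (⟨c', q', f, hv⟩ : RR) ∈ ω.g := fun r hr f hv h =>
    let ⟨s, b1, b2, b3⟩ := ω.dir r hr _ hp; ω.up _ _ b1 ⟨b3.1, b3.2.1, b2.2.2.trans h⟩
  convert a1 using 1
  funext n
  rw [Bool.eq_iff_iff, xs_true]
  constructor
  · intro h
    obtain ⟨r, b1, ⟨f, hv, b2, b3, b, b4⟩, -⟩ := a2 hp n
    exact ⟨f, ⟨b2, hv, h.symm.trans (a3 n b _ (a4 r b1 f hv b3) b4) ▸ b4⟩, r, b1, b3⟩
  · rintro ⟨f, ⟨-, hv, b1⟩, r, b2, b3⟩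
    exact a3 n true _ (a4 r b2 f hv b3) b1

theorem cover {ι : Type} {n : ℕ} (hι : #ι ≤ kap n) {Y : ι → Om RR → C}
    (hY : ∀ i, Measurable (Y i)) (q : QC) : ∃ q' ≤ q, ∃ A ⊆ q'.d, #A ≤ kap n ∧
      ∀ i c, Fc (base c q') fun ω => Y i ω ∈ XA RR.f A ω := by
  have h1 : #(ι × QH) ≤ kap n := by
    simpa using (mul_le_mul' hι (mk_QH.trans (c_le_kap n))).trans (mul_eq_self (aleph0_le_kap n)).le
  obtain ⟨q', h2, h3⟩ := QC.dense_inter (h1.trans (kap_le_mu n)) q (D := fun j => {q' | ∃ c' ≤ j.2,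
    ∃ B ⊆ q'.d, B.Countable ∧ Fc (base c' q') fun ω => Y j.1 ω ∈ XA RR.f B ω}) fun j b =>
      let ⟨c', h1, q', h2, h3⟩ := key_real (hY j.1) j.2 b; ⟨q', h2, c', h1, h3⟩
  choose b h3 h4 using h3
  choose c h5 B h6 h7 h8 using h3
  refine ⟨q', h2, ⋃ j, B j, iUnion_subset fun j => (h6 j).trans (h4 j).1.sub,
    mk_iUnion_le' (aleph0_le_kap n) h1 fun j => (le_aleph0_iff_set_countable.2 (h7 j)).trans
      (aleph0_le_kap n), fun i c0 => Fc.of_dense fun r hr => ⟨⟨c (i, r.c), r.q, r.f, r.v⟩,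
    ⟨h5 _, .refl _, le_rfl⟩, ((h8 (i, r.c)).mono (q := ⟨c (i, r.c), r.q, r.f, r.v⟩)
      ⟨le_rfl, hr.2.1.trans (h4 _).1, le_top⟩).imp
      (Eventually.of_forall fun ω h => XA_mono _ (subset_iUnion B _) ω h)⟩⟩

end Pool.Agent.MP_e75763_lc

end MrgPart2

-- ======== part 3: formerly Pool.Agent.MP_e75763_lc.Good
section MrgPart3

/-! Small sets of reals have a well-ordering with countably many smaller neighbours. -/

namespace Pool.Agent.MP_e75763_lc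

open Set Filter FinC Cardinal

theorem ev_witness {P : Type} [Preorder P] {T : Type*} [Cd P T] (Φ : T → Prop) :
    ∀ᶠ ω : Om P in gen P, (∃ x, Φ x) → ∃ x, In ω x ∧ Φ x := by
  by_cases h : ∃ x, Φ x
  · obtain ⟨x, hx⟩ := h
    exact (ev_in x).mono fun _ h _ => ⟨x, h, hx⟩
  · exact Eventually.of_forall fun _ h' => absurd h' h

theorem ev_ctb_iUnion {P : Type} [Preorder P] {ι : Type} {I : Set ι} (hI : I.Countable)
    {S : ι → Om P → Set C}
    (hS : ∀ i (Y : Om P → C), Measurable Y → Measurable fun ω => Y ω ∈ S i ω) :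
    ∀ᶠ ω : Om P in gen P, (∀ i ∈ I, S i ω ⊆ RM ω ∧ Ctb ω (S i ω)) →
      Ctb ω {x | ∃ i ∈ I, x ∈ S i ω} := by
  let y : ι → Om P → C := fun i ω => sel ω fun y => ∀ x ∈ RM ω, x ∈ S i ω → ∃ n, col n y = x
  filter_upwards [ev_ctb_count (hI.prod (countable_univ (α := ℕ)))
    (s := fun k ω => col k.2 (y k.1 ω)) fun k => (meas_col _).fun_comp (meas_sel fun Y hY =>
      meas_forall_RM fun A hA => (hS _ A hA).imp
        (Measurable.exists fun n => meas_eqC ((meas_col n).fun_comp hY) hA))] with ω h1 h2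
  refine h1.mono ?_
  rintro x ⟨i, hi, hx⟩
  obtain ⟨h3, y0, h4, h5⟩ := h2 i hi
  obtain ⟨n, hn⟩ := (sel_spec (S := fun y => ∀ x ∈ RM ω, x ∈ S i ω → ∃ n, col n y = x)
    ⟨y0, h4, fun x _ => h5 x⟩).2 x (h3 hx) hx
  exact ⟨(i, n), ⟨hi, trivial⟩, hn.symm⟩

theorem meas_Nb {α : Type*} [MeasurableSpace α] {t x y : α → C} (ht : Measurable t)
    (hx : Measurable x) (hy : Measurable y) : Measurable fun a => Nb (t a) (x a) (y a) :=
  Measurable.exists fun c => (meas_Adj ht hx hy c).or (meas_Adj ht hy hx c)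

def QC.F (q : QC) (l : List LL) : Set LL := codF q.M l ∪ ⋃ a ∈ {a | a ∈ l}, q.o a ∩ q.d

theorem QC.F_countable (q : QC) (l : List LL) : (q.F l).Countable :=
  (q.cod.countable l).union (l.finite_toSet.countable.biUnion fun a _ =>
    (q.oc a).mono inter_subset_left)

theorem QC.clo_sub (q : QC) {S : Set LL} (h : S ⊆ q.d) : clo q.F S ⊆ q.d :=
  clo_min h fun _ _ => union_subset (fun _ ⟨_, _, _, _, _, h, _⟩ => (q.sub _ _ h).2)
    (iUnion₂_subset fun _ _ => inter_subset_right)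

theorem QC.sub_clo (q : QC) (S : Set LL) : Sub q.M (clo q.F S) := by
  refine ⟨good_of fun l hl => subset_union_left.trans (clo_step (F := q.F) hl),
    fun v hv => (q.oc v).mono fun b hb => (q.ori _ _ hb.2).resolve_left fun h => hv ?_⟩
  exact clo_step (l := [b]) (by simpa using hb.1) (Or.inr (by simpa using ⟨h, (q.sub _ _ hb.2).1⟩))

/-- the generic graph parameter -/
noncomputable abbrev TT : Om RR → C := xs RR.f (tn LL)

def Rank (p : RR) (A : Set LL) {W : Type} [LinearOrder W] (ρ : Om RR → C → W) : Prop :=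
  (∀ Y, Measurable Y → DV fun ω => ρ ω (Y ω)) ∧ Fc p fun ω => InjOn (ρ ω) (XA RR.f A ω) ∧
    ∀ v ∈ XA RR.f A ω, Ctb ω {u | u ∈ XA RR.f A ω ∧ ρ ω u ≤ ρ ω v ∧ Nb (TT ω) u v}

theorem mk_II {A : Set LL} (hA : #A ≤ 𝔠) : #(II A) ≤ #C := by
  have h1 := mk_ctb_le (mk_dom_le aleph0_le_continuum hA)
  refine (mk_le_of_injective (f := fun (σ : II A) (n : ℕ) =>
    (⟨σ.1 n, (σ.2 n).2, (σ.2 n).1⟩ : {t | t ⊆ {f : FinC LL | f.dom ⊆ A} ∧ t.Countable}))
    fun σ τ h => Subtype.ext (funext fun n => congrArg Subtype.val (congrFun h n))).trans ?_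
  rw [← power_def, mk_nat]
  exact (power_le_power_right h1).trans (by simp)

theorem rank_zero (p : RR) {A : Set LL} (hA : #A ≤ 𝔠) : ∃ ρ : Om RR → C → W1, Rank p A ρ := by
  classical
  obtain ⟨e⟩ := mk_II hA
  have : Nonempty (II A) := ⟨⟨_, tn_mem A⟩⟩
  let E : C → NM LL := fun y => (Function.invFun e y).1
  let Φ : W1 → Om RR → C → Prop := fun i ω v =>
    ∃ y, In ω y ∧ (∃ r ∈ ω.g, r ∈ {r : RR | (i, y) ∈ r.c.1}) ∧ xs RR.f (E y) ω = v
  have hΦ : ∀ i ω v v', Φ i ω v → Φ i ω v' → v = v' := by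
    rintro i ω _ _ ⟨y, -, ⟨r, h1, h2⟩, rfl⟩ ⟨y', -, ⟨r', h3, h4⟩, rfl⟩
    obtain ⟨s, -, h5, h6⟩ := ω.dir r h1 r' h3
    rw [s.c.2.2 i y y' (h5.1 h2) (h6.1 h4)]
  refine ⟨fun ω v => least wellFounded_lt (Classical.arbitrary _) ω fun i => Φ i ω v, fun Y hY =>
    least_dv _ _ (Φ := fun i ω => Φ i ω (Y ω)) fun i => meas_exists fun y =>
      (meas_exists_g _).and (meas_eqC (meas_xs _ _) hY), Fc.of_ev ?_⟩
  have h1 : ∀ y : C, ∀ᶠ ω : Om RR in gen RR, ∃ i : W1, In ω i ∧ ∃ r ∈ ω.g, (i, y) ∈ r.c.1 := by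
    intro y
    filter_upwards [ev_diag fun r : RR => ev_witness fun i : W1 => (i, y) ∈ r.c.1,
      ev_dense (D := {r : RR | ∃ i, (i, y) ∈ r.c.1}) fun r => by
        obtain ⟨i, hi⟩ : ∃ i, i ∉ Prod.fst '' r.c.1 := by
          by_contra h
          push Not at h
          exact not_countable_univ ((r.c.2.1.image _).mono fun i _ => h i)
        refine ⟨⟨⟨insert (i, y) r.c.1, r.c.2.1.insert _, ?_⟩, r.q, r.f, r.v⟩, ⟨i, Or.inl rfl⟩,
          subset_insert _ _, .refl _, le_rfl⟩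
        rintro j x x' (h | h) (h' | h')
        · exact (congrArg Prod.snd h).trans (congrArg Prod.snd h').symm
        · exact absurd ⟨_, h', congrArg Prod.fst h⟩ hi
        · exact absurd ⟨_, h, congrArg Prod.fst h'⟩ hi
        · exact r.c.2.2 _ _ _ h h'] with ω h1 ⟨r, h2, h3, h4⟩
    obtain ⟨i, h5, h6⟩ := h1 r h4 h3
    exact ⟨i, h5, r, h2, h6⟩
  filter_upwards [ev_diag h1, ev_diag fun σ : NM LL => ev_witness fun y : C => E y = σ,
    ev_diag fun i : W1 => ev_ctb_count (countable_Iic i) (s := fun j ω n => decide (∃ y, In ω y ∧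
      (∃ r ∈ ω.g, r ∈ {r : RR | (j, y) ∈ r.c.1}) ∧ xs RR.f (E y) ω n = true)) fun j =>
      measurable_pi_lambda _ fun n => meas_decide (meas_exists fun y =>
        (meas_exists_g _).and (meas_bit (meas_xs _ _) n true))] with ω a1 a2 a3
  have a4 : ∀ v ∈ XA RR.f A ω, ∃ i, In ω i ∧ Φ i ω v := by
    rintro _ ⟨σ, b1, b2, rfl⟩
    obtain ⟨y, b3, rfl⟩ := a2 σ b1 ⟨e ⟨σ, b2⟩, congrArg Subtype.val
      (Function.leftInverse_invFun e.injective _)⟩
    obtain ⟨i, b4, b5⟩ := a1 y b3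
    exact ⟨i, b4, y, b3, b5, rfl⟩
  refine ⟨fun u hu v hv h => hΦ _ ω _ _
    (least_spec wellFounded_lt (Classical.arbitrary _) (a4 u hu)).2.1 ?_,
    fun v hv => (a3 _ (least_spec wellFounded_lt (Classical.arbitrary _) (a4 v hv)).1).mono ?_⟩
  · dsimp only at h
    rw [h]
    exact (least_spec _ _ (a4 v hv)).2.1
  rintro u ⟨b1, b2, -⟩
  refine ⟨_, b2, funext fun n => ?_⟩
  have b3 := (least_spec wellFounded_lt (Classical.arbitrary _) (a4 u b1)).2.1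
  rw [Bool.eq_iff_iff, decide_eq_true_eq]
  exact ⟨fun h => let ⟨y, b4, b5, b6⟩ := b3; ⟨y, b4, b5, b6 ▸ h⟩,
    fun ⟨y, b4, b5, b6⟩ => hΦ _ ω _ _ ⟨y, b4, b5, rfl⟩ b3 ▸ b6⟩

theorem exists_bound {κ : Cardinal.{0}} (hκ : ℵ₀ ≤ κ) {S : Set (Order.succ κ).ord.ToType}
    (hS : S.Countable) : ∃ ζ, ∀ s ∈ S, s < ζ := by
  by_contra h
  push Not at h
  have := hS.to_subtype
  have h1 : #(⋃ s : S, Iic s.1) ≤ κ := mk_iUnion_le' hκ (mk_le_aleph0.trans hκ) fun s => by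
    rw [← Iio_insert]
    exact mk_insert_le.trans (add_le_of_le hκ (mk_Iio_le_of_succ rfl _) (one_le_aleph0.trans hκ))
  rw [eq_univ_of_forall fun ζ => let ⟨s, h1, h2⟩ := h ζ; mem_iUnion.2 ⟨⟨s, h1⟩, h2⟩] at h1
  simp at h1

def supp {Λ : Type} (σ : NM Λ) : Set Λ := ⋃ n, ⋃ f ∈ σ n, dom f

theorem supp_countable {Λ : Type} {σ : NM Λ} {A : Set Λ} (h : σ ∈ II A) : (supp σ).Countable :=
  countable_iUnion fun n => (h n).1.biUnion fun f _ => f.dom_finite.countable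

theorem supp_subset {Λ : Type} {σ : NM Λ} {A : Set Λ} (h : σ ∈ II A) : supp σ ⊆ A :=
  iUnion_subset fun n => iUnion₂_subset (h n).2

theorem II_of_supp {Λ : Type} {σ : NM Λ} {A B : Set Λ} (h : σ ∈ II A) (h' : supp σ ⊆ B) :
    σ ∈ II B := fun n => ⟨(h n).1, fun f hf =>
  (subset_iUnion_of_subset n (subset_biUnion_of_mem (u := dom) hf)).trans h'⟩

theorem exists_rank (c : QH) (q : QC) (n : ℕ) : ∃ (W : Type) (_ : LinearOrder W)
    (_ : WellFoundedLT W), ∀ S ⊆ q.d, #S ≤ kap n →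
      ∃ ρ : Om RR → C → W, Rank (base c q) (clo q.F S) ρ := by
  induction n with
  | zero => exact ⟨W1, inferInstance, inferInstance, fun S _ h =>
      rank_zero _ (mk_clo_le q.F_countable aleph0_le_continuum h)⟩
  | succ n ih =>
  obtain ⟨W, _, _, ih⟩ := ih
  let K := (Order.succ (kap n)).ord.ToType
  refine ⟨K ×ₗ W, inferInstance, inferInstance, fun S hS hc => ?_⟩
  obtain ⟨e⟩ : #(clo q.F S) ≤ #K :=
    (mk_clo_le q.F_countable (aleph0_le_kap _) hc).trans_eq (by simp [K, kap])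
  let B : K → Set LL := fun ζ => Subtype.val '' (e ⁻¹' Iio ζ)
  have hB : ∀ ζ, B ζ ⊆ clo q.F S := fun ζ => Subtype.coe_image_subset _ _
  have hBm : ∀ ξ ζ, ξ ≤ ζ → clo q.F (B ξ) ⊆ clo q.F (B ζ) := fun ξ ζ h =>
    clo_mono (image_mono (preimage_mono (Iio_subset_Iio h)))
  have hBd : ∀ ζ, B ζ ⊆ q.d := fun ζ => (hB ζ).trans (q.clo_sub hS)
  choose ρ hρ1 hρ2 using fun ζ => ih (B ζ) (hBd ζ) (mk_image_le.trans
    ((mk_preimage_of_injective _ _ e.injective).trans (mk_Iio_le_of_succ rfl ζ)))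
  have s1 : ∀ σ ∈ II (clo q.F S), ∃ ζ, σ ∈ II (clo q.F (B ζ)) := fun σ hσ => by
    obtain ⟨ζ, hζ⟩ := exists_bound (aleph0_le_kap n)
      (((supp_countable hσ).preimage Subtype.val_injective).image e)
    exact ⟨ζ, II_of_supp hσ fun a ha => subset_clo _
      ⟨⟨a, supp_subset hσ ha⟩, hζ _ ⟨_, ha, rfl⟩, rfl⟩⟩
  have s2 : ∀ ζ, ∀ τ ∈ II (clo q.F (B ζ)), (∃ ξ < ζ, τ ∈ II (clo q.F (B ξ))) ∨
      ∃ Ξ ⊆ Iio ζ, Ξ.Countable ∧ ∀ ξ < ζ, ∃ ξ' ∈ Ξ, ξ ≤ ξ' := fun ζ τ hτ => by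
    choose! G h1 h2 h3 using fun a (ha : a ∈ supp τ) => clo_fin (supp_subset hτ ha)
    refine or_iff_not_imp_right.2 fun h => ?_
    push Not at h
    obtain ⟨ξ, h4, h5⟩ := h (e '' (Subtype.val ⁻¹' ⋃ a ∈ supp τ, G a)) (by
      rintro _ ⟨x, hx, rfl⟩
      obtain ⟨a, ha, h4⟩ := mem_iUnion₂.1 hx
      obtain ⟨y, h5, h6⟩ := h1 a ha h4
      exact Subtype.ext h6 ▸ h5) ((((supp_countable hτ).biUnion fun a ha =>
        (h2 a ha).countable).preimage Subtype.val_injective).image e)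
    exact ⟨ξ, h4, II_of_supp hτ fun a ha => clo_mono (S' := B ξ) (fun x hx => ⟨⟨x, hB ζ (h1 a ha hx)⟩,
      h5 _ ⟨_, mem_iUnion₂.2 ⟨a, ha, hx⟩, rfl⟩, rfl⟩) (h3 a ha)⟩
  have s3 : ∀ (ζ : K) (τ : NM LL), Fc (base c q) fun ω => τ ∈ II (clo q.F (B ζ)) →
      (∀ ξ < ζ, In ω ξ → xs RR.f τ ω ∉ XA RR.f (clo q.F (B ξ)) ω) →
      Ctb ω {u | ∃ ξ < ζ, u ∈ XA RR.f (clo q.F (B ξ)) ω ∧ Nb (TT ω) u (xs RR.f τ ω)} :=
    fun ζ τ => Fc.hyp fun hτ => by
      rcases s2 ζ τ hτ with ⟨ξ, h1, h2⟩ | ⟨Ξ, h1, h2, h3⟩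
      · filter_upwards [ev_in (P := RR) ξ, ev_mem_XA RR.f h2] with ω h3 h4 _ h5
        exact absurd h4 (h5 ξ h1 h3)
      filter_upwards [(eventually_countable_ball h2).2 fun ξ _ => (prj_RR c q).few q.cod
        (q.clo_sub (hBd ξ)) (q.sub_clo _).good (q.sub_clo _).few (II_mono (q.clo_sub (hBd ζ)) hτ),
        ev_countable (P := RR) h2, ev_XA RR.f, ev_ctb_iUnion h2 (S := fun ξ ω =>
          {u | u ∈ XA RR.f (clo q.F (B ξ)) ω ∧ Nb (TT ω) u (xs RR.f τ ω)}) fun ξ Y hY =>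
          (meas_XA _ _ Y hY).and (meas_Nb (meas_xs _ _) hY (meas_xs _ _))]
        with ω a1 a2 a3 a4 hp a5
      refine (a4 fun ξ hξ => ⟨fun u hu => a3 _ hu.1, a1 ξ hξ hp (a5 ξ (h1 hξ) (a2 ξ hξ))⟩).mono ?_
      rintro u ⟨ξ, b1, b2, b3⟩
      obtain ⟨ξ', b4, b5⟩ := h3 ξ b1
      exact ⟨ξ', b4, XA_mono _ (hBm _ _ b5) ω b2, b3⟩
  have : Nonempty K := Ordinal.nonempty_toType_iff.2 (by simp)
  let z : Om RR → C → K := fun ω v => least wellFounded_lt (Classical.arbitrary _) ω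
    fun ζ => v ∈ XA RR.f (clo q.F (B ζ)) ω
  refine ⟨fun ω v => toLex (z ω v, ρ (z ω v) ω v), fun Y hY => (least_dv _ _ (Φ := fun ζ ω =>
    Y ω ∈ XA RR.f (clo q.F (B ζ)) ω) fun ζ => meas_XA _ _ Y hY).subst_dv
      (K := fun ζ ω => toLex (ζ, ρ ζ ω (Y ω))) fun ζ => (hρ1 ζ Y hY).map fun w => toLex (ζ, w), ?_⟩
  filter_upwards [Fc.diag hρ2, Fc.diag fun ζ => Fc.diag (s3 ζ), ev_diag fun σ : NM LL =>
    ev_witness fun ζ : K => σ ∈ II (clo q.F (B ζ)), ev_ctb_union (P := RR)] with ω a1 a2 a3 a4 hp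
  have a5 : ∀ v ∈ XA RR.f (clo q.F S) ω, In ω (z ω v) ∧ v ∈ XA RR.f (clo q.F (B (z ω v))) ω ∧
      ∀ ξ, In ω ξ → v ∈ XA RR.f (clo q.F (B ξ)) ω → ¬ ξ < z ω v := by
    rintro _ ⟨σ, b1, b2, rfl⟩
    obtain ⟨ζ, b3, b4⟩ := a3 σ b1 (s1 σ b2)
    exact least_spec _ _ ⟨ζ, b3, σ, b1, b4, rfl⟩
  refine ⟨fun u hu v hv h => ?_, fun v hv => ?_⟩
  · simp only [toLex_inj, Prod.mk.injEq] at h
    exact (a1 hp _ (a5 v hv).1).1 (h.1 ▸ (a5 u hu).2.1) (a5 v hv).2.1 (h.1 ▸ h.2)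
  · obtain ⟨b1, b2, b3⟩ := a5 v hv
    obtain ⟨τ, b4, b5, b6⟩ := id b2
    have b7 := a2 hp _ b1 τ b4 b5
    rw [b6] at b7
    refine (a4 _ _ (b7 fun ξ h1 h2 h3 => b3 ξ h2 h3 h1) ((a1 hp _ b1).2 v b2)).mono ?_
    rintro u ⟨b8, b9, b10⟩
    rcases Prod.Lex.toLex_le_toLex.1 b9 with h | ⟨h, h'⟩
    · exact Or.inl ⟨_, h, (a5 u b8).2.1, b10⟩
    · dsimp only at h h'
      exact Or.inr ⟨h ▸ (a5 u b8).2.1, h ▸ h', b10⟩

end Pool.Agent.MP_e75763_lc

end MrgPart3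

-- ======== part 4: formerly Pool.Agent.MP_e75763_lc.Line
section MrgPart4

-- ======== part 0: formerly Pool.Agent.MP_e75763_lc.ModeB
section MrgPart0

/-! The model in which a definable group is `ℵ_ω`-free and not free. -/

namespace Pool.Agent.MP_e75763_lc

open Set Filter FinC Cardinal

def cbot : QH := ⟨∅, countable_empty, fun _ _ _ h => h.elim⟩

theorem le_base (r : RR) {c : QH} {q q' : QC} (h1 : c ≤ r.c) (h2 : q'.Le r.q) (h3 : q'.Le q) :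
    ∃ r' ≤ r, r' ≤ base c q :=
  ⟨⟨c, q', r.f, h2.valid r.v⟩, ⟨h1, h2, le_rfl⟩, le_rfl, h3, le_top⟩

theorem gen_RR (c : QH) (q : QC) {A : Set LL} (hA : A ⊆ q.d) (hg : Good q.M A) {δ : LL}
    (h1 : δ ∈ q.d) (h2 : δ ∉ A) : Fc (base c q) fun ω => xs RR.f (vn δ) ω ∉ XA RR.f A ω :=
  (prj_RR c q).gen hA hg h1 h2 (q.irr δ)

theorem ev_card (n : ℕ) : ∀ᶠ ω : Om RR in gen RR, CardIn (MM ω) (cv ω (kap (n + 1)).ord) := by
  classical
  have key : ∀ (F : Name RR) (β : Ordinal.{0}), ∀ᶠ ω : Om RR in gen RR, β < (kap (n + 1)).ord →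
      ¬ (ZFSet.IsFunc (cv ω (kap (n + 1)).ord) (cv ω β) (val ω F) ∧
        ∀ x y z, ZFSet.pair x z ∈ val ω F → ZFSet.pair y z ∈ val ω F → x = y) := fun F β => by
    by_cases hβ : β < (kap (n + 1)).ord
    swap
    · exact Eventually.of_forall fun _ h => absurd h hβ
    refine ev_of_dense fun r => ?_
    obtain ⟨S, h1, h2⟩ := exists_fresh r.q.hd (kap_le_mu (n + 1))
    obtain ⟨e⟩ := Cardinal.eq.1 (show #(kap (n + 1)).ord.ToType = #S by simp [h2])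
    let Y : Ordinal.{0} → Om RR → C := fun γ ω m => decide (∃ α : (kap (n + 1)).ord.ToType,
      In ω α ∧ ZFSet.pair (cv ω α) (cv ω γ) ∈ val ω F ∧ xs RR.f (vn (e α).1) ω m = true)
    obtain ⟨q, h3, A, h4, h5, h6⟩ := cover (ι := β.ToType) (n := n)
      (by simpa [kap] using lt_ord.1 hβ) (Y := fun t => Y t) (fun t => measurable_pi_lambda _
        fun m => meas_decide (meas_exists fun α => (((named_cv _).pair (named_cv _)).meas_mem
          (Named.val F)).and (meas_bit (meas_xs _ _) m true)))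
      (r.q.add S (h2.trans_le (kap_le_mu _)))
    obtain ⟨a, h7, h8⟩ : ∃ a ∈ S, a ∉ clo q.F A := not_subset.1 fun h =>
      (kap_strictMono (Nat.lt_succ_self n)).not_ge (h2 ▸ (mk_le_mk_of_subset h).trans
        (mk_clo_le q.F_countable (aleph0_le_kap n) h5))
    obtain ⟨r', h9, h10⟩ := le_base r le_rfl (h3.trans (r.q.add_le _ _)).1 (.refl q)
    refine ⟨r', h9, Fc.mono ?_ h10⟩
    obtain ⟨α, hα⟩ := e.surjective ⟨a, h7⟩
    have h11 : ∀ γ : Ordinal.{0}, Fc (base r.c q) fun ω => γ < β → Y γ ω ∈ XA RR.f A ω :=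
      fun γ => Fc.hyp fun h => by simpa using h6 (Ordinal.ToType.mk ⟨γ, h⟩) r.c
    filter_upwards [Fc.diag h11, gen_RR r.c q (q.clo_sub h4) (q.sub_clo A).good
      (h3.1.sub (Or.inr h7)) h8, ev_in (P := RR) α,
      ev_map (P := RR) fun α : (kap (n + 1)).ord.ToType => (α : Ordinal)]
      with ω a1 a2 a3 a4 hp _ ⟨a5, a6⟩
    obtain ⟨w, a7, -⟩ := a5.2 _ ((cv_mem_iff (a4 α a3)).2 α.toOrd.2)
    obtain ⟨γ, a8, a9, rfl⟩ := mem_cv.1 (ZFSet.pair_mem_prod.1 (a5.1 a7)).2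
    refine a2 hp (XA_mono _ (subset_clo A) ω ?_)
    convert a1 hp γ a9 a8 using 1
    funext m
    rw [Bool.eq_iff_iff, decide_eq_true_eq]
    refine ⟨fun h => ⟨α, a3, a7, by rwa [hα]⟩, fun ⟨α', b1, b2, b3⟩ => ?_⟩
    obtain rfl : α' = α := Ordinal.ToType.mk.symm.injective
      (Subtype.ext (cv_inj (a4 _ b1) (a4 _ a3) (a6 _ _ _ b2 a7)))
    rwa [hα] at b3
  filter_upwards [ev_diag fun F : Name RR => ev_diag (key F), (named_cv _).mem_MM] with ω h1 h2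
  refine ⟨h2, cv_ord _ _, fun b hb ⟨_, ⟨F, h3, rfl⟩, h4⟩ => ?_⟩
  obtain ⟨β, h5, h6, rfl⟩ := mem_cv.1 hb
  exact h1 F h3 β h6 h5 h4

theorem cv_nat {P : Type} [Preorder P] {ω : Om P} (h : ∀ n : ℕ, In ω (n : Ordinal.{0})) (n : ℕ) :
    cv ω n = Ordinal.toZFSet n := by
  induction n using Nat.strong_induction_on with
  | h n ih =>
    ext z
    rw [mem_cv, Ordinal.mem_toZFSet_iff]
    constructor
    · rintro ⟨γ, h1, -, rfl⟩
      obtain ⟨m, rfl⟩ := Ordinal.lt_omega0.1 (h1.trans (Ordinal.natCast_lt_omega0 n))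
      exact ⟨m, h1, (ih m (by simpa using h1)).symm⟩
    · rintro ⟨γ, h1, rfl⟩
      obtain ⟨m, rfl⟩ := Ordinal.lt_omega0.1 (h1.trans (Ordinal.natCast_lt_omega0 n))
      exact ⟨m, h1, h m, ih m (by simpa using h1)⟩

theorem ev_below : ∀ᶠ ω : Om RR in gen RR, ∀ z, BelowAlephOmega (MM ω) z →
    ∃ n, ∃ β < (kap n).ord, In ω β ∧ InjIn (MM ω) z (cv ω β) := by
  filter_upwards [eventually_countable_forall.2 ev_card, ev_ord (P := RR),
    eventually_countable_forall.2 fun n : ℕ => ev_in (P := RR) (n : Ordinal.{0}),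
    eventually_countable_forall.2 fun n : ℕ => ev_in (P := RR) (kap (n + 1)).ord]
    with ω h1 h2 h3 h4 z ⟨α, h5, h6, h7, h8⟩
  obtain ⟨β, h9, rfl⟩ := h2 α h5 h6
  by_contra h10
  refine (infinite_of_injective_forall_mem (f := fun n => cv ω (kap (n + 1)).ord)
    (fun n m h => ?_) fun n => ?_) h8
  swap
  refine ⟨h1 n, fun x hx => ?_, cv_mono ω (not_lt.1 fun h => h10 ⟨_, β, h, h9, h7⟩)⟩
  swap
  · simpa using kap_strictMono.injective (ord_injective (cv_inj (h4 n) (h4 m) h))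
  · obtain ⟨γ, h11, rfl⟩ := Ordinal.mem_toZFSet_iff.1 hx
    obtain ⟨m, rfl⟩ := Ordinal.lt_omega0.1 h11
    rw [← cv_nat h3, cv_mem_iff (h3 m)]
    exact h11.trans_le (by simpa using ord_le_ord.2 (aleph0_le_kap (n + 1)))

def fs (p : C) : C := fun n => p (2 * n)

def sn (p : C) : C := fun n => p (2 * n + 1)

def pr (x y : C) : C := fun n => if n % 2 = 0 then x (n / 2) else y (n / 2)

@[simp] theorem fs_pr (x y : C) : fs (pr x y) = x := by
  funext n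
  simp [fs, pr]

@[simp] theorem sn_pr (x y : C) : sn (pr x y) = y := by
  funext n
  have : (2 * n + 1) / 2 = n := by omega
  simp [sn, pr, this]

theorem fs_sn_inj {p p' : C} (h1 : fs p = fs p') (h2 : sn p = sn p') : p = p' := by
  funext n
  rcases Nat.even_or_odd' n with ⟨k, rfl | rfl⟩
  exacts [congrFun h1 k, congrFun h2 k]

theorem cont_fs : Continuous fs := continuous_pi fun _ => continuous_apply _

theorem cont_sn : Continuous sn := continuous_pi fun _ => continuous_apply _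

theorem meas_pr {α : Type*} [MeasurableSpace α] {x y : α → C} (hx : Measurable x)
    (hy : Measurable y) : Measurable fun a => pr (x a) (y a) :=
  measurable_pi_lambda _ fun n => by
    unfold pr
    split_ifs
    exacts [(measurable_pi_apply _).comp hx, (measurable_pi_apply _).comp hy]

open Classical in
noncomputable def datB (t : C) : Dat where
  own e i := if Adj t e.2 (fs e.1) (sn e.1) then cond i (sn e.1, 1) (fs e.1, 0)
    else (e.1, cond i 3 2)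
  oth e i := if Adj t e.2 (fs e.1) (sn e.1) then cond i (fs e.1) (sn e.1) else e.1
  inj e e' i i' h1 h2 h3 := by
    refine Prod.ext ?_ h2
    split_ifs at h1 h3 <;> cases i <;> cases i' <;> simp at h1 h3
    exacts [fs_sn_inj h1 h3, fs_sn_inj h3 h1, h3, h3]
  ne e := by split_ifs <;> simp

theorem lc_edge (c : ℕ) : LC fun p : C × C => Adj p.1 c (fs p.2) (sn p.2) :=
  LC.closed (closed_Adj continuous_fst (cont_fs.comp continuous_snd)
    (cont_sn.comp continuous_snd) c)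

open Classical in
noncomputable def modeB : Mode where
  D := datB
  pown c i := by
    simp only [datB, apply_ite Prod.fst]
    refine PC.ite (lc_edge c) (PC.of_cont ?_) (PC.of_cont continuous_snd)
    cases i
    exacts [cont_fs.comp continuous_snd, cont_sn.comp continuous_snd]
  lown c i := by
    have := (lc_edge c).map fun a : Prop => if a then cond i 1 0 else cond i 3 2
    cases i <;> simpa only [datB, apply_ite Prod.snd, cond] using this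
  poth c i := by
    simp only [datB]
    refine PC.ite (lc_edge c) (PC.of_cont ?_) (PC.of_cont continuous_snd)
    cases i
    exacts [cont_sn.comp continuous_snd, cont_fs.comp continuous_snd]

theorem side_le {W : Type} [LinearOrder W] (D : Dat) (ρ : C → W) (e : C × ℕ) :
    ρ (D.own e (!D.side ρ e)).1 ≤ ρ (D.own e (D.side ρ e)).1 := by
  have : okey ρ (D.own e (!D.side ρ e)) ≤ okey ρ (D.own e (D.side ρ e)) := by
    by_cases h : okey ρ (D.own e false) < okey ρ (D.own e true)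
    · simpa [Dat.side, h] using h.le
    · simpa [Dat.side, h] using not_lt.1 h
  exact (Prod.Lex.toLex_le_toLex.1 this).elim le_of_lt fun h => h.1.le

variable {X : Type} [MeasurableSpace X] [StandardBorelSpace X] {c : X → ZFSet.{0}}

omit [StandardBorelSpace X] in
theorem free_B (hc : CodeOK c) (φ : X ≃ᵐ C) (a : Name RR) (c0 : QH) (q : QC) {A : Set LL}
    (hA : A ⊆ q.d) {n : ℕ} (hn : #A ≤ kap n) : Fc (base c0 q) fun ω =>
      Hs c φ a ω ⊆ XA RR.f A ω → ∃ B ⊆ RM ω, (∃ z ∈ MM ω, ∀ w, w ∈ z ↔ ∃ x ∈ B, c (φ.symm x) = w) ∧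
        IsBas modeB (TT ω) (RM ω) B (Hs c φ a ω) := by
  obtain ⟨W, _, _, h1⟩ := exists_rank c0 q n
  obtain ⟨ρ, h2, h3⟩ := h1 A hA hn
  obtain ⟨Bs, h4, h5, h6⟩ := modeB.exists_free (meas_xs RR.f (tn LL))
    (meas_XA RR.f (clo q.F A)) (meas_Hs hc φ a) (ρ := ρ) fun Y Y' hY hY' =>
      (h2 Y hY).subst (Φ := fun w ω => w < ρ ω (Y' ω)) fun w =>
        (h2 Y' hY').subst (Φ := fun w' _ => w < w') fun _ => measurable_const
  obtain ⟨b, hb⟩ := compr (P := RR) (K := RN RR) (Y := fun σ ω => c (φ.symm (ev σ ω)))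
    (fun σ => named_code hc φ (meas_ev σ)) (Φ := fun σ ω => ev σ ω ∈ Bs ω)
    fun σ => h4 _ (meas_ev σ)
  obtain ⟨men, hm1, hm2⟩ := (modeB.rep_Psi (Y := C × C) continuous_fst continuous_snd).mention
  have hp := (prj_RR c0 q).sub (q.clo_sub hA) (q.sub_clo A).good
  filter_upwards [h3, hb, (Named.val b).mem_MM, ev_XA RR.f, ev_ctb_union (P := RR),
    ev_ctb_singleton (P := RR), ev_mem_XA RR.f (tn_mem (clo q.F A)),
    Fc.all fun k => hp.closed q.cod (φ := fun p => men k (p.1, p.2.1))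
      ((hm1 k).fun_comp (measurable_fst.prodMk (measurable_fst.comp measurable_snd))),
    Fc.all fun k : ℕ × Bool => hp.closed q.cod (modeB.meas_own1 measurable_fst
      (measurable_fst.comp measurable_snd) k.1 k.2)]
    with ω a1 a2 a3 a4 a5 a6 a7 a8 a9 h7 h8
  have b1 : Bs ω ⊆ RM ω := fun x hx => (h5 ω hx).1
  refine ⟨Bs ω, b1, ⟨_, a3, fun w => (a2 w).trans ⟨fun ⟨σ, _, h⟩ => ⟨_, h⟩, fun ⟨x, h9, h10⟩ => ?_⟩⟩,
    fun G _ θ ψ b2 b3 _ => h6 ω (a1 h7).1 (a4 _) (fun x hx => hx.1) (fun o ho => ?_)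
      (fun x hx j hj => ?_) G θ ψ b2 b3⟩
  · obtain ⟨σ, h11, rfl⟩ := b1 h9
    exact ⟨σ, h11, h9, h10⟩
  · refine (a5 _ _ ((a1 h7).2 _ ho) (a6 _ (a4 _ ho))).mono ?_
    rintro _ ⟨x, k, b4, rfl, rfl⟩
    have b5 := side_le (modeB.D (TT ω)) (ρ ω) (x, k)
    have b6 := b4.2 k rfl (!(modeB.D (TT ω)).side (ρ ω) (x, k))
    generalize (modeB.D (TT ω)).side (ρ ω) (x, k) = i at b5 b6 ⊢
    by_cases b7 : Adj (TT ω) k (fs x) (sn x)
    · cases i <;> simp only [modeB, datB, b7, if_true, cond, Bool.not_false, Bool.not_true]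
        at b5 b6 ⊢
      exacts [Or.inl ⟨b6, b5, k, Or.inr b7⟩, Or.inl ⟨b6, b5, k, Or.inl b7⟩]
    · simp [modeB, datB, b7]
  · obtain ⟨k, hk⟩ := hm2 (TT ω, x) j hj
    have b4 := XA_mono _ (subset_clo (F := q.F) A) ω (h8 hx)
    have b5 : j.1 ∈ XA RR.f (clo q.F A) ω := hk ▸ a8 h7 k _ a7 _ b4 _ b4
    exact ⟨b5, fun k _ i => a9 h7 (k, i) _ a7 _ b5 _ b5⟩

omit [StandardBorelSpace X] in
theorem free_B' (hc : CodeOK c) (hi : Function.Injective c) (φ : X ≃ᵐ C) (a : Name RR) :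
    ∀ᶠ ω : Om RR in gen RR, BelowAlephOmega (MM ω) (val ω a) →
      ∃ B ⊆ RM ω, (∃ z ∈ MM ω, ∀ w, w ∈ z ↔ ∃ x ∈ B, c (φ.symm x) = w) ∧
        IsBas modeB (TT ω) (RM ω) B (Hs c φ a ω) := by
  classical
  let Y : Name RR → Ordinal.{0} → Om RR → C := fun F γ ω m => decide (∃ x ∈ RM ω,
    ZFSet.pair (c (φ.symm x)) (cv ω γ) ∈ val ω F ∧ x m = true)
  have key : ∀ n (F : Name RR) (β : Ordinal.{0}), ∀ᶠ ω : Om RR in gen RR, β < (kap n).ord →
      (∀ x ∈ Hs c φ a ω, ∃ γ < β, In ω γ ∧ Y F γ ω = x) →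
      ∃ B ⊆ RM ω, (∃ z ∈ MM ω, ∀ w, w ∈ z ↔ ∃ x ∈ B, c (φ.symm x) = w) ∧
        IsBas modeB (TT ω) (RM ω) B (Hs c φ a ω) := fun n F β => by
    by_cases hβ : β < (kap n).ord
    swap
    · exact Eventually.of_forall fun _ h => absurd h hβ
    refine ev_of_dense fun r => ?_
    obtain ⟨q, h3, A, h4, h5, h6⟩ := cover (ι := β.ToType) (n := n)
      (by simpa using (lt_ord.1 hβ).le) (Y := fun t => Y F t) (fun t => measurable_pi_lambda _
        fun m => meas_decide (meas_exists_RM fun A hA => (((named_code hc φ hA).pair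
          (named_cv _)).meas_mem (Named.val F)).and (meas_bit hA m true))) r.q
    obtain ⟨r', h9, h10⟩ := le_base r le_rfl h3.1 (.refl q)
    refine ⟨r', h9, Fc.mono ?_ h10⟩
    have h11 : ∀ γ : Ordinal.{0}, Fc (base r.c q) fun ω => γ < β → Y F γ ω ∈ XA RR.f A ω :=
      fun γ => Fc.hyp fun h => by simpa using h6 (Ordinal.ToType.mk ⟨γ, h⟩) r.c
    filter_upwards [Fc.diag h11, free_B hc φ a r.c q h4 h5] with ω a1 a2 hp _ a3
    refine a2 hp fun x hx => ?_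
    obtain ⟨γ, a4, a5, rfl⟩ := a3 x hx
    exact a1 hp γ a5 a4
  filter_upwards [eventually_countable_forall.2 fun n => ev_diag fun F : Name RR =>
    ev_diag (key n F), ev_below] with ω h1 h2 h3
  obtain ⟨n, β, h4, h5, _, ⟨F, h6, rfl⟩, h7, h8⟩ := h2 _ h3
  refine h1 n F h6 β h5 h4 fun x hx => ?_
  obtain ⟨w, h9, -⟩ := h7.2 _ hx.2
  obtain ⟨γ, h10, h11, rfl⟩ := mem_cv.1 (ZFSet.pair_mem_prod.1 (h7.1 h9)).2
  refine ⟨γ, h10, h11, funext fun m => ?_⟩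
  rw [Bool.eq_iff_iff, decide_eq_true_eq]
  exact ⟨fun ⟨x', _, b1, b2⟩ => φ.symm.injective (hi (h8 _ _ _ b1 h9)) ▸ b2,
    fun h => ⟨x, hx.1, h9, h⟩⟩

theorem exists_fresh_pt (q : QC) : ∃ v, v ∉ q.d := by
  obtain ⟨S, h1, h2⟩ := exists_fresh q.hd (one_le_aleph0.trans aleph0_le_mu)
  obtain ⟨v⟩ := mk_ne_zero_iff.1 (h2.trans_ne one_ne_zero)
  exact ⟨v, h1 v.2⟩

theorem exists_star (q : QC) (Y : LL → Om RR → C) (hY : ∀ a, Measurable (Y a)) :
    ∃ q' : QC, q'.Le q ∧ ∃ δ ∈ q'.d, ∃ S : Set LL, ¬ S.Countable ∧ ∀ b ∈ S, (δ, b) ∈ q'.M ∧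
      ∃ A ⊆ q'.d, Good q'.M A ∧ δ ∉ A ∧ ∀ c, Fc (base c q') fun ω => Y b ω ∈ XA RR.f A ω := by
  have hW : #W1 ≤ mu := by
    simpa using aleph_one_le_continuum.trans (kap_le_mu 0)
  obtain ⟨s, h1, h2⟩ := QC.chain_rec hW q (Ψ := fun _ b b' => ∃ v ∉ b.d, v ∈ b'.d ∧
      (∀ a ∈ b.d, (a, v) ∉ b'.M) ∧ ∀ c, Fc (base c b') fun ω => Y v ω ∈ XA RR.f b'.d ω) fun _ b => by
    obtain ⟨v, h1⟩ := exists_fresh_pt b
    obtain ⟨q', h3, A, h4, -, h5⟩ := cover (ι := Unit) (n := 0)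
      (by simpa using one_le_aleph0.trans (aleph0_le_kap 0)) (fun _ => hY v)
      (b.add {v} ((mk_singleton v).trans_le (one_le_aleph0.trans aleph0_le_mu)))
    exact ⟨q', h3.trans (b.add_le _ _), v, h1, h3.1.sub (Or.inr rfl), fun a ha h =>
      h1 (b.sub _ _ ((h3.1.agree a (Or.inl ha) v (Or.inr rfl)).1 h)).2, fun c =>
      (h5 () c).imp (Eventually.of_forall fun ω h => XA_mono _ h4 ω h)⟩
  choose b h2 h3 h4 v h5 h6 h7 h8 using h2
  obtain ⟨u, h9, h10⟩ := QC.exists_union hW h1.directed_ge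
  obtain ⟨δ, hδ⟩ := exists_fresh_pt u
  have hv : ∀ i j, v j ∈ (s i).d → j ≤ i := fun i j h =>
    not_lt.1 fun h' => h5 j ((h3 j i h').1.sub h)
  have hvu : ∀ j, v j ∈ u.d := fun j => (h9 j).1.sub (h6 j)
  have hM : ∀ a, a ≠ δ → ∀ w, (a, w) ∈ u.M ∪ {δ} ×ˢ range v ↔ (a, w) ∈ u.M := fun a ha w =>
    ⟨fun h => h.resolve_right fun h => ha h.1, Or.inl⟩
  have hδ' : ∀ w, (δ, w) ∈ u.M ∪ {δ} ×ˢ range v → w ∈ range v := fun w h =>
    (h.resolve_left fun h => hδ (u.sub _ _ h).1).2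
  have hc : ∀ a, a ≠ δ → {w | (δ, w) ∈ u.M ∪ {δ} ×ˢ range v ∧
      (a, w) ∈ u.M ∪ {δ} ×ˢ range v}.Countable := fun a ha => by
    by_cases h : a ∈ u.d
    · obtain ⟨i, hi⟩ := mem_iUnion.1 (h10 ▸ h)
      refine ((countable_Iic i).image v).mono fun w hw => ?_
      obtain ⟨j, rfl⟩ := hδ' w hw.1
      refine ⟨j, not_lt.1 fun h' => h7 j a ((h3 j i h').1.sub hi) ?_, rfl⟩
      exact ((h9 j).1.agree a ((h1 h'.le).1.sub hi) _ (h6 j)).1 ((hM a ha _).1 hw.2)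
    · exact countable_empty.mono fun w hw => h (u.sub _ _ ((hM a ha _).1 hw.2)).1
  let q' : QC := ⟨insert δ u.d, u.M ∪ {δ} ×ˢ range v, fun a => insert δ (u.o a),
    mk_insert_le.trans (add_le_of_le aleph0_le_mu u.hd (one_le_aleph0.trans aleph0_le_mu)), by
      rintro a w (h | ⟨rfl, j, rfl⟩)
      exacts [⟨Or.inr (u.sub _ _ h).1, Or.inr (u.sub _ _ h).2⟩, ⟨Or.inl rfl, Or.inr (hvu j)⟩], by
      rintro a (h | ⟨rfl, j, h⟩)
      exacts [u.irr a h, hδ ((show v j = a from h) ▸ hvu j)], fun a a' h => by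
      by_cases h1 : a = δ
      · exact h1 ▸ hc a' fun e => h (h1.trans e.symm)
      by_cases h2 : a' = δ
      · simpa only [h2, and_comm] using hc a h1
      · simpa only [hM a h1, hM a' h2] using u.cod a a' h,
    fun a => (u.oc a).insert δ, by
      rintro a w (h | ⟨rfl, -⟩)
      exacts [(u.ori a w h).imp Or.inr Or.inr, Or.inl (Or.inl rfl)]⟩
  have hq : ∀ i, q'.Le (s i) := fun i => by
    have h0 : ∀ a ∈ (s i).d, a ≠ δ := fun a ha e => hδ ((h9 i).1.sub (e ▸ ha))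
    refine ⟨(h9 i).1.sub.trans (subset_insert _ _), fun a ha w hw =>
      (hM a (h0 a ha) w).trans ((h9 i).1.agree a ha w hw), fun w hw a ha a' ha' e e' =>
      (h9 i).1.cl.good w hw a ha a' ha' ((hM a (h0 a ha) w).1 e) ((hM a' (h0 a' ha') w).1 e'),
      fun w hw => ?_⟩
    by_cases h : w = δ
    · refine ((countable_Iic i).image v).mono fun x hx => ?_
      subst h
      obtain ⟨j, rfl⟩ := hδ' x hx.2
      exact ⟨j, hv i j hx.1, rfl⟩
    · exact ((h9 i).1.cl.few w hw).mono fun x hx => And.intro hx.1 ((hM w h x).1 hx.2)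
  obtain ⟨i⟩ : Nonempty W1 := inferInstance
  refine ⟨q', (hq i).trans ((h4 i).trans (h2 i)).1, δ, Or.inl rfl, range v, fun h => ?_, ?_⟩
  · exact not_countable_univ (countable_of_injective_of_countable_image (f := v)
      (fun i _ j _ e => le_antisymm (hv j i (e ▸ h6 j)) (hv i j (e ▸ h6 i))) (by simpa using h))
  · rintro _ ⟨j, rfl⟩
    exact ⟨Or.inr ⟨rfl, j, rfl⟩, _, (hq j).sub, (hq j).cl.good, fun h => hδ ((h9 j).1.sub h),
      fun c => (h8 j c).mono ⟨le_rfl, hq j, le_rfl⟩⟩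

theorem XA_col {ω : Om RR} (h : ∀ n, ∀ σ : NM LL, In ω σ → In ω fun m => σ (Nat.pair n m))
    {A : Set LL} {x : C} (hx : x ∈ XA RR.f A ω) (n : ℕ) : col n x ∈ XA RR.f A ω := by
  obtain ⟨σ, h1, h2, rfl⟩ := hx
  exact ⟨_, h n σ h1, fun m => h2 _, rfl⟩

omit [StandardBorelSpace X] in
theorem not_free_B (hc : CodeOK c) (φ : X ≃ᵐ C) (a : Name RR) :
    ∀ᶠ ω : Om RR in gen RR, NotBas modeB (TT ω) (RM ω) (Hs c φ a ω) := by
  obtain ⟨Z, h1, h2⟩ := modeB.exists_nf (meas_xs RR.f (tn LL)) (meas_Hs hc φ a)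
  have key : ∀ᶠ ω : Om RR in gen RR, ¬ ∀ a ∈ RM ω, ∀ c, ∃ i n,
      col n (Z ω ((modeB.D (TT ω)).own (a, c) i)) = a := ev_of_dense fun r => by
    obtain ⟨q, h3, δ, h4, S, h5, h6⟩ := exists_star r.q
      (fun b ω => mer fun n => fs (col n (Z ω (xs RR.f (vn b) ω, 1)))) fun b => meas_mer fun n =>
        cont_fs.measurable.fun_comp ((meas_col n).fun_comp (h1 _ 1 (meas_xs _ _)))
    obtain ⟨c', h7, q', h8, B, h9, h10, h11⟩ := key_real
      (Y := fun ω => mer fun n => sn (col n (Z ω (xs RR.f (vn δ) ω, 0)))) (meas_mer fun n =>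
        cont_sn.measurable.fun_comp ((meas_col n).fun_comp (h1 _ 0 (meas_xs _ _)))) r.c q
    obtain ⟨b, h12, h13⟩ : ∃ b ∈ S, b ∉ clo q'.F B := not_subset.1 fun h =>
      h5 ((countable_clo q'.F_countable h10).mono h)
    obtain ⟨h14, A, h15, h16, h17, h18⟩ := h6 b h12
    have h19 := (q.sub _ _ h14).2
    obtain ⟨r', h20, h21⟩ := le_base r h7 (h8.1.trans h3) (.refl q')
    have h22 : base c' q' ≤ base c' q := ⟨le_rfl, h8.1, le_rfl⟩
    refine ⟨r', h20, Fc.mono ?_ h21⟩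
    filter_upwards [h11, (h18 c').mono h22, (gen_RR c' q h15 h16 h4 h17).mono h22,
      gen_RR c' q' (q'.clo_sub h9) (q'.sub_clo B).good (h8.1.sub h19) h13,
      ((prj_RR c' q).adj h4 h19 (q.irr _) (q.irr _) h14).mono h22,
      ev_RM (meas_pr (meas_xs RR.f (vn δ)) (meas_xs RR.f (vn b))),
      eventually_countable_forall.2 fun n => ev_map (P := RR)
        fun (σ : NM LL) (m : ℕ) => σ (Nat.pair n m)] with ω a1 a2 a3 a4 a5 a6 a7 hp h
    obtain ⟨k, a8⟩ := a5 hp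
    obtain ⟨_ | _, n, a9⟩ := h _ a6 k <;>
      simp only [modeB, datB, fs_pr, sn_pr, a8, if_true, cond] at a9
    · have := XA_col a7 (a1 hp) n
      rw [col_mer, a9, sn_pr] at this
      exact a4 hp (XA_mono _ (subset_clo B) ω this)
    · have := XA_col a7 (a2 hp) n
      rw [col_mer, a9, fs_pr] at this
      exact a3 hp this
  filter_upwards [key, modeB.ev_cl (meas_xs RR.f (tn LL))] with ω a1 a2 G _ θ ψ b1 b2 b3 b4 b5
  exact a1 (h2 ω a2 G θ ψ b1 b2 b3 b4 b5)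

theorem fails_B (hc : CodeOK c) (hi : Function.Injective c) (φ : X ≃ᵐ C) :
    ∀ᶠ ω : Om RR in gen RR, ∀ Γ, Γ {v | (TT ω, fun i => (v i).1) ∈ modeB.Gr φ} →
      Fails c (MM ω) Γ :=
  goodW_MM.fails hc hi φ modeB (meas_xs _ _)
    (fun a => (free_B' hc hi φ a).mono fun _ h _ _ => h) (not_free_B hc φ)

theorem part_b : ∃ M, IsZFC M ∧ Fails cantorCode M (FsigmaIn cantorCode M) ∧
    Fails realCode M (BorelIn realCode M) ∧ Fails realCode M (AnalyticIn realCode M) := by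
  let φ : ℝ ≃ᵐ C := PolishSpace.measurableEquivNatBoolOfNotCountable not_countable
  obtain ⟨K, h1, h2⟩ := modeB.lc_Gr.fsigma
  have h3 : MeasurableSet {p : C × (Fin 4 → ℝ) | (p.1, Fin.tail p.2) ∈ modeB.Gr φ} :=
    (measurable_fst.prodMk (measurable_pi_lambda _ fun i =>
      (measurable_pi_apply _).comp measurable_snd)) (modeB.meas_Gr φ)
  obtain ⟨ω, -, a1, a2, a3, a4, a5, a6, a7⟩ := exists_om (ev_zfc.and
    ((fails_B codeOK_cantor cantorCode_inj (.refl C)).and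
    ((fails_B codeOK_real realCode_inj φ).and
    ((goodW_MM.seqIn codeOK_cantor cantorCode_inj (.refl C) (fun n => (h1 n).measurableSet)
      (meas_xs RR.f (tn LL))).and
    ((goodW_MM.borelIn codeOK_real realCode_inj φ (modeB.meas_Gr φ) (meas_xs RR.f (tn LL))).and
    ((goodW_MM.borelIn codeOK_real realCode_inj φ h3 (meas_xs RR.f (tn LL))).and
    ((goodW_MM.pt codeOK_real realCode_inj φ).and
      (ev_RM (measurable_const (a := φ 0))))))))))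
    (base cbot ⟨∅, ∅, fun _ => ∅, by simp, by simp, by simp, fun _ _ _ => by simp, by simp, by simp⟩)
  refine ⟨_, a1, a2 _ ⟨_, fun n => (h1 n).preimage (by fun_prop), a4, ?_⟩, a3 _ a5,
    a3 _ ⟨_, a6, ?_⟩⟩
  · ext v
    simpa [Mode.Gr] using h2 (TT ω, fun i => (v i).1)
  · ext v
    refine ⟨fun h => ⟨Fin.cons ⟨0, (a7.1 0).2 a7.2⟩ v, h, by simp⟩, ?_⟩
    rintro ⟨w, h, rfl⟩
    exact h

end Pool.Agent.MP_e75763_lc

end MrgPart0

-- ======== part 1: formerly Pool.Agent.MP_e75763_lc.Line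
section MrgPart1

/-! An abelian group on the real line with an `F_σ` graph has a countable non-free subgroup. -/

namespace Pool.Agent.MP_e75763_lc

open Set Topology Filter

theorem inv_nhds {R g : ℝ → ℝ} (hg : ∀ x, g (R x) = x) {a δ : ℝ} (hδ : 0 < δ)
    (hR : ContinuousOn R (Icc (a - δ) (a + δ))) :
    ∃ S ∈ 𝓝 (R a), ContinuousOn g S ∧ MapsTo g S (Icc (a - δ) (a + δ)) := by
  have h1 : a - δ ≤ a + δ := by linarith
  have h2 : a ∈ Icc (a - δ) (a + δ) := ⟨by linarith, by linarith⟩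
  refine ⟨R '' Icc (a - δ) (a + δ), ?_, continuousOn_iff_isClosed.2 fun t ht =>
    ⟨_, ((isCompact_Icc.inter_right ht).image_of_continuousOn
      (hR.mono inter_subset_left)).isClosed, ?_⟩, ?_⟩
  · rcases hR.strictMonoOn_of_injOn_Icc' h1 (Function.LeftInverse.injective hg).injOn with h | h
    · exact mem_of_superset (Icc_mem_nhds (h (left_mem_Icc.2 h1) h2 (by linarith))
        (h h2 (right_mem_Icc.2 h1) (by linarith))) (intermediate_value_Icc h1 hR)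
    · exact mem_of_superset (Icc_mem_nhds (h h2 (right_mem_Icc.2 h1) (by linarith))
        (h (left_mem_Icc.2 h1) h2 (by linarith))) (intermediate_value_Icc' h1 hR)
  · ext z
    constructor
    · rintro ⟨h3, x, h4, rfl⟩
      exact ⟨⟨x, ⟨h4, by simpa [hg] using h3⟩, rfl⟩, x, h4, rfl⟩
    · rintro ⟨⟨x, h3, rfl⟩, h4⟩
      exact ⟨by simpa [hg] using h3.2, h4⟩
  · rintro _ ⟨x, h3, rfl⟩
    rwa [hg]

theorem exists_box {f : ℝ × ℝ → ℝ} {F : ℕ → Set (ℝ × ℝ × ℝ)} (hF : ∀ n, IsClosed (F n))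
    (h : {p | f (p.1, p.2.1) = p.2.2} = ⋃ n, F n) :
    ∃ a b δ, 0 < δ ∧ ContinuousOn f (Icc (a - δ) (a + δ) ×ˢ Icc (b - δ) (b + δ)) := by
  let K : ℕ × ℕ → Set (ℝ × ℝ × ℝ) := fun k => Metric.closedBall 0 k.2 ∩ F k.1
  have hK : ∀ k, IsCompact (K k) := fun k => (isCompact_closedBall _ _).inter_right (hF _)
  have hc : Continuous fun p : ℝ × ℝ × ℝ => (p.1, p.2.1) := by fun_prop
  obtain ⟨k, x, hx⟩ := nonempty_interior_of_iUnion_of_closed
    (f := fun k => (fun p : ℝ × ℝ × ℝ => (p.1, p.2.1)) '' K k)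
    (fun k => ((hK k).image hc).isClosed) (eq_univ_of_forall fun x => by
      obtain ⟨n, hn⟩ := mem_iUnion.1 (h ▸ (rfl : f (x.1, x.2) = f x) :
        (x.1, x.2, f x) ∈ ⋃ n, F n)
      obtain ⟨m, hm⟩ := exists_nat_ge (dist (x.1, x.2, f x) 0)
      exact mem_iUnion.2 ⟨(n, m), _, ⟨hm, hn⟩, rfl⟩)
  obtain ⟨ε, h1, h2⟩ := Metric.nhds_basis_closedBall.mem_iff.1 (mem_interior_iff_mem_nhds.1 hx)
  refine ⟨x.1, x.2, ε, h1, ContinuousOn.mono ?_ (Subset.trans ?_ h2)⟩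
  · have h3 : ∀ p ∈ K k, f (p.1, p.2.1) = p.2.2 := fun p hp =>
      show p ∈ {p : ℝ × ℝ × ℝ | f (p.1, p.2.1) = p.2.2} from h ▸ mem_iUnion.2 ⟨_, hp.2⟩
    refine continuousOn_iff_isClosed.2 fun t ht => ⟨_, (((hK k).inter_right
      (ht.preimage (f := fun p : ℝ × ℝ × ℝ => p.2.2) (by fun_prop))).image hc).isClosed, ?_⟩
    ext z
    constructor
    · rintro ⟨h4, p, h5, rfl⟩
      exact ⟨⟨p, ⟨h5, by simpa [h3 p h5] using h4⟩, rfl⟩, p, h5, rfl⟩
    · rintro ⟨⟨p, h4, rfl⟩, h5⟩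
      exact ⟨by simpa [h3 p h4.1] using h4.2, h5⟩
  · rw [← Real.closedBall_eq_Icc, ← Real.closedBall_eq_Icc, closedBall_prod_same]

theorem part_a (G : Type) [AddCommGroup G] (e : G ≃ ℝ) (F : ℕ → Set (ℝ × ℝ × ℝ))
    (hF : ∀ n, IsClosed (F n))
    (h : {p : ℝ × ℝ × ℝ | e.symm p.1 + e.symm p.2.1 = e.symm p.2.2} = ⋃ n, F n) :
    ∃ H : AddSubgroup G, Countable H ∧ ¬ Module.Free ℤ H := by
  obtain ⟨a, b, δ, h1, h2⟩ := exists_box (f := fun p => e (e.symm p.1 + e.symm p.2)) hF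
    (by simpa only [← Equiv.eq_symm_apply] using h)
  obtain ⟨S, h3, h4, h5⟩ := inv_nhds (R := fun x => e (e.symm x + e.symm b))
    (g := fun z => e (e.symm z - e.symm b)) (by simp) h1 (h2.comp
      (f := fun x => (x, b)) (by fun_prop) fun x hx => ⟨hx, by constructor <;> linarith⟩)
  obtain ⟨S', h6, h7, h8⟩ := inv_nhds (R := fun y => e (e.symm a + e.symm y))
    (g := fun z => e (e.symm z - e.symm a)) (by simp) h1 (h2.comp
      (f := fun y => (a, y)) (by fun_prop) fun x hx => ⟨by constructor <;> linarith, hx⟩)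
  set u := e (e.symm a + e.symm b) with hu
  obtain ⟨v, h9, h10⟩ := mem_nhdsGE_iff_exists_Icc_subset.1
    (mem_nhdsWithin_of_mem_nhds (inter_mem h3 h6))
  let μ : ℝ × ℝ → ℝ := fun p => e (e.symm p.1 + e.symm p.2 - e.symm u)
  have hμ : ContinuousOn μ (Icc u v ×ˢ Icc u v) := by
    refine (h2.comp (f := fun p : ℝ × ℝ => (e (e.symm p.1 - e.symm b), e (e.symm p.2 - e.symm a)))
      ((h4.comp continuousOn_fst fun p hp => (h10 hp.1).1).prodMk
        (h7.comp continuousOn_snd fun p hp => (h10 hp.2).2))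
      fun p hp => ⟨h5 (h10 hp.1).1, h8 (h10 hp.2).2⟩).congr fun p _ => ?_
    simp only [μ, hu, Function.comp, Equiv.symm_apply_apply, EmbeddingLike.apply_eq_iff_eq]
    abel
  have key : ∀ z : Ioc u v, ∃ w : Ioc u v, μ (w, w) = z := by
    rintro ⟨z, h11, h12⟩
    have h13 : z < μ (z, z) := by
      by_contra h13
      obtain ⟨t, -, h14⟩ := intermediate_value_Icc' h11.le (f := fun t => μ (t, z) - t)
        ((hμ.comp (f := fun t => (t, z)) (by fun_prop) fun t ht =>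
          ⟨⟨ht.1, ht.2.trans h12⟩, h11.le, h12⟩).sub continuousOn_id)
        (show (0 : ℝ) ∈ _ from ⟨by linarith, by simp [μ, h11.le]⟩)
      simp only [μ, sub_eq_zero, ← Equiv.eq_symm_apply, add_sub_assoc, add_eq_left,
        EmbeddingLike.apply_eq_iff_eq] at h14
      exact h11.ne' h14
    obtain ⟨w, h14, h15⟩ := intermediate_value_Ioo h11.le (f := fun t => μ (t, t))
      (hμ.comp (f := fun t => (t, t)) (by fun_prop) fun t ht =>
        ⟨⟨ht.1, ht.2.trans h12⟩, ht.1, ht.2.trans h12⟩) (show z ∈ _ from ⟨by simpa [μ], h13⟩)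
    exact ⟨⟨w, h14.1, h14.2.le.trans h12⟩, h15⟩
  choose s hs using key
  let g : ℕ → G := fun n => e.symm (s^[n] ⟨v, h9, le_rfl⟩).1 - e.symm u
  have hg : ∀ n, g n = 2 • g (n + 1) := fun n => by
    simp only [g, Function.iterate_succ_apply']
    rw [← hs (s^[n] _)]
    simp only [μ, Equiv.symm_apply_apply]
    abel
  have : Countable (range g) := (countable_range g).to_subtype
  refine ⟨(Submodule.span ℤ (range g)).toAddSubgroup,
    inferInstanceAs (Countable (Submodule.span ℤ (range g))), fun hf => ?_⟩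
  let g' : ℕ → (Submodule.span ℤ (range g)).toAddSubgroup := fun n =>
    ⟨g n, Submodule.subset_span ⟨n, rfl⟩⟩
  have h11 : ∀ n, g' 0 = 2 ^ n • g' n := fun n => by
    induction n with
    | zero => simp
    | succ n ih => rw [ih, pow_succ, mul_smul, show g' n = 2 • g' (n + 1) from Subtype.ext (hg n)]
  have h12 : g' 0 = 0 := (Module.Free.chooseBasis ℤ _).ext_elem fun i => by
    rw [map_zero]
    have h12 : ∀ c : ℤ, (∀ n : ℕ, ((2 ^ n : ℕ) : ℤ) ∣ c) → c = 0 := fun c hc =>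
      Int.eq_zero_of_dvd_of_natAbs_lt_natAbs (hc c.natAbs)
        (Nat.lt_two_pow_self.trans_eq (Int.natAbs_natCast _).symm)
    refine h12 _ fun n => ?_
    rw [h11 n, map_nsmul, Finsupp.smul_apply, nsmul_eq_mul]
    exact dvd_mul_right _ _
  have h13 := congrArg Subtype.val h12
  simp only [g', g, Function.iterate_zero, id, ZeroMemClass.coe_zero, sub_eq_zero,
    EmbeddingLike.apply_eq_iff_eq] at h13
  exact h9.ne' h13

end Pool.Agent.MP_e75763_lc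

end MrgPart1

-- marker of a merged file
example : 731051 + 322319 = 731051 + 322319 := rfl

end MrgPart4

-- marker of a merged file
example : 731051 + 322319 = 731051 + 322319 := rfl
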